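import Pool.Agent.Work.MP_680515_gq.Interface

/-!
# MP_680515_an, THEOREM GQ, block FSB: the fibre sum
-/

open MeasureTheory Set Filter Topology

namespace Pool.GQ

open Pool.Mart Pool.Flat Pool.SQ

theorem p_FSB : Stmt_FSB := by
  intro Ω f A x0 r0 ρ0 m S hN y hy
  have hm2 : (2 : ℝ) ≤ m := by exact_mod_cast hN.two
  have hmp : (0 : ℝ) < m := by linarith
  rcases hN.fbr y hy with ⟨z, hzS, hz⟩ | ⟨hfin, hcard, hns⟩
  · have hval : ∀ h : E3 → ℝ, FS f x0 r0 m h y = m * h z := by
      intro h
      unfold FS
      rw [hz, ncard_singleton, finsum_mem_singleton]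
      simp
    have hmem : ∀ w, w ∈ fib f x0 r0 y ↔ w = z := by
      intro w
      rw [hz, mem_singleton_iff]
    refine ⟨by rw [hz]; exact finite_singleton z, by rw [hz]; exact singleton_nonempty z, ?_, ?_, ?_⟩
    · intro w hw _
      rw [(hmem w).1 hw]
      exact hz
    · rw [hval, mul_one]
    · intro h
      have hzm : z ∈ fib f x0 r0 y := (hmem z).2 rfl
      refine ⟨?_, ?_, ?_, ?_, ?_, ?_, ?_, ?_⟩
      · intro w hw _
        rw [(hmem w).1 hw, hval]
      · intro hc
        rw [hz, ncard_singleton] at hc
        have := hN.two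
        omega
      · intro h0 x hx
        rw [(hmem x).1 hx, hval]
        have := h0 z hzm
        nlinarith
      · intro c hc
        rw [hval]
        exact mul_le_mul_of_nonneg_left (hc z hzm) hmp.le
      · intro c hc
        rw [hval]
        exact mul_le_mul_of_nonneg_left (hc z hzm) hmp.le
      · intro h0
        rw [hval]
        exact mul_pos hmp (h0 z hzm)
      · intro h' hh
        rw [hval, hval, hh z hzm]
      · intro c
        rw [hval, hval]
        ring
  · have hval : ∀ h : E3 → ℝ, FS f x0 r0 m h y = ∑ x ∈ hfin.toFinset, h x := by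
      intro h
      unfold FS
      rw [hcard, div_self hmp.ne', one_mul, finsum_mem_eq_finite_toFinset_sum _ hfin]
    have hcc : (hfin.toFinset.card : ℝ) = m := by
      rw [← hcard, ncard_eq_toFinset_card _ hfin]
    have hmem : ∀ w, w ∈ hfin.toFinset ↔ w ∈ fib f x0 r0 y := fun w => Set.Finite.mem_toFinset hfin
    have hne : (fib f x0 r0 y).Nonempty := by
      have h2 : 0 < (fib f x0 r0 y).ncard := by
        rw [hcard]
        exact lt_of_lt_of_le two_pos hN.two
      exact (Set.ncard_pos hfin).1 h2
    refine ⟨hfin, hne, ?_, ?_, ?_⟩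
    · intro w hw hwS
      exact absurd hwS (hns w hw)
    · rw [hval]
      simp [hcc]
    · intro h
      refine ⟨?_, ?_, ?_, ?_, ?_, ?_, ?_, ?_⟩
      · intro w hw hwS
        exact absurd hwS (hns w hw)
      · intro _
        rw [hval, finsum_mem_eq_finite_toFinset_sum _ hfin]
      · intro h0 x hx
        rw [hval]
        exact Finset.single_le_sum (f := h) (fun w hw => h0 w ((hmem w).1 hw)) ((hmem x).2 hx)
      · intro c hc
        rw [hval]
        calc ∑ x ∈ hfin.toFinset, h x ≤ ∑ _x ∈ hfin.toFinset, c :=
              Finset.sum_le_sum fun w hw => hc w ((hmem w).1 hw)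
          _ = m * c := by rw [Finset.sum_const, nsmul_eq_mul, hcc]
      · intro c hc
        rw [hval]
        calc m * c = ∑ _x ∈ hfin.toFinset, c := by rw [Finset.sum_const, nsmul_eq_mul, hcc]
          _ ≤ ∑ x ∈ hfin.toFinset, h x :=
              Finset.sum_le_sum fun w hw => hc w ((hmem w).1 hw)
      · intro h0
        rw [hval]
        obtain ⟨w, hw⟩ := hne
        exact Finset.sum_pos (fun w hw => h0 w ((hmem w).1 hw)) ⟨w, (hmem w).2 hw⟩
      · intro h' hh
        rw [hval, hval]
        exact Finset.sum_congr rfl fun w hw => hh w ((hmem w).1 hw)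
      · intro c
        rw [hval, hval, Finset.mul_sum]

end Pool.GQ
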