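import Pool.Agent.Work.MP_680515_gq.Interface
import Pool.Agent.Work.MP_680515_sq.B_T1B

/-!
# MP_680515_an, THEOREM GQ, block G1B: the upper bound for the first integral (helper48)
-/

set_option autoImplicit false

open MeasureTheory Set Filter Topology

namespace Pool.GQ

open Pool.Mart Pool.Flat Pool.SQ

theorem p_G1B (_hGIN : Stmt_GIN) (hRINT : Pool.Mart.Stmt_RINT) (hCPT : Stmt_CPT) : Stmt_G1B := by
  intro Ω f A x0 r0 ρ0 m S hNP κ t1 t2 Λ p1 p2 _hκc hκ01 ht1 ht12 ht2 hts hΛ hp1 hp2 hring0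
  obtain ⟨-, -, -, -, -, hpre, -⟩ := hCPT Ω f A x0 r0 ρ0 m S hNP
  have hq1 : 0 < ‖p1 - x0‖ := norm_pos_iff.2 (sub_ne_zero.2 hp1)
  have hq2 : 0 < ‖p2 - x0‖ := norm_pos_iff.2 (sub_ne_zero.2 hp2)
  have hΛ0 : 0 < Λ := by linarith
  set ρ1 : ℝ := ‖p1 - x0‖ / Λ with hρ1
  set ρ2 : ℝ := Λ * ‖p2 - x0‖ with hρ2
  have hρ1p : 0 < ρ1 := div_pos hq1 hΛ0
  have hρ2p : 0 < ρ2 := mul_pos hΛ0 hq2
  have hring : ∀ x ∈ Metric.ball x0 r0, t1 ≤ ‖f x - f x0‖ → ‖f x - f x0‖ ≤ t2 →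
      ρ1 ≤ ‖x - x0‖ ∧ ‖x - x0‖ ≤ ρ2 := by
    intro x hx h1 h2
    obtain ⟨h3, h4⟩ := hring0 x hx h1 h2
    exact ⟨by rw [hρ1, div_le_iff₀ hΛ0]; linarith, h4⟩
  have h12 : ρ1 ≤ ρ2 := by
    have hn : ‖(f x0 + t1 • (EuclideanSpace.single 0 (1 : ℝ) : E3)) - f x0‖ = t1 := by
      rw [add_sub_cancel_left, norm_smul, EuclideanSpace.norm_single]
      simp [abs_of_pos ht1]
    obtain ⟨p, hp, hpe⟩ := hpre (f x0 + t1 • (EuclideanSpace.single 0 (1 : ℝ) : E3)) (by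
      rw [mem_ball_iff_norm, hn]
      exact ht12.trans ht2)
    have := hring p hp (by rw [hpe, hn]) (by rw [hpe, hn]; exact ht12.le)
    exact this.1.trans this.2
  have hlog : Real.log (ρ2 / ρ1) = Real.log (‖p2 - x0‖ / ‖p1 - x0‖) + 2 * Real.log Λ := by
    have : ρ2 / ρ1 = (‖p2 - x0‖ / ‖p1 - x0‖) * (Λ * Λ) := by
      rw [hρ1, hρ2]
      field_simp
    rw [this, Real.log_mul (by positivity) (by positivity), Real.log_mul (by positivity)
      (by positivity)]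
    ring
  have key : ∀ δ : ℝ, 0 < δ → δ < 1 →
      ∫ x in Metric.ball x0 r0, κ ‖f x - f x0‖ * (‖x - x0‖ ^ 3)⁻¹
        ≤ 4 * Real.pi * (Real.log (ρ2 / ρ1) + (Real.log (1 + δ) - Real.log (1 - δ))) := by
    intro δ hδ hδ1
    set a : ℝ := (1 - δ) * ρ1 with ha
    set b : ℝ := (1 + δ) * ρ2 with hb
    have ha0 : 0 < a := mul_pos (by linarith) hρ1p
    have ha1 : a < ρ1 := by rw [ha]; nlinarith
    have hb1 : ρ2 < b := by rw [hb]; nlinarith
    have hb0 : 0 < b := by linarith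
    have hcont : Continuous (fun x : E3 => T1B_h a ρ1 ρ2 b ‖x‖) :=
      (T1B_hc ha0).comp continuous_norm
    have hcs : HasCompactSupport (fun x : E3 => T1B_h a ρ1 ρ2 b ‖x‖) := by
      apply HasCompactSupport.of_support_subset_isCompact (isCompact_closedBall (0 : E3) b)
      intro x hx
      have := T1B_hsupp ha1 hb1 (subset_tsupport _ hx)
      rw [mem_closedBall_zero_iff]
      exact this.2
    have hint : Integrable (fun x : E3 => T1B_h a ρ1 ρ2 b ‖x‖) := hcont.integrable_of_hasCompactSupport hcs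
    have hint' : Integrable (fun x : E3 => T1B_h a ρ1 ρ2 b ‖x - x0‖) := hint.comp_sub_right x0
    have h1 : ∫ x in Metric.ball x0 r0, κ ‖f x - f x0‖ * (‖x - x0‖ ^ 3)⁻¹
        ≤ ∫ x in Metric.ball x0 r0, T1B_h a ρ1 ρ2 b ‖x - x0‖ := by
      apply integral_mono_of_nonneg
      · exact Eventually.of_forall fun x => mul_nonneg (hκ01 _).1 (by positivity)
      · exact hint'.integrableOn
      · rw [EventuallyLE, ae_restrict_iff' measurableSet_ball]
        refine Eventually.of_forall fun x hx => ?_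
        by_cases hk : κ ‖f x - f x0‖ = 0
        · rw [hk, zero_mul]
          exact T1B_h0 ha0 _
        · have h2 := hts (subset_tsupport κ hk)
          obtain ⟨h3, h4⟩ := hring x hx h2.1 h2.2
          unfold T1B_h
          rw [T1B_t1 ha1 hb1 _ h3 h4, one_mul, max_eq_left (by linarith)]
          have h5 : 0 ≤ (‖x - x0‖ ^ 3)⁻¹ := by positivity
          nlinarith [(hκ01 ‖f x - f x0‖).2]
    have h2 : ∫ x in Metric.ball x0 r0, T1B_h a ρ1 ρ2 b ‖x - x0‖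
        ≤ ∫ x : E3, T1B_h a ρ1 ρ2 b ‖x - x0‖ :=
      setIntegral_le_integral hint' (Eventually.of_forall fun x => T1B_h0 ha0 _)
    have h3 : ∫ x : E3, T1B_h a ρ1 ρ2 b ‖x - x0‖ = ∫ x : E3, T1B_h a ρ1 ρ2 b ‖x‖ :=
      integral_sub_right_eq_self (fun x : E3 => T1B_h a ρ1 ρ2 b ‖x‖) x0
    have h4 := hRINT (T1B_h a ρ1 ρ2 b) 0 (b + 1) le_rfl (T1B_hc ha0) (T1B_hcs ha1 hb1)
      (fun r hr => by
        have := T1B_hsupp ha1 hb1 hr
        exact ⟨by linarith [this.1], by linarith [this.2]⟩)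
    have h5 := T1B_hint ha0 ha1 h12 hb1
    have h6 : Real.log (b / a) = Real.log (ρ2 / ρ1) + (Real.log (1 + δ) - Real.log (1 - δ)) := by
      rw [ha, hb, Real.log_div (by positivity) ha0.ne', Real.log_mul (by positivity) (by positivity),
        Real.log_mul (by linarith) hρ1p.ne', Real.log_div hρ2p.ne' hρ1p.ne']
      ring
    calc _ ≤ _ := h1
      _ ≤ _ := h2
      _ = 4 * Real.pi * ∫ r, T1B_h a ρ1 ρ2 b r * r ^ 2 := by rw [h3, h4]
      _ ≤ 4 * Real.pi * Real.log (b / a) :=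
        mul_le_mul_of_nonneg_left h5 (by positivity)
      _ = _ := by rw [h6]
  rw [← hlog]
  have hlim : Tendsto (fun δ : ℝ => 4 * Real.pi * (Real.log (ρ2 / ρ1) +
      (Real.log (1 + δ) - Real.log (1 - δ)))) (𝓝[>] 0) (𝓝 (4 * Real.pi * (Real.log (ρ2 / ρ1) +
      (Real.log (1 + 0) - Real.log (1 - 0))))) := by
    apply Tendsto.mono_left _ nhdsWithin_le_nhds
    apply ContinuousAt.tendsto (f := fun δ : ℝ => 4 * Real.pi * (Real.log (ρ2 / ρ1) +
      (Real.log (1 + δ) - Real.log (1 - δ))))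
    have c1 : ContinuousAt (fun δ : ℝ => Real.log (1 + δ)) 0 :=
      ContinuousAt.log (by fun_prop) (by norm_num)
    have c2 : ContinuousAt (fun δ : ℝ => Real.log (1 - δ)) 0 :=
      ContinuousAt.log (by fun_prop) (by norm_num)
    exact continuousAt_const.mul (continuousAt_const.add (c1.sub c2))
  have hlim' := ge_of_tendsto hlim (b := ∫ x in Metric.ball x0 r0,
    κ ‖f x - f x0‖ * (‖x - x0‖ ^ 3)⁻¹) (by
      have h1 : Ioo (0 : ℝ) 1 ∈ 𝓝[>] (0 : ℝ) := Ioo_mem_nhdsGT one_pos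
      filter_upwards [h1] with δ hδ
      exact key δ hδ.1 hδ.2)
  simpa using hlim'

end Pool.GQ
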