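import Pool.Agent.Work.MP_680515_gq.Interface
import Pool.Agent.Work.MP_680515_sq.B_T2B

/-!
# MP_680515_an, THEOREM GQ: block G2B (adapted from block T2B of the folder sq)
-/

set_option autoImplicit false

open MeasureTheory Set Filter Topology

namespace Pool.GQ

open Pool.Mart Pool.Flat Pool.SQ

theorem G2B_det {Ω : Set E3} {f : E3 → E3} {A : E3 → M3} {x0 : E3} {r0 ρ0 : ℝ} {m : ℕ} {S : Set E3}
    (hB : NP Ω f A x0 r0 ρ0 m S) :
    ∀ᵐ x ∂(volume.restrict (Metric.ball x0 r0)), 0 ≤ (A x).det := by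
  have hsub : Metric.ball x0 r0 ⊆ Ω := Metric.ball_subset_closedBall.trans hB.sub
  filter_upwards [ae_restrict_of_ae_restrict_of_subset hsub hB.good] with x hx
  have h1 : 0 ≤ opn (A x) := norm_nonneg _
  have h2 : 0 ≤ opn (A x) ^ 3 := by positivity
  linarith [hx.2]

theorem G2B_mass (hW : Stmt_GWD) (hF : Stmt_FSB) (hR : Pool.Mart.Stmt_RINT) {Ω : Set E3} {f : E3 → E3}
    {A : E3 → M3} {x0 : E3} {r0 ρ0 : ℝ} {m : ℕ} {S : Set E3} (hB : NP Ω f A x0 r0 ρ0 m S) {k : ℝ → ℝ}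
    (hk : Continuous k) (hc : HasCompactSupport k) (hts : tsupport k ⊆ Ioo 0 ρ0) :
    IntegrableOn (fun x => (A x).det * (k ‖f x - f x0‖ / ‖f x - f x0‖ ^ 2))
      (Metric.ball x0 r0) ∧
    ∫ x in Metric.ball x0 r0, (A x).det *
      (k ‖f x - f x0‖ / ‖f x - f x0‖ ^ 2) = 4 * Real.pi * m * ∫ s, k s := by
  obtain ⟨h1, h2, h3⟩ := T2B_h hk hc hts
  have hcn : Continuous fun y : E3 => ‖y - f x0‖ :=
    continuous_norm.comp (continuous_id.sub continuous_const)
  have hzero : ∀ s : ℝ, s ∉ Ioo 0 ρ0 → k s / s ^ 2 = 0 := by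
    intro s hs
    by_contra hne
    exact hs (h3 (subset_tsupport _ hne))
  have hg : Continuous fun y : E3 => k ‖y - f x0‖ / ‖y - f x0‖ ^ 2 := h1.comp hcn
  have hgc : HasCompactSupport fun y : E3 => k ‖y - f x0‖ / ‖y - f x0‖ ^ 2 := by
    apply HasCompactSupport.intro (isCompact_closedBall (f x0) ρ0)
    intro y hy
    apply hzero
    intro h
    apply hy
    rw [Metric.mem_closedBall, dist_eq_norm]
    exact h.2.le
  have hgt : tsupport (fun y : E3 => k ‖y - f x0‖ / ‖y - f x0‖ ^ 2) ⊆ VD f x0 ρ0 := by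
    have hcl : IsClosed ((fun y : E3 => ‖y - f x0‖) ⁻¹' tsupport (fun s => k s / s ^ 2)) :=
      (isClosed_tsupport _).preimage hcn
    have h4 : tsupport (fun y : E3 => k ‖y - f x0‖ / ‖y - f x0‖ ^ 2) ⊆
        (fun y : E3 => ‖y - f x0‖) ⁻¹' tsupport (fun s => k s / s ^ 2) := by
      apply closure_minimal _ hcl
      intro y hy
      exact subset_tsupport _ hy
    intro y hy
    exact h3 (h4 hy)
  obtain ⟨i1, _, i3⟩ := hW Ω f A x0 r0 ρ0 m S hB (fun _ => 1)
    (fun y => k ‖y - f x0‖ / ‖y - f x0‖ ^ 2) continuousOn_const hg hgc hgt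
  simp only [one_mul] at i1 i3
  refine ⟨i1, ?_⟩
  rw [i3]
  have e1 : ∀ y : E3, FS f x0 r0 m (fun _ => 1) y * (k ‖y - f x0‖ / ‖y - f x0‖ ^ 2) =
      m * (k ‖y - f x0‖ / ‖y - f x0‖ ^ 2) := by
    intro y
    by_cases hy : y ∈ Metric.ball (f x0) ρ0
    · rw [(hF Ω f A x0 r0 ρ0 m S hB y hy).2.2.2.1]
    · have h5 : k ‖y - f x0‖ / ‖y - f x0‖ ^ 2 = 0 := by
        apply hzero
        intro h
        apply hy
        rw [Metric.mem_ball, dist_eq_norm]
        exact h.2
      rw [h5, mul_zero, mul_zero]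
  simp_rw [e1]
  rw [integral_const_mul, integral_sub_right_eq_self (fun X : E3 => k ‖X‖ / ‖X‖ ^ 2) (f x0),
    hR (fun s => k s / s ^ 2) 0 ρ0 le_rfl h1 h2 h3]
  have e2 : ∀ r : ℝ, k r / r ^ 2 * r ^ 2 = k r := by
    intro r
    by_cases hr : r = 0
    · have hk0 : k r = 0 := by
        by_contra hne
        have := (hts (subset_tsupport _ hne)).1
        rw [hr] at this
        exact lt_irrefl _ this
      rw [hk0]
      simp
    · field_simp
  simp_rw [e2]
  ring

/-- Block G2B. -/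
theorem p_G2B (hT : Stmt_GT2) (hW : Stmt_GWD) (hF : Stmt_FSB) (hI : Stmt_GIN)
    (hR : Pool.Mart.Stmt_RINT) (_hC : Stmt_CPT) : Stmt_G2B := by
  intro Ω f A x0 r0 ρ0 m S hB κ s1 Λ p1 p2 hκ h1 hs0 hs1 hm hd hΛ hp1 hp2 hX1 hX2
  have hUD : ∀ x ∈ UD f x0 r0 ρ0, x ≠ x0 := by
    intro x hx h
    have h0 := hx.2.1
    rw [h, sub_self, norm_zero] at h0
    exact lt_irrefl _ h0
  have hk : Continuous (deriv κ) := hκ.c1.continuous_deriv le_rfl
  have hks : Function.support (deriv κ) ⊆ tsupport κ := support_deriv_subset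
  have hkc : HasCompactSupport (deriv κ) := hκ.cs.deriv
  have hkt : tsupport (deriv κ) ⊆ Ioo 0 ρ0 :=
    (closure_minimal hks (isClosed_tsupport κ)).trans hκ.ts
  have k1c : Continuous fun s => max (deriv κ s) 0 := hk.max continuous_const
  have k2c : Continuous fun s => max (-deriv κ s) 0 := hk.neg.max continuous_const
  have k1s : Function.support (fun s => max (deriv κ s) 0) ⊆ Function.support (deriv κ) := by
    intro s hs h
    apply hs
    change max (deriv κ s) 0 = 0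
    rw [h, max_self]
  have k2s : Function.support (fun s => max (-deriv κ s) 0) ⊆ Function.support (deriv κ) := by
    intro s hs h
    apply hs
    change max (-deriv κ s) 0 = 0
    rw [h, neg_zero, max_self]
  obtain ⟨a1, b1⟩ := G2B_mass hW hF hR hB k1c (hkc.mono k1s) ((closure_mono k1s).trans hkt)
  obtain ⟨a2, b2⟩ := G2B_mass hW hF hR hB k2c (hkc.mono k2s) ((closure_mono k2s).trans hkt)
  rw [T2B_up hκ h1 hs0 hm hd, mul_one] at b1
  rw [T2B_dn hκ h1 hs1 hm hd, mul_one] at b2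
  obtain ⟨c1, c2, c3⟩ := T2B_h hk hkc hkt
  have hlog : ContinuousOn (fun x : E3 => Real.log ‖x - x0‖) (UD f x0 r0 ρ0) := by
    apply ContinuousOn.log (continuous_norm.comp (continuous_id.sub continuous_const)).continuousOn
    intro x hx h
    exact hUD x hx (sub_eq_zero.1 (norm_eq_zero.1 h))
  have hint : IntegrableOn (fun x => Real.log ‖x - x0‖ * ((A x).det *
      (deriv κ ‖f x - f x0‖ / ‖f x - f x0‖ ^ 2))) (Metric.ball x0 r0) := by
    have h := ((hI Ω f A x0 r0 ρ0 m S hB _ c1 c2 c3).1 _ hlog).2.1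
    refine h.congr_fun (fun x _ => ?_) measurableSet_ball
    simp only
    ring
  rw [hT Ω f A x0 r0 ρ0 m S hB κ hκ]
  have hΛ0 : 0 < Λ := by linarith
  have hP1 : 0 < ‖p1 - x0‖ := norm_pos_iff.2 (sub_ne_zero.2 hp1)
  have hP2 : 0 < ‖p2 - x0‖ := norm_pos_iff.2 (sub_ne_zero.2 hp2)
  have hle : ∫ x in Metric.ball x0 r0, Real.log ‖x - x0‖ * ((A x).det *
      (deriv κ ‖f x - f x0‖ / ‖f x - f x0‖ ^ 2)) ≤
      ∫ x in Metric.ball x0 r0, ((Real.log ‖p1 - x0‖ + Real.log Λ) * ((A x).det *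
        (max (deriv κ ‖f x - f x0‖) 0 / ‖f x - f x0‖ ^ 2)) -
        (Real.log ‖p2 - x0‖ - Real.log Λ) * ((A x).det *
        (max (-deriv κ ‖f x - f x0‖) 0 / ‖f x - f x0‖ ^ 2))) := by
    refine integral_mono_ae hint ((a1.const_mul _).sub (a2.const_mul _)) ?_
    filter_upwards [G2B_det hB, ae_restrict_mem measurableSet_ball] with x hJ hx
    obtain ⟨Y, hY⟩ : ∃ Y : ℝ, Y = ‖f x - f x0‖ := ⟨_, rfl⟩
    have g1 := hX1 x hx
    have g2 := hX2 x hx
    rw [← hY] at g1 g2 ⊢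
    have hpos : deriv κ Y ≠ 0 → 0 < ‖x - x0‖ := by
      intro hne
      have h2 := hkt (subset_tsupport _ hne)
      have h3 : x ∈ UD f x0 r0 ρ0 := ⟨hx, by rw [← hY]; exact h2.1, by rw [← hY]; exact h2.2⟩
      exact norm_pos_iff.2 (sub_ne_zero.2 (hUD x h3))
    have hYY : 0 ≤ (Y ^ 2)⁻¹ := by positivity
    rcases lt_trichotomy (deriv κ Y) 0 with h | h | h
    · have hs : s1 ≤ Y := by
        by_contra h3
        exact absurd (hm Y (not_le.1 h3).le) (not_le.2 h)
      have hX := hpos h.ne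
      have h4 := g2 hs h.ne
      have h5 : Real.log ‖p2 - x0‖ ≤ Real.log Λ + Real.log ‖x - x0‖ := by
        rw [← Real.log_mul hΛ0.ne' hX.ne']
        exact Real.log_le_log hP2 h4
      rw [max_eq_right h.le, max_eq_left (neg_nonneg.2 h.le)]
      have h6 : 0 ≤ (A x).det * (-deriv κ Y * (Y ^ 2)⁻¹) :=
        mul_nonneg hJ (mul_nonneg (neg_nonneg.2 h.le) hYY)
      have h7 : 0 ≤ (Real.log Λ + Real.log ‖x - x0‖ - Real.log ‖p2 - x0‖) *
          ((A x).det * (-deriv κ Y * (Y ^ 2)⁻¹)) := mul_nonneg (by linarith) h6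
      simp only [div_eq_mul_inv, zero_mul, mul_zero]
      nlinarith [h7]
    · rw [h, neg_zero, max_self]
      simp
    · have hs : Y ≤ s1 := by
        by_contra h3
        exact absurd (hd Y (not_le.1 h3).le) (not_le.2 h)
      have hX := hpos h.ne'
      have h4 := g1 hs h.ne'
      have h5 : Real.log ‖x - x0‖ ≤ Real.log Λ + Real.log ‖p1 - x0‖ := by
        rw [← Real.log_mul hΛ0.ne' hP1.ne']
        exact Real.log_le_log hX h4
      rw [max_eq_left h.le, max_eq_right (neg_nonpos.2 h.le)]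
      have h6 : 0 ≤ (A x).det * (deriv κ Y * (Y ^ 2)⁻¹) :=
        mul_nonneg hJ (mul_nonneg h.le hYY)
      have h7 : 0 ≤ (Real.log Λ + Real.log ‖p1 - x0‖ - Real.log ‖x - x0‖) *
          ((A x).det * (deriv κ Y * (Y ^ 2)⁻¹)) := mul_nonneg (by linarith) h6
      simp only [div_eq_mul_inv, zero_mul, mul_zero]
      nlinarith [h7]
  rw [integral_sub (a1.const_mul _) (a2.const_mul _), integral_const_mul, integral_const_mul,
    b1, b2] at hle
  rw [Real.log_div hP2.ne' hP1.ne']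
  linarith

end Pool.GQ
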