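import Pool.Agent.Work.MP_680515_gq.Interface

open MeasureTheory Set Filter Topology

namespace Pool.GQ

open Pool.Mart Pool.Flat Pool.SQ

theorem p_GCV (hGLC : Stmt_GLC) (hGUC : Stmt_GUC) (hUNI : Stmt_UNI) : Stmt_GCV := by
  intro Ω f A x0 r0 ρ0 m S hN s1 s2 h1 h12 h2
  obtain ⟨hBo, hBc⟩ := hGLC Ω f A x0 r0 ρ0 m S hN s2 (h1.trans h12) h2
  obtain ⟨hAo, hAc⟩ := hGUC Ω f A x0 r0 ρ0 m S hN s1 h1 (h12.trans_le h2)
  have hu : {x | x ∈ Metric.ball x0 r0 → s1 < ‖f x - f x0‖} ∪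
      {x | x ∈ Metric.ball x0 r0 ∧ ‖f x - f x0‖ < s2} = univ := by
    ext x
    simp only [mem_union, mem_setOf_eq, mem_univ, iff_true]
    by_cases hx : x ∈ Metric.ball x0 r0
    · rcases lt_or_ge s1 ‖f x - f x0‖ with h | h
      · exact Or.inl fun _ => h
      · exact Or.inr ⟨hx, lt_of_le_of_lt h h12⟩
    · exact Or.inl fun h => absurd h hx
  have h := hUNI _ _ hAo hBo hAc hBc hu
  have he : {x | x ∈ Metric.ball x0 r0 → s1 < ‖f x - f x0‖} ∩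
      {x | x ∈ Metric.ball x0 r0 ∧ ‖f x - f x0‖ < s2}
      = {x | x ∈ Metric.ball x0 r0 ∧ s1 < ‖f x - f x0‖ ∧ ‖f x - f x0‖ < s2} := by
    ext x
    simp only [mem_inter_iff, mem_setOf_eq]
    constructor
    · rintro ⟨ha, hb, hc⟩
      exact ⟨hb, ha hb, hc⟩
    · rintro ⟨ha, hb, hc⟩
      exact ⟨fun _ => hb, ha, hc⟩
  rw [he] at h
  exact h

end Pool.GQ
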