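import Pool.Agent.Work.MP_680515_gq.Interface
import Pool.Agent.Work.MP_680515_fl.B_POS

/-!
# Block GDA of THEOREM GQ: every point has a local index at least one.
-/

open MeasureTheory Set Filter Topology

namespace Pool.GQ

open Pool.Mart Pool.Flat Pool.SQ

/-- The distance of the values from the value at the centre is bounded below away from the
centre. -/
theorem GDA_annulus {Ω : Set E3} {f : E3 → E3} {x : E3} {s R : ℝ} (hf : ContinuousOn f Ω)
    (hs : 0 < s) (hsub : Metric.closedBall x R ⊆ Ω)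
    (hunq : ∀ y ∈ Metric.closedBall x R, f y = f x → y = x) :
    ∃ c : ℝ, 0 < c ∧ ∀ y ∈ Metric.closedBall x R, s ≤ ‖y - x‖ → c ≤ ‖f y - f x‖ := by
  set K : Set E3 := Metric.closedBall x R ∩ {y | s ≤ ‖y - x‖} with hK
  have hKc : IsCompact K := (isCompact_closedBall x R).inter_right
    (isClosed_le continuous_const (continuous_id.sub continuous_const).norm)
  rcases K.eq_empty_or_nonempty with he | hne
  · refine ⟨1, one_pos, fun y hy hsy => ?_⟩
    have h1 : y ∈ K := ⟨hy, hsy⟩
    rw [he] at h1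
    exact absurd h1 (Set.notMem_empty y)
  · have hcont : ContinuousOn (fun y => ‖f y - f x‖) K :=
      ((hf.mono (Set.inter_subset_left.trans hsub)).sub continuousOn_const).norm
    obtain ⟨y0, hy0, hmin⟩ := hKc.exists_isMinOn hne hcont
    refine ⟨‖f y0 - f x‖, ?_, fun y hy hsy => hmin ⟨hy, hsy⟩⟩
    rw [norm_pos_iff, sub_ne_zero]
    intro h
    have h1 := hunq y0 hy0.1 h
    have h2 : s ≤ ‖y0 - x‖ := hy0.2
    rw [h1, sub_self, norm_zero] at h2
    linarith

/-- The degree is positive. -/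
theorem GDA_one (hOSC : Pool.Flat.Stmt_OSC) (hPIOI : Pool.Mart.Stmt_PIOI) {Ω : Set E3}
    {f : E3 → E3} {A : E3 → M3} {x : E3} {s ρ : ℝ} {k : ℤ} (hΩ : IsOpen Ω)
    (hf : ContinuousOn f Ω) (hA : WeakGrad Ω f A)
    (hgood : ∀ᵐ x ∂(volume.restrict Ω), Good (A x)) (hs : 0 < s)
    (hsub : Metric.closedBall x s ⊆ Ω)
    (hunq : ∀ y ∈ Metric.closedBall x s, f y = f x → y = x) (hρ : 0 < ρ)
    (hk : ∀ g : E3 → ℝ, Continuous g → HasCompactSupport g → tsupport g ⊆ Metric.ball (f x) ρ →
      ∫ y in Metric.ball x s, (A y).det * g (f y) = k * ∫ y, g y) : 1 ≤ k := by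
  have hxΩ : x ∈ Ω := hsub (Metric.mem_closedBall_self hs.le)
  by_contra hcon
  have hk0 : k ≤ 0 := by omega
  obtain ⟨g, hgc, hgs, hgt, hg0, hg1, hgi⟩ := POS_bump (f x) hρ
  have e0 := hk g hgc hgs hgt
  have hint : IntegrableOn (fun y => (A y).det * g (f y)) (Metric.ball x s) :=
    ((hPIOI Ω f A hΩ hf hA _ (isCompact_closedBall x s) hsub).1.mul_continuousOn
      (hgc.comp_continuousOn (hf.mono hsub)) (isCompact_closedBall x s)).mono_set
      Metric.ball_subset_closedBall
  have hgd : ∀ᵐ y ∂(volume.restrict (Metric.ball x s)), Good (A y) :=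
    ae_mono (Measure.restrict_mono (Metric.ball_subset_closedBall.trans hsub) le_rfl) hgood
  have hnn : 0 ≤ᵐ[volume.restrict (Metric.ball x s)] fun y => (A y).det * g (f y) := by
    filter_upwards [hgd] with y hy
    exact mul_nonneg (POS_det hy) (hg0 _)
  have h1 : ∫ y in Metric.ball x s, (A y).det * g (f y) = 0 := by
    refine le_antisymm ?_ (integral_nonneg_of_ae hnn)
    rw [e0]
    have : (k : ℝ) ≤ 0 := by exact_mod_cast hk0
    exact mul_nonpos_of_nonpos_of_nonneg this hgi.le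
  have h2 := (integral_eq_zero_iff_of_nonneg_ae hnn hint).1 h1
  have hcp : ContinuousAt f x := hf.continuousAt (hΩ.mem_nhds hxΩ)
  obtain ⟨δ', hδ', hδf⟩ := Metric.continuousAt_iff.1 hcp (ρ / 4) (by positivity)
  set δ := min δ' s with hδ
  have hδpos : 0 < δ := lt_min hδ' hs
  have hδs : δ ≤ s := min_le_right _ _
  have hbs : Metric.ball x δ ⊆ Metric.ball x s := Metric.ball_subset_ball hδs
  have h3 : ∀ᵐ y ∂(volume.restrict (Metric.ball x δ)), A y = 0 := by
    have h4 := ae_mono (Measure.restrict_mono hbs le_rfl) h2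
    have h5 := ae_mono (Measure.restrict_mono hbs le_rfl) hgd
    filter_upwards [h4, h5, ae_restrict_mem Metric.isOpen_ball.measurableSet] with y hy hy5 hyb
    have h6 : g (f y) = 1 := hg1 _ (by
      rw [Metric.mem_closedBall]
      rw [Metric.mem_ball] at hyb
      exact (hδf (hyb.trans_le (min_le_left _ _))).le)
    have h7 : (A y).det * g (f y) = 0 := hy
    rw [h6, mul_one] at h7
    exact POS_zero hy5 h7
  set y : E3 := x + (δ / 4) • EuclideanSpace.single 0 1 with hy
  have hn : ‖y - x‖ = δ / 4 := by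
    rw [hy, add_sub_cancel_left, norm_smul, Real.norm_of_nonneg (by positivity)]
    simp
  have hyd : dist y x < δ / 2 := by
    rw [dist_eq_norm, hn]
    linarith
  have h4 := POS_const hOSC hf hA (hbs.trans (Metric.ball_subset_closedBall.trans hsub)) h3 hyd
  have h5 : y = x := hunq y (by
    rw [Metric.mem_closedBall]
    linarith) h4.symm
  rw [h5, sub_self, norm_zero] at hn
  linarith

/-- The degree does not depend on the radius. -/
theorem GDA_same {Ω : Set E3} {f : E3 → E3} {A : E3 → M3} {x : E3} {s R ρ ρ' : ℝ} {k k' : ℤ}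
    (hf : ContinuousOn f Ω) (hs : 0 < s) (hsR : s ≤ R) (hsub : Metric.closedBall x R ⊆ Ω)
    (hunq : ∀ y ∈ Metric.closedBall x R, f y = f x → y = x) (hρ : 0 < ρ) (hρ' : 0 < ρ')
    (hk : ∀ g : E3 → ℝ, Continuous g → HasCompactSupport g → tsupport g ⊆ Metric.ball (f x) ρ →
      ∫ y in Metric.ball x s, (A y).det * g (f y) = k * ∫ y, g y)
    (hk' : ∀ g : E3 → ℝ, Continuous g → HasCompactSupport g → tsupport g ⊆ Metric.ball (f x) ρ' →
      ∫ y in Metric.ball x R, (A y).det * g (f y) = k' * ∫ y, g y) : k = k' := by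
  obtain ⟨c, hc, hcf⟩ := GDA_annulus hf hs hsub hunq
  obtain ⟨g, hgc, hgs, hgt, hg0, hg1, hgi⟩ :=
    POS_bump (f x) (lt_min hc (lt_min hρ hρ'))
  have e1 := hk g hgc hgs (hgt.trans (Metric.ball_subset_ball
    ((min_le_right _ _).trans (min_le_left _ _))))
  have e2 := hk' g hgc hgs (hgt.trans (Metric.ball_subset_ball
    ((min_le_right _ _).trans (min_le_right _ _))))
  have e3 : ∫ y in Metric.ball x R, (A y).det * g (f y) =
      ∫ y in Metric.ball x s, (A y).det * g (f y) := by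
    refine setIntegral_eq_of_subset_of_forall_sdiff_eq_zero Metric.isOpen_ball.measurableSet
      (Metric.ball_subset_ball hsR) ?_
    intro y hy
    have h1 : g (f y) = 0 := by
      refine image_eq_zero_of_notMem_tsupport fun h => ?_
      have h2 := hgt h
      rw [Metric.mem_ball, dist_eq_norm] at h2
      have h3 : s ≤ ‖y - x‖ := by
        have h4 := hy.2
        rw [Metric.mem_ball, dist_eq_norm] at h4
        exact not_lt.1 h4
      have h4 := hcf y (Metric.ball_subset_closedBall hy.1) h3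
      have h5 := h2.trans_le (min_le_left _ _)
      linarith
    show (A y).det * g (f y) = 0
    rw [h1, mul_zero]
  rw [e1, e2] at e3
  have h4 : (k' : ℝ) = k := mul_right_cancel₀ hgi.ne' e3
  exact_mod_cast h4.symm

theorem p_GDA (hINTG : Pool.Flat.Stmt_INTG) (hOSC : Pool.Flat.Stmt_OSC)
    (hPIOI : Pool.Mart.Stmt_PIOI) : Stmt_GDA := by
  intro Ω f A hO x hx
  obtain ⟨r1, hr1, hdsc⟩ := hO.dsc x hx
  obtain ⟨r2, hr2, hball⟩ := Metric.isOpen_iff.1 hO.op x hx
  set R := min r1 (r2 / 2) with hR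
  have hRpos : 0 < R := lt_min hr1 (by linarith)
  have hsub : Metric.closedBall x R ⊆ Ω := by
    intro y hy
    refine hball ?_
    rw [Metric.mem_closedBall] at hy
    rw [Metric.mem_ball]
    have h1 : R ≤ r2 / 2 := min_le_right _ _
    linarith
  have hunq : ∀ y ∈ Metric.closedBall x R, f y = f x → y = x := by
    intro y hy hfy
    refine hdsc y (hsub hy) ?_ hfy
    rw [Metric.mem_closedBall, dist_eq_norm] at hy
    exact hy.trans (min_le_left _ _)
  have main : ∀ s : ℝ, 0 < s → s ≤ R → ∃ (ρ : ℝ) (k : ℤ), 0 < ρ ∧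
      (∀ y : E3, ‖y - x‖ = s → ρ ≤ ‖f y - f x‖) ∧
      ∀ g : E3 → ℝ, Continuous g → HasCompactSupport g → tsupport g ⊆ Metric.ball (f x) ρ →
        ∫ y in Metric.ball x s, (A y).det * g (f y) = k * ∫ y, g y := by
    intro s hs hsR
    have hsubs : Metric.closedBall x s ⊆ Ω := (Metric.closedBall_subset_closedBall hsR).trans hsub
    obtain ⟨ρ, hρ, hρf⟩ := GDA_annulus hO.cont hs hsub hunq
    have hsph : ∀ y : E3, ‖y - x‖ = s → ρ ≤ ‖f y - f x‖ := by
      intro y hy
      refine hρf y ?_ hy.ge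
      rw [Metric.mem_closedBall, dist_eq_norm, hy]
      exact hsR
    obtain ⟨k, hk⟩ := hINTG Ω f A x (f x) s ρ hO.op hO.cont hO.wg hs hsubs hρ hsph
    exact ⟨ρ, k, hρ, hsph, hk⟩
  obtain ⟨ρ0, k0, hρ0, hsph0, hk0⟩ := main R hRpos le_rfl
  have hone : 1 ≤ k0 := GDA_one hOSC hPIOI hO.op hO.cont hO.wg hO.good hRpos hsub hunq hρ0 hk0
  refine ⟨k0.toNat, by omega, ?_⟩
  intro ε hε
  set s := min R ε with hsdef
  have hs : 0 < s := lt_min hRpos hε
  have hsR : s ≤ R := min_le_left _ _
  obtain ⟨ρ, k, hρ, hsph, hk⟩ := main s hs hsR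
  have hkk : k = k0 := GDA_same hO.cont hs hsR hsub hunq hρ hρ0 hk hk0
  refine ⟨s, min (ρ / 2) ε, min_le_right _ _, min_le_right _ _, ?_⟩
  refine ⟨hs, lt_min (by linarith) hε, (Metric.closedBall_subset_closedBall hsR).trans hsub, ?_, ?_,
    ?_⟩
  · intro y hy hfy
    exact hunq y (Metric.closedBall_subset_closedBall hsR hy) hfy
  · intro y hy
    have h1 := hsph y hy
    have h2 : min (ρ / 2) ε ≤ ρ / 2 := min_le_left _ _
    linarith
  · intro g hg1 hg2 hg3
    have h1 : min (ρ / 2) ε ≤ ρ := (min_le_left _ _).trans (by linarith)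
    rw [hk g hg1 hg2 (hg3.trans (Metric.ball_subset_ball h1)), hkk]
    have h2 : ((k0.toNat : ℕ) : ℤ) = k0 := Int.toNat_of_nonneg (by omega)
    have h3 : ((k0.toNat : ℕ) : ℝ) = (k0 : ℝ) := by exact_mod_cast h2
    rw [h3]

end Pool.GQ
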