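import Pool.Agent.Work.MP_680515_gq.Interface

/-!
# MP_680515_an, THEOREM GQ: block GDF

The sum of the local indices over a fibre is the degree.
-/

set_option autoImplicit false

open MeasureTheory Set Filter Topology

namespace Pool.GQ

open Pool.Mart Pool.Flat Pool.SQ

/-- The fibre is compact. -/
theorem GDF_compact {Ω : Set E3} {f : E3 → E3} {A : E3 → M3} (hOD : OD Ω f A) {x : E3} {r ρ : ℝ}
    {k : ℕ} (hL : Lok Ω f A x r ρ k) {y : E3} (hy : y ∈ Metric.ball (f x) ρ) :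
    IsCompact (fib f x r y) := by
  have h1 : fib f x r y = Metric.closedBall x r ∩ f ⁻¹' {y} := by
    ext z
    constructor
    · rintro ⟨hz1, hz2⟩
      exact ⟨Metric.ball_subset_closedBall hz1, hz2⟩
    · rintro ⟨hz1, hz2⟩
      have hz3 : f z = y := hz2
      refine ⟨?_, hz3⟩
      rcases lt_or_eq_of_le (Metric.mem_closedBall.1 hz1) with h | h
      · exact Metric.mem_ball.2 h
      · exfalso
        have h2 := hL.sph z (by rw [← dist_eq_norm]; exact h)
        rw [hz3, ← dist_eq_norm] at h2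
        have h3 := Metric.mem_ball.1 hy
        linarith
  rw [h1]
  exact (isCompact_closedBall x r).of_isClosed_subset
    ((hOD.cont.mono hL.sub).preimage_isClosed_of_isClosed Metric.isClosed_closedBall
      isClosed_singleton) inter_subset_left

theorem GDF_finite {Ω : Set E3} {f : E3 → E3} {A : E3 → M3} (hOD : OD Ω f A) {x : E3} {r ρ : ℝ}
    {k : ℕ} (hL : Lok Ω f A x r ρ k) {y : E3} (hy : y ∈ Metric.ball (f x) ρ) :
    (fib f x r y).Finite := by
  classical
  have hc := GDF_compact hOD hL hy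
  have hsub : fib f x r y ⊆ Ω := fun z hz => hL.sub (Metric.ball_subset_closedBall hz.1)
  have hd : ∀ z : E3, ∃ r' : ℝ, 0 < r' ∧ (z ∈ Ω → ∀ w ∈ Ω, ‖w - z‖ ≤ r' → f w = f z → w = z) := by
    intro z
    by_cases hz : z ∈ Ω
    · obtain ⟨r', h1, h2⟩ := hOD.dsc z hz
      exact ⟨r', h1, fun _ => h2⟩
    · exact ⟨1, one_pos, fun h => absurd h hz⟩
  choose R hR1 hR2 using hd
  obtain ⟨t, ht1, ht2⟩ := hc.elim_nhds_subcover (fun z => Metric.ball z (R z))
    (fun z _ => Metric.ball_mem_nhds z (hR1 z))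
  refine t.finite_toSet.subset ?_
  intro w hw
  obtain ⟨z, hzt, hz⟩ := mem_iUnion₂.1 (ht2 hw)
  have h1 : w = z := by
    refine hR2 z (hsub (ht1 z hzt)) w (hsub hw) ?_ ?_
    · rw [← dist_eq_norm]
      exact (Metric.mem_ball.1 hz).le
    · rw [hw.2, (ht1 z hzt).2]
  rw [h1]
  exact hzt

/-- A common small radius. -/
theorem GDF_small {f : E3 → E3} {x : E3} {r : ℝ} {y : E3} (s : Finset E3)
    (hs : ∀ z ∈ s, z ∈ fib f x r y) :
    ∃ d : ℝ, 0 < d ∧ (∀ z ∈ s, dist z x + d < r) ∧ ∀ z ∈ s, ∀ w ∈ s, z ≠ w → 2 * d < dist z w := by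
  have h1 : ∀ᶠ d : ℝ in 𝓝[>] 0, ∀ z ∈ s, d < r - dist z x := by
    refine (Finset.eventually_all s).2 fun z hz => ?_
    have h2 : 0 < r - dist z x := by
      have := Metric.mem_ball.1 (hs z hz).1
      linarith
    filter_upwards [Ioo_mem_nhdsGT h2] with d hd
    exact hd.2
  have h3 : ∀ᶠ d : ℝ in 𝓝[>] 0, ∀ z ∈ s, ∀ w ∈ s, z ≠ w → d < dist z w / 2 := by
    refine (Finset.eventually_all s).2 fun z hz => ?_
    refine (Finset.eventually_all s).2 fun w hw => ?_
    by_cases hzw : z = w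
    · exact Eventually.of_forall fun d h => absurd hzw h
    · have h2 : 0 < dist z w / 2 := by
        have := dist_pos.2 hzw
        linarith
      filter_upwards [Ioo_mem_nhdsGT h2] with d hd _
      exact hd.2
  have h4 : ∀ᶠ d : ℝ in 𝓝[>] 0, 0 < d := eventually_mem_nhdsWithin
  obtain ⟨d, hd1, hd2, hd3⟩ := (h1.and (h3.and h4)).exists
  refine ⟨d, hd3, fun z hz => ?_, fun z hz w hw hzw => ?_⟩
  · have := hd1 z hz
    linarith
  · have := hd2 z hz w hw hzw
    linarith

theorem p_GDF (hPIOI : Pool.Mart.Stmt_PIOI) : Stmt_GDF := by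
  classical
  intro Ω f A hOD x r ρ k hL y hy
  have hfin := GDF_finite hOD hL hy
  refine ⟨hfin, fun idx hidx => ?_⟩
  rw [finsum_mem_eq_finite_toFinset_sum _ hfin]
  obtain ⟨s, hs⟩ : ∃ s : Finset E3, s = hfin.toFinset := ⟨_, rfl⟩
  rw [← hs]
  have hsm : ∀ z, z ∈ s ↔ z ∈ fib f x r y := fun z => by rw [hs]; exact hfin.mem_toFinset
  obtain ⟨d, hd0, hd1, hd2⟩ := GDF_small s (fun z hz => (hsm z).1 hz)
  have hch : ∀ z : E3, ∃ q : ℝ × ℝ, z ∈ s → q.1 ≤ d ∧ q.2 ≤ d ∧ Lok Ω f A z q.1 q.2 (idx z) := by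
    intro z
    by_cases hz : z ∈ s
    · obtain ⟨r', ρ', h1, h2, h3⟩ := hidx z ((hsm z).1 hz) d hd0
      exact ⟨(r', ρ'), fun _ => ⟨h1, h2, h3⟩⟩
    · exact ⟨(0, 0), fun h => absurd h hz⟩
  choose Q hQ using hch
  have hfz : ∀ z ∈ s, f z = y := fun z hz => ((hsm z).1 hz).2
  -- the balls
  have hsubB : ∀ z ∈ s, Metric.ball z (Q z).1 ⊆ Metric.ball x r := by
    intro z hz w hw
    have h1 := Metric.mem_ball.1 hw
    have h2 := hd1 z hz
    have h3 := (hQ z hz).1
    refine Metric.mem_ball.2 ?_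
    have h4 := dist_triangle w z x
    linarith
  have hdis : Set.Pairwise (↑s) (Function.onFun Disjoint fun z => Metric.ball z (Q z).1) := by
    intro z hz w hw hzw
    refine Metric.ball_disjoint_ball ?_
    have h1 := hd2 z hz w hw hzw
    have h2 := (hQ z hz).1
    have h3 := (hQ w hw).1
    linarith
  -- the compact remainder
  obtain ⟨K, hK⟩ : ∃ K : Set E3, K = Metric.closedBall x r \ ⋃ z ∈ s, Metric.ball z (Q z).1 :=
    ⟨_, rfl⟩
  have hUo : IsOpen (⋃ z ∈ s, Metric.ball z (Q z).1) :=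
    isOpen_biUnion fun z _ => Metric.isOpen_ball
  have hKc : IsCompact K := by
    rw [hK]
    exact (isCompact_closedBall x r).diff hUo
  have hcontB : ContinuousOn f (Metric.closedBall x r) := hOD.cont.mono hL.sub
  have hKi : IsCompact (f '' K) :=
    hKc.image_of_continuousOn (hcontB.mono (by rw [hK]; exact sdiff_subset))
  have hyK : y ∈ (f '' K)ᶜ := by
    rintro ⟨w, hw, hwy⟩
    rw [hK] at hw
    have hwF : w ∈ fib f x r y := by
      refine ⟨?_, hwy⟩
      rcases lt_or_eq_of_le (Metric.mem_closedBall.1 hw.1) with h | h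
      · exact Metric.mem_ball.2 h
      · exfalso
        have h2 := hL.sph w (by rw [← dist_eq_norm]; exact h)
        rw [hwy, ← dist_eq_norm] at h2
        have h3 := Metric.mem_ball.1 hy
        linarith
    have hws : w ∈ s := (hsm w).2 hwF
    refine hw.2 (mem_iUnion₂.2 ⟨w, hws, Metric.mem_ball_self ?_⟩)
    exact (hQ w hws).2.2.rpos
  obtain ⟨c, hc0, hc1⟩ := Metric.isOpen_iff.1 hKi.isClosed.isOpen_compl y hyK
  -- the radius of the bump
  have hev1 : ∀ᶠ δ : ℝ in 𝓝[>] 0, ∀ z ∈ s, δ < (Q z).2 := by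
    refine (Finset.eventually_all s).2 fun z hz => ?_
    filter_upwards [Ioo_mem_nhdsGT (hQ z hz).2.2.ρpos] with δ hδ
    exact hδ.2
  have hev2 : ∀ᶠ δ : ℝ in 𝓝[>] 0, δ < c := by
    filter_upwards [Ioo_mem_nhdsGT hc0] with δ hδ
    exact hδ.2
  have hev3 : ∀ᶠ δ : ℝ in 𝓝[>] 0, δ < ρ - dist y (f x) := by
    have h2 : 0 < ρ - dist y (f x) := by
      have := Metric.mem_ball.1 hy
      linarith
    filter_upwards [Ioo_mem_nhdsGT h2] with δ hδ
    exact hδ.2
  have hev4 : ∀ᶠ δ : ℝ in 𝓝[>] 0, 0 < δ := eventually_mem_nhdsWithin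
  obtain ⟨δ, hδ1, hδ2, hδ3, hδ4⟩ := (hev1.and (hev2.and (hev3.and hev4))).exists
  obtain ⟨b, hb⟩ : ∃ b : ContDiffBump y, b.rOut = δ :=
    ⟨⟨δ / 2, δ, by linarith, by linarith⟩, rfl⟩
  obtain ⟨g, hg⟩ : ∃ g : E3 → ℝ, g = fun w => b w := ⟨_, rfl⟩
  have hgc : Continuous g := by rw [hg]; exact b.continuous
  have hgs : HasCompactSupport g := by rw [hg]; exact b.hasCompactSupport
  have hgt : tsupport g = Metric.closedBall y δ := by
    rw [hg, ← hb]
    exact b.tsupport_eq
  have hgI : 0 < ∫ w, g w := by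
    rw [hg]
    exact b.integral_pos
  have hg0 : ∀ w, w ∉ Metric.closedBall y δ → g w = 0 := by
    intro w hw
    rw [← hgt] at hw
    exact image_eq_zero_of_notMem_tsupport hw
  have e1 : ∫ w in Metric.ball x r, (A w).det * g (f w) = k * ∫ w, g w := by
    refine hL.deg g hgc hgs ?_
    rw [hgt]
    intro w hw
    refine Metric.mem_ball.2 ?_
    have h1 := Metric.mem_closedBall.1 hw
    have h2 := dist_triangle w y (f x)
    linarith
  have e2 : ∀ z ∈ s, ∫ w in Metric.ball z (Q z).1, (A w).det * g (f w) = idx z * ∫ w, g w := by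
    intro z hz
    refine (hQ z hz).2.2.deg g hgc hgs ?_
    rw [hgt, hfz z hz]
    intro w hw
    refine Metric.mem_ball.2 ?_
    have h1 := Metric.mem_closedBall.1 hw
    have h2 := hδ1 z hz
    linarith
  have e3 : ∫ w in Metric.ball x r, (A w).det * g (f w)
      = ∫ w in ⋃ z ∈ s, Metric.ball z (Q z).1, (A w).det * g (f w) := by
    refine setIntegral_eq_of_subset_of_forall_sdiff_eq_zero measurableSet_ball
      (iUnion₂_subset hsubB) ?_
    rintro w ⟨hw1, hw2⟩
    have h1 : w ∈ K := by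
      rw [hK]
      exact ⟨Metric.ball_subset_closedBall hw1, hw2⟩
    have h2 : f w ∉ Metric.closedBall y δ := by
      intro h3
      refine hc1 (Metric.mem_ball.2 ?_) ⟨w, h1, rfl⟩
      exact lt_of_le_of_lt (Metric.mem_closedBall.1 h3) hδ2
    rw [hg0 _ h2, mul_zero]
  have hint : IntegrableOn (fun w => (A w).det * g (f w)) (Metric.closedBall x r) := by
    have h1 := (hPIOI Ω f A hOD.op hOD.cont hOD.wg (Metric.closedBall x r)
      (isCompact_closedBall x r) hL.sub).1
    exact h1.mul_continuousOn (hgc.comp_continuousOn hcontB) (isCompact_closedBall x r)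
  have e4 : ∫ w in ⋃ z ∈ s, Metric.ball z (Q z).1, (A w).det * g (f w)
      = ∑ z ∈ s, ∫ w in Metric.ball z (Q z).1, (A w).det * g (f w) :=
    integral_biUnion_finset s (fun z _ => measurableSet_ball) hdis
      (fun z hz => hint.mono_set ((hsubB z hz).trans Metric.ball_subset_closedBall))
  have e5 : (k : ℝ) * ∫ w, g w = (∑ z ∈ s, (idx z : ℝ)) * ∫ w, g w := by
    rw [← e1, e3, e4, Finset.sum_congr rfl e2, Finset.sum_mul]
  have e6 : (k : ℝ) = ∑ z ∈ s, (idx z : ℝ) := mul_right_cancel₀ hgI.ne' e5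
  have e7 : (k : ℝ) = ((∑ z ∈ s, idx z : ℕ) : ℝ) := by
    rw [e6]
    push_cast
    rfl
  exact (Nat.cast_injective e7).symm

end Pool.GQ
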