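import Pool.Agent.Work.MP_680515_gq.Interface

open MeasureTheory Set Filter Topology

namespace Pool.GQ

open Pool.Mart Pool.Flat Pool.SQ

theorem p_GDI (hGDA : Stmt_GDA) (hGDF : Stmt_GDF) : Stmt_GDI := by
  intro Ω f A hOD x hx
  obtain ⟨r, ρ, hr1, hρ1, hL⟩ := hx 1 one_pos
  have hxΩ : x ∈ Ω := hL.sub (Metric.mem_closedBall_self hL.rpos.le)
  have hcx : ContinuousAt f x := hOD.cont.continuousAt (hOD.op.mem_nhds hxΩ)
  obtain ⟨ε0, hε0, hε0'⟩ := Metric.continuousAt_iff.1 hcx ρ hL.ρpos
  have key : ∀ z ∈ Metric.ball x (min r ε0), fib f x r (f z) = {z} ∧ LI Ω f A z 1 := by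
    intro z hz
    have hzr : z ∈ Metric.ball x r := Metric.ball_subset_ball (min_le_left _ _) hz
    have hzε : dist z x < ε0 := lt_of_lt_of_le (Metric.mem_ball.1 hz) (min_le_right _ _)
    have hfz : f z ∈ Metric.ball (f x) ρ := Metric.mem_ball.2 (hε0' hzε)
    obtain ⟨hfin, hsum⟩ := hGDF Ω f A hOD x r ρ 1 hL (f z) hfz
    have hch : ∀ w : E3, ∃ k : ℕ, w ∈ fib f x r (f z) → 1 ≤ k ∧ LI Ω f A w k := by
      intro w
      by_cases hw : w ∈ fib f x r (f z)
      · obtain ⟨k, hk⟩ := hGDA Ω f A hOD w (hL.sub (Metric.ball_subset_closedBall hw.1))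
        exact ⟨k, fun _ => hk⟩
      · exact ⟨0, fun h => absurd h hw⟩
    choose idx hidx using hch
    have hs := hsum idx fun w hw => (hidx w hw).2
    have hzm : z ∈ fib f x r (f z) := ⟨hzr, rfl⟩
    rw [finsum_mem_eq_finite_toFinset_sum _ hfin] at hs
    have h1 : ∀ w ∈ hfin.toFinset, 1 ≤ idx w := fun w hw =>
      (hidx w ((Set.Finite.mem_toFinset hfin).1 hw)).1
    have hcard : hfin.toFinset.card ≤ 1 := by
      calc hfin.toFinset.card = ∑ w ∈ hfin.toFinset, 1 := by simp
        _ ≤ ∑ w ∈ hfin.toFinset, idx w := Finset.sum_le_sum h1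
        _ = 1 := hs
    have hfs : fib f x r (f z) = {z} := by
      ext w
      constructor
      · intro hw
        exact Finset.card_le_one.1 hcard w ((Set.Finite.mem_toFinset hfin).2 hw) z
          ((Set.Finite.mem_toFinset hfin).2 hzm)
      · intro hw
        rw [mem_singleton_iff] at hw
        rw [hw]
        exact hzm
    have hzidx : idx z = 1 := by
      have h3 : hfin.toFinset = {z} := by
        ext w
        rw [Set.Finite.mem_toFinset hfin, hfs]
        simp
      rw [h3, Finset.sum_singleton] at hs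
      exact hs
    refine ⟨hfs, ?_⟩
    have h4 := (hidx z hzm).2
    rw [hzidx] at h4
    exact h4
  refine ⟨min r ε0, lt_min hL.rpos hε0, ?_, ?_, fun z hz => (key z hz).2⟩
  · intro z hz
    exact hL.sub (Metric.ball_subset_closedBall (Metric.ball_subset_ball (min_le_left _ _) hz))
  · intro z hz w hw hzw
    have h1 : w ∈ fib f x r (f z) := ⟨Metric.ball_subset_ball (min_le_left _ _) hw, hzw.symm⟩
    rw [(key z hz).1, mem_singleton_iff] at h1
    exact h1.symm

end Pool.GQ
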