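import Pool.Agent.Work.MP_680515_gq.Interface

/-! # Block GEL: lower bound of the flux -/

open MeasureTheory Set Filter Topology

namespace Pool.GQ

open Pool.Mart Pool.Flat Pool.SQ

/-- Splitting of the derivative of the cut-off function. -/
theorem GEL_ell (m : ℝ → ℝ) (η : ℝ) (hη : η ≤ 1 / 2) (hm : ContDiff ℝ 1 m)
    (hmd : ∀ u, |u| < 1 - η → deriv m u = 0) (hn : ∀ u, u ≤ 0 → 0 ≤ deriv m u)
    (hp : ∀ u, 0 ≤ u → deriv m u ≤ 0) (h1 : ∫ u in (0 : ℝ)..1, deriv m u = -1)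
    (h2 : ∫ u in (-1 : ℝ)..0, deriv m u = 1) :
    ∃ lp lm : ℝ → ℝ, Continuous lp ∧ Continuous lm ∧ (∀ u, deriv m u = lp u + lm u) ∧
      (∀ u, lp u ≠ 0 → 1 - η ≤ u) ∧ (∀ u, lm u ≠ 0 → u ≤ -1 + η) ∧
      (∀ u, lp u ≤ 0) ∧ (∀ u, 0 ≤ lm u) ∧
      ∫ u in (-1 : ℝ)..1, lp u = -1 ∧ ∫ u in (-1 : ℝ)..1, lm u = 1 := by
  have hc : Continuous (deriv m) := hm.continuous_deriv (le_refl _)
  have h0 : deriv m 0 = 0 := hmd 0 (by rw [abs_zero]; linarith)
  have hpc : Continuous (fun u : ℝ => if 0 ≤ u then deriv m u else 0) :=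
    Continuous.if_le hc continuous_const continuous_const continuous_id
      (fun u hu => by rw [← hu]; exact h0)
  have hmc : Continuous (fun u : ℝ => if 0 ≤ u then 0 else deriv m u) :=
    Continuous.if_le continuous_const hc continuous_const continuous_id
      (fun u hu => by rw [← hu]; exact h0.symm)
  refine ⟨fun u => if 0 ≤ u then deriv m u else 0, fun u => if 0 ≤ u then 0 else deriv m u,
    hpc, hmc, fun u => ?_, fun u hu => ?_, fun u hu => ?_, fun u => ?_, fun u => ?_, ?_, ?_⟩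
  · by_cases h : 0 ≤ u
    · simp [h]
    · simp [h]
  · by_contra hlt
    push Not at hlt
    by_cases h : 0 ≤ u
    · exact hu (by simp only [if_pos h]; exact hmd u (by rw [abs_of_nonneg h]; exact hlt))
    · exact hu (by simp only [if_neg h])
  · by_contra hlt
    push Not at hlt
    by_cases h : 0 ≤ u
    · exact hu (by simp only [if_pos h])
    · exact hu (by
        simp only [if_neg h]
        exact hmd u (by rw [abs_of_neg (not_le.1 h)]; linarith))
  · by_cases h : 0 ≤ u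
    · simp only [if_pos h]
      exact hp u h
    · simp only [if_neg h]
      exact le_refl _
  · by_cases h : 0 ≤ u
    · simp only [if_pos h]
      exact le_refl _
    · simp only [if_neg h]
      exact hn u (not_le.1 h).le
  · rw [← intervalIntegral.integral_add_adjacent_intervals (hpc.intervalIntegrable (-1) 0)
      (hpc.intervalIntegrable 0 1)]
    have e1 : ∫ u in (-1 : ℝ)..0, (if 0 ≤ u then deriv m u else 0) = ∫ u in (-1 : ℝ)..0, (0 : ℝ) :=
      intervalIntegral.integral_congr fun u hu => by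
        rw [uIcc_of_le (by norm_num)] at hu
        by_cases h : 0 ≤ u
        · have : u = 0 := le_antisymm hu.2 h
          simp [this, h0]
        · simp [h]
    have e2 : ∫ u in (0 : ℝ)..1, (if 0 ≤ u then deriv m u else 0) = ∫ u in (0 : ℝ)..1, deriv m u :=
      intervalIntegral.integral_congr fun u hu => by
        rw [uIcc_of_le (by norm_num)] at hu
        simp [hu.1]
    rw [e1, e2, h1]
    simp
  · rw [← intervalIntegral.integral_add_adjacent_intervals (hmc.intervalIntegrable (-1) 0)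
      (hmc.intervalIntegrable 0 1)]
    have e1 : ∫ u in (-1 : ℝ)..0, (if 0 ≤ u then 0 else deriv m u) =
        ∫ u in (-1 : ℝ)..0, deriv m u :=
      intervalIntegral.integral_congr fun u hu => by
        rw [uIcc_of_le (by norm_num)] at hu
        by_cases h : 0 ≤ u
        · have : u = 0 := le_antisymm hu.2 h
          simp [this, h0]
        · simp [h]
    have e2 : ∫ u in (0 : ℝ)..1, (if 0 ≤ u then 0 else deriv m u) = ∫ u in (0 : ℝ)..1, (0 : ℝ) :=
      intervalIntegral.integral_congr fun u hu => by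
        rw [uIcc_of_le (by norm_num)] at hu
        simp [hu.1]
    rw [e1, e2, h2]
    simp

theorem GEL_q2 {a b : E3} (ha : ‖a‖ = 1) (hb : ‖b‖ = 1) (y : E3) : 0 ≤ q2 a b y := by
  have h := real_inner_le_norm a b
  rw [ha, hb, mul_one] at h
  unfold q2
  exact div_nonneg (by linarith) (sq_nonneg _)

/-- Upper bound of the angle for a direction close to `e`. -/
theorem GEL_up {c ε ε1 : ℝ} (hc : 0 < c) (h1 : Real.arccos (c * (1 - ε)) ≤ ε1) {e X : E3}
    (hX : X ≠ 0) (h : (1 - ε) * ‖X‖ ≤ inner ℝ X e) : dlt c e X ≤ ε1 := by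
  have hX' : 0 < ‖X‖ := norm_pos_iff.2 hX
  refine le_trans (Real.arccos_le_arccos ?_) h1
  refine mul_le_mul_of_nonneg_left ?_ hc.le
  rw [le_div_iff₀ hX']
  exact h

/-- Lower bound of the angle for a direction close to `-e`. -/
theorem GEL_lo {c ε ε1 : ℝ} (hc : 0 < c) (h1 : Real.arccos (c * (1 - ε)) ≤ ε1) {e X : E3}
    (hX : X ≠ 0) (h : inner ℝ X e ≤ -((1 - ε) * ‖X‖)) : Real.pi - ε1 ≤ dlt c e X := by
  have hX' : 0 < ‖X‖ := norm_pos_iff.2 hX
  have h2 : Real.pi - ε1 ≤ Real.arccos (-(c * (1 - ε))) := by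
    rw [Real.arccos_neg]
    linarith
  refine h2.trans (Real.arccos_le_arccos ?_)
  have h3 : inner ℝ X e / ‖X‖ ≤ -(1 - ε) := by
    rw [div_le_iff₀ hX']
    linarith
  calc c * (inner ℝ X e / ‖X‖) ≤ c * (-(1 - ε)) := mul_le_mul_of_nonneg_left h3 hc.le
    _ = -(c * (1 - ε)) := by ring

theorem p_GEL (hFSB : Stmt_FSB) (hGSC : Stmt_GSC) (_hGWT : Stmt_GWT) (_hCPT : Stmt_CPT)
    (hCV1 : Pool.Flat.Stmt_CV1) (hFLD : Pool.Flat.Stmt_FLD) (_hGL3 : Pool.Flat.Stmt_GL3) :
    Stmt_GEL := by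
  intro Ω f A x0 r0 ρ0 m S hN e a b c k ε ε1 s β η κ χ _he ha hb hab hc _hc1 hk _hε _hε1 hε2 hs hβ
    hsβ hη hη1 hneg hpos hm hmd hmn hmp hmi1 hmi2 hκ
  obtain ⟨-, -, -, hF4⟩ := hGSC Ω f A x0 r0 ρ0 m S hN
  have hFS := hFSB Ω f A x0 r0 ρ0 m S hN
  have hm2 : (0 : ℝ) < m := by
    have := hN.two
    exact_mod_cast (by omega : 0 < m)
  obtain ⟨lp, lm, hlp, hlm, hlpm, hlp0, hlm0, hlps, hlms, hlpi, hlmi⟩ :=
    GEL_ell χ η hη1 hm.c1 hmd hmn hmp hmi1 hmi2
  have hπ := Real.pi_pos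
  have hse : 0 < s * Real.exp (-β) := by positivity
  have hκpos : ∀ t ∈ tsupport κ, 0 < t := fun t ht => lt_trans hse (hκ.ts ht).1
  have hκne : ∀ t, κ t ≠ 0 → t ∈ tsupport κ := fun t ht => subset_tsupport κ ht
  have hκz' : ∀ t, t ∉ tsupport κ → κ t = 0 := fun t ht => image_eq_zero_of_notMem_tsupport ht
  have hκρ : ∀ t ∈ tsupport κ, t < ρ0 := fun t ht => lt_of_lt_of_le (hκ.ts ht).2 hsβ
  obtain ⟨-, -, -, hXd, -, -, hlc⟩ := hFLD a b κ χ ha hb hab hκ.c1 hκ.cs
    (fun t ht => hκpos t ht) hm.c1 hm.cs hm.ts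
  obtain ⟨J, hJ⟩ : ∃ J, J = ∫ t, κ t / t := ⟨_, rfl⟩
  -- the two halves
  obtain ⟨gp, hgp⟩ : ∃ gp : E3 → ℝ, gp = fun y => κ ‖y‖ * lp (UU a b y) * q2 a b y / ‖y‖ :=
    ⟨_, rfl⟩
  obtain ⟨gm, hgm⟩ : ∃ gm : E3 → ℝ, gm = fun y => κ ‖y‖ * lm (UU a b y) * q2 a b y / ‖y‖ :=
    ⟨_, rfl⟩
  have hip : Integrable gp ∧ ∫ y, gp y = 2 * Real.pi * J * (-1) := by
    rw [hgp, hJ, ← hlpi]
    exact hCV1 a b κ lp ha hb hab hκ.c1.continuous hκ.cs (fun t ht => hκpos t ht) hlp
  have him : Integrable gm ∧ ∫ y, gm y = 2 * Real.pi * J * 1 := by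
    rw [hgm, hJ, ← hlmi]
    exact hCV1 a b κ lm ha hb hab hκ.c1.continuous hκ.cs (fun t ht => hκpos t ht) hlm
  have hgpc : Continuous gp := by
    rw [hgp]
    exact hlc lp hlp
  have hgmc : Continuous gm := by
    rw [hgm]
    exact hlc lm hlm
  have hgp0 : ∀ y, ‖y‖ ∉ tsupport κ → gp y = 0 := fun y hy => by
    simp only [hgp, hκz' _ hy, zero_mul, zero_div]
  have hgm0 : ∀ y, ‖y‖ ∉ tsupport κ → gm y = 0 := fun y hy => by
    simp only [hgm, hκz' _ hy, zero_mul, zero_div]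
  have hgps : ∀ y, gp y ≤ 0 := by
    intro y
    rw [hgp]
    refine div_nonpos_of_nonpos_of_nonneg ?_ (norm_nonneg _)
    exact mul_nonpos_of_nonpos_of_nonneg
      (mul_nonpos_of_nonneg_of_nonpos (hκ.nn _) (hlps _)) (GEL_q2 ha hb y)
  have hgms : ∀ y, 0 ≤ gm y := by
    intro y
    rw [hgm]
    refine div_nonneg ?_ (norm_nonneg _)
    exact mul_nonneg (mul_nonneg (hκ.nn _) (hlms _)) (GEL_q2 ha hb y)
  have hD : ∀ y, divv (fld a b κ χ) y = (2 * Real.pi)⁻¹ * (gp y + gm y) := by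
    intro y
    rw [hXd, hlpm, hgp, hgm]
    by_cases hn : ‖y‖ = 0
    · simp [hn]
    · field_simp
  -- the logarithm
  obtain ⟨F, hF⟩ : ∃ F : E3 → ℝ, F = fun x => Real.exp (k * dlt c e (x - x0)) := ⟨_, rfl⟩
  have hFpos : ∀ x, 0 < F x := fun x => by
    rw [hF]
    exact Real.exp_pos _
  obtain ⟨L, hL⟩ : ∃ L : E3 → ℝ, L = fun y => Real.log (FS f x0 r0 m F (y + f x0)) := ⟨_, rfl⟩
  have hyb : ∀ y : E3, ‖y‖ < ρ0 → y + f x0 ∈ Metric.ball (f x0) ρ0 := fun y hy => by
    rw [mem_ball_iff_norm, add_sub_cancel_right]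
    exact hy
  have hFSpos : ∀ y ∈ Metric.ball (f x0) ρ0, 0 < FS f x0 r0 m F y := fun y hy =>
    ((hFS y hy).2.2.2.2 F).2.2.2.2.2.1 fun x _ => hFpos x
  have hFc : ContinuousOn F (UD f x0 r0 ρ0) := by
    rw [hF]
    refine Real.continuous_exp.comp_continuousOn (continuousOn_const.mul ?_)
    unfold dlt
    refine Real.continuous_arccos.comp_continuousOn (continuousOn_const.mul ?_)
    refine ContinuousOn.div ?_ ?_ ?_
    · exact (Continuous.inner (continuous_id.sub continuous_const) continuous_const).continuousOn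
    · exact (continuous_id.sub continuous_const).norm.continuousOn
    · intro x hx
      rw [norm_ne_zero_iff, sub_ne_zero]
      intro h
      have h1 := hx.2.1
      rw [h, sub_self, norm_zero] at h1
      exact lt_irrefl _ h1
  have hLc : ContinuousOn L {y : E3 | 0 < ‖y‖ ∧ ‖y‖ < ρ0} := by
    rw [hL]
    refine ContinuousOn.log ?_ (fun y hy => (hFSpos _ (hyb y hy.2)).ne')
    refine (hF4 F hFc).comp (continuous_id.add continuous_const).continuousOn ?_
    intro y hy
    show 0 < ‖y + f x0 - f x0‖ ∧ ‖y + f x0 - f x0‖ < ρ0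
    rw [add_sub_cancel_right]
    exact hy
  -- integrability
  have hcomp : IsCompact {y : E3 | ‖y‖ ∈ tsupport κ} := by
    refine (isCompact_closedBall (0 : E3) ρ0).of_isClosed_subset
      ((isClosed_tsupport κ).preimage continuous_norm) ?_
    intro y hy
    rw [mem_closedBall_zero_iff]
    exact (hκρ _ hy).le
  have hint : ∀ g : E3 → ℝ, Continuous g → (∀ y, ‖y‖ ∉ tsupport κ → g y = 0) →
      Integrable (fun y => L y * g y) := by
    intro g hg hg0
    have h1 : IntegrableOn (fun y => L y * g y) {y : E3 | ‖y‖ ∈ tsupport κ} := by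
      have h2 : ContinuousOn (fun y => L y * g y) {y : E3 | ‖y‖ ∈ tsupport κ} :=
        ContinuousOn.mul (hLc.mono fun y hy => ⟨hκpos _ hy, hκρ _ hy⟩) hg.continuousOn
      exact h2.integrableOn_compact hcomp
    refine (integrableOn_iff_integrable_of_support_subset ?_).1 h1
    intro y hy
    by_contra h
    exact hy (by simp only [hg0 y h, mul_zero])
  -- pointwise bounds
  have hup : ∀ y, gm y ≠ 0 → L y ≤ Real.log m + k * ε1 := by
    intro y hy
    rw [hgm] at hy
    have hk1 : κ ‖y‖ ≠ 0 := fun h => hy (by simp only [h, zero_mul, zero_div])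
    have hl : lm (UU a b y) ≠ 0 := fun h => hy (by simp only [h, zero_mul, mul_zero, zero_div])
    have hy1 := hκne _ hk1
    have hy2 : ‖y‖ ∈ Icc (s * Real.exp (-β)) (s * Real.exp β) :=
      ⟨(hκ.ts hy1).1.le, (hκ.ts hy1).2.le⟩
    have hy3 : UU a b y ≤ -1 + η := hlm0 _ hl
    have hyn : y ≠ 0 := fun h => by
      have h1 := hκpos _ hy1
      rw [h, norm_zero] at h1
      exact lt_irrefl _ h1
    have hyB := hyb y (hκρ _ hy1)
    have h3 : FS f x0 r0 m F (y + f x0) ≤ m * Real.exp (k * ε1) := by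
      refine ((hFS _ hyB).2.2.2.2 F).2.2.2.1 _ fun x hx => ?_
      have hxy' : f x - f x0 = y := by
        rw [hx.2, add_sub_cancel_right]
      have hne : x - x0 ≠ 0 := by
        intro h
        rw [sub_eq_zero.1 h, sub_self] at hxy'
        exact hyn hxy'.symm
      have h1 : dlt c e (x - x0) ≤ ε1 :=
        GEL_up hc hε2 hne (hneg x hx.1 (by rw [hxy']; exact hy2) (by rw [hxy']; exact hy3))
      rw [hF]
      exact Real.exp_le_exp.2 (mul_le_mul_of_nonneg_left h1 hk.le)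
    rw [hL]
    refine (Real.log_le_log (hFSpos _ hyB) h3).trans (le_of_eq ?_)
    rw [Real.log_mul hm2.ne' (Real.exp_pos _).ne', Real.log_exp]
  have hlo : ∀ y, gp y ≠ 0 → k * (Real.pi - ε1) ≤ L y := by
    intro y hy
    rw [hgp] at hy
    have hk1 : κ ‖y‖ ≠ 0 := fun h => hy (by simp only [h, zero_mul, zero_div])
    have hl : lp (UU a b y) ≠ 0 := fun h => hy (by simp only [h, zero_mul, mul_zero, zero_div])
    have hy1 := hκne _ hk1
    have hy2 : ‖y‖ ∈ Icc (s * Real.exp (-β)) (s * Real.exp β) :=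
      ⟨(hκ.ts hy1).1.le, (hκ.ts hy1).2.le⟩
    have hy3 : 1 - η ≤ UU a b y := hlp0 _ hl
    have hyB := hyb y (hκρ _ hy1)
    obtain ⟨x, hx, hxn, hxy, hxe⟩ := hpos y hy2 hy3
    have h1 : Real.pi - ε1 ≤ dlt c e (x - x0) := GEL_lo hc hε2 (sub_ne_zero.2 hxn) hxe
    have h3 : Real.exp (k * (Real.pi - ε1)) ≤ FS f x0 r0 m F (y + f x0) := by
      have h4 : Real.exp (k * (Real.pi - ε1)) ≤ F x := by
        rw [hF]
        exact Real.exp_le_exp.2 (mul_le_mul_of_nonneg_left h1 hk.le)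
      refine h4.trans (((hFS _ hyB).2.2.2.2 F).2.2.1 (fun x _ => (hFpos x).le) x ⟨hx, ?_⟩)
      rw [hxy, add_comm]
    rw [hL]
    have h7 := Real.log_le_log (Real.exp_pos _) h3
    rwa [Real.log_exp] at h7
  -- the two estimates
  have hA : k * (Real.pi - ε1) * (2 * Real.pi * J) ≤ -∫ y, L y * gp y := by
    have h1 : ∫ y, L y * gp y ≤ ∫ y, k * (Real.pi - ε1) * gp y := by
      refine integral_mono (hint gp hgpc hgp0) (hip.1.const_mul _) fun y => ?_
      by_cases h : gp y = 0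
      · simp only [h, mul_zero, le_refl]
      · exact mul_le_mul_of_nonpos_right (hlo y h) (hgps y)
    rw [integral_const_mul, hip.2] at h1
    linarith
  have hBB : ∫ y, L y * gm y ≤ (Real.log m + k * ε1) * (2 * Real.pi * J) := by
    have h1 : ∫ y, L y * gm y ≤ ∫ y, (Real.log m + k * ε1) * gm y := by
      refine integral_mono (hint gm hgmc hgm0) (him.1.const_mul _) fun y => ?_
      by_cases h : gm y = 0
      · simp only [h, mul_zero, le_refl]
      · exact mul_le_mul_of_nonneg_right (hup y h) (hgms y)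
    rw [integral_const_mul, him.2] at h1
    linarith
  have hC : ∫ y, L y * divv (fld a b κ χ) y =
      (2 * Real.pi)⁻¹ * ((∫ y, L y * gp y) + ∫ y, L y * gm y) := by
    rw [← integral_add (hint gp hgpc hgp0) (hint gm hgmc hgm0), ← integral_const_mul]
    refine integral_congr_ae (Eventually.of_forall fun y => ?_)
    simp only [hD]
    ring
  have hgoal : (k * (Real.pi - 2 * ε1) - Real.log m) * J ≤ -∫ y, L y * divv (fld a b κ χ) y := by
    rw [hC]
    have h1 : (k * (Real.pi - 2 * ε1) - Real.log m) * (2 * Real.pi * J) ≤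
        -((∫ y, L y * gp y) + ∫ y, L y * gm y) := by
      have h2 : (k * (Real.pi - 2 * ε1) - Real.log m) * (2 * Real.pi * J) =
          k * (Real.pi - ε1) * (2 * Real.pi * J) -
            (Real.log m + k * ε1) * (2 * Real.pi * J) := by ring
      linarith
    have h3 := mul_le_mul_of_nonneg_left h1 (inv_nonneg.2 (by positivity : 0 ≤ 2 * Real.pi))
    have h4 : (2 * Real.pi)⁻¹ * ((k * (Real.pi - 2 * ε1) - Real.log m) * (2 * Real.pi * J)) =
        (k * (Real.pi - 2 * ε1) - Real.log m) * J := by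
      field_simp
    rw [h4] at h3
    linarith
  rw [hJ, hL, hF] at hgoal
  exact hgoal

end Pool.GQ
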