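import Pool.Agent.Work.MP_680515_gq.Interface

/-!
# MP_680515_an, THEOREM GQ: block GEU
-/

open MeasureTheory Set Filter Topology

namespace Pool.GQ

open Pool.Mart Pool.Flat Pool.SQ

theorem GEU_grad (c k : ℝ) (e X : E3) (hd : DifferentiableAt ℝ (dlt c e) X) :
    gradv (fun X => Real.exp (k * dlt c e X)) X
      = (k * Real.exp (k * dlt c e X)) • gradv (dlt c e) X := by
  have h1 : HasFDerivAt (fun X => Real.exp (k * dlt c e X))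
      (Real.exp (k * dlt c e X) • (k • fderiv ℝ (dlt c e) X)) X :=
    (hd.hasFDerivAt.const_mul k).exp
  have h2 : fderiv ℝ (fun X => Real.exp (k * dlt c e X)) X
      = Real.exp (k * dlt c e X) • (k • fderiv ℝ (dlt c e) X) := h1.fderiv
  ext j
  simp only [gradv, PiLp.smul_apply, smul_eq_mul]
  rw [h2]
  simp only [smul_apply, smul_eq_mul]
  ring

theorem GEU_gradb (c k : ℝ) (e X : E3) (hk : 0 < k) (hd : DifferentiableAt ℝ (dlt c e) X)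
    (hn : ‖gradv (dlt c e) X‖ ≤ ‖X‖⁻¹) :
    ‖gradv (fun X => Real.exp (k * dlt c e X)) X‖ ≤ k * Real.exp (k * dlt c e X) * ‖X‖⁻¹ := by
  rw [GEU_grad c k e X hd, norm_smul, Real.norm_of_nonneg (by positivity)]
  exact mul_le_mul_of_nonneg_left hn (by positivity)

theorem GEU_dn (a y : E3) (ha : ‖a‖ = 1) : 0 ≤ dn a y := by
  have h := real_inner_le_norm y a
  rw [ha, mul_one] at h
  unfold dn
  linarith

theorem GEU_sq2 (a b y : E3) (ha : ‖a‖ = 1) (hb : ‖b‖ = 1) : 0 ≤ sq2 a b y := by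
  have h := real_inner_le_norm a b
  rw [ha, hb, mul_one] at h
  unfold sq2
  exact div_nonneg (by linarith)
    (mul_nonneg (mul_nonneg two_pos.le (GEU_dn a y ha)) (GEU_dn b y hb))

/-- the estimate at one point -/
theorem GEU_pt (hBAS : Pool.Mart.Stmt_BAS) (A : M3) (Z G Y : E3) (Q F k n κ m s2 v : ℝ)
    (hQ : 0 < Q) (_hF : 0 ≤ F) (hk : 0 < k) (hn : 0 < n) (hY : 0 < ‖Y‖) (hκ : 0 ≤ κ)
    (hv : v = m * (‖Y‖ * s2)) (hm : 0 ≤ m) (hs : 0 ≤ s2)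
    (hG : ‖G‖ ≤ k * F * n⁻¹) (hZ : ‖Z‖ ≤ |κ| * |m| / (2 * Real.pi * ‖Y‖) * s2) :
    cpair A (Q⁻¹ • Z) G ≤ k / (2 * Real.pi) * (κ * (F / Q * v * opn (cofm A) / (‖Y‖ ^ 2 * n))) := by
  obtain ⟨hB1, -, hB3, -⟩ := hBAS
  have hN : 0 ≤ opn (cofm A) := norm_nonneg _
  have hpi := Real.pi_pos
  rw [hB3]
  calc inner ℝ (Q⁻¹ • Z) (act (cofm A) G) ≤ ‖Q⁻¹ • Z‖ * ‖act (cofm A) G‖ := real_inner_le_norm _ _
    _ = Q⁻¹ * ‖Z‖ * ‖act (cofm A) G‖ := by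
        rw [norm_smul, Real.norm_of_nonneg (by positivity)]
    _ ≤ Q⁻¹ * (|κ| * |m| / (2 * Real.pi * ‖Y‖) * s2) * (opn (cofm A) * (k * F * n⁻¹)) := by
        refine mul_le_mul (mul_le_mul_of_nonneg_left hZ (by positivity))
          ((hB1 _ _).trans (mul_le_mul_of_nonneg_left hG hN)) (norm_nonneg _) (by positivity)
    _ = k / (2 * Real.pi) * (κ * (F / Q * v * opn (cofm A) / (‖Y‖ ^ 2 * n))) := by
        rw [hv, abs_of_nonneg hκ, abs_of_nonneg hm]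
        field_simp

theorem GEU_ne {f : E3 → E3} {x0 : E3} {r0 ρ0 : ℝ} {x : E3} (hx : x ∈ UD f x0 r0 ρ0) :
    x ≠ x0 := by
  intro h
  have h1 : 0 < ‖f x - f x0‖ := hx.2.1
  rw [h, sub_self, norm_zero] at h1
  exact lt_irrefl _ h1

theorem p_GEU (hGLI : Stmt_GLI) (hDEL : Pool.SQ.Stmt_DEL) (hGWT : Stmt_GWT)
    (hVSM : Pool.SQ.Stmt_VSM) (hGIN : Stmt_GIN) (hFLD : Pool.Flat.Stmt_FLD)
    (hBAS : Pool.Mart.Stmt_BAS) (hGSC : Stmt_GSC) (_hCPT : Stmt_CPT) : Stmt_GEU := by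
  intro Ω f A x0 r0 ρ0 m S hNP e a b c k κ χ he ha hb hab hc hc1 hk hκ hχ
  obtain ⟨hd1, -, hd3⟩ := hDEL c e hc hc1 he
  have hκI : tsupport κ ⊆ Ioi 0 := fun s hs => (hκ.ts hs).1
  have hκc : Continuous κ := hκ.c1.continuous
  obtain ⟨hZ1, hZ2, hZ3, -, hZ5, -⟩ :=
    hFLD a b κ χ ha hb hab hκ.c1 hκ.cs hκI hχ.c1 hχ.cs hχ.ts
  obtain ⟨hv1, -⟩ := hVSM a b χ κ ha hb hab hχ hκc hκ.nn hκ.cs hκI
  obtain ⟨-, -, hfc, -⟩ := hGSC Ω f A x0 r0 ρ0 m S hNP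
  have hFc : ContDiffOn ℝ 1 (fun X => Real.exp (k * dlt c e X)) {0}ᶜ :=
    (contDiffOn_const.mul hd1).exp
  have hFp : ∀ X, 0 < (fun X => Real.exp (k * dlt c e X)) X := fun X => Real.exp_pos _
  obtain ⟨hw1, -, -, hw4⟩ := hGWT Ω f A x0 r0 ρ0 m S hNP _ hFc.continuousOn hFp
  obtain ⟨hL1, hL2⟩ := hGLI Ω f A x0 r0 ρ0 m S hNP (fun X => Real.exp (k * dlt c e X))
    (fld a b κ χ) hFc hFp hZ1 hZ2 (fun y hy => hκ.ts (hZ3 y hy))
  have hY0 : ∀ x ∈ UD f x0 r0 ρ0, f x - f x0 ∈ ({0}ᶜ : Set E3) := fun x hx =>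
    norm_pos_iff.1 hx.2.1
  have hg : ContinuousOn (fun x => wq f x0 r0 m (fun X => Real.exp (k * dlt c e X)) x
      * vs a b χ (f x - f x0) / (‖f x - f x0‖ ^ 2 * ‖x - x0‖))
      (UD f x0 r0 ρ0) := by
    have hYc : ContinuousOn (fun x => f x - f x0) (UD f x0 r0 ρ0) :=
      hfc.sub continuousOn_const
    refine (hw1.mul (hv1.comp hYc hY0)).div ((hYc.norm.pow 2).mul
      (continuousOn_id.sub continuousOn_const).norm) fun x hx => ?_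
    have h1 : 0 < ‖f x - f x0‖ := hx.2.1
    have h2 : x ≠ x0 := GEU_ne hx
    have h3 : 0 < ‖x - x0‖ := norm_pos_iff.2 (sub_ne_zero.2 h2)
    exact (mul_pos (pow_pos h1 2) h3).ne'
  obtain ⟨-, -, hI3⟩ := (hGIN Ω f A x0 r0 ρ0 m S hNP κ hκc hκ.cs hκ.ts).1 _ hg
  have hfun : (fun x => κ ‖f x - f x0‖ *
      (wq f x0 r0 m (fun X => Real.exp (k * dlt c e X)) x * vs a b χ (f x - f x0)
        * opn (cofm (A x)) / (‖f x - f x0‖ ^ 2 * ‖x - x0‖)))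
      = fun x => κ ‖f x - f x0‖ *
      (wq f x0 r0 m (fun X => Real.exp (k * dlt c e X)) x
      * vs a b χ (f x - f x0) / (‖f x - f x0‖ ^ 2 * ‖x - x0‖)
        * opn (cofm (A x))) := by
    funext x
    ring
  rw [hfun]
  refine ⟨hI3, ?_⟩
  rw [← hL2, ← integral_const_mul]
  refine setIntegral_mono_on hL1 (hI3.const_mul _) measurableSet_ball fun x hx => ?_
  by_cases hκ0 : κ ‖f x - f x0‖ = 0
  · have hz : fld a b κ χ (f x - f x0) = 0 := by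
      unfold fld
      rw [hκ0, zero_mul, zero_div, zero_smul]
    rw [hz, smul_zero, hBAS.2.2.1, inner_zero_left, hκ0, zero_mul, mul_zero]
  · have h1 : ‖f x - f x0‖ ∈ Ioo 0 ρ0 := hκ.ts (subset_tsupport κ hκ0)
    have hxU : x ∈ UD f x0 r0 ρ0 := ⟨hx, h1.1, h1.2⟩
    have h2 : x ≠ x0 := GEU_ne hxU
    have h3 : x - x0 ≠ 0 := sub_ne_zero.2 h2
    have hV : f x ∈ VD f x0 ρ0 := ⟨h1.1, h1.2⟩
    have hdiff : DifferentiableAt ℝ (dlt c e) (x - x0) :=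
      (hd1.differentiableOn one_ne_zero).differentiableAt (isOpen_compl_singleton.mem_nhds h3)
    have h4 := GEU_pt hBAS (A x) (fld a b κ χ (f x - f x0))
      (gradv (fun X => Real.exp (k * dlt c e X)) (x - x0)) (f x - f x0)
      (FS f x0 r0 m (fun x => Real.exp (k * dlt c e (x - x0))) (f x))
      (Real.exp (k * dlt c e (x - x0))) k ‖x - x0‖ (κ ‖f x - f x0‖)
      (χ (UU a b (f x - f x0))) (sq2 a b (f x - f x0) ^ (1 / 2 : ℝ))
      (vs a b χ (f x - f x0)) (hw4 _ hV) (Real.exp_pos _).le hk (norm_pos_iff.2 h3) h1.1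
      (hκ.nn _) rfl (hχ.r01 _).1 ?_ (GEU_gradb c k e _ hk hdiff (hd3 _ h3)) (hZ5 _)
    · refine h4.trans (le_of_eq ?_)
      unfold wq
      ring
    · exact Real.rpow_nonneg (GEU_sq2 a b _ ha hb) _

end Pool.GQ
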