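import Pool.Agent.Work.MP_680515_gq.Interface

/-!
# MP_680515_an, THEOREM GQ: block GEV (the length inequality at a level)
-/

set_option autoImplicit false

open MeasureTheory Set Filter Topology

namespace Pool.GQ

open Pool.Mart Pool.Flat Pool.SQ

theorem p_GEV (hGGE : Stmt_GGE) (hCTN : Pool.SQ.Stmt_CTN) (hGEU : Stmt_GEU) (hGEL : Stmt_GEL)
    (hDEL : Pool.SQ.Stmt_DEL) : Stmt_GEV := by
  intro Ω f A x0 r0 ρ0 m S hNP ε hε s hs
  obtain ⟨e, a, b, he, ha, hb, hab, hE⟩ := hGGE Ω f A x0 r0 ρ0 m S hNP s hs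
  have hpi := Real.pi_gt_three
  -- the angle
  obtain ⟨θ, hθ0, hθ1, hθε⟩ : ∃ θ : ℝ, 0 < θ ∧ θ ≤ 1 ∧ θ ≤ ε / 8 :=
    ⟨min 1 (ε / 8), lt_min one_pos (by linarith), min_le_left _ _, min_le_right _ _⟩
  have hcos1 : Real.cos θ < 1 := by
    have h1 := Real.cos_lt_cos_of_nonneg_of_le_pi le_rfl (show θ ≤ Real.pi by linarith) hθ0
    rwa [Real.cos_zero] at h1
  have hcos0 : 0 < Real.cos θ :=
    Real.cos_pos_of_mem_Ioo ⟨by linarith, by linarith⟩
  set c : ℝ := (1 + Real.cos θ) / 2 with hc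
  have hc0 : 0 < c := by rw [hc]; linarith
  have hc1 : c < 1 := by rw [hc]; linarith
  have hac : Real.arccos (c * (1 - (1 - c))) ≤ ε / 8 := by
    have h1 : Real.cos θ ≤ c * (1 - (1 - c)) := by
      rw [hc]
      nlinarith [sq_nonneg (1 - Real.cos θ)]
    have h2 := Real.arccos_le_arccos h1
    rw [Real.arccos_cos hθ0.le (by linarith)] at h2
    linarith
  have hm2 : (2 : ℝ) ≤ m := by exact_mod_cast hNP.two
  have hlog : 0 < Real.log m := Real.log_pos (by linarith)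
  set k : ℝ := 4 * Real.log m / ε with hk
  have hk0 : 0 < k := by positivity
  have hkε : Real.log m = k * (ε / 4) := by
    rw [hk]
    field_simp
  obtain ⟨β, η, hβ, hsβ, hη, hη2, hE1, hE2⟩ := hE (1 - c) (by linarith)
  obtain ⟨χ, hm, hmd, hm1, hm2', hm3, hm4⟩ := hCTN η hη hη2
  have hs0 : 0 < s := hs.1
  refine ⟨a, b, fun X => Real.exp (k * dlt c e X), χ, β, ha, hb, hab, ?_,
    fun X => Real.exp_pos _, hm, hβ, hsβ, fun κ hκ => ?_⟩
  · exact ((hDEL c e hc0 hc1 he).1.continuousOn.const_mul k).rexp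
  have hsm : 0 < s * Real.exp (-β) := mul_pos hs0 (Real.exp_pos _)
  have hκ' : Kap 0 ρ0 κ := by
    refine ⟨hκ.c1, hκ.nn, hκ.cs, hκ.ts.trans ?_⟩
    intro t ht
    exact ⟨hsm.trans ht.1, ht.2.trans_le hsβ.le⟩
  have hU := hGEU Ω f A x0 r0 ρ0 m S hNP e a b c k κ χ he ha hb hab hc0 hc1 hk0 hκ' hm
  have hL := hGEL Ω f A x0 r0 ρ0 m S hNP e a b c k (1 - c) (ε / 8) s β η κ χ he ha hb hab hc0 hc1
    hk0 (by linarith) (by linarith) hac hs0 hβ hsβ.le hη hη2 hE1 hE2 hm hmd hm1 hm2' hm3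
    hm4 hκ
  have hT : 0 ≤ ∫ t, κ t / t := by
    refine integral_nonneg fun t => ?_
    change 0 ≤ κ t / t
    rcases le_or_gt t 0 with ht | ht
    · have h0 : κ t = 0 := by
        refine image_eq_zero_of_notMem_tsupport fun h => ?_
        have := (hκ.ts h).1
        linarith
      rw [h0, zero_div]
    · exact div_nonneg (hκ.nn t) ht.le
  refine ⟨hU.1, ?_⟩
  have h1 := hL.trans hU.2
  set I : ℝ := ∫ x in Metric.ball x0 r0, κ ‖f x - f x0‖ *
        (wq f x0 r0 m (fun X => Real.exp (k * dlt c e X)) x * vs a b χ (f x - f x0)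
          * opn (cofm (A x)) / (‖f x - f x0‖ ^ 2 * ‖x - x0‖)) with hI
  have h2 : k * (Real.pi - ε / 2) * ∫ t, κ t / t ≤ k / (2 * Real.pi) * I := by
    have h3 : k * (Real.pi - 2 * (ε / 8)) - Real.log m = k * (Real.pi - ε / 2) := by
      rw [hkε]
      ring
    rwa [h3] at h1
  have h4 : 2 * Real.pi * (Real.pi - ε / 2) * ∫ t, κ t / t ≤ I := by
    have h5 : k * (Real.pi - ε / 2) * ∫ t, κ t / t =
        k / (2 * Real.pi) * (2 * Real.pi * (Real.pi - ε / 2) * ∫ t, κ t / t) := by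
      field_simp
    rw [h5] at h2
    exact le_of_mul_le_mul_left h2 (by positivity)
  refine le_trans ?_ h4
  have h6 : Real.pi - ε ≤ Real.pi - ε / 2 := by linarith
  exact mul_le_mul_of_nonneg_right (mul_le_mul_of_nonneg_left h6 (by positivity)) hT

end Pool.GQ
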