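import Pool.Agent.Work.MP_680515_gq.Interface

/-!
# MP_680515_an, THEOREM GQ, block GFN: the end of the proof
-/

open MeasureTheory Set Filter Topology

namespace Pool.GQ

open Pool.Mart Pool.Flat Pool.SQ

theorem p_GFN (hGNP : Stmt_GNP) (hGKY : Stmt_GKY) (hGBD : Stmt_GBD)
    (hLIN4 : Pool.Mart.Stmt_LIN4) : Stmt_GFN := by
  intro Ω f A K hΩ hq hop hdsc hli hK
  by_contra hcon
  have hK1 : K ≤ 283 / 200 := not_lt.1 hcon
  have hdist : InnerDist Ω A (283 / 200) := by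
    filter_upwards [hK] with x hx
    exact hx.trans (mul_le_mul_of_nonneg_right hK1 (sq_nonneg _))
  obtain ⟨K', hK'1, hK'⟩ := hq.qr
  have hod : OD Ω f A := by
    refine ⟨hΩ, hq.cont, hq.wg, ?_, hdist, hop, hdsc⟩
    filter_upwards [hK', hdist] with x h1 h2
    exact hLIN4 (A x) K' hK'1 h1
      (h2.trans (mul_le_mul_of_nonneg_right (by norm_num) (sq_nonneg _)))
  obtain ⟨x0, r0, ρ0, m, S, hN⟩ := hGNP Ω f A hod hli
  have hkey := hGKY Ω f A x0 r0 ρ0 m S hN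
  obtain ⟨C, t0, ht0, ht0', hbnd⟩ := hGBD Ω f A x0 r0 ρ0 m S hN
  set t2 : ℝ := t0 with ht2
  have ht2pos : 0 < t2 := ht0
  obtain ⟨n, hn⟩ := exists_nat_gt (max 3 (200 * C + 2))
  have hn3 : (3 : ℝ) < n := lt_of_le_of_lt (le_max_left _ _) hn
  have hnC : 200 * C + 2 < n := lt_of_le_of_lt (le_max_right _ _) hn
  have ht1pos : 0 < Real.exp (-(n : ℝ)) * t2 := mul_pos (Real.exp_pos _) ht2pos
  have hlt : Real.exp 2 * (Real.exp (-(n : ℝ)) * t2) < t2 := by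
    rw [← mul_assoc, ← Real.exp_add]
    have : Real.exp (2 + -(n : ℝ)) < 1 := by
      rw [Real.exp_lt_one_iff]
      linarith
    nlinarith
  obtain ⟨κ, hκ1, hκ2, hκ3, hκ4, hκ5, hκ6⟩ :=
    hbnd (Real.exp (-(n : ℝ)) * t2) t2 ht1pos hlt le_rfl
  have hlog : Real.log (t2 / (Real.exp (-(n : ℝ)) * t2)) = n := by
    have : t2 / (Real.exp (-(n : ℝ)) * t2) = Real.exp n := by
      rw [Real.exp_neg]
      field_simp
    rw [this, Real.log_exp]
  rw [hlog] at hκ5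
  have hKap : Kap 0 ρ0 κ := by
    refine ⟨hκ1, hκ2, hκ3, fun s hs => ?_⟩
    have := hκ4 hs
    exact ⟨lt_of_lt_of_le ht1pos this.1, lt_of_le_of_lt this.2 ht0'⟩
  have h1 := hkey κ hKap
  have h2 : 1 / 200 * ((n : ℝ) - 2) ≤ C := by
    refine le_trans (le_trans ?_ h1) hκ6
    exact mul_le_mul_of_nonneg_left hκ5 (by norm_num)
  linarith

end Pool.GQ
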