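import Pool.Agent.Work.MP_680515_gq.Interface

/-!
# MP_680515_an, THEOREM GQ: block GGE (the two directions at a level)
-/

open MeasureTheory Set Filter Topology

namespace Pool.GQ

open Pool.Mart Pool.Flat Pool.SQ

theorem GGE_un {x : E3} (hx : x ≠ 0) : ‖un x‖ = 1 := by
  unfold un
  rw [norm_smul, norm_inv, norm_norm, inv_mul_cancel₀ (norm_ne_zero_iff.2 hx)]

theorem GGE_smul {x : E3} (hx : x ≠ 0) : ‖x‖ • un x = x := by
  unfold un
  rw [smul_smul, mul_inv_cancel₀ (norm_ne_zero_iff.2 hx), one_smul]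

theorem GGE_ray {Ω : Set E3} {f : E3 → E3} {A : E3 → M3} {x0 : E3} {r0 ρ0 : ℝ} {m : ℕ}
    {S : Set E3} (h : NP Ω f A x0 r0 ρ0 m S) {e : E3} (he : ‖e‖ = 1)
    {s : ℝ} (hs : 0 < s) (hs' : s < ρ0) :
    ∃ t : ℝ, 0 < t ∧ x0 - t • e ∈ Metric.ball x0 r0 ∧ ‖f (x0 - t • e) - f x0‖ = s := by
  have hr0 : (0 : ℝ) ≤ r0 := h.rpos.le
  have hn : ∀ t : ℝ, 0 ≤ t → ‖x0 - t • e - x0‖ = t := by
    intro t ht
    rw [sub_sub_cancel_left, norm_neg, norm_smul, he, mul_one, Real.norm_eq_abs, abs_of_nonneg ht]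
  have hsrc : ∀ t ∈ Icc (0 : ℝ) r0, x0 - t • e ∈ Ω := by
    intro t ht
    apply h.sub
    rw [mem_closedBall_iff_norm, hn t ht.1]
    exact ht.2
  have hgc : ContinuousOn (fun t : ℝ => ‖f (x0 - t • e) - f x0‖) (Icc 0 r0) :=
    ((h.cont.comp (f := fun t : ℝ => x0 - t • e) (by fun_prop) hsrc).sub continuousOn_const).norm
  have h6 : s ∈ Icc (‖f (x0 - (0 : ℝ) • e) - f x0‖)
      (‖f (x0 - r0 • e) - f x0‖) := by
    refine ⟨?_, ?_⟩
    · rw [zero_smul, sub_zero, sub_self, norm_zero]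
      exact hs.le
    · exact hs'.le.trans (h.sph _ (hn r0 hr0)).le
  obtain ⟨t, ht, hts⟩ := intermediate_value_Icc hr0 hgc h6
  have ht0 : 0 < t := by
    refine lt_of_le_of_ne ht.1 ?_
    intro h0
    rw [← h0] at hts
    simp at hts
    linarith
  have htr : t < r0 := by
    refine lt_of_le_of_ne ht.2 ?_
    intro h0
    have h1 := h.sph (x0 - t • e) (by rw [hn t ht.1, h0])
    simp only at hts
    rw [hts] at h1
    linarith
  refine ⟨t, ht0, ?_, hts⟩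
  rw [mem_ball_iff_norm, hn t ht.1]
  exact htr

theorem p_GGE (hS : Stmt_GSL) (hC : Stmt_CPT) (h5 : Pool.Flat.Stmt_GL3) : Stmt_GGE := by
  intro Ω f A x0 r0 ρ0 m S h s hsm
  obtain ⟨hs0, hs1⟩ := hsm
  obtain ⟨z, hzS, hzb, hzs, hzf⟩ := hS Ω f A x0 r0 ρ0 m S h s ⟨hs0, hs1⟩
  obtain ⟨_, _, _, _, hpt, _, _⟩ := hC Ω f A x0 r0 ρ0 m S h
  have hzp : z - x0 ≠ 0 := by
    intro h0
    rw [sub_eq_zero] at h0
    rw [h0, sub_self, norm_zero] at hzs
    exact hs0.ne hzs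
  have he := GGE_un hzp
  have hez := GGE_smul hzp
  set e := un (z - x0) with he_def
  obtain ⟨t, ht, hξb, hξ⟩ := GGE_ray h he hs0 hs1
  set ξ := x0 - t • e with hξ_def
  have hξp : ξ - x0 = -(t • e) := by
    rw [hξ_def]
    abel
  have hfz : f z - f x0 ≠ 0 := by
    rw [← norm_pos_iff, hzs]
    exact hs0
  have hfξ : f ξ - f x0 ≠ 0 := by
    rw [← norm_pos_iff, hξ]
    exact hs0
  have ha := GGE_un hfz
  have hb := GGE_un hfξ
  have haz := GGE_smul hfz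
  have hbξ := GGE_smul hfξ
  rw [hzs] at haz
  rw [hξ] at hbξ
  set a := un (f z - f x0) with ha_def
  set b := un (f ξ - f x0) with hb_def
  have hzn : 0 < ‖z - x0‖ := norm_pos_iff.2 hzp
  have hab : a ≠ b := by
    intro hab
    rw [hab, hbξ] at haz
    have h6 : f ξ = f z := sub_left_injective haz
    have h7 : ξ = z := by
      have h8 : ξ ∈ fib f x0 r0 (f z) := ⟨hξb, h6⟩
      rw [hzf] at h8
      exact h8
    have h8 : ‖z - x0‖ • e = -(t • e) := by rw [hez, ← hξp, h7]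
    have h9 : (‖z - x0‖ + t) • e = 0 := by
      rw [add_smul, h8]
      abel
    have h10 := congrArg norm h9
    rw [norm_smul, he, mul_one, norm_zero, Real.norm_eq_abs, abs_of_pos (by positivity)] at h10
    linarith
  refine ⟨e, a, b, he, ha, hb, hab, fun ε hε => ?_⟩
  -- near z
  obtain ⟨s2, hs2, hz2⟩ : ∃ s2 : ℝ, 0 < s2 ∧ ∀ x ∈ Metric.ball x0 r0, ‖f x - f z‖ < s2 →
      (1 - ε) * ‖x - x0‖ ≤ inner ℝ (x - x0) e := by
    have hval : 0 < inner ℝ (z - x0) e - (1 - ε) * ‖z - x0‖ := by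
      have h6 : inner ℝ (z - x0) e = ‖z - x0‖ := by
        conv_lhs => rw [← hez]
        rw [real_inner_smul_left, real_inner_self_eq_norm_sq, he]
        ring
      rw [h6]
      nlinarith
    have hW : IsOpen {x : E3 | 0 < inner ℝ (x - x0) e - (1 - ε) * ‖x - x0‖} :=
      isOpen_lt (f := fun _ : E3 => (0 : ℝ))
        (g := fun x : E3 => inner ℝ (x - x0) e - (1 - ε) * ‖x - x0‖) (by fun_prop) (by fun_prop)
    have hzball : f z ∈ Metric.ball (f x0) ρ0 := by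
      rw [mem_ball_iff_norm, hzs]
      exact hs1
    obtain ⟨δ, hδ, h6⟩ := hpt (f z) hzball _ hW (by
      intro x hx
      rw [hzf] at hx
      rw [mem_singleton_iff.1 hx]
      exact hval)
    refine ⟨δ, hδ, fun x hx hx' => ?_⟩
    have h7 : 0 < inner ℝ (x - x0) e - (1 - ε) * ‖x - x0‖ := h6 x hx hx'
    linarith
  -- near ξ
  obtain ⟨s3, hs3, hξ3⟩ : ∃ s3 : ℝ, 0 < s3 ∧ ∀ y, ‖y - f ξ‖ < s3 →
      ∃ x ∈ Metric.ball x0 r0, x ≠ x0 ∧ f x = y ∧
        inner ℝ (x - x0) e ≤ -((1 - ε) * ‖x - x0‖) := by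
    let W : Set E3 := Metric.ball x0 r0 ∩
      {x | x ≠ x0 ∧ inner ℝ (x - x0) e < -((1 - ε) * ‖x - x0‖)}
    have hW : IsOpen W := by
      refine Metric.isOpen_ball.inter (IsOpen.inter isOpen_ne ?_)
      exact isOpen_lt (f := fun x : E3 => inner ℝ (x - x0) e)
        (g := fun x : E3 => -((1 - ε) * ‖x - x0‖)) (by fun_prop) (by fun_prop)
    have hWΩ : W ⊆ Ω := fun x hx => h.sub (Metric.ball_subset_closedBall hx.1)
    have hξW : ξ ∈ W := by
      refine ⟨hξb, ?_, ?_⟩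
      · intro h0
        apply hfξ
        rw [h0, sub_self]
      · rw [hξp, inner_neg_left, real_inner_smul_left, real_inner_self_eq_norm_sq, he, norm_neg,
          norm_smul, he, Real.norm_eq_abs, abs_of_pos ht]
        nlinarith
    obtain ⟨s3, hs3, hsub⟩ := Metric.isOpen_iff.1 (h.opm W hW hWΩ) (f ξ)
      ⟨ξ, hξW, rfl⟩
    refine ⟨s3, hs3, fun y hy => ?_⟩
    obtain ⟨x, hx, rfl⟩ := hsub (mem_ball_iff_norm.2 hy)
    exact ⟨x, hx.1, hx.2.1, rfl, hx.2.2.le⟩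
  -- the constants
  have hc' : 0 < min s2 s3 / (2 * s) := div_pos (lt_min hs2 hs3) (by positivity)
  obtain ⟨β0, η, hβ0, -, hη, hη2, hG⟩ := h5.2 _ hc'
  have hlog : 0 < Real.log (ρ0 / s) := Real.log_pos ((one_lt_div hs0).2 hs1)
  have hcs : min s2 s3 / (2 * s) * s = min s2 s3 / 2 := by
    field_simp
  have hmin : 0 < min s2 s3 := lt_min hs2 hs3
  refine ⟨min β0 (Real.log (ρ0 / s) / 2), η, lt_min hβ0 (by positivity), ?_, hη, hη2, ?_, ?_⟩
  · have h6 : Real.exp (min β0 (Real.log (ρ0 / s) / 2)) < ρ0 / s := by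
      rw [← Real.lt_log_iff_exp_lt (div_pos h.ρpos hs0)]
      have := min_le_right β0 (Real.log (ρ0 / s) / 2)
      linarith
    rw [lt_div_iff₀ hs0] at h6
    linarith
  · intro x hx hx1 hx2
    have hx3 : ‖f x - f x0‖ ∈ Icc (s * Real.exp (-β0)) (s * Real.exp β0) := by
      refine ⟨le_trans ?_ hx1.1, hx1.2.trans ?_⟩
      · exact mul_le_mul_of_nonneg_left (Real.exp_le_exp.2 (neg_le_neg (min_le_left _ _))) hs0.le
      · exact mul_le_mul_of_nonneg_left (Real.exp_le_exp.2 (min_le_left _ _)) hs0.le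
    have h6 := (hG a b _ s ha hb hab hs0 hx3).2 hx2
    apply hz2 x hx
    rw [hcs, haz, sub_sub_sub_cancel_right] at h6
    have h7 := min_le_left s2 s3
    linarith
  · intro y hy1 hy2
    have hy3 : ‖y‖ ∈ Icc (s * Real.exp (-β0)) (s * Real.exp β0) := by
      refine ⟨le_trans ?_ hy1.1, hy1.2.trans ?_⟩
      · exact mul_le_mul_of_nonneg_left (Real.exp_le_exp.2 (neg_le_neg (min_le_left _ _))) hs0.le
      · exact mul_le_mul_of_nonneg_left (Real.exp_le_exp.2 (min_le_left _ _)) hs0.le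
    have h6 := (hG a b y s ha hb hab hs0 hy3).1 hy2
    rw [hcs, hbξ] at h6
    apply hξ3
    have h7 : f x0 + y - f ξ = y - (f ξ - f x0) := by abel
    rw [h7]
    have h8 := min_le_right s2 s3
    linarith

end Pool.GQ
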