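import Pool.Agent.Work.MP_680515_gq.Interface

/-! # Block GGR (helper54): growth -/

open MeasureTheory Set Filter Topology

namespace Pool.GQ

open Pool.Mart Pool.Flat Pool.SQ

/-- the test function -/
theorem GGR_phi : ∃ Φ : E3 → ℝ, ContDiff ℝ 1 Φ ∧ HasCompactSupport Φ ∧ ∀ w : E3, ‖w‖ ≤ 1 → Φ w = w 0 := by
  let b : ContDiffBump (0 : E3) := ⟨1, 2, one_pos, one_lt_two⟩
  refine ⟨fun w => b w * w 0, ?_, ?_, ?_⟩
  · exact b.contDiff.mul (by fun_prop)
  · exact b.hasCompactSupport.mul_right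
  · intro w hw
    have h1 : b w = 1 := b.one_of_mem_closedBall (by
      rw [Metric.mem_closedBall, dist_zero_right]
      exact hw)
    simp only [h1, one_mul]

theorem GGR_grad (Φ : E3 → ℝ) (hΦ : ContDiff ℝ 1 Φ) (M : ℝ) (hM : 0 < M) (q z : E3) :
    gradv (fun z => M * Φ (M⁻¹ • (z - q))) z = gradv Φ (M⁻¹ • (z - q)) := by
  have h1 : HasFDerivAt (fun z : E3 => M⁻¹ • (z - q)) (M⁻¹ • ContinuousLinearMap.id ℝ E3) z :=
    ((hasFDerivAt_id z).sub_const q).const_smul M⁻¹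
  have h2 : HasFDerivAt Φ (fderiv ℝ Φ (M⁻¹ • (z - q))) (M⁻¹ • (z - q)) :=
    (hΦ.differentiable one_ne_zero _).hasFDerivAt
  have h3 : HasFDerivAt (fun z => M * Φ (M⁻¹ • (z - q)))
      (M • (fderiv ℝ Φ (M⁻¹ • (z - q)) ∘L (M⁻¹ • ContinuousLinearMap.id ℝ E3))) z := (h2.comp z h1).const_mul M
  have h4 : fderiv ℝ (fun z => M * Φ (M⁻¹ • (z - q))) z = fderiv ℝ Φ (M⁻¹ • (z - q)) := by
    rw [h3.fderiv]
    ext v
    simp only [_root_.smul_apply, ContinuousLinearMap.comp_apply, ContinuousLinearMap.id_apply, map_smul, smul_eq_mul]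
    rw [← mul_assoc, mul_inv_cancel₀ hM.ne', one_mul]
  unfold gradv
  rw [h4]

theorem GGR_int (Φ : E3 → ℝ) (hΦ : ContDiff ℝ 1 Φ) (M : ℝ) (hM : 0 < M) (q : E3) :
    ∫ z, ‖gradv (fun z => M * Φ (M⁻¹ • (z - q))) z‖ ^ 3 = M ^ 3 * ∫ z, ‖gradv Φ z‖ ^ 3 := by
  have h1 : (fun z => ‖gradv (fun z => M * Φ (M⁻¹ • (z - q))) z‖ ^ 3) = fun z => ‖gradv Φ (M⁻¹ • (z - q))‖ ^ 3 := by
    ext z
    rw [GGR_grad Φ hΦ M hM q z]
  rw [h1, integral_sub_right_eq_self (fun z => ‖gradv Φ (M⁻¹ • z)‖ ^ 3) q,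
    Measure.integral_comp_smul volume (fun z => ‖gradv Φ z‖ ^ 3) M⁻¹, finrank_euclideanSpace, Fintype.card_fin, smul_eq_mul]
  congr 1
  rw [inv_pow, inv_inv, abs_of_pos (by positivity)]

theorem GGR_ray {Ω : Set E3} {f : E3 → E3} (x0 : E3) (ρ : ℝ) (hρ : 0 < ρ) (hsub : Metric.closedBall x0 ρ ⊆ Ω)
    (hc : ContinuousOn f Ω) (hop : ∀ U : Set E3, IsOpen U → U ⊆ Ω → IsOpen (f '' U)) (e : E3) (he : ‖e‖ = 1) :
    ∃ (t : ℝ) (w : E3), 0 ≤ t ∧ ‖w - x0‖ = ρ ∧ f w = f x0 + t • e := by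
  have hK : IsCompact (f '' Metric.closedBall x0 ρ) := (isCompact_closedBall x0 ρ).image_of_continuousOn (hc.mono hsub)
  set T : Set ℝ := {t | 0 ≤ t ∧ f x0 + t • e ∈ f '' Metric.closedBall x0 ρ} with hT
  have hTc : IsCompact T := by
    obtain ⟨R, hR⟩ := hK.isBounded.subset_closedBall (f x0)
    refine (isCompact_Icc (a := (0 : ℝ)) (b := R)).of_isClosed_subset ?_ ?_
    · exact isClosed_Ici.inter (hK.isClosed.preimage (by fun_prop))
    · rintro t ⟨h0, h1⟩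
      refine ⟨h0, ?_⟩
      have := hR h1
      rwa [Metric.mem_closedBall, dist_eq_norm, add_sub_cancel_left, norm_smul, he, mul_one, Real.norm_eq_abs, abs_of_nonneg h0] at this
  have hne : T.Nonempty := ⟨0, le_rfl, x0, Metric.mem_closedBall_self hρ.le, by rw [zero_smul, add_zero]⟩
  obtain ⟨t, ⟨ht0, w, hw, hfw⟩, hmax⟩ := hTc.exists_isMaxOn hne continuousOn_id
  refine ⟨t, w, ht0, ?_, hfw⟩
  by_contra hne'
  have hwb : w ∈ Metric.ball x0 ρ := by
    rw [Metric.mem_closedBall, dist_eq_norm] at hw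
    rw [Metric.mem_ball, dist_eq_norm]
    exact lt_of_le_of_ne hw hne'
  have hV : IsOpen (f '' Metric.ball x0 ρ) := hop _ Metric.isOpen_ball (Metric.ball_subset_closedBall.trans hsub)
  have hpre : IsOpen {s : ℝ | f x0 + s • e ∈ f '' Metric.ball x0 ρ} := hV.preimage (by fun_prop)
  obtain ⟨ε, hε, hb⟩ := Metric.isOpen_iff.1 hpre t ⟨w, hwb, hfw⟩
  have h1 : t + ε / 2 ∈ T := by
    refine ⟨by linarith, image_mono Metric.ball_subset_closedBall (hb ?_)⟩
    rw [Metric.mem_ball, Real.dist_eq, add_sub_cancel_left, abs_of_pos (by linarith)]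
    linarith
  have h2 : t + ε / 2 ≤ t := hmax h1
  linarith

theorem p_GGR (h1 : Stmt_GHH) (h2 : Stmt_GME) (h3 : Stmt_CPT) (h4 : Pool.Flat.Stmt_CPG) : Stmt_GGR := by
  intro Ω f A x0 r0 ρ0 m S hN
  obtain ⟨H, R1, hH, hR1, hsubU, hGH⟩ := h1 Ω f A x0 r0 ρ0 m S hN
  obtain ⟨-, -, -, -, -, -, h7⟩ := h3 Ω f A x0 r0 ρ0 m S hN
  obtain ⟨s, hs, hs'⟩ := h7 R1 hR1
  have hEM := h2 Ω f A x0 r0 ρ0 m S hN
  obtain ⟨C, hC, hCPG⟩ := h4
  obtain ⟨Φ1, hΦ, hΦc, hΦ1⟩ := GGR_phi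
  have hI : 0 ≤ ∫ y, ‖gradv Φ1 y‖ ^ 3 := integral_nonneg fun y => by positivity
  set I := ∫ y, ‖gradv Φ1 y‖ ^ 3 with hId
  have hH0 : 0 < H := by linarith
  have hexp : 0 ≤ C * (4 * m) * I * (H ^ 2 * Real.exp 2 / 2) ^ 3 := by positivity
  refine ⟨Real.exp (C * (4 * m) * I * (H ^ 2 * Real.exp 2 / 2) ^ 3), min s (ρ0 / 2), Real.one_le_exp hexp,
    lt_min hs (by linarith [hN.ρpos]), lt_of_le_of_lt (min_le_right _ _) (by linarith [hN.ρpos]), ?_⟩
  intro x hx y hy hfx hfy hxy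
  have hxR := hs' x hx (hfx.trans (min_le_left _ _))
  have hyR := hs' y hy (hfy.trans (min_le_left _ _))
  by_cases hle : ‖x - x0‖ ≤ ‖y - x0‖
  · calc ‖x - x0‖ ≤ 1 * ‖y - x0‖ := by rw [one_mul]; exact hle
      _ ≤ _ := mul_le_mul_of_nonneg_right (Real.one_le_exp hexp) (norm_nonneg _)
  rw [not_le] at hle
  have hsubN : Metric.closedBall x0 r0 ⊆ Ω := hN.sub
  have hfx0 : 0 < ‖f x - f x0‖ := by
    rw [norm_pos_iff, sub_ne_zero]
    intro h
    have := hN.unq x (Metric.ball_subset_closedBall hx) h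
    rw [this, sub_self, norm_zero] at hle
    exact absurd hle (not_lt.2 (norm_nonneg _))
  have hd : 0 < ‖f y - f x0‖ := lt_of_lt_of_le (by positivity) hxy
  set d := ‖f y - f x0‖ with hdd
  have hy0 : 0 < ‖y - x0‖ := by
    rw [norm_pos_iff, sub_ne_zero]
    rintro rfl
    rw [hdd, sub_self, norm_zero] at hd
    exact lt_irrefl _ hd
  have hfxd : ‖f x - f x0‖ ≤ Real.exp 2 * d := by
    have h := mul_le_mul_of_nonneg_left hxy (Real.exp_pos 2).le
    rwa [← mul_assoc, ← Real.exp_add, add_neg_cancel, Real.exp_zero, one_mul] at h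
  set M := H * (Real.exp 2 * d) with hM
  have hM0 : 0 < M := by positivity
  have hball : ∀ w : E3, ‖w - x0‖ < R1 → w ∈ Metric.ball x0 R1 := fun w hw => by
    rw [Metric.mem_ball, dist_eq_norm]; exact hw
  have key : (2 * (d / H)) ^ 3 * Real.log (‖x - x0‖ / ‖y - x0‖) ≤
      C * (4 * m) * ∫ z, ‖gradv (fun z => M * Φ1 (M⁻¹ • (z - f x0))) z‖ ^ 3 := by
    refine hCPG (4 * m) (UU0 f x0 r0 ρ0) f A (fun z => M * Φ1 (M⁻¹ • (z - f x0))) x0 ‖y - x0‖ ‖x - x0‖ (2 * (d / H))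
      (by positivity) hEM ?_ ?_ hy0 hle ?_ (by positivity) ?_
    · exact contDiff_const.mul (hΦ.comp (by fun_prop))
    · have h5 : HasCompactSupport (fun z : E3 => Φ1 (M⁻¹ • (z - f x0))) := by
        have h6 : HasCompactSupport (fun z : E3 => Φ1 (M⁻¹ • z)) := hΦc.comp_smul (inv_ne_zero hM0.ne')
        exact h6.comp_homeomorph (Homeomorph.subRight (f x0))
      exact h5.mul_left
    · rintro z ⟨-, hz⟩
      apply hsubU
      rw [Metric.mem_closedBall, dist_eq_norm]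
      exact hz.trans hxR.le
    · rintro ρ ⟨hρ1, hρ2⟩
      have hρ : 0 < ρ := hy0.trans hρ1
      have hρs : Metric.closedBall x0 ρ ⊆ Ω := by
        intro z hz
        apply hsubN
        apply Metric.ball_subset_closedBall
        apply (hsubU _).1
        rw [Metric.mem_closedBall] at hz ⊢
        exact hz.trans (hρ2.trans hxR).le
      have hne : ‖(EuclideanSpace.single 0 1 : E3)‖ = 1 := by simp
      obtain ⟨t, w, ht, hw, hfw⟩ := GGR_ray x0 ρ hρ hρs hN.cont hN.opm (EuclideanSpace.single 0 1) hne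
      obtain ⟨t', w', ht', hw', hfw'⟩ := GGR_ray x0 ρ hρ hρs hN.cont hN.opm (-EuclideanSpace.single 0 1) (by rw [norm_neg]; exact hne)
      refine ⟨w, w', hw, hw', ?_⟩
      have bounds : ∀ (w : E3) (t : ℝ) (e : E3), ‖e‖ = 1 → 0 ≤ t → ‖w - x0‖ = ρ → f w = f x0 + t • e → d / H ≤ t ∧ t ≤ M := by
        intro w t e he ht hw hfw
        have hn : ‖f w - f x0‖ = t := by
          rw [hfw, add_sub_cancel_left, norm_smul, he, mul_one, Real.norm_eq_abs, abs_of_nonneg ht]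
        have hwb : w ∈ Metric.ball x0 R1 := hball w (by rw [hw]; exact hρ2.trans hxR)
        have b1 := hGH y (hball y hyR) w hwb (by rw [hw]; exact hρ1.le)
        have b2 := hGH w hwb x (hball x hxR) (by rw [hw]; exact hρ2.le)
        rw [hn] at b1 b2
        refine ⟨?_, ?_⟩
        · rw [div_le_iff₀ hH0, mul_comm]
          exact b1
        · exact b2.trans (mul_le_mul_of_nonneg_left hfxd hH0.le)
      obtain ⟨c1, c2⟩ := bounds w t _ hne ht hw hfw
      obtain ⟨c3, c4⟩ := bounds w' t' _ (by rw [norm_neg]; exact hne) ht' hw' hfw'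
      have e1 : M * Φ1 (M⁻¹ • (f w - f x0)) = t := by
        rw [hfw, add_sub_cancel_left, hΦ1]
        · simp
          field_simp
        · rw [norm_smul, norm_smul, hne, mul_one, Real.norm_eq_abs, Real.norm_eq_abs, abs_of_nonneg ht, abs_of_pos (inv_pos.2 hM0),
            inv_mul_le_iff₀ hM0, mul_one]
          exact c2
      have e2 : M * Φ1 (M⁻¹ • (f w' - f x0)) = -t' := by
        rw [hfw', add_sub_cancel_left, hΦ1]
        · simp
          field_simp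
        · rw [norm_smul, norm_smul, norm_neg, hne, mul_one, Real.norm_eq_abs, Real.norm_eq_abs, abs_of_nonneg ht', abs_of_pos (inv_pos.2 hM0),
            inv_mul_le_iff₀ hM0, mul_one]
          exact c4
      simp only [e1, e2]
      rw [sub_neg_eq_add, abs_of_nonneg (by linarith)]
      linarith
  rw [GGR_int Φ1 hΦ M hM0 (f x0), ← hId] at key
  have hlog : Real.log (‖x - x0‖ / ‖y - x0‖) ≤ C * (4 * m) * I * (H ^ 2 * Real.exp 2 / 2) ^ 3 := by
    have hδ : 0 < (2 * (d / H)) ^ 3 := by positivity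
    have h8 : (2 * (d / H)) ^ 3 * (C * (4 * m) * I * (H ^ 2 * Real.exp 2 / 2) ^ 3) = C * (4 * m) * (M ^ 3 * I) := by
      rw [hM]
      field_simp
    rw [← h8] at key
    exact le_of_mul_le_mul_left key hδ
  have h9 := Real.exp_le_exp.2 hlog
  rw [Real.exp_log (div_pos (hy0.trans hle) hy0), div_le_iff₀ hy0] at h9
  exact h9

end Pool.GQ
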