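import Pool.Agent.Work.MP_680515_gq.Interface

/-!
# MP_680515_an, THEOREM GQ: block GHH (weak quasisymmetry at the branch point)
-/

set_option autoImplicit false

open MeasureTheory Set Filter Topology

namespace Pool.GQ

open Pool.Mart Pool.Flat Pool.SQ

/-- The first exit of a path from a ball: a connected subset of `U ∩ closedBall x0 R` from `x` to the sphere. -/
lemma GHH_exit {U : Set E3} (hU : IsOpen U) (hUc : IsPreconnected U) {x0 x w : E3} {R : ℝ}
    (hx : x ∈ U) (hw : w ∈ U) (hxR : ‖x - x0‖ < R) (hwR : R < ‖w - x0‖) :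
    ∃ (F : Set E3) (q2 : E3), IsPreconnected F ∧ x ∈ F ∧ q2 ∈ F ∧ ‖q2 - x0‖ = R ∧
      (∀ z ∈ F, ‖z - x0‖ ≤ R ∧ z ∈ U) := by
  have hpc : IsPathConnected U := (hU.isConnected_iff_isPathConnected).1 ⟨⟨x, hx⟩, hUc⟩
  obtain ⟨γ, hγ⟩ := hpc.joinedIn x hx w hw
  set g : ℝ → E3 := fun t => γ.extend t with hg
  have hgc : Continuous g := γ.continuous_extend
  have hg0 : g 0 = x := γ.extend_zero
  have hg1 : g 1 = w := γ.extend_one
  have hgU : ∀ t ∈ Icc (0 : ℝ) 1, g t ∈ U := by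
    intro t ht
    have : g t = γ ⟨t, ht⟩ := γ.extend_apply ht
    rw [this]; exact hγ _
  set T : Set ℝ := {t | t ∈ Icc (0 : ℝ) 1 ∧ R ≤ ‖g t - x0‖} with hT
  have hnc : Continuous fun t => ‖g t - x0‖ := (hgc.sub continuous_const).norm
  have hTc : IsCompact T := by
    have : T = Icc (0 : ℝ) 1 ∩ {t | R ≤ ‖g t - x0‖} := rfl
    rw [this]
    exact isCompact_Icc.inter_right (isClosed_le continuous_const hnc)
  have hTn : T.Nonempty := ⟨1, ⟨zero_le_one, le_rfl⟩, by rw [hg1]; exact hwR.le⟩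
  obtain ⟨τ, hτ, hmin⟩ := hTc.exists_isLeast hTn
  have hτ0 : 0 ≤ τ := hτ.1.1
  have hlt : ∀ t ∈ Icc (0 : ℝ) τ, t < τ → ‖g t - x0‖ < R := by
    intro t ht htτ
    by_contra hcon
    have : t ∈ T := ⟨⟨ht.1, ht.2.trans hτ.1.2⟩, not_lt.1 hcon⟩
    exact absurd (hmin this) (not_le.2 htτ)
  have hτR : ‖g τ - x0‖ = R := by
    refine le_antisymm ?_ hτ.2
    by_contra hcon
    have hcon : R < ‖g τ - x0‖ := not_le.1 hcon
    have hivt := intermediate_value_Icc hτ0 hnc.continuousOn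
    have hR : R ∈ Icc ‖g 0 - x0‖ ‖g τ - x0‖ := ⟨by rw [hg0]; exact hxR.le, hcon.le⟩
    obtain ⟨t, ht, hteq⟩ := hivt hR
    have hteq : ‖g t - x0‖ = R := hteq
    rcases ht.2.lt_or_eq with h | h
    · exact absurd hteq (hlt t ht h).ne
    · rw [h] at hteq; exact absurd hteq hcon.ne'
  refine ⟨g '' Icc 0 τ, g τ, isPreconnected_Icc.image g hgc.continuousOn,
    ⟨0, ⟨le_rfl, hτ0⟩, hg0⟩, ⟨τ, ⟨hτ0, le_rfl⟩, rfl⟩, hτR, ?_⟩
  rintro z ⟨t, ht, rfl⟩
  refine ⟨?_, hgU t ⟨ht.1, ht.2.trans hτ.1.2⟩⟩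
  rcases ht.2.lt_or_eq with h | h
  · exact (hlt t ht h).le
  · rw [h]; exact hτR.le

theorem p_GHH (hGME : Stmt_GME) (hGLC : Stmt_GLC) (hGUC : Stmt_GUC) (hCPT : Stmt_CPT)
    (hLOH : Pool.Flat.Stmt_LOH) : Stmt_GHH := by
  intro Ω f A x0 r0 ρ0 m S h
  obtain ⟨hUo, -, -, -, -, -, -⟩ := hCPT Ω f A x0 r0 ρ0 m S h
  have hEM := hGME Ω f A x0 r0 ρ0 m S h
  obtain ⟨C, hC, hlo⟩ := hLOH 1 (4 * m) le_rfl (by positivity)
  have hr0 := h.rpos
  have hρ0 := h.ρpos
  have hx0U : x0 ∈ UU0 f x0 r0 ρ0 := ⟨Metric.mem_ball_self hr0, by simpa using hρ0⟩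
  obtain ⟨ε, hε, hεU⟩ := Metric.isOpen_iff.1 hUo x0 hx0U
  set R : ℝ := min (ε / 2) (r0 / 2) with hR
  have hR0 : 0 < R := by rw [hR]; positivity
  have hRr : R < r0 := (min_le_right _ _).trans_lt (by linarith)
  have hRU : ∀ z : E3, ‖z - x0‖ ≤ R → z ∈ UU0 f x0 r0 ρ0 := by
    intro z hz
    refine hεU ?_
    rw [Metric.mem_ball, dist_eq_norm]
    exact lt_of_le_of_lt (hz.trans (min_le_left _ _)) (by linarith)
  have hexp : 1 ≤ Real.exp C := Real.one_le_exp hC.le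
  refine ⟨4 * Real.exp C, R / 100, by linarith, by positivity, ?_, ?_⟩
  · intro z hz
    rw [Metric.mem_closedBall, dist_eq_norm] at hz
    exact hRU z (by linarith)
  intro x hx y hy hxy
  rw [Metric.mem_ball, dist_eq_norm] at hx hy
  by_contra hcon
  have hcon : 4 * Real.exp C * ‖f y - f x0‖ < ‖f x - f x0‖ := not_le.1 hcon
  set l : ℝ := ‖f y - f x0‖ with hl
  set L : ℝ := ‖f x - f x0‖ with hL
  have hyU := hRU y (by linarith)
  have hxU := hRU x (by linarith)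
  have hl0 : 0 < l := by
    rcases (norm_nonneg (f y - f x0)).lt_or_eq with h1 | h1
    · exact h1
    · exfalso
      have h2 : f y = f x0 := sub_eq_zero.1 (norm_eq_zero.1 h1.symm)
      have h3 : y = x0 := h.unq y (Metric.ball_subset_closedBall hyU.1) h2
      rw [h3, sub_self, norm_zero] at hxy
      have h4 : x = x0 := sub_eq_zero.1 (norm_eq_zero.1 (le_antisymm hxy (norm_nonneg _)))
      have h5 : L = 0 := by rw [hL, h4, sub_self, norm_zero]
      have h6 : l = 0 := by rw [hl]; exact h1.symm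
      rw [h5, h6] at hcon
      simp at hcon
  have hLl : 4 * l < L := by nlinarith
  have hLρ : L < ρ0 := hxU.2
  have hyx0 : x0 ≠ y := by
    intro h1
    have : l = 0 := by rw [hl, ← h1, sub_self, norm_zero]
    linarith
  obtain ⟨-, hEc⟩ := hGLC Ω f A x0 r0 ρ0 m S h (2 * l) (by linarith) (by linarith)
  obtain ⟨hVo, hVc⟩ := hGUC Ω f A x0 r0 ρ0 m S h (L / 2) (by linarith) (by linarith)
  obtain ⟨w', hw'⟩ := exists_norm_eq E3 (show (0 : ℝ) ≤ 2 * r0 by linarith)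
  have hwn : ‖(w' + x0) - x0‖ = 2 * r0 := by rw [add_sub_cancel_right, hw']
  have hwU : w' + x0 ∈ {x | x ∈ Metric.ball x0 r0 → L / 2 < ‖f x - f x0‖} := by
    intro h1
    rw [Metric.mem_ball, dist_eq_norm, hwn] at h1
    linarith
  have hxV : x ∈ {x | x ∈ Metric.ball x0 r0 → L / 2 < ‖f x - f x0‖} := by
    intro _
    show L / 2 < L
    linarith
  obtain ⟨F, q2, hFc, hxF, hq2F, hq2, hF⟩ := GHH_exit (R := R) hVo hVc hxV hwU (by linarith)
    (by rw [hwn]; linarith)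
  have hd : ‖x0 - y‖ = ‖y - x0‖ := norm_sub_rev _ _
  have hfar : R - ‖x - x0‖ ≤ ‖q2 - x‖ := by
    have h1 : ‖q2 - x0‖ ≤ ‖q2 - x‖ + ‖x - x0‖ := by
      have : q2 - x0 = (q2 - x) + (x - x0) := by abel
      rw [this]; exact norm_add_le _ _
    linarith
  have hkey := hlo (UU0 f x0 r0 ρ0) f A {z | z ∈ Metric.ball x0 r0 ∧ ‖f z - f x0‖ < 2 * l} F
    (f x0) x0 y x q2 (2 * l) (L / 2) hEM hEc hFc ⟨Metric.mem_ball_self hr0, by simpa using hl0⟩
    ⟨hyU.1, by show l < 2 * l; linarith⟩ hxF hq2F hyx0 (by rw [one_mul, hd]; exact hxy)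
    (by rw [hd]; linarith) (by
      intro z hz
      rw [Metric.mem_closedBall, dist_eq_norm, hd] at hz
      refine hRU z ?_
      have h1 : ‖z - x0‖ ≤ ‖z - x‖ + ‖x - x0‖ := by
        have : z - x0 = (z - x) + (x - x0) := by abel
        rw [this]; exact norm_add_le _ _
      linarith) (by linarith) (by linarith) (fun z hz => hz.2.le)
    (fun z hz => by
      obtain ⟨h1, h2⟩ := hF z hz
      exact (h2 (hRU z h1).1).le)
  have h1 : L / 2 / (2 * l) ≤ Real.exp C := by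
    rw [← Real.exp_log (show 0 < L / 2 / (2 * l) by have : 0 < L := by linarith
                                                    positivity)]
    exact Real.exp_le_exp.2 hkey
  rw [div_le_iff₀ (by linarith)] at h1
  linarith

end Pool.GQ
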