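import Pool.Agent.Work.MP_680515_gq.Interface
import Pool.Agent.Work.MP_680515_sq.B_KEY

/-!
# MP_680515_an, THEOREM GQ: block GKY
-/

open MeasureTheory Set Filter Topology
open scoped Manifold ContDiff

namespace Pool.GQ

open Pool.Mart Pool.Flat Pool.SQ

theorem p_GKY (hGL2 : Stmt_GL2) (hGIN : Stmt_GIN) (hGSC : Stmt_GSC) (_hCPT : Stmt_CPT) :
    Stmt_GKY := by
  intro Ω f A x0 r0 ρ0 m S hN κ hκ
  have hs := hGL2 Ω f A x0 r0 ρ0 m S hN
  have hs' : ∀ s : ℝ, ∃ β : ℝ, s ∈ Ioo 0 ρ0 → 0 < β ∧ s * Real.exp β < ρ0 ∧ ∀ κ : ℝ → ℝ,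
      Kap (s * Real.exp (-β)) (s * Real.exp β) κ →
      1 / 200 * ∫ t, κ t / t
        ≤ (∫ x in Metric.ball x0 r0, κ ‖f x - f x0‖ * (‖x - x0‖ ^ 3)⁻¹)
          - 1 / m * ∫ x in Metric.ball x0 r0, κ ‖f x - f x0‖ *
            (fx (A x) (x - x0) (f x - f x0) / ‖x - x0‖) := by
    intro s
    by_cases h : s ∈ Ioo 0 ρ0
    · obtain ⟨β, hβ⟩ := hs s h
      exact ⟨β, fun _ => hβ⟩
    · exact ⟨0, fun h' => absurd h' h⟩
  choose β hβ using hs'
  obtain ⟨ι, _, s, k, hsI, hk1, hk2, hsum⟩ := KEY_part hκ β fun s h => (hβ s h).1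
  have hcont := (hGSC Ω f A x0 r0 ρ0 m S hN).2.2.1
  have hne : ∀ x ∈ UD f x0 r0 ρ0, x - x0 ≠ 0 := by
    intro x hx h0
    have h1 : x = x0 := sub_eq_zero.1 h0
    have h2 := hx.2.1
    rw [h1, sub_self, norm_zero] at h2
    exact lt_irrefl _ h2
  have hX : ContinuousOn (fun x : E3 => x - x0) (UD f x0 r0 ρ0) :=
    (continuous_id.sub continuous_const).continuousOn
  have hY : ContinuousOn (fun x : E3 => f x - f x0) (UD f x0 r0 ρ0) :=
    hcont.sub continuousOn_const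
  have hg : ContinuousOn (fun x : E3 => (‖x - x0‖ ^ 3)⁻¹) (UD f x0 r0 ρ0) :=
    (hX.norm.pow 3).inv₀ fun x hx => pow_ne_zero 3 (norm_ne_zero_iff.2 (hne x hx))
  have hH : ContinuousOn (fun x : E3 => (‖f x - f x0‖ ^ 3)⁻¹ • (f x - f x0))
      (UD f x0 r0 ρ0) :=
    ((hY.norm.pow 3).inv₀ fun x hx => pow_ne_zero 3 hx.2.1.ne').smul hY
  have hb : ContinuousOn (fun x : E3 => (‖x - x0‖⁻¹ * ‖x - x0‖⁻¹) • (x - x0)) (UD f x0 r0 ρ0) := by
    have h1 : ContinuousOn (fun x : E3 => ‖x - x0‖⁻¹) (UD f x0 r0 ρ0) :=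
      hX.norm.inv₀ fun x hx => norm_ne_zero_iff.2 (hne x hx)
    exact (h1.mul h1).smul hX
  have hI1 : ∀ i, IntegrableOn (fun x => k i ‖f x - f x0‖ * (‖x - x0‖ ^ 3)⁻¹)
      (Metric.ball x0 r0) := fun i =>
    ((hGIN Ω f A x0 r0 ρ0 m S hN (k i) (hk2 i).c1.continuous (hk2 i).cs
      (hk2 i).ts).1 _ hg).1
  have hI2 : ∀ i, IntegrableOn (fun x => k i ‖f x - f x0‖ *
      (fx (A x) (x - x0) (f x - f x0) / ‖x - x0‖)) (Metric.ball x0 r0) := by
    intro i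
    have h1 := ((hGIN Ω f A x0 r0 ρ0 m S hN (k i) (hk2 i).c1.continuous (hk2 i).cs
      (hk2 i).ts).2 _ _ hH hb).1
    refine h1.congr_fun (fun x _ => ?_) measurableSet_ball
    simp only [KEY_fx]
  have e1 : ∫ t, κ t / t = ∑ i, ∫ t, k i t / t := by
    rw [← integral_finset_sum _ fun i _ => KEY_int (hk2 i)]
    refine integral_congr_ae (Eventually.of_forall fun t => ?_)
    simp only [hsum t, Finset.sum_div]
  have e2 : ∫ x in Metric.ball x0 r0, κ ‖f x - f x0‖ * (‖x - x0‖ ^ 3)⁻¹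
      = ∑ i, ∫ x in Metric.ball x0 r0, k i ‖f x - f x0‖ * (‖x - x0‖ ^ 3)⁻¹ := by
    rw [← integral_finset_sum _ fun i _ => hI1 i]
    refine integral_congr_ae (Eventually.of_forall fun x => ?_)
    simp only [hsum, Finset.sum_mul]
  have e3 : ∫ x in Metric.ball x0 r0, κ ‖f x - f x0‖ *
      (fx (A x) (x - x0) (f x - f x0) / ‖x - x0‖)
      = ∑ i, ∫ x in Metric.ball x0 r0, k i ‖f x - f x0‖ *
      (fx (A x) (x - x0) (f x - f x0) / ‖x - x0‖) := by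
    rw [← integral_finset_sum _ fun i _ => hI2 i]
    refine integral_congr_ae (Eventually.of_forall fun x => ?_)
    simp only [hsum, Finset.sum_mul]
  rw [e1, e2, e3, Finset.mul_sum, Finset.mul_sum, ← Finset.sum_sub_distrib]
  exact Finset.sum_le_sum fun i _ => (hβ (s i) (hsI i)).2.2 (k i) (hk1 i)

end Pool.GQ
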