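import Pool.Agent.Work.MP_680515_gq.Interface

/-!
# MP_680515_an, THEOREM GQ, block GL2: the inequality near one level
-/

open MeasureTheory Set Filter Topology

namespace Pool.GQ

open Pool.Mart Pool.Flat Pool.SQ

/-- The numerical inequality for `x = 1/μ`. -/
theorem GL2_num0 (x i0 : ℝ) (hx0 : 0 ≤ x) (hx1 : x ≤ 1) (hi : i0 ≤ 528 / 100) (hi0 : 0 ≤ i0) :
    1 / 200 ≤ 574 / 1000 * x * (4 * Real.pi)
      + 81 / 400 * (2 * Real.pi * (Real.pi - 1 / 1000))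
      - (4 * Real.pi * (614 / 1000 * x + 14 / 1000 * x ^ 3)
        + 2 * Real.pi ^ 2 * (481 / 1000) * (81 / 400) * x
        + 2 * Real.pi * i0 * (458 / 1000) * (729 / 8000)) := by
  have h1 : (3.1415 : ℝ) < Real.pi := Real.pi_gt_d4
  have h2 : Real.pi < (3.1416 : ℝ) := Real.pi_lt_d4
  have hx3 : x ^ 3 ≤ 1 := pow_le_one₀ hx0 hx1
  have e : 574 / 1000 * x * (4 * Real.pi)
      + 81 / 400 * (2 * Real.pi * (Real.pi - 1 / 1000))
      - (4 * Real.pi * (614 / 1000 * x + 14 / 1000 * x ^ 3)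
        + 2 * Real.pi ^ 2 * (481 / 1000) * (81 / 400) * x
        + 2 * Real.pi * i0 * (458 / 1000) * (729 / 8000))
      = 2 * Real.pi * (-(80 / 1000) * x - 28 / 1000 * x ^ 3
        + 81 / 400 * (Real.pi - 1 / 1000)
        - 481 / 1000 * (81 / 400) * (Real.pi * x) - i0 * (458 / 1000) * (729 / 8000)) := by ring
  rw [e]
  have hpx : Real.pi * x ≤ Real.pi * 1 := mul_le_mul_of_nonneg_left hx1 (by linarith)
  have h3 : 1 / 1000 ≤ -(80 / 1000) * x - 28 / 1000 * x ^ 3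
        + 81 / 400 * (Real.pi - 1 / 1000)
        - 481 / 1000 * (81 / 400) * (Real.pi * x) - i0 * (458 / 1000) * (729 / 8000) := by
    norm_num at h1 h2 hpx ⊢
    linarith
  nlinarith

/-- The numerical inequality. -/
theorem GL2_num (m : ℕ) (hm : 2 ≤ m) (T i0 : ℝ) (hT : 0 ≤ T) (hi : i0 ≤ 528 / 100)
    (hi0 : 0 ≤ i0) :
    1 / 200 * T ≤ 574 / 1000 / mu2 m * (4 * Real.pi * T)
      + 81 / 400 * (2 * Real.pi * (Real.pi - 1 / 1000) * T)
      - (4 * Real.pi * (((m - 1) * (307 / 1000) + 321 / 1000) / mu2 m ^ 3)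
        + 2 * Real.pi ^ 2 * (481 / 1000) * (81 / 400) / mu2 m
        + 2 * Real.pi * i0 * (458 / 1000) * (729 / 8000)) * T := by
  have hm2 : (2 : ℝ) ≤ m := by exact_mod_cast hm
  have hsq : mu2 m ^ 2 = m / 2 := Real.sq_sqrt (by positivity)
  have hmu1 : 1 ≤ mu2 m := by
    unfold mu2
    rw [Real.one_le_sqrt]
    linarith
  have hmu : 0 < mu2 m := by linarith
  set u := mu2 m with hu
  have hmm : (m : ℝ) = 2 * u ^ 2 := by linarith
  have key := GL2_num0 u⁻¹ i0 (by positivity) (inv_le_one_of_one_le₀ hmu1) hi hi0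
  have e1 : ((m - 1) * (307 / 1000) + 321 / 1000) / u ^ 3
      = 614 / 1000 * u⁻¹ + 14 / 1000 * u⁻¹ ^ 3 := by
    rw [hmm]
    field_simp
    ring
  have e2 : 574 / 1000 / u * (4 * Real.pi * T)
      + 81 / 400 * (2 * Real.pi * (Real.pi - 1 / 1000) * T)
      - (4 * Real.pi * (((m - 1) * (307 / 1000) + 321 / 1000) / u ^ 3)
        + 2 * Real.pi ^ 2 * (481 / 1000) * (81 / 400) / u
        + 2 * Real.pi * i0 * (458 / 1000) * (729 / 8000)) * T
      = (574 / 1000 * u⁻¹ * (4 * Real.pi)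
      + 81 / 400 * (2 * Real.pi * (Real.pi - 1 / 1000))
      - (4 * Real.pi * (614 / 1000 * u⁻¹ + 14 / 1000 * u⁻¹ ^ 3)
        + 2 * Real.pi ^ 2 * (481 / 1000) * (81 / 400) * u⁻¹
        + 2 * Real.pi * i0 * (458 / 1000) * (729 / 8000))) * T := by
    rw [e1]
    ring
  rw [e2]
  exact mul_le_mul_of_nonneg_right key hT

/-- Linearity of the integral. -/
theorem GL2_lin (μ : Measure E3) (g1 g2 g3 g4 g5 : E3 → ℝ) (c2 c3 c4 : ℝ) (i1 : Integrable g1 μ)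
    (i2 : Integrable g2 μ) (i3 : Integrable g3 μ) (i4 : Integrable g4 μ) (i5 : Integrable g5 μ) :
    ∫ x, (g1 x - c2 * g2 x - c3 * g3 x - c4 * g4 x + g5 x) ∂μ
      = ∫ x, g1 x ∂μ - c2 * ∫ x, g2 x ∂μ - c3 * ∫ x, g3 x ∂μ - c4 * ∫ x, g4 x ∂μ
        + ∫ x, g5 x ∂μ := by
  have j2 : Integrable (fun x => c2 * g2 x) μ := i2.const_mul c2
  have j3 : Integrable (fun x => c3 * g3 x) μ := i3.const_mul c3
  have j4 : Integrable (fun x => c4 * g4 x) μ := i4.const_mul c4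
  have k1 : Integrable (fun x => g1 x - c2 * g2 x) μ := i1.sub j2
  have k2 : Integrable (fun x => g1 x - c2 * g2 x - c3 * g3 x) μ := k1.sub j3
  have k3 : Integrable (fun x => g1 x - c2 * g2 x - c3 * g3 x - c4 * g4 x) μ := k2.sub j4
  rw [integral_add k3 i5, integral_sub k2 j4, integral_sub k1 j3, integral_sub i1 j2,
    integral_const_mul, integral_const_mul, integral_const_mul]

theorem p_GL2 (hGWP : Stmt_GWP) (hGT3 : Stmt_GT3) (hGIN : Stmt_GIN) (hGEV : Stmt_GEV)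
    (hGVI : Stmt_GVI) (hNUM : Pool.SQ.Stmt_NUM) (hGWT : Stmt_GWT) (hVSM : Pool.SQ.Stmt_VSM)
    (hGSC : Stmt_GSC) (_hCPT : Stmt_CPT) : Stmt_GL2 := by
  intro Ω f A x0 r0 ρ0 m S hNP
  intro s hs
  obtain ⟨a, b, F, χ, β, ha, hb, hab, hFc, hFp, hχ, hβ, hsβ, hlevk⟩ :=
    hGEV Ω f A x0 r0 ρ0 m S hNP (1 / 1000) (by norm_num) s hs
  refine ⟨β, hβ, hsβ, fun κ hκ => ?_⟩
  obtain ⟨i4, l4⟩ := hlevk κ hκ
  have hspos : 0 < s := hs.1
  have hκ0 : Kap 0 ρ0 κ := by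
    refine ⟨hκ.c1, hκ.nn, hκ.cs, fun t ht => ?_⟩
    have h := hκ.ts ht
    exact ⟨lt_trans (by positivity) h.1, by linarith [h.2]⟩
  have hκpos : tsupport κ ⊆ Ioi 0 := fun t ht => (hκ0.ts ht).1
  obtain ⟨i5, l5⟩ := hGVI Ω f A x0 r0 ρ0 m S hNP a b F κ χ ha hb hab hFc hFp hχ hκ0
  have e3 := hGT3 Ω f A x0 r0 ρ0 m S hNP κ hκ0
  obtain ⟨hint1, hint2⟩ := hGIN Ω f A x0 r0 ρ0 m S hNP κ hκ.c1.continuous hκ.cs hκ0.ts
  obtain ⟨hUDo, -, hfc, -⟩ := hGSC Ω f A x0 r0 ρ0 m S hNP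
  obtain ⟨hwc, hw01, -, -⟩ := hGWT Ω f A x0 r0 ρ0 m S hNP F hFc hFp
  obtain ⟨hvc, hv0, -, -, -, -⟩ := hVSM a b χ κ ha hb hab hχ hκ.c1.continuous hκ.nn hκ.cs hκpos
  have hXc : ContinuousOn (fun x : E3 => x - x0) (UD f x0 r0 ρ0) := by fun_prop
  have hYc : ContinuousOn (fun x : E3 => f x - f x0) (UD f x0 r0 ρ0) :=
    hfc.sub continuousOn_const
  have hX0 : ∀ x ∈ UD f x0 r0 ρ0, x - x0 ≠ 0 := by
    intro x hx h
    have hxx : x = x0 := sub_eq_zero.1 h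
    have := hx.2.1
    rw [hxx, sub_self, norm_zero] at this
    exact lt_irrefl _ this
  have hY0 : ∀ x ∈ UD f x0 r0 ρ0, f x - f x0 ≠ 0 := fun x hx => norm_pos_iff.1 hx.2.1
  have hXn : ∀ x ∈ UD f x0 r0 ρ0, ‖x - x0‖ ≠ 0 := fun x hx => norm_ne_zero_iff.2 (hX0 x hx)
  have hYn : ∀ x ∈ UD f x0 r0 ρ0, ‖f x - f x0‖ ≠ 0 := fun x hx => hx.2.1.ne'
  -- integrability
  have i1 : IntegrableOn (fun x => κ ‖f x - f x0‖ * (‖x - x0‖ ^ 3)⁻¹)
      (Metric.ball x0 r0) := by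
    refine (hint1 (fun x => (‖x - x0‖ ^ 3)⁻¹) ?_).1
    exact (hXc.norm.pow 3).inv₀ fun x hx => pow_ne_zero 3 (hXn x hx)
  have i2 : IntegrableOn (fun x => κ ‖f x - f x0‖ *
      (fx (A x) (x - x0) (f x - f x0) / ‖x - x0‖)) (Metric.ball x0 r0) := by
    have h := (hint2 (fun x => (‖f x - f x0‖ ^ 3)⁻¹ • (f x - f x0))
      (fun x => ‖x - x0‖⁻¹ • (‖x - x0‖⁻¹ • (x - x0)))
      (((hYc.norm.pow 3).inv₀ fun x hx => pow_ne_zero 3 (hYn x hx)).smul hYc)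
      ((hXc.norm.inv₀ hXn).smul ((hXc.norm.inv₀ hXn).smul hXc))).1
    refine h.congr (Eventually.of_forall fun x => ?_)
    simp only [fx, cpair, PiLp.smul_apply, smul_eq_mul, div_eq_mul_inv]
    congr 1
    rw [Finset.sum_mul]
    refine Finset.sum_congr rfl fun i _ => ?_
    rw [Finset.sum_mul]
    refine Finset.sum_congr rfl fun j _ => ?_
    ring
  have i3 : IntegrableOn (fun x => κ ‖f x - f x0‖ *
      (inner ℝ (f x - f x0) (act (A x) (x - x0))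
        / (‖x - x0‖ ^ 3 * ‖f x - f x0‖ ^ 2))) (Metric.ball x0 r0) := by
    have h := (hint2 (fun x => (‖x - x0‖ ^ 3 * ‖f x - f x0‖ ^ 2)⁻¹ •
      (f x - f x0)) (fun x => x - x0)
      ((((hXc.norm.pow 3).mul (hYc.norm.pow 2)).inv₀ fun x hx =>
        mul_ne_zero (pow_ne_zero 3 (hXn x hx)) (pow_ne_zero 2 (hYn x hx))).smul hYc) hXc).2
    refine h.congr (Eventually.of_forall fun x => ?_)
    simp only [inner_smul_left, div_eq_mul_inv]
    simp only [conj_trivial]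
    ring
  -- the pointwise inequality
  have hae : ∀ᵐ x ∂(volume.restrict (Metric.ball x0 r0)),
      0 ≤ κ ‖f x - f x0‖ * (‖x - x0‖ ^ 3)⁻¹
        - 1 / m * (κ ‖f x - f x0‖ *
          (fx (A x) (x - x0) (f x - f x0) / ‖x - x0‖))
        - 574 / 1000 / mu2 m * (κ ‖f x - f x0‖ *
          (inner ℝ (f x - f x0) (act (A x) (x - x0))
            / (‖x - x0‖ ^ 3 * ‖f x - f x0‖ ^ 2)))
        - 81 / 400 * (κ ‖f x - f x0‖ *
          (wq f x0 r0 m F x * vs a b χ (f x - f x0) * opn (cofm (A x))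
            / (‖f x - f x0‖ ^ 2 * ‖x - x0‖)))
        + κ ‖f x - f x0‖ *
          ((A x).det * (‖f x - f x0‖ ^ 3)⁻¹ *
            ((1 - wq f x0 r0 m F x) * (307 / 1000 / mu2 m ^ 3)
              + wq f x0 r0 m F x * Chm m (81 / 400 * vs a b χ (f x - f x0)))) := by
    have hsub : Metric.ball x0 r0 ⊆ Ω := Metric.ball_subset_closedBall.trans hNP.sub
    have hg := ae_mono (Measure.restrict_mono hsub le_rfl) hNP.good
    have hd := ae_mono (Measure.restrict_mono hsub le_rfl) hNP.dist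
    filter_upwards [hg, hd, ae_restrict_mem measurableSet_ball] with x hx1 hx2 hx3
    by_cases hk : κ ‖f x - f x0‖ = 0
    · simp [hk]
    · have ht : ‖f x - f x0‖ ∈ Ioo 0 ρ0 := hκ0.ts (subset_tsupport _ hk)
      have hxU : x ∈ UD f x0 r0 ρ0 := ⟨hx3, ht.1, ht.2⟩
      have hp := hGWP (A x) (x - x0) (f x - f x0)
        (81 / 400 * vs a b χ (f x - f x0)) (wq f x0 r0 m F x) m hNP.two hx1 hx2 (hX0 x hxU)
        (hY0 x hxU) (mul_nonneg (by norm_num) (hv0 _)) (hw01 x hxU).1 (hw01 x hxU).2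
      have hp2 := mul_nonneg (hκ.nn ‖f x - f x0‖) hp
      refine hp2.trans (le_of_eq ?_)
      ring
  have hI := integral_nonneg_of_ae hae
  rw [GL2_lin _ _ _ _ _ _ _ _ _ i1 i2 i3 i4 i5, e3] at hI
  have hT : 0 ≤ ∫ t, κ t / t := by
    refine integral_nonneg fun t => ?_
    by_cases hk : κ t = 0
    · simp [hk]
    · have : 0 < t := hκpos (subset_tsupport _ hk)
      exact div_nonneg (hκ.nn t) this.le
  have hi0 : 0 ≤ I0 := by
    unfold I0
    refine intervalIntegral.integral_nonneg (by norm_num) fun u hu => ?_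
    refine Real.rpow_nonneg ?_ _
    nlinarith [hu.1, hu.2]
  have hn := GL2_num m hNP.two _ _ hT hNUM hi0
  linarith

end Pool.GQ
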