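import Pool.Agent.Work.MP_680515_gq.Interface

set_option autoImplicit false

open MeasureTheory Set Filter Topology

namespace Pool.GQ

open Pool.Mart Pool.Flat Pool.SQ

lemma GLC_open {Ω : Set E3} {f : E3 → E3} {A : E3 → M3} {x0 : E3} {r0 ρ0 : ℝ} {m : ℕ} {S : Set E3}
    (h : NP Ω f A x0 r0 ρ0 m S) (s : ℝ) :
    IsOpen {x | x ∈ Metric.ball x0 r0 ∧ ‖f x - f x0‖ < s} := by
  have hb : Metric.ball x0 r0 ⊆ Ω := Metric.ball_subset_closedBall.trans h.sub
  have hc : ContinuousOn (fun x => ‖f x - f x0‖) (Metric.ball x0 r0) :=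
    ((h.cont.mono hb).sub continuousOn_const).norm
  exact hc.isOpen_inter_preimage Metric.isOpen_ball isOpen_Iio

lemma GLC_key {Ω : Set E3} {f : E3 → E3} {A : E3 → M3} {x0 : E3} {r0 ρ0 : ℝ} {m : ℕ} {S : Set E3}
    (h : NP Ω f A x0 r0 ρ0 m S) (s : ℝ) (hs : 0 < s) (hs2 : s ≤ ρ0) (V1 V2 : Set E3)
    (h1 : IsOpen V1) (h2 : IsOpen V2)
    (hU : {x | x ∈ Metric.ball x0 r0 ∧ ‖f x - f x0‖ < s} ⊆ V1 ∪ V2)
    (hne : ({x | x ∈ Metric.ball x0 r0 ∧ ‖f x - f x0‖ < s} ∩ V1).Nonempty)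
    (hd : ¬ ({x | x ∈ Metric.ball x0 r0 ∧ ‖f x - f x0‖ < s} ∩ (V1 ∩ V2)).Nonempty) :
    x0 ∈ V1 := by
  set L : Set E3 := {x | x ∈ Metric.ball x0 r0 ∧ ‖f x - f x0‖ < s} with hL
  have hLo : IsOpen L := GLC_open h s
  have hLb : L ⊆ Metric.ball x0 r0 := fun x hx => hx.1
  have hLΩ : L ⊆ Ω := hLb.trans (Metric.ball_subset_closedBall.trans h.sub)
  have hW1 : IsOpen (L ∩ V1) := hLo.inter h1
  have hfo : IsOpen (f '' (L ∩ V1)) := h.opm _ hW1 (inter_subset_left.trans hLΩ)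
  have hcl : closure (L ∩ V1) ⊆ Metric.closedBall x0 r0 :=
    (closure_mono (inter_subset_left.trans hLb)).trans Metric.closure_ball_subset_closedBall
  have hcpt : IsCompact (closure (L ∩ V1)) :=
    (isCompact_closedBall x0 r0).of_isClosed_subset isClosed_closure hcl
  have himg : IsCompact (f '' closure (L ∩ V1)) :=
    hcpt.image_of_continuousOn (h.cont.mono (hcl.trans h.sub))
  have hclim : closure (f '' (L ∩ V1)) ⊆ f '' closure (L ∩ V1) :=
    closure_minimal (image_mono subset_closure) himg.isClosed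
  have hB : IsPreconnected (Metric.ball (f x0) s) := (convex_ball (f x0) s).isPreconnected
  have hcov : Metric.ball (f x0) s ⊆ f '' (L ∩ V1) ∪ (closure (f '' (L ∩ V1)))ᶜ := by
    intro y hy
    by_cases hyc : y ∈ closure (f '' (L ∩ V1))
    · left
      obtain ⟨z, hz, rfl⟩ := hclim hyc
      have hzs : ‖f z - f x0‖ < s := mem_ball_iff_norm.1 hy
      have hzb : z ∈ Metric.ball x0 r0 := by
        rw [mem_ball_iff_norm]
        rcases lt_or_eq_of_le (mem_closedBall_iff_norm.1 (hcl hz)) with h3 | h3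
        · exact h3
        · exact absurd (h.sph z h3) (not_lt.2 (hzs.le.trans hs2))
      have hzL : z ∈ L := ⟨hzb, hzs⟩
      rcases hU hzL with h3 | h3
      · exact ⟨z, ⟨hzL, h3⟩, rfl⟩
      · exfalso
        obtain ⟨w, hw1, hw2⟩ := mem_closure_iff.1 hz (L ∩ V2) (hLo.inter h2) ⟨hzL, h3⟩
        exact hd ⟨w, hw1.1, hw2.2, hw1.2⟩
    · right
      exact hyc
  have hdis : Disjoint (f '' (L ∩ V1)) (closure (f '' (L ∩ V1)))ᶜ :=
    Set.disjoint_left.2 fun y hy hy2 => hy2 (subset_closure hy)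
  have hnon : (Metric.ball (f x0) s ∩ f '' (L ∩ V1)).Nonempty := by
    obtain ⟨x, hx1, hx2⟩ := hne
    exact ⟨f x, mem_ball_iff_norm.2 hx1.2, x, ⟨hx1, hx2⟩, rfl⟩
  have hsub : Metric.ball (f x0) s ⊆ f '' (L ∩ V1) :=
    hB.subset_left_of_subset_union hfo isClosed_closure.isOpen_compl hdis hcov hnon
  obtain ⟨w, hw, hw2⟩ := hsub (Metric.mem_ball_self hs)
  have hwx : w = x0 := h.unq w (Metric.ball_subset_closedBall (hLb hw.1)) hw2
  rw [← hwx]
  exact hw.2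

theorem p_GLC (_h1 : Stmt_CPT) : Stmt_GLC := by
  intro Ω f A x0 r0 ρ0 m S h s hs hs2
  refine ⟨GLC_open h s, ?_⟩
  intro u v hu hv huv hnu hnv
  by_contra hcon
  have hx1 : x0 ∈ u := GLC_key h s hs hs2 u v hu hv huv hnu hcon
  have hx2 : x0 ∈ v := by
    refine GLC_key h s hs hs2 v u hv hu ?_ hnv ?_
    · rw [union_comm]
      exact huv
    · rw [inter_comm v u]
      exact hcon
  apply hcon
  refine ⟨x0, ⟨Metric.mem_ball_self h.rpos, ?_⟩, hx1, hx2⟩
  rw [sub_self, norm_zero]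
  exact hs

end Pool.GQ
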