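import Pool.Agent.Work.MP_680515_gq.Interface

/-!
# MP_680515_an, THEOREM GQ, block GME: the map is an energy map near the point
-/

open MeasureTheory Set Filter Topology

namespace Pool.GQ

open Pool.Mart Pool.Flat Pool.SQ

/-- The determinant of the linear map of a matrix. -/
theorem GME_det (A : M3) :
    (LinearMap.toContinuousLinearMap (Matrix.toEuclideanLin A)).det = A.det := by
  rw [ContinuousLinearMap.det, LinearMap.coe_toContinuousLinearMap,
    Matrix.toEuclideanLin_eq_toLin, LinearMap.det_toLin]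

/-- One piece. -/
theorem GME_piece (f : E3 → E3) (A : E3 → M3) (D : Set E3) (hD : MeasurableSet D)
    (hf : ∀ x ∈ D, HasFDerivAt f (LinearMap.toContinuousLinearMap (Matrix.toEuclideanLin (A x))) x)
    (hinj : InjOn f D) (h : E3 → ENNReal) :
    ∫⁻ x in D, ENNReal.ofReal ((A x).det) * h (f x) ≤ ∫⁻ y in f '' D, h y := by
  have h1 := lintegral_image_eq_lintegral_abs_det_fderiv_mul volume hD
    (fun x hx => (hf x hx).hasFDerivWithinAt) hinj h
  rw [h1]
  apply lintegral_mono
  intro x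
  beta_reduce
  rw [GME_det]
  exact mul_le_mul_left (ENNReal.ofReal_le_ofReal (le_abs_self _)) _

/-- Countably many sets on which `f` is injective. -/
theorem GME_cover (f : E3 → E3) (G : Set E3)
    (hG : ∀ x ∈ G, ∃ ε : ℝ, 0 < ε ∧ InjOn f (Metric.ball x ε)) :
    ∃ B : ℕ → Set E3, (∀ n, IsOpen (B n)) ∧ (∀ n, InjOn f (B n)) ∧ G ⊆ ⋃ n, B n := by
  classical
  have h1 : ∀ x : E3, ∃ e : ℝ, InjOn f (Metric.ball x e) ∧ (x ∈ G → 0 < e) := by
    intro x
    by_cases hx : x ∈ G
    · obtain ⟨e, he, hi⟩ := hG x hx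
      exact ⟨e, hi, fun _ => he⟩
    · refine ⟨0, ?_, fun h => absurd h hx⟩
      rw [Metric.ball_zero]
      exact injOn_empty f
  choose e he1 he2 using h1
  obtain ⟨t, htG, htc, hcov⟩ := TopologicalSpace.countable_cover_nhdsWithin
    (f := fun x => Metric.ball x (e x)) (s := G)
    (fun x hx => mem_nhdsWithin_of_mem_nhds (Metric.ball_mem_nhds x (he2 x hx)))
  obtain ⟨g, hg⟩ := Set.countable_iff_exists_subset_range.1 htc
  refine ⟨fun n => Metric.ball (g n) (e (g n)), fun n => Metric.isOpen_ball,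
    fun n => he1 (g n), ?_⟩
  intro x hx
  have h2 := hcov hx
  simp only [mem_iUnion] at h2 ⊢
  obtain ⟨z, hz, hxz⟩ := h2
  obtain ⟨n, hn⟩ := hg hz
  exact ⟨n, by rw [hn]; exact hxz⟩

/-- The area inequality with multiplicity at most `m`. -/
theorem GME_area (f : E3 → E3) (A : E3 → M3) (m : ℕ) (D : Set E3) (C : ℕ → Set E3)
    (hD : MeasurableSet D) (hCm : ∀ n, MeasurableSet (C n)) (hCi : ∀ n, InjOn f (C n))
    (hDC : D ⊆ ⋃ n, C n)
    (hf : ∀ x ∈ D, HasFDerivAt f (LinearMap.toContinuousLinearMap (Matrix.toEuclideanLin (A x))) x)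
    (hfib : ∀ y : E3, {x | x ∈ D ∧ f x = y}.Finite ∧ {x | x ∈ D ∧ f x = y}.ncard ≤ m)
    (h : E3 → ENNReal) (hh : Measurable h) :
    ∫⁻ x in D, ENNReal.ofReal ((A x).det) * h (f x) ≤ m * ∫⁻ y, h y := by
  classical
  set Q : ℕ → Set E3 := fun n => D ∩ disjointed C n with hQ
  have hQm : ∀ n, MeasurableSet (Q n) := fun n => hD.inter (MeasurableSet.disjointed hCm n)
  have hQi : ∀ n, InjOn f (Q n) := fun n =>
    (hCi n).mono (inter_subset_right.trans (disjointed_subset C n))
  have hQd : ∀ i j, i ≠ j → Disjoint (Q i) (Q j) := fun i j hij =>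
    (disjoint_disjointed C hij).mono inter_subset_right inter_subset_right
  have hQU : D ⊆ ⋃ n, Q n := by
    intro x hx
    have h1 := hDC hx
    rw [← iUnion_disjointed] at h1
    simp only [mem_iUnion] at h1 ⊢
    obtain ⟨n, hn⟩ := h1
    exact ⟨n, hx, hn⟩
  have him : ∀ n, MeasurableSet (f '' Q n) := fun n =>
    measurable_image_of_fderivWithin (hQm n)
      (fun x hx => (hf x hx.1).hasFDerivWithinAt) (hQi n)
  calc ∫⁻ x in D, ENNReal.ofReal ((A x).det) * h (f x)
      ≤ ∫⁻ x in ⋃ n, Q n, ENNReal.ofReal ((A x).det) * h (f x) := lintegral_mono_set hQU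
    _ ≤ ∑' n, ∫⁻ x in Q n, ENNReal.ofReal ((A x).det) * h (f x) := lintegral_iUnion_le _ _
    _ ≤ ∑' n, ∫⁻ y, (f '' Q n).indicator h y := by
        apply ENNReal.tsum_le_tsum
        intro n
        rw [lintegral_indicator (him n)]
        exact GME_piece f A (Q n) (hQm n) (fun x hx => hf x hx.1) (hQi n) h
    _ = ∫⁻ y, ∑' n, (f '' Q n).indicator h y :=
        (lintegral_tsum (fun n => (hh.indicator (him n)).aemeasurable)).symm
    _ ≤ ∫⁻ y, m * h y := by
        apply lintegral_mono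
        intro y
        beta_reduce
        obtain ⟨hfin, hcard⟩ := hfib y
        -- the indices whose image contains `y`
        have hex : ∀ n : ℕ, y ∈ f '' Q n → ∃ x, x ∈ Q n ∧ f x = y := fun n hn => hn
        set T : Set ℕ := {n | y ∈ f '' Q n} with hT
        have hch : ∀ n : ℕ, ∃ x : E3, n ∈ T → (x ∈ Q n ∧ f x = y) := by
          intro n
          by_cases hn : n ∈ T
          · obtain ⟨x, hx⟩ := hex n hn
            exact ⟨x, fun _ => hx⟩
          · exact ⟨0, fun h' => absurd h' hn⟩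
        choose c hc using hch
        have hmap : MapsTo c T {x | x ∈ D ∧ f x = y} := by
          intro n hn
          exact ⟨(hc n hn).1.1, (hc n hn).2⟩
        have hcinj : InjOn c T := by
          intro i hi j hj hij
          by_contra hne
          have h1 := (hc i hi).1
          have h2 := (hc j hj).1
          rw [← hij] at h2
          exact Set.disjoint_left.1 (hQd i j hne) h1 h2
        have hTfin : T.Finite := Set.Finite.of_injOn hmap hcinj hfin
        have hTcard : T.ncard ≤ m :=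
          (Set.ncard_le_ncard_of_injOn c hmap hcinj hfin).trans hcard
        have h3 : ∑' n, (f '' Q n).indicator h y = ∑ n ∈ hTfin.toFinset, h y := by
          rw [tsum_eq_sum (s := hTfin.toFinset)]
          · apply Finset.sum_congr rfl
            intro n hn
            rw [Set.Finite.mem_toFinset] at hn
            have hn' : y ∈ f '' Q n := hn
            exact Set.indicator_of_mem hn' h
          · intro n hn
            rw [Set.Finite.mem_toFinset] at hn
            have hn' : y ∉ f '' Q n := hn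
            exact Set.indicator_of_notMem hn' h
        rw [h3, Finset.sum_const, nsmul_eq_mul]
        apply mul_le_mul_left
        rw [← Set.ncard_eq_toFinset_card T hTfin]
        exact_mod_cast hTcard
    _ = m * ∫⁻ y, h y := lintegral_const_mul' _ _ (ENNReal.natCast_ne_top m)

theorem p_GME (hCPT : Stmt_CPT) (hDAE : Pool.Flat.Stmt_DAE) : Stmt_GME := by
  classical
  intro Ω f A x0 r0 ρ0 m S hN
  obtain ⟨hUo, -⟩ := hCPT Ω f A x0 r0 ρ0 m S hN
  have hUΩ : UU0 f x0 r0 ρ0 ⊆ Ω := fun x hx =>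
    hN.sub (Metric.ball_subset_closedBall hx.1)
  refine ⟨hUo, hN.cont.mono hUΩ, ⟨fun K hK hKU => hN.wg.loc K hK (hKU.trans hUΩ),
    fun φ h1 h2 h3 => hN.wg.ibp φ h1 h2 (h3.trans hUΩ)⟩, ?_⟩
  intro h hh
  have hΩ : IsOpen Ω := hN.op
  have hae := hDAE Ω f A hΩ hN.cont hN.wg hN.opm
  rw [ae_restrict_iff' hΩ.measurableSet] at hae
  obtain ⟨N, hNsub, hNm, hN0⟩ := exists_measurable_superset_of_null (ae_iff.1 hae)
  set D0 : Set E3 := UU0 f x0 r0 ρ0 \ N with hD0
  have hD0m : MeasurableSet D0 := hUo.measurableSet.diff hNm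
  have hder : ∀ x ∈ D0, HasFDerivAt f
      (LinearMap.toContinuousLinearMap (Matrix.toEuclideanLin (A x))) x := by
    intro x hx
    by_contra hcon
    exact hx.2 (hNsub (fun hh2 => hcon (hh2 (hUΩ hx.1))))
  -- the fibres
  have hmpos : 1 ≤ m := by have := hN.two; omega
  have hball : ∀ x ∈ UU0 f x0 r0 ρ0, f x ∈ Metric.ball (f x0) ρ0 := by
    intro x hx
    rw [Metric.mem_ball, dist_eq_norm]
    exact hx.2
  have hfibf : ∀ y ∈ Metric.ball (f x0) ρ0, (fib f x0 r0 y).Finite ∧
      (fib f x0 r0 y).ncard ≤ m := by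
    intro y hy
    rcases hN.fbr y hy with ⟨z, _, hz⟩ | ⟨h1, h2, _⟩
    · rw [hz]
      exact ⟨finite_singleton z, by rw [ncard_singleton]; exact hmpos⟩
    · exact ⟨h1, h2.le⟩
  -- the covering
  set G : Set E3 := UU0 f x0 r0 ρ0 \ S with hG
  have hGo : IsOpen G := hN.opS
  obtain ⟨B, hBo, hBi, hGB⟩ := GME_cover f G (fun x hx => hN.inj x hx.1 hx.2)
  set C : ℕ → Set E3 := fun n => Nat.casesOn n (UU0 f x0 r0 ρ0 \ G) B with hC
  have hC0 : C 0 = UU0 f x0 r0 ρ0 \ G := rfl
  have hCS : ∀ n, C (n + 1) = B n := fun n => rfl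
  have hCm : ∀ n, MeasurableSet (C n) := by
    intro n
    cases n with
    | zero => rw [hC0]; exact hUo.measurableSet.diff hGo.measurableSet
    | succ n => rw [hCS]; exact (hBo n).measurableSet
  have hCi : ∀ n, InjOn f (C n) := by
    intro n
    cases n with
    | zero =>
      rw [hC0]
      have hS : ∀ x ∈ UU0 f x0 r0 ρ0 \ G, x ∈ S := by
        intro x hx
        by_contra hxS
        exact hx.2 ⟨hx.1, hxS⟩
      intro x hx x' hx' hxx
      rcases hN.fbr (f x) (hball x hx.1) with ⟨z, _, hz⟩ | ⟨_, _, h3⟩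
      · have h1 : x ∈ fib f x0 r0 (f x) := ⟨hx.1.1, rfl⟩
        have h2 : x' ∈ fib f x0 r0 (f x) := ⟨hx'.1.1, hxx.symm⟩
        rw [hz, mem_singleton_iff] at h1 h2
        rw [h1, h2]
      · exact absurd (hS x hx) (h3 x ⟨hx.1.1, rfl⟩)
    | succ n => rw [hCS]; exact hBi n
  have hDC : D0 ⊆ ⋃ n, C n := by
    intro x hx
    rw [mem_iUnion]
    by_cases hxG : x ∈ G
    · obtain ⟨n, hn⟩ := mem_iUnion.1 (hGB hxG)
      exact ⟨n + 1, by rw [hCS]; exact hn⟩
    · exact ⟨0, by rw [hC0]; exact ⟨hx.1, hxG⟩⟩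
  have hfib : ∀ y : E3, {x | x ∈ D0 ∧ f x = y}.Finite ∧ {x | x ∈ D0 ∧ f x = y}.ncard ≤ m := by
    intro y
    have hsub : {x | x ∈ D0 ∧ f x = y} ⊆ fib f x0 r0 y := fun x hx => ⟨hx.1.1.1, hx.2⟩
    by_cases hy : y ∈ Metric.ball (f x0) ρ0
    · obtain ⟨h1, h2⟩ := hfibf y hy
      exact ⟨h1.subset hsub, (ncard_le_ncard hsub h1).trans h2⟩
    · have hem : {x | x ∈ D0 ∧ f x = y} = ∅ := by
        ext x
        constructor
        · rintro ⟨h1, h2⟩
          exact absurd (h2 ▸ hball x h1.1) hy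
        · intro h1
          exact absurd h1 (notMem_empty x)
      rw [hem]
      exact ⟨finite_empty, by rw [ncard_empty]; exact Nat.zero_le m⟩
  have hP := GME_area f A m D0 C hD0m hCm hCi hDC hder hfib h hh
  have hsub : UU0 f x0 r0 ρ0 ⊆ N ∪ D0 := by
    intro x hx
    by_cases hxN : x ∈ N
    · exact Or.inl hxN
    · exact Or.inr ⟨hx, hxN⟩
  have hdet : ∫⁻ x in UU0 f x0 r0 ρ0, ENNReal.ofReal ((A x).det) * h (f x) ≤
      m * ∫⁻ y, h y := by
    calc ∫⁻ x in UU0 f x0 r0 ρ0, ENNReal.ofReal ((A x).det) * h (f x)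
        ≤ ∫⁻ x in N ∪ D0, ENNReal.ofReal ((A x).det) * h (f x) := lintegral_mono_set hsub
      _ ≤ (∫⁻ x in N, ENNReal.ofReal ((A x).det) * h (f x)) +
          ∫⁻ x in D0, ENNReal.ofReal ((A x).det) * h (f x) := lintegral_union_le _ _ _
      _ ≤ 0 + m * ∫⁻ y, h y := by
          refine add_le_add ?_ hP
          rw [Measure.restrict_eq_zero.2 hN0]
          simp
      _ = m * ∫⁻ y, h y := zero_add _
  have hgood : ∀ᵐ x ∂(volume.restrict (UU0 f x0 r0 ρ0)), Good (A x) :=
    ae_restrict_of_ae_restrict_of_subset hUΩ hN.good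
  calc ∫⁻ x in UU0 f x0 r0 ρ0, ENNReal.ofReal (opn (A x) ^ 3) * h (f x)
      ≤ ∫⁻ x in UU0 f x0 r0 ρ0, ENNReal.ofReal 4 * (ENNReal.ofReal ((A x).det) * h (f x)) := by
        refine lintegral_mono_ae ?_
        filter_upwards [hgood] with x hx
        rw [← mul_assoc, ← ENNReal.ofReal_mul (by norm_num)]
        exact mul_le_mul_left (ENNReal.ofReal_le_ofReal hx.2) _
    _ = ENNReal.ofReal 4 * ∫⁻ x in UU0 f x0 r0 ρ0, ENNReal.ofReal ((A x).det) * h (f x) :=
        lintegral_const_mul' _ _ ENNReal.ofReal_ne_top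
    _ ≤ ENNReal.ofReal 4 * (m * ∫⁻ y, h y) := mul_le_mul_right hdet _
    _ = ENNReal.ofReal (4 * m) * ∫⁻ y, h y := by
        rw [← mul_assoc, ENNReal.ofReal_mul (by norm_num), ENNReal.ofReal_natCast]

end Pool.GQ
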