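import Pool.Agent.Work.MP_680515_gq.Interface

/-!
# MP_680515_an, THEOREM GQ: block GNP
-/

open MeasureTheory Set Filter Topology

set_option autoImplicit false

namespace Pool.GQ

open Pool.Mart Pool.Flat Pool.SQ

lemma GNP_open (Ω : Set E3) (f : E3 → E3) (x0 : E3) (r0 ρ0 : ℝ) (hc : ContinuousOn f Ω)
    (hs : Metric.closedBall x0 r0 ⊆ Ω) : IsOpen (UU0 f x0 r0 ρ0) := by
  have h1 : UU0 f x0 r0 ρ0 = Metric.ball x0 r0 ∩ f ⁻¹' Metric.ball (f x0) ρ0 := by
    ext x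
    simp only [UU0, mem_setOf_eq, mem_inter_iff, mem_preimage, Metric.mem_ball, dist_eq_norm]
  rw [h1]
  exact (hc.mono (Metric.ball_subset_closedBall.trans hs)).isOpen_inter_preimage
    Metric.isOpen_ball Metric.isOpen_ball

theorem p_GNP (hGU1 : Stmt_GU1) (hGDA : Stmt_GDA) (hGDF : Stmt_GDF) (hGDI : Stmt_GDI) :
    Stmt_GNP := by
  intro Ω f A h ⟨xb, hxb, hnot⟩
  have hex : ∀ x : E3, ∃ k : ℕ, x ∈ Ω → 1 ≤ k ∧ LI Ω f A x k := by
    intro x
    by_cases hx : x ∈ Ω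
    · obtain ⟨k, hk⟩ := hGDA Ω f A h x hx
      exact ⟨k, fun _ => hk⟩
    · exact ⟨0, fun h => absurd h hx⟩
  choose idx hidx using hex
  have hb : idx xb ≠ 1 := by
    intro h1
    have h2 := (hidx xb hxb).2
    rw [h1] at h2
    obtain ⟨ε, hε, -, hinj, -⟩ := hGDI Ω f A h xb h2
    exact hnot ε hε (hinj.mono inter_subset_right)
  have hP : ∃ k : ℕ, 2 ≤ k ∧ ∃ x ∈ Ω, idx x = k := by
    refine ⟨idx xb, ?_, xb, hxb, rfl⟩
    have := (hidx xb hxb).1
    omega
  classical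
  obtain ⟨m, hm2, ⟨x0, hx0, hm⟩, hmin⟩ : ∃ m : ℕ, 2 ≤ m ∧ (∃ x ∈ Ω, idx x = m) ∧
      ∀ x ∈ Ω, idx x = 1 ∨ m ≤ idx x := by
    refine ⟨Nat.find hP, (Nat.find_spec hP).1, (Nat.find_spec hP).2, fun x hx => ?_⟩
    by_cases h1 : idx x = 1
    · exact Or.inl h1
    · have h2 := (hidx x hx).1
      exact Or.inr (Nat.find_min' hP ⟨by omega, x, hx, rfl⟩)
  have hLI0 : LI Ω f A x0 m := hm ▸ (hidx x0 hx0).2
  obtain ⟨r0, ρ0, -, -, hL⟩ := hLI0 1 one_pos
  have hbΩ : ∀ x ∈ Metric.ball x0 r0, x ∈ Ω := fun x hx =>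
    hL.sub (Metric.ball_subset_closedBall hx)
  -- the fibres
  have hfib : ∀ y ∈ Metric.ball (f x0) ρ0, (fib f x0 r0 y).Finite ∧
      ∀ z ∈ fib f x0 r0 y, (idx z = 1 ∨ idx z = m) ∧ (idx z = m → fib f x0 r0 y = {z}) := by
    intro y hy
    obtain ⟨hfin, hsum⟩ := hGDF Ω f A h x0 r0 ρ0 m hL y hy
    have h1 := hsum idx (fun z hz => (hidx z (hbΩ z hz.1)).2)
    rw [finsum_mem_eq_finite_toFinset_sum _ hfin] at h1
    refine ⟨hfin, fun z hz => ⟨?_, fun hzm => ?_⟩⟩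
    · have h2 : idx z ≤ ∑ i ∈ hfin.toFinset, idx i :=
        Finset.single_le_sum (fun i _ => Nat.zero_le (idx i)) (hfin.mem_toFinset.2 hz)
      rcases hmin z (hbΩ z hz.1) with h3 | h3
      · exact Or.inl h3
      · right
        omega
    · ext w
      rw [mem_singleton_iff]
      constructor
      · intro hw
        by_contra hne
        have h2 : ∑ i ∈ ({z, w} : Finset E3), idx i ≤ ∑ i ∈ hfin.toFinset, idx i := by
          refine Finset.sum_le_sum_of_subset ?_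
          intro i hi
          rw [Finset.mem_insert, Finset.mem_singleton] at hi
          rcases hi with rfl | rfl
          · exact hfin.mem_toFinset.2 hz
          · exact hfin.mem_toFinset.2 hw
        rw [Finset.sum_pair (fun h => hne h.symm)] at h2
        have h3 := (hidx w (hbΩ w hw.1)).1
        omega
      · rintro rfl
        exact hz
  have hcard : ∀ y ∈ Metric.ball (f x0) ρ0, (∀ z ∈ fib f x0 r0 y, idx z = 1) →
      (fib f x0 r0 y).ncard = m := by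
    intro y hy hall
    obtain ⟨hfin, hsum⟩ := hGDF Ω f A h x0 r0 ρ0 m hL y hy
    have h1 := hsum idx (fun z hz => (hidx z (hbΩ z hz.1)).2)
    rw [finsum_mem_eq_finite_toFinset_sum _ hfin,
      Finset.sum_congr rfl (fun z hz => hall z (hfin.mem_toFinset.1 hz)), Finset.sum_const,
      smul_eq_mul, mul_one] at h1
    rw [Set.ncard_eq_toFinset_card _ hfin, h1]
  have hidN : ∀ x ∈ UU0 f x0 r0 ρ0,
      x ∉ {x | x ∈ UU0 f x0 r0 ρ0 ∧ LI Ω f A x m} → LI Ω f A x 1 := by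
    intro x hx hxS
    have h1 := (hidx x (hbΩ x hx.1)).2
    have hy : f x ∈ Metric.ball (f x0) ρ0 := by
      rw [Metric.mem_ball, dist_eq_norm]
      exact hx.2
    rcases ((hfib (f x) hy).2 x ⟨hx.1, rfl⟩).1 with h2 | h2
    · rwa [h2] at h1
    · rw [h2] at h1
      exact absurd ⟨hx, h1⟩ hxS
  have hUo : IsOpen (UU0 f x0 r0 ρ0) := GNP_open Ω f x0 r0 ρ0 h.cont hL.sub
  have hx0U : x0 ∈ UU0 f x0 r0 ρ0 := by
    refine ⟨Metric.mem_ball_self hL.rpos, ?_⟩
    rw [sub_self, norm_zero]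
    exact hL.ρpos
  refine ⟨x0, r0, ρ0, m, {x | x ∈ UU0 f x0 r0 ρ0 ∧ LI Ω f A x m}, ?_⟩
  exact {
    op := h.op
    cont := h.cont
    wg := h.wg
    good := h.good
    dist := h.dist
    opm := h.opm
    two := hm2
    rpos := hL.rpos
    ρpos := hL.ρpos
    sub := hL.sub
    unq := hL.unq
    sph := hL.sph
    deg := hL.deg
    xS := ⟨hx0U, hLI0⟩
    opS := by
      rw [Metric.isOpen_iff]
      rintro x ⟨hxU, hxS⟩
      obtain ⟨ε, hε, -, -, hz⟩ := hGDI Ω f A h x (hidN x hxU hxS)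
      obtain ⟨δ, hδ, hδU⟩ := Metric.isOpen_iff.1 hUo x hxU
      refine ⟨min ε δ, lt_min hε hδ, fun z hzb => ⟨hδU ?_, fun hzS => ?_⟩⟩
      · exact Metric.ball_subset_ball (min_le_right _ _) hzb
      · have h1 := hz z (Metric.ball_subset_ball (min_le_left _ _) hzb)
        have h2 := hGU1 Ω f A z m 1 h.cont hzS.2 h1
        omega
    fbr := by
      intro y hy
      by_cases hz : ∃ z ∈ fib f x0 r0 y, idx z = m
      · obtain ⟨z, hz1, hz2⟩ := hz
        refine Or.inl ⟨z, ⟨⟨hz1.1, ?_⟩, hz2 ▸ (hidx z (hbΩ z hz1.1)).2⟩,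
          ((hfib y hy).2 z hz1).2 hz2⟩
        rw [hz1.2, ← dist_eq_norm]
        exact hy
      · have hall : ∀ z ∈ fib f x0 r0 y, idx z = 1 := by
          intro z hz1
          rcases ((hfib y hy).2 z hz1).1 with h2 | h2
          · exact h2
          · exact absurd ⟨z, hz1, h2⟩ hz
        refine Or.inr ⟨(hfib y hy).1, hcard y hy hall, fun x hx hxS => ?_⟩
        have h1 := (hidx x (hbΩ x hx.1)).2
        rw [hall x hx] at h1
        have h2 := hGU1 Ω f A x m 1 h.cont hxS.2 h1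
        omega
    idS := fun x _ hxS => hxS.2
    idN := hidN
    inj := by
      intro x hxU hxS
      obtain ⟨ε, hε, -, hinj, -⟩ := hGDI Ω f A h x (hidN x hxU hxS)
      exact ⟨ε, hε, hinj⟩ }

end Pool.GQ
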