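import Pool.Agent.Work.MP_680515_gq.Interface

/-! # Block GNS: the set `S` meets every shell -/

open MeasureTheory Set Filter Topology

namespace Pool.GQ

open Pool.Mart Pool.Flat Pool.SQ

theorem GNS_lh {X Y : Type} [TopologicalSpace X] [TopologicalSpace Y] {p : X → Y} {V : Set X}
    (hp : Continuous p) (hV : IsOpen V) (hi : InjOn p V)
    (ho : ∀ O : Set X, IsOpen O → O ⊆ V → IsOpen (p '' O)) {x : X} (hx : x ∈ V) :
    ∃ e : OpenPartialHomeomorph X Y, x ∈ e.source ∧ EqOn p e e.source := by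
  have : Nonempty X := ⟨x⟩
  have hop : IsOpenMap (V.domRestrict p) := by
    intro T hT
    obtain ⟨O, hO, rfl⟩ := isOpen_induced_iff.1 hT
    have h1 : V.domRestrict p '' (Subtype.val ⁻¹' O) = p '' (V ∩ O) := by
      ext y
      constructor
      · rintro ⟨z, hz, rfl⟩
        exact ⟨z.1, ⟨z.2, hz⟩, rfl⟩
      · rintro ⟨z, ⟨hz1, hz2⟩, rfl⟩
        exact ⟨⟨z, hz1⟩, hz2, rfl⟩
    rw [h1]
    exact ho _ (hV.inter hO) inter_subset_left
  refine ⟨OpenPartialHomeomorph.ofContinuousOpenRestrict (hi.toPartialEquiv p V)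
    hp.continuousOn hop hV, hx, fun z _ => rfl⟩

theorem p_GNS (hSCS : Stmt_SCS) (hGCV : Stmt_GCV) : Stmt_GNS := by
  intro Ω f A x0 r0 ρ0 m S hN s1 s2 hs1 hs12 hs2
  by_contra hcon
  push Not at hcon
  have hW := hGCV Ω f A x0 r0 ρ0 m S hN s1 s2 hs1 hs12 hs2
  obtain ⟨W, hWd⟩ : ∃ W : Set E3, W = {x | x ∈ Metric.ball x0 r0 ∧ s1 < ‖f x - f x0‖ ∧
    ‖f x - f x0‖ < s2} := ⟨_, rfl⟩
  rw [← hWd] at hW
  have hWm : ∀ x, x ∈ W ↔ x ∈ Metric.ball x0 r0 ∧ s1 < ‖f x - f x0‖ ∧ ‖f x - f x0‖ < s2 :=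
    fun x => by rw [hWd]; rfl
  have hWS : ∀ x ∈ W, x ∉ S := fun x hx hxS => by
    have h1 := (hWm x).1 hx
    exact absurd h1.2.2 (not_lt.2 (hcon x hxS h1.1 h1.2.1))
  have hWU : ∀ x ∈ W, x ∈ UU0 f x0 r0 ρ0 := fun x hx => by
    have h1 := (hWm x).1 hx
    exact ⟨h1.1, lt_of_lt_of_le h1.2.2 hs2⟩
  have hbΩ : Metric.ball x0 r0 ⊆ Ω := fun x hx => hN.sub (Metric.ball_subset_closedBall hx)
  have hfb : ContinuousOn f (Metric.ball x0 r0) := hN.cont.mono hbΩ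
  have hWo : IsOpen W := by
    have h1 : ContinuousOn (fun x => ‖f x - f x0‖) (Metric.ball x0 r0) :=
      (hfb.sub continuousOn_const).norm
    have h2 := h1.isOpen_inter_preimage Metric.isOpen_ball (isOpen_Ioo (a := s1) (b := s2))
    rw [hWd]
    exact h2
  -- the compact space and the map
  have hcs : CompactSpace (Metric.closedBall x0 r0) :=
    isCompact_iff_compactSpace.1 (isCompact_closedBall x0 r0)
  obtain ⟨p, hp⟩ : ∃ p : Metric.closedBall x0 r0 → E3, p = fun x => f x.1 := ⟨_, rfl⟩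
  have hpc : Continuous p := by
    rw [hp]
    have h1 : ContinuousOn f (Metric.closedBall x0 r0) := hN.cont.mono hN.sub
    exact continuousOn_iff_continuous_domRestrict.1 h1
  have hpW : ∀ x : Metric.closedBall x0 r0, s1 < ‖p x - f x0‖ → ‖p x - f x0‖ < s2 → x.1 ∈ W := by
    intro x h1 h2
    rw [hp] at h1 h2
    rw [hWm]
    refine ⟨?_, h1, h2⟩
    have h3 : ‖x.1 - x0‖ ≤ r0 := by
      have h4 := x.2
      rw [mem_closedBall_iff_norm] at h4
      exact h4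
    rw [mem_ball_iff_norm]
    refine lt_of_le_of_ne h3 fun h4 => ?_
    have h5 := hN.sph x.1 h4
    simp only at h2
    linarith
  have hLH : IsLocalHomeomorphOn p (p ⁻¹' {y | s1 < ‖y - f x0‖ ∧ ‖y - f x0‖ < s2}) := by
    refine IsLocalHomeomorphOn.mk p _ fun x hx => ?_
    have hxW : x.1 ∈ W := hpW x hx.1 hx.2
    obtain ⟨ε, hε, hinj⟩ := hN.inj x.1 (hWU _ hxW) (hWS _ hxW)
    have hV : IsOpen ((Subtype.val : Metric.closedBall x0 r0 → E3) ⁻¹'
        (Metric.ball x0 r0 ∩ Metric.ball x.1 ε)) :=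
      (Metric.isOpen_ball.inter Metric.isOpen_ball).preimage continuous_subtype_val
    refine GNS_lh hpc hV ?_ ?_ (x := x) ⟨((hWm _).1 hxW).1, Metric.mem_ball_self hε⟩
    · intro a ha b hb hab
      rw [hp] at hab
      exact Subtype.ext (hinj ha.2 hb.2 hab)
    · intro O hO hOV
      obtain ⟨O', hO', rfl⟩ := isOpen_induced_iff.1 hO
      have h1 : p '' (Subtype.val ⁻¹' O') =
          f '' (O' ∩ (Metric.ball x0 r0 ∩ Metric.ball x.1 ε)) := by
        ext y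
        constructor
        · rintro ⟨z, hz, rfl⟩
          refine ⟨z.1, ⟨hz, hOV hz⟩, ?_⟩
          rw [hp]
        · rintro ⟨z, ⟨hz1, hz2⟩, rfl⟩
          refine ⟨⟨z, Metric.ball_subset_closedBall hz2.1⟩, hz1, ?_⟩
          rw [hp]
      rw [h1]
      exact hN.opm _ (hO'.inter (Metric.isOpen_ball.inter Metric.isOpen_ball))
        (fun z hz => hbΩ hz.2.1)
  have hcov : IsCoveringMapOn p {y | s1 < ‖y - f x0‖ ∧ ‖y - f x0‖ < s2} :=
    IsCoveringMapOn.of_isLocalHomeomorphOn hpc hLH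
  -- a point of the shell
  obtain ⟨y0, hy0⟩ : ∃ y0 : E3, y0 = f x0 + ((s1 + s2) / 2) • EuclideanSpace.single (0 : Fin 3) (1 : ℝ) :=
    ⟨_, rfl⟩
  have hy0n : ‖y0 - f x0‖ = (s1 + s2) / 2 := by
    rw [hy0, add_sub_cancel_left, norm_smul, EuclideanSpace.norm_single, norm_one, mul_one,
      Real.norm_of_nonneg (by linarith)]
  have hy0b : y0 ∈ Metric.ball (f x0) ρ0 := by
    rw [mem_ball_iff_norm, hy0n]
    linarith
  have hfW : ∀ x ∈ fib f x0 r0 y0, x ∈ W := fun x hx => by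
    rw [hWm, hx.2, hy0n]
    exact ⟨hx.1, by linarith, by linarith⟩
  obtain ⟨x1, hx1, x2, hx2, hne⟩ : ∃ x1 ∈ fib f x0 r0 y0, ∃ x2 ∈ fib f x0 r0 y0, x1 ≠ x2 := by
    rcases hN.fbr y0 hy0b with ⟨z, hzS, hz⟩ | ⟨hfin, hcard, -⟩
    · exact absurd hzS (hWS z (hfW z (by rw [hz]; exact mem_singleton z)))
    · have h1 : 1 < (fib f x0 r0 y0).ncard := by
        rw [hcard]
        have := hN.two
        omega
      obtain ⟨a, ha, b, hb, hab⟩ := (Set.one_lt_ncard hfin).1 h1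
      exact ⟨a, ha, b, hb, hab⟩
  obtain ⟨σ, hσc, hσ0, hσ⟩ := hSCS (Metric.closedBall x0 r0) p (f x0) s1 s2
    ⟨x1, Metric.ball_subset_closedBall hx1.1⟩ hpc hs1.le hs12 hcov
    (by
      rw [hp]
      show s1 < ‖f x1 - f x0‖
      rw [hx1.2, hy0n]
      linarith)
    (by
      rw [hp]
      show ‖f x1 - f x0‖ < s2
      rw [hx1.2, hy0n]
      linarith)
  obtain ⟨τ, hτ⟩ : ∃ τ : E3 → E3, τ = fun x => (σ (f x)).1 := ⟨_, rfl⟩
  have hτc : ContinuousOn τ W := by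
    rw [hτ]
    refine continuous_subtype_val.comp_continuousOn (hσc.comp (hfb.mono fun x hx =>
      ((hWm x).1 hx).1) fun x hx => ((hWm x).1 hx).2)
  have hfτ : ∀ x ∈ W, f (τ x) = f x := fun x hx => by
    have h1 := hσ (f x) ((hWm x).1 hx).2.1 ((hWm x).1 hx).2.2
    rw [hp] at h1
    rw [hτ]
    exact h1
  obtain ⟨T, hT⟩ : ∃ T : Set E3, T = {x | x ∈ W ∧ τ x = x} := ⟨_, rfl⟩
  have hTm : ∀ x, x ∈ T ↔ x ∈ W ∧ τ x = x := fun x => by rw [hT]; rfl
  have hTo : IsOpen T := by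
    rw [isOpen_iff_forall_mem_open]
    intro x hx
    obtain ⟨hxW, hxτ⟩ := (hTm x).1 hx
    obtain ⟨ε, hε, hinj⟩ := hN.inj x (hWU _ hxW) (hWS _ hxW)
    refine ⟨(W ∩ τ ⁻¹' Metric.ball x ε) ∩ Metric.ball x ε, ?_,
      (hτc.isOpen_inter_preimage hWo Metric.isOpen_ball).inter Metric.isOpen_ball, ?_⟩
    · intro x' hx'
      rw [hTm]
      exact ⟨hx'.1.1, hinj hx'.1.2 hx'.2 (hfτ x' hx'.1.1)⟩
    · refine ⟨⟨hxW, ?_⟩, Metric.mem_ball_self hε⟩
      show τ x ∈ Metric.ball x ε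
      rw [hxτ]
      exact Metric.mem_ball_self hε
  have hTc : closure T ∩ W ⊆ T := by
    rintro x ⟨hxc, hxW⟩
    rw [hTm]
    refine ⟨hxW, ?_⟩
    by_contra hxne
    have h1 : IsOpen (W ∩ (fun x => τ x - x) ⁻¹' {0}ᶜ) :=
      (hτc.sub continuousOn_id).isOpen_inter_preimage hWo isOpen_compl_singleton
    obtain ⟨z, hz1, hz2⟩ := mem_closure_iff.1 hxc _ h1 ⟨hxW, fun h => hxne (sub_eq_zero.1 h)⟩
    exact hz1.2 (sub_eq_zero.2 ((hTm z).1 hz2).2)
  have hx1T : x1 ∈ T := by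
    rw [hTm]
    refine ⟨hfW x1 hx1, ?_⟩
    rw [hp] at hσ0
    rw [hτ]
    exact congrArg Subtype.val hσ0
  have hsub := hW.subset_of_closure_inter_subset hTo ⟨x1, hfW x1 hx1, hx1T⟩ hTc
  have hx2T := ((hTm x2).1 (hsub (hfW x2 hx2))).2
  have hx1T' := ((hTm x1).1 hx1T).2
  rw [hτ] at hx2T hx1T'
  simp only [hx2.2] at hx2T
  simp only [hx1.2] at hx1T'
  exact hne (hx1T'.symm.trans hx2T)

end Pool.GQ
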