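import Pool.Agent.Work.MP_680515_gq.Interface

/-! # Block GSC: the fibre sum is continuous -/

open MeasureTheory Set Filter Topology

namespace Pool.GQ

open Pool.Mart Pool.Flat Pool.SQ

theorem p_GSC (hCPT : Stmt_CPT) (hFSB : Stmt_FSB) : Stmt_GSC := by
  intro Ω f A x0 r0 ρ0 m S hN
  obtain ⟨-, hO2, hO3, -, hC5, -, -⟩ := hCPT Ω f A x0 r0 ρ0 m S hN
  have hF := hFSB Ω f A x0 r0 ρ0 m S hN
  have hUDΩ : UD f x0 r0 ρ0 ⊆ Ω := fun x hx => hN.sub (Metric.ball_subset_closedBall hx.1)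
  refine ⟨hO2, hO3, hN.cont.mono hUDΩ, fun h hh => ?_⟩
  have hm : (0 : ℝ) < m := by
    have := hN.two
    exact_mod_cast (by omega : 0 < m)
  have hVb : ∀ y ∈ VD f x0 ρ0, y ∈ Metric.ball (f x0) ρ0 := fun y hy => by
    rw [mem_ball_iff_norm]
    exact hy.2
  intro y0 hy0
  rw [Metric.continuousWithinAt_iff]
  intro ε hε
  have hy0b := hVb y0 hy0
  obtain ⟨η, hη⟩ : ∃ η : ℝ, η = ε / (2 * m) := ⟨_, rfl⟩
  have hη0 : 0 < η := by
    rw [hη]
    positivity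
  have hmη : (m : ℝ) * η = ε / 2 := by
    rw [hη]
    field_simp
  have hfibUD : ∀ x ∈ fib f x0 r0 y0, x ∈ UD f x0 r0 ρ0 := fun x hx =>
    ⟨hx.1, by rw [hx.2]; exact hy0.1, by rw [hx.2]; exact hy0.2⟩
  have hOp : ∀ x : E3, IsOpen (UD f x0 r0 ρ0 ∩ {x' | |h x' - h x| < η}) := by
    intro x
    have h1 : ContinuousOn (fun x' => |h x' - h x|) (UD f x0 r0 ρ0) :=
      (hh.sub continuousOn_const).abs
    exact h1.isOpen_inter_preimage hO2 (isOpen_Iio (a := η))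
  have hself : ∀ x : E3, |h x - h x| < η := fun x => by
    rw [sub_self, abs_zero]
    exact hη0
  rcases hN.fbr y0 hy0b with ⟨z, hzS, hz⟩ | ⟨hfin, hcard, hnS⟩
  · have hzf : z ∈ fib f x0 r0 y0 := by
      rw [hz]
      exact mem_singleton z
    have hFS0 := ((hF y0 hy0b).2.2.2.2 h).1 z hzf hzS
    obtain ⟨δ, hδ, hδ2⟩ := hC5 y0 hy0b (UD f x0 r0 ρ0 ∩ {x' | |h x' - h z| < η}) (hOp z) (by
      rw [hz]
      intro x hx
      rw [mem_singleton_iff.1 hx]
      exact ⟨hfibUD z hzf, hself z⟩)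
    refine ⟨δ, hδ, fun y hy hyd => ?_⟩
    have hyb := hVb y hy
    have hx : ∀ x ∈ fib f x0 r0 y, |h x - h z| < η := fun x hx =>
      (hδ2 x hx.1 (by rw [hx.2, ← dist_eq_norm]; exact hyd)).2
    have h1 := ((hF y hyb).2.2.2.2 h).2.2.2.1 (h z + η) (fun x hx' => by
      have := abs_lt.1 (hx x hx')
      linarith [this.2])
    have h2 := ((hF y hyb).2.2.2.2 h).2.2.2.2.1 (h z - η) (fun x hx' => by
      have := abs_lt.1 (hx x hx')
      linarith [this.1])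
    rw [Real.dist_eq, hFS0, abs_lt]
    rw [mul_add, hmη] at h1
    rw [mul_sub, hmη] at h2
    constructor <;> linarith
  · obtain ⟨U, hU, hUd⟩ := hfin.t2_separation
    have hex : ∀ x ∈ fib f x0 r0 y0, ∃ B : Set E3, IsOpen B ∧ x ∈ B ∧ B ⊆ U x ∧
        B ⊆ UD f x0 r0 ρ0 ∧ InjOn f B ∧ ∀ x' ∈ B, |h x' - h x| < η := by
      intro x hx
      have hxU : x ∈ UU0 f x0 r0 ρ0 := ⟨hx.1, by rw [hx.2]; exact hy0.2⟩
      obtain ⟨r, hr, hri⟩ := hN.inj x hxU (hnS x hx)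
      refine ⟨(UD f x0 r0 ρ0 ∩ {x' | |h x' - h x| < η}) ∩ (U x ∩ Metric.ball x r),
        (hOp x).inter ((hU x).2.inter Metric.isOpen_ball),
        ⟨⟨hfibUD x hx, hself x⟩, (hU x).1, Metric.mem_ball_self hr⟩,
        fun x' hx' => hx'.2.1, fun x' hx' => hx'.1.1, hri.mono fun x' hx' => hx'.2.2,
        fun x' hx' => hx'.1.2⟩
    choose! B hB using hex
    obtain ⟨δ1, hδ1, hδ1'⟩ := hC5 y0 hy0b (⋃ x ∈ fib f x0 r0 y0, B x)
      (isOpen_biUnion fun x hx => (hB x hx).1) (fun x hx => mem_biUnion hx (hB x hx).2.1)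
    have hnb : ∀ᶠ y in 𝓝 y0, ∀ x ∈ fib f x0 r0 y0, y ∈ f '' B x := by
      rw [Filter.eventually_all_finite hfin]
      intro x hx
      have h1 : IsOpen (f '' B x) :=
        hN.opm _ (hB x hx).1 ((hB x hx).2.2.2.1.trans hUDΩ)
      exact h1.mem_nhds ⟨x, (hB x hx).2.1, hx.2⟩
    obtain ⟨δ2, hδ2, hδ2'⟩ := Metric.eventually_nhds_iff.1 hnb
    refine ⟨min δ1 δ2, lt_min hδ1 hδ2, fun y hy hyd => ?_⟩
    have hyb := hVb y hy
    have hex2 : ∀ x ∈ fib f x0 r0 y0, ∃ x', x' ∈ B x ∧ f x' = y :=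
      hδ2' (lt_of_lt_of_le hyd (min_le_right _ _))
    choose! g hg using hex2
    have hfy : fib f x0 r0 y = g '' fib f x0 r0 y0 := by
      ext x
      constructor
      · intro hx
        have h1 := hδ1' x hx.1 (by
          rw [hx.2, ← dist_eq_norm]
          exact lt_of_lt_of_le hyd (min_le_left _ _))
        obtain ⟨z, hz, hxz⟩ := mem_iUnion₂.1 h1
        exact ⟨z, hz, (hB z hz).2.2.2.2.1 (hg z hz).1 hxz ((hg z hz).2.trans hx.2.symm)⟩
      · rintro ⟨z, hz, rfl⟩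
        exact ⟨((hB z hz).2.2.2.1 (hg z hz).1).1, (hg z hz).2⟩
    have hinj : InjOn g (fib f x0 r0 y0) := by
      intro z hz z' hz' hzz
      by_contra hne
      have h1 := hUd hz hz' hne
      refine Set.disjoint_left.1 h1 ((hB z hz).2.2.1 (hg z hz).1) ?_
      rw [hzz]
      exact (hB z' hz').2.2.1 (hg z' hz').1
    have hcard' : (fib f x0 r0 y).ncard = m := by
      rw [hfy, Set.ncard_image_of_injOn hinj, hcard]
    have e1 := ((hF y hyb).2.2.2.2 h).2.1 hcard'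
    have e0 := ((hF y0 hy0b).2.2.2.2 h).2.1 hcard
    rw [e1, e0, hfy, finsum_mem_image hinj, finsum_mem_eq_finite_toFinset_sum _ hfin,
      finsum_mem_eq_finite_toFinset_sum _ hfin, Real.dist_eq, ← Finset.sum_sub_distrib]
    have hc : (hfin.toFinset.card : ℝ) = m := by
      rw [← Set.ncard_eq_toFinset_card _ hfin, hcard]
    calc |∑ i ∈ hfin.toFinset, (h (g i) - h i)|
        ≤ ∑ i ∈ hfin.toFinset, |h (g i) - h i| := Finset.abs_sum_le_sum_abs _ _
      _ ≤ ∑ _i ∈ hfin.toFinset, η := Finset.sum_le_sum fun i hi => by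
          have hi' := hfin.mem_toFinset.1 hi
          exact ((hB i hi').2.2.2.2.2 _ (hg i hi').1).le
      _ = ε / 2 := by rw [Finset.sum_const, nsmul_eq_mul, hc, hmη]
      _ < ε := by linarith

end Pool.GQ
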