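import Pool.Agent.Work.MP_680515_gq.Interface

open MeasureTheory Set Filter Topology

namespace Pool.GQ

open Pool.Mart Pool.Flat Pool.SQ

/-- GSL: `S` meets every level. -/
theorem p_GSL (hN : Stmt_GNS) (hC : Stmt_CPT) : Stmt_GSL := by
  intro Ω f A x0 r0 ρ0 m S hNP s hs
  obtain ⟨hs0, hs1⟩ := hs
  obtain ⟨_, _, _, hcpt, _, _, _⟩ := hC Ω f A x0 r0 ρ0 m S hNP
  set C : Set E3 := {y | s / 2 ≤ ‖y - f x0‖ ∧ ‖y - f x0‖ ≤ (s + ρ0) / 2} with hCdef
  have hCc : IsCompact C := by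
    refine Metric.isCompact_of_isClosed_isBounded ?_ ?_
    · have hcont : Continuous fun y : E3 => ‖y - f x0‖ := by fun_prop
      exact (isClosed_le continuous_const hcont).inter (isClosed_le hcont continuous_const)
    · refine (Metric.isBounded_closedBall (x := f x0) (r := (s + ρ0) / 2)).subset ?_
      intro y hy
      rw [Metric.mem_closedBall, dist_eq_norm]
      exact hy.2
  have hCb : C ⊆ Metric.ball (f x0) ρ0 := by
    intro y hy
    rw [Metric.mem_ball, dist_eq_norm]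
    have := hy.2
    linarith
  have hK := hcpt C hCc hCb
  set K : Set E3 := {x | x ∈ Metric.ball x0 r0 ∧ f x ∈ C} with hKdef
  have hKU : ∀ x ∈ K, x ∈ UU0 f x0 r0 ρ0 := by
    intro x hx
    refine ⟨hx.1, ?_⟩
    have := hx.2.2
    linarith
  have hK' : IsCompact (K ∩ (UU0 f x0 r0 ρ0 \ S)ᶜ) := hK.inter_right hNP.opS.isClosed_compl
  have hmemS : ∀ x ∈ K ∩ (UU0 f x0 r0 ρ0 \ S)ᶜ, x ∈ S := by
    intro x hx
    by_contra hxS
    exact hx.2 ⟨hKU x hx.1, hxS⟩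
  -- points of `S` close to the level
  have hpt : ∀ ε : ℝ, 0 < ε → ∃ z ∈ K ∩ (UU0 f x0 r0 ρ0 \ S)ᶜ, |‖f z - f x0‖ - s| < ε := by
    intro ε hε
    set δ : ℝ := min ε (min (s / 2) ((ρ0 - s) / 2)) with hδ
    have hδ0 : 0 < δ := lt_min hε (lt_min (by linarith) (by linarith))
    have hδ1 : δ ≤ ε := min_le_left _ _
    have hδ2 : δ ≤ s / 2 := (min_le_right _ _).trans (min_le_left _ _)
    have hδ3 : δ ≤ (ρ0 - s) / 2 := (min_le_right _ _).trans (min_le_right _ _)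
    obtain ⟨z, hzS, hzb, h1, h2⟩ := hN Ω f A x0 r0 ρ0 m S hNP (s - δ) (s + δ) (by linarith)
      (by linarith) (by linarith)
    refine ⟨z, ⟨⟨hzb, ?_, ?_⟩, fun h => h.2 hzS⟩, ?_⟩
    · linarith
    · linarith
    · rw [abs_lt]
      constructor <;> linarith
  obtain ⟨z1, hz1, _⟩ := hpt 1 one_pos
  have hcontf : ContinuousOn (fun x => |‖f x - f x0‖ - s|) (K ∩ (UU0 f x0 r0 ρ0 \ S)ᶜ) := by
    have hf : ContinuousOn f (K ∩ (UU0 f x0 r0 ρ0 \ S)ᶜ) := by
      refine hNP.cont.mono ?_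
      intro x hx
      exact hNP.sub (Metric.ball_subset_closedBall hx.1.1)
    exact ((hf.sub continuousOn_const).norm.sub continuousOn_const).abs
  obtain ⟨z, hz, hmin⟩ := hK'.exists_isMinOn ⟨z1, hz1⟩ hcontf
  have hlev : ‖f z - f x0‖ = s := by
    by_contra hne
    have hpos : 0 < |‖f z - f x0‖ - s| := abs_pos.mpr (sub_ne_zero.mpr hne)
    obtain ⟨w, hw, hlt⟩ := hpt _ hpos
    have := hmin hw
    simp only [Set.mem_setOf_eq] at this
    exact absurd hlt (not_lt.mpr this)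
  have hzS : z ∈ S := hmemS z hz
  have hzfib : z ∈ fib f x0 r0 (f z) := ⟨hz.1.1, rfl⟩
  refine ⟨z, hzS, hz.1.1, hlev, ?_⟩
  have hfz : f z ∈ Metric.ball (f x0) ρ0 := by
    rw [Metric.mem_ball, dist_eq_norm, hlev]
    exact hs1
  rcases hNP.fbr (f z) hfz with ⟨w, _, hw⟩ | ⟨_, _, h⟩
  · rw [hw] at hzfib
    rw [hw, Set.mem_singleton_iff.mp hzfib]
  · exact absurd hzS (h z hzfib)

end Pool.GQ
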