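import Pool.Agent.Work.MP_680515_gq.Interface
import Pool.Agent.Work.MP_680515_sq.B_T3

/-! # MP_680515_an, THEOREM GQ: block GT3, the solid angle identity -/

set_option autoImplicit false

open MeasureTheory Set Filter Topology

namespace Pool.GQ

open Pool.Mart Pool.Flat Pool.SQ

theorem p_GT3 (_hCPT : Stmt_CPT) (hCHR : Pool.Flat.Stmt_CHR) (hRINT : Pool.Mart.Stmt_RINT)
    (hRADF : Pool.Mart.Stmt_RADF) : Stmt_GT3 := by
  intro Ω f A x0 r0 ρ0 m S h κ hκ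
  classical
  obtain ⟨Φ, t1, t2, ht1, ht2, ht20, hk, hg, hd, hΦ0, hΦT⟩ := T3_prim h.ρpos hκ
  obtain ⟨hΨ, hΨ'⟩ := T3_rad ht1 hΦ0 hd hg (f x0)
  have hfc : ContinuousOn f Ω := h.cont
  have hx0 : x0 ∈ Ω := h.sub (Metric.mem_closedBall_self h.rpos.le)
  have hbs : Metric.ball x0 r0 ⊆ Ω := Metric.ball_subset_closedBall.trans h.sub
  -- the inner radius
  obtain ⟨b0, hb0, hb⟩ : ∃ b0 : ℝ, 0 < b0 ∧ ∀ x : E3, ‖x - x0‖ ≤ b0 →
      ‖f x - f x0‖ ≤ t1 := by
    have h1 : ContinuousAt f x0 := hfc.continuousAt (h.op.mem_nhds hx0)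
    obtain ⟨δ, hδ, h2⟩ := Metric.continuousAt_iff.1 h1 t1 ht1
    refine ⟨δ / 2, by positivity, fun x hx => ?_⟩
    have h3 := h2 (show dist x x0 < δ by rw [dist_eq_norm]; linarith)
    rw [dist_eq_norm] at h3
    exact h3.le
  -- the outer radius
  obtain ⟨c, hc0, hcr, hc⟩ : ∃ c : ℝ, 0 < c ∧ c < r0 ∧ ∀ x : E3, c ≤ ‖x - x0‖ →
      ‖x - x0‖ < r0 → t2 ≤ ‖f x - f x0‖ := by
    have h1 : ContinuousOn (fun x => ‖f x - f x0‖) (Metric.closedBall x0 r0) :=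
      ((hfc.mono h.sub).sub continuousOn_const).norm
    have h2 : IsClosed (Metric.closedBall x0 r0 ∩
        (fun x => ‖f x - f x0‖) ⁻¹' Iic t2) :=
      h1.preimage_isClosed_of_isClosed Metric.isClosed_closedBall isClosed_Iic
    have h3 : IsCompact (Metric.closedBall x0 r0 ∩
        (fun x => ‖f x - f x0‖) ⁻¹' Iic t2) :=
      (isCompact_closedBall x0 r0).of_isClosed_subset h2 inter_subset_left
    have h4 : x0 ∈ Metric.closedBall x0 r0 ∩
        (fun x => ‖f x - f x0‖) ⁻¹' Iic t2 := by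
      refine ⟨Metric.mem_closedBall_self h.rpos.le, ?_⟩
      show ‖f x0 - f x0‖ ≤ t2
      rw [sub_self, norm_zero]
      exact ht20.le
    obtain ⟨xm, hxm, hmax⟩ := h3.exists_isMaxOn ⟨x0, h4⟩
      (continuous_id.sub continuous_const).norm.continuousOn (f := fun x : E3 => ‖x - x0‖)
    have h5 : ‖xm - x0‖ < r0 := by
      have h6 : ‖f xm - f x0‖ ≤ t2 := hxm.2
      have h7 : ‖xm - x0‖ ≤ r0 := by
        have := hxm.1
        rwa [Metric.mem_closedBall, dist_eq_norm] at this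
      refine lt_of_le_of_ne h7 fun h8 => ?_
      linarith [h.sph xm h8]
    refine ⟨(‖xm - x0‖ + r0) / 2, by linarith [norm_nonneg (xm - x0), h.rpos], by linarith,
      fun x hx hx' => ?_⟩
    by_contra hn
    have h7 : x ∈ Metric.closedBall x0 r0 ∩
        (fun x => ‖f x - f x0‖) ⁻¹' Iic t2 := by
      refine ⟨?_, (not_le.1 hn).le⟩
      rw [Metric.mem_closedBall, dist_eq_norm]
      exact hx'.le
    have h8 : ‖x - x0‖ ≤ ‖xm - x0‖ := hmax h7
    linarith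
  obtain ⟨b, hb1, hb2, hb3⟩ : ∃ b : ℝ, 0 < b ∧ b < c ∧ b ≤ b0 :=
    ⟨min b0 (c / 2), by positivity, by linarith [min_le_right b0 (c / 2)], min_le_left _ _⟩
  obtain ⟨η, β, hη, hη0, hη1, hηI, hβ, hβ1, hβ0, hηβ⟩ :=
    T3_eta (a := b / 2) (b := b) (c := c) (d := (c + r0) / 2) (by linarith) (by linarith)
  obtain ⟨hζ1, hζ2, hζ3, hζ4⟩ := T3_test hRADF (by positivity : 0 < b / 2)
    (by linarith : (c + r0) / 2 < r0) hη hη0 hη1 x0
  have hβI := T3_beta hRINT hc0 hβ hβ1 hβ0 x0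
  -- the weak gradient
  have hΨ2 : ContDiff ℝ 1 (fun z : E3 × E3 => Φ ‖z.2 - f x0‖) := hΨ.comp contDiff_snd
  have hwg := hCHR Ω (Metric.ball x0 r0) f A univ
    (fun z : E3 × E3 => Φ ‖z.2 - f x0‖) h.op Metric.isOpen_ball hbs hfc h.wg
    isOpen_univ hΨ2.contDiffOn (fun _ _ => mem_univ _)
  have hV : ∀ (x : E3) (j : Fin 3), fderiv ℝ (fun z : E3 × E3 => Φ ‖z.2 - f x0‖)
      (x, f x) (EuclideanSpace.single j 1, act (A x) (EuclideanSpace.single j 1)) =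
      κ ‖f x - f x0‖ / ‖f x - f x0‖ * (‖f x - f x0‖⁻¹ *
        inner ℝ (f x - f x0) (act (A x) (EuclideanSpace.single j 1))) := by
    intro x j
    have h1 : HasFDerivAt (fun y : E3 => Φ ‖y - f x0‖)
        (fderiv ℝ (fun y : E3 => Φ ‖y - f x0‖) (f x)) (f x) :=
      (hΨ.differentiable (by norm_num) _).hasFDerivAt
    have h2 : HasFDerivAt (fun z : E3 × E3 => Φ ‖z.2 - f x0‖)
        ((fderiv ℝ (fun y : E3 => Φ ‖y - f x0‖) (f x)).comp
          (ContinuousLinearMap.snd ℝ E3 E3)) (x, f x) :=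
      HasFDerivAt.comp (g := fun y : E3 => Φ ‖y - f x0‖)
        (f := (Prod.snd : E3 × E3 → E3)) (x, f x) h1 hasFDerivAt_snd
    rw [h2.fderiv]
    exact hΨ' _ _
  -- the function u
  have huc : ContinuousOn (fun x => Φ ‖f x - f x0‖) (Metric.ball x0 r0) :=
    hΨ.continuous.comp_continuousOn (hfc.mono hbs)
  have hu0 : ∀ x : E3, ‖x - x0‖ ≤ b → Φ ‖f x - f x0‖ = 0 := fun x hx =>
    hΦ0 _ (hb x (hx.trans hb3))
  have huT : ∀ x : E3, c ≤ ‖x - x0‖ → ‖x - x0‖ < r0 →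
      Φ ‖f x - f x0‖ = ∫ t, κ t / t := fun x hx hx' => hΦT _ (hc x hx hx')
  have hdβ1 : ∀ r, r < c → deriv β r = 0 := by
    intro r hr
    have h2 : β =ᶠ[𝓝 r] fun _ => (1 : ℝ) := by
      filter_upwards [Iio_mem_nhds hr] with s hs
      exact hβ1 s (le_of_lt hs)
    rw [h2.deriv_eq, deriv_const]
  have hdβ2 : ∀ r, (c + r0) / 2 < r → deriv β r = 0 := by
    intro r hr
    have h2 : β =ᶠ[𝓝 r] fun _ => (0 : ℝ) := by
      filter_upwards [Ioi_mem_nhds hr] with s hs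
      exact hβ0 s (le_of_lt hs)
    rw [h2.deriv_eq, deriv_const]
  have huη : ∀ x : E3, Φ ‖f x - f x0‖ * (deriv η ‖x - x0‖ / ‖x - x0‖ ^ 2) =
      (∫ t, κ t / t) * (deriv β ‖x - x0‖ / ‖x - x0‖ ^ 2) := by
    intro x
    by_cases h1 : ‖x - x0‖ ≤ b
    · rw [hu0 x h1, hdβ1 _ (lt_of_le_of_lt h1 hb2)]
      simp
    · rw [hηβ _ (not_le.1 h1)]
      by_cases h2 : ‖x - x0‖ < c
      · rw [hdβ1 _ h2]
        simp
      · by_cases h3 : ‖x - x0‖ < r0
        · rw [huT x (not_lt.1 h2) h3]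
        · rw [hdβ2 _ (by linarith [not_lt.1 h3])]
          simp
  -- integrability
  have hI1 : ∀ j : Fin 3, Integrable (fun x => Φ ‖f x - f x0‖ * fderiv ℝ
      (fun x : E3 => η ‖x - x0‖ * ((‖x - x0‖ ^ 3)⁻¹ * (x - x0) j)) x
        (EuclideanSpace.single j 1)) := by
    intro j
    have h1 : Continuous (fun x => fderiv ℝ
      (fun x : E3 => η ‖x - x0‖ * ((‖x - x0‖ ^ 3)⁻¹ * (x - x0) j)) x
        (EuclideanSpace.single j 1)) :=
      ((hζ1 j).continuous_fderiv (by simp)).clm_apply continuous_const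
    have h2 : IntegrableOn (fun x => Φ ‖f x - f x0‖ * fderiv ℝ
      (fun x : E3 => η ‖x - x0‖ * ((‖x - x0‖ ^ 3)⁻¹ * (x - x0) j)) x
        (EuclideanSpace.single j 1))
        (tsupport (fun x : E3 => η ‖x - x0‖ * ((‖x - x0‖ ^ 3)⁻¹ * (x - x0) j))) :=
      ContinuousOn.integrableOn_compact (hζ2 j)
        ((huc.mono (hζ3 j)).mul h1.continuousOn)
    refine (integrableOn_iff_integrable_of_support_subset ?_).1 h2
    intro x hx
    have h3 : fderiv ℝ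
      (fun x : E3 => η ‖x - x0‖ * ((‖x - x0‖ ^ 3)⁻¹ * (x - x0) j)) x ≠ 0 := by
      intro h4
      apply hx
      show Φ ‖f x - f x0‖ * fderiv ℝ
        (fun x : E3 => η ‖x - x0‖ * ((‖x - x0‖ ^ 3)⁻¹ * (x - x0) j)) x
          (EuclideanSpace.single j 1) = 0
      rw [h4]
      simp
    exact support_fderiv_subset ℝ h3
  have hI2 : ∀ j : Fin 3, Integrable (fun x => (κ ‖f x - f x0‖ /
      ‖f x - f x0‖ * (‖f x - f x0‖⁻¹ *
        inner ℝ (f x - f x0) (act (A x) (EuclideanSpace.single j 1)))) *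
      (η ‖x - x0‖ * ((‖x - x0‖ ^ 3)⁻¹ * (x - x0) j))) := by
    intro j
    have h1 := hwg.loc _ (hζ2 j) (hζ3 j) j
    have h2 : IntegrableOn (fun x => κ ‖f x - f x0‖ /
      ‖f x - f x0‖ * (‖f x - f x0‖⁻¹ *
        inner ℝ (f x - f x0) (act (A x) (EuclideanSpace.single j 1))))
        (tsupport (fun x : E3 => η ‖x - x0‖ * ((‖x - x0‖ ^ 3)⁻¹ * (x - x0) j))) := by
      refine h1.congr_fun (fun x _ => ?_) (isClosed_tsupport _).measurableSet
      exact hV x j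
    have h3 := h2.mul_continuousOn (hζ1 j).continuous.continuousOn (hζ2 j)
    refine (integrableOn_iff_integrable_of_support_subset ?_).1 h3
    intro x hx
    refine subset_tsupport _ ?_
    intro h4
    apply hx
    have h5 : η ‖x - x0‖ * ((‖x - x0‖ ^ 3)⁻¹ * (x - x0) j) = 0 := h4
    show _ * (η ‖x - x0‖ * ((‖x - x0‖ ^ 3)⁻¹ * (x - x0) j)) = 0
    rw [h5, mul_zero]
  -- the sum of the three identities
  have hsum : ∫ x, ∑ j : Fin 3, (κ ‖f x - f x0‖ /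
      ‖f x - f x0‖ * (‖f x - f x0‖⁻¹ *
        inner ℝ (f x - f x0) (act (A x) (EuclideanSpace.single j 1)))) *
      (η ‖x - x0‖ * ((‖x - x0‖ ^ 3)⁻¹ * (x - x0) j)) = 4 * Real.pi * ∫ t, κ t / t := by
    rw [integral_finsetSum _ fun j _ => hI2 j]
    have h1 : ∀ j : Fin 3, ∫ x, (κ ‖f x - f x0‖ /
      ‖f x - f x0‖ * (‖f x - f x0‖⁻¹ *
        inner ℝ (f x - f x0) (act (A x) (EuclideanSpace.single j 1)))) *
      (η ‖x - x0‖ * ((‖x - x0‖ ^ 3)⁻¹ * (x - x0) j)) =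
        - ∫ x, Φ ‖f x - f x0‖ * fderiv ℝ
      (fun x : E3 => η ‖x - x0‖ * ((‖x - x0‖ ^ 3)⁻¹ * (x - x0) j)) x
        (EuclideanSpace.single j 1) := by
      intro j
      have h2 := hwg.ibp _ (hζ1 j) (hζ2 j) (hζ3 j) j
      rw [h2, neg_neg]
      refine integral_congr_ae (Filter.Eventually.of_forall fun x => ?_)
      show _ = fderiv ℝ (fun z : E3 × E3 => Φ ‖z.2 - f x0‖)
        (x, f x) (EuclideanSpace.single j 1, act (A x) (EuclideanSpace.single j 1)) * _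
      rw [hV x j]
    rw [Finset.sum_congr rfl fun j _ => h1 j, Finset.sum_neg_distrib,
      ← integral_finsetSum _ fun j _ => hI1 j]
    have h3 : ∀ x : E3, ∑ j : Fin 3, Φ ‖f x - f x0‖ * fderiv ℝ
      (fun x : E3 => η ‖x - x0‖ * ((‖x - x0‖ ^ 3)⁻¹ * (x - x0) j)) x
        (EuclideanSpace.single j 1) =
        (∫ t, κ t / t) * (deriv β ‖x - x0‖ / ‖x - x0‖ ^ 2) := by
      intro x
      rw [← Finset.mul_sum, hζ4 x, huη x]
    rw [integral_congr_ae (Filter.Eventually.of_forall h3), integral_const_mul, hβI]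
    ring
  rw [← hsum]
  have hpt : ∀ x : E3, ∑ j : Fin 3, (κ ‖f x - f x0‖ /
      ‖f x - f x0‖ * (‖f x - f x0‖⁻¹ *
        inner ℝ (f x - f x0) (act (A x) (EuclideanSpace.single j 1)))) *
      (η ‖x - x0‖ * ((‖x - x0‖ ^ 3)⁻¹ * (x - x0) j)) =
      η ‖x - x0‖ * (κ ‖f x - f x0‖ *
        (inner ℝ (f x - f x0) (act (A x) (x - x0))
        / (‖x - x0‖ ^ 3 * ‖f x - f x0‖ ^ 2))) := by
    intro x
    rw [← T3_act (A x) (x - x0) (f x - f x0), Finset.sum_div, Finset.mul_sum,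
      Finset.mul_sum]
    refine Finset.sum_congr rfl fun j _ => ?_
    rw [div_eq_mul_inv, div_eq_mul_inv, mul_inv, ← inv_pow ‖f x - f x0‖ 2]
    ring
  rw [integral_congr_ae (Filter.Eventually.of_forall hpt)]
  have hz : ∀ x : E3, x ∉ Metric.ball x0 r0 → η ‖x - x0‖ * (κ ‖f x - f x0‖ *
        (inner ℝ (f x - f x0) (act (A x) (x - x0))
        / (‖x - x0‖ ^ 3 * ‖f x - f x0‖ ^ 2))) = 0 := by
    intro x hx
    rw [Metric.mem_ball, dist_eq_norm] at hx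
    rw [hη1 _ (by linarith [not_lt.1 hx]), zero_mul]
  rw [← setIntegral_eq_integral_of_forall_compl_eq_zero hz]
  refine setIntegral_congr_fun measurableSet_ball fun x hx => ?_
  show κ ‖f x - f x0‖ * _ = η ‖x - x0‖ * (κ ‖f x - f x0‖ * _)
  by_cases hκ0 : κ ‖f x - f x0‖ = 0
  · rw [hκ0, zero_mul, mul_zero]
  · rw [Metric.mem_ball, dist_eq_norm] at hx
    have h1 := hk _ hκ0
    have h2 : b ≤ ‖x - x0‖ := by
      by_contra hn
      exact absurd (hb x ((not_le.1 hn).le.trans hb3)) (not_le.2 h1.1)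
    have h3 : ‖x - x0‖ ≤ c := by
      by_contra hn
      exact absurd (hc x (not_le.1 hn).le hx) (not_le.2 h1.2)
    rw [hηI _ h2 h3, one_mul]

end Pool.GQ
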