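import Pool.Agent.Work.MP_680515_gq.Interface

/-!
# MP_680515_an, block GU1: the local index is unique.
-/

open MeasureTheory Set Filter Topology

namespace Pool.GQ

open Pool.Mart Pool.Flat Pool.SQ

theorem p_GU1 : Stmt_GU1 := by
  intro Ω f A x k k' hf h h'
  obtain ⟨r, ρ, -, -, L⟩ := h 1 one_pos
  obtain ⟨r', ρ', hr', -, L'⟩ := h' r L.rpos
  have hcont : ContinuousOn f (Metric.closedBall x r) := hf.mono L.sub
  have hK : IsCompact (Metric.closedBall x r \ Metric.ball x r') :=
    (isCompact_closedBall x r).diff Metric.isOpen_ball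
  have hKc : ∃ c : ℝ, 0 < c ∧ ∀ y ∈ Metric.closedBall x r \ Metric.ball x r', c ≤ ‖f y - f x‖ := by
    rcases (Metric.closedBall x r \ Metric.ball x r').eq_empty_or_nonempty with he | hne
    · exact ⟨1, one_pos, fun y hy => by rw [he] at hy; exact absurd hy (Set.notMem_empty y)⟩
    · have hc2 : ContinuousOn (fun y => ‖f y - f x‖) (Metric.closedBall x r \ Metric.ball x r') :=
        ((hcont.mono Set.sdiff_subset).sub continuousOn_const).norm
      obtain ⟨y0, hy0, hmin⟩ := hK.exists_isMinOn hne hc2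
      refine ⟨‖f y0 - f x‖, ?_, fun y hy => hmin hy⟩
      rw [norm_pos_iff, sub_ne_zero]
      intro he
      have h1 := L.unq y0 hy0.1 he
      apply hy0.2
      rw [h1]
      exact Metric.mem_ball_self L'.rpos
  obtain ⟨c, hc, hcK⟩ := hKc
  set δ := min c (min ρ ρ') with hδ
  have hδ0 : 0 < δ := lt_min hc (lt_min L.ρpos L'.ρpos)
  have hδc : δ ≤ c := min_le_left _ _
  have hδρ : δ ≤ ρ := (min_le_right _ _).trans (min_le_left _ _)
  have hδρ' : δ ≤ ρ' := (min_le_right _ _).trans (min_le_right _ _)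
  let g : ContDiffBump (f x) := ⟨δ / 4, δ / 2, by linarith, by linarith⟩
  have hg2 : g.rOut = δ / 2 := rfl
  have hts : ∀ s : ℝ, δ ≤ s → tsupport (g : E3 → ℝ) ⊆ Metric.ball (f x) s := by
    intro s hs
    rw [g.tsupport_eq]
    exact Metric.closedBall_subset_ball (by rw [hg2]; linarith)
  have hI : 0 < ∫ y, g y := g.integral_pos
  have e1 := L.deg g g.continuous g.hasCompactSupport (hts ρ hδρ)
  have e2 := L'.deg g g.continuous g.hasCompactSupport (hts ρ' hδρ')
  have e3 : ∫ y in Metric.ball x r, (A y).det * g (f y) =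
      ∫ y in Metric.ball x r', (A y).det * g (f y) := by
    refine setIntegral_eq_of_subset_of_forall_sdiff_eq_zero Metric.isOpen_ball.measurableSet
      (Metric.ball_subset_ball hr') ?_
    intro y hy
    have h1 : c ≤ ‖f y - f x‖ := hcK y ⟨Metric.ball_subset_closedBall hy.1, hy.2⟩
    have h2 : g (f y) = 0 := by
      apply g.zero_of_le_dist
      rw [hg2, dist_eq_norm]
      linarith
    rw [h2, mul_zero]
  rw [e1, e2] at e3
  have e4 := mul_right_cancel₀ hI.ne' e3
  exact_mod_cast e4

end Pool.GQ
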