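import Pool.Agent.Work.MP_680515_gq.Interface

set_option autoImplicit false

open MeasureTheory Set Filter Topology

namespace Pool.GQ

open Pool.Mart Pool.Flat Pool.SQ

lemma GUC_out (x0 : E3) (r0 : ℝ) (hr0 : 0 < r0) : IsPreconnected {x : E3 | r0 ≤ ‖x - x0‖} := by
  have hrank : 1 < Module.rank ℝ E3 := by
    rw [rank_eq_card_basis (EuclideanSpace.basisFun (Fin 3) ℝ).toBasis]
    simp
  have h2 : IsPreconnected (Metric.sphere (0 : E3) 1 ×ˢ Ici r0) :=
    (isPreconnected_sphere hrank 0 1).prod isPreconnected_Ici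
  have h3 : IsPreconnected ((fun p : E3 × ℝ => x0 + p.2 • p.1) ''
      (Metric.sphere (0 : E3) 1 ×ˢ Ici r0)) := h2.image _ (by fun_prop)
  convert h3 using 1
  ext x
  constructor
  · intro hx
    have hx' : r0 ≤ ‖x - x0‖ := hx
    have hne : ‖x - x0‖ ≠ 0 := (lt_of_lt_of_le hr0 hx').ne'
    refine ⟨(‖x - x0‖⁻¹ • (x - x0), ‖x - x0‖), ⟨?_, hx'⟩, ?_⟩
    · rw [mem_sphere_zero_iff_norm, norm_smul, norm_inv, norm_norm, inv_mul_cancel₀ hne]
    · show x0 + ‖x - x0‖ • (‖x - x0‖⁻¹ • (x - x0)) = x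
      rw [smul_smul, mul_inv_cancel₀ hne, one_smul]
      abel
  · rintro ⟨⟨u, t⟩, ⟨hu, ht⟩, rfl⟩
    have hu' : ‖u‖ = 1 := mem_sphere_zero_iff_norm.1 hu
    have ht' : r0 ≤ t := ht
    show r0 ≤ ‖x0 + t • u - x0‖
    rw [add_sub_cancel_left, norm_smul, hu', mul_one, Real.norm_eq_abs]
    exact ht'.trans (le_abs_self t)

lemma GUC_key {Ω : Set E3} {f : E3 → E3} {A : E3 → M3} {x0 : E3} {r0 ρ0 : ℝ} {m : ℕ} {S : Set E3}
    (h : NP Ω f A x0 r0 ρ0 m S) (s : ℝ) (hs : 0 < s) (V1 V2 : Set E3)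
    (h1 : IsOpen V1) (h2 : IsOpen V2) (hd : Disjoint V1 V2)
    (hU : {x | x ∈ Metric.ball x0 r0 → s < ‖f x - f x0‖} ⊆ V1 ∪ V2)
    (hU2 : V2 ⊆ {x | x ∈ Metric.ball x0 r0 → s < ‖f x - f x0‖}) (hne : V2.Nonempty)
    (hO : {x : E3 | r0 ≤ ‖x - x0‖} ⊆ V1) : False := by
  have hb : V2 ⊆ Metric.ball x0 r0 := by
    intro x hx
    by_contra hx2
    have h3 : x ∈ V1 := hO (by
      rw [mem_ball_iff_norm, not_lt] at hx2
      exact hx2)
    exact Set.disjoint_left.1 hd h3 hx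
  have hcl : closure V2 ⊆ Metric.closedBall x0 r0 :=
    (closure_mono hb).trans Metric.closure_ball_subset_closedBall
  have hcpt : IsCompact (closure V2) :=
    (isCompact_closedBall x0 r0).of_isClosed_subset isClosed_closure hcl
  have hcont : ContinuousOn (fun x => ‖f x - f x0‖) (closure V2) :=
    ((h.cont.mono (hcl.trans h.sub)).sub continuousOn_const).norm
  obtain ⟨p, hp, hmax⟩ := hcpt.exists_isMaxOn hne.closure hcont
  have hmax' : ∀ x ∈ closure V2, ‖f x - f x0‖ ≤ ‖f p - f x0‖ := fun x hx => hmax hx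
  obtain ⟨x1, hx1⟩ := hne
  have hs1 : s < ‖f x1 - f x0‖ := hU2 hx1 (hb hx1)
  have hsp : s < ‖f p - f x0‖ := hs1.trans_le (hmax' x1 (subset_closure hx1))
  have hp1 : p ∉ V1 := Set.disjoint_right.1 (hd.closure_right h1) hp
  have hp2 : p ∈ V2 := by
    rcases hU (show p ∈ {x | x ∈ Metric.ball x0 r0 → s < ‖f x - f x0‖} from fun _ => hsp) with h3 | h3
    · exact absurd h3 hp1
    · exact h3
  have hopen : IsOpen (f '' V2) :=
    h.opm V2 h2 (hb.trans (Metric.ball_subset_closedBall.trans h.sub))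
  obtain ⟨ε, hε, hball⟩ := Metric.isOpen_iff.1 hopen (f p) ⟨p, hp2, rfl⟩
  have hpos : 0 < ‖f p - f x0‖ := hs.trans hsp
  obtain ⟨x, hx, hfx⟩ := hball (show f p + (ε / (2 * ‖f p - f x0‖)) • (f p - f x0) ∈
      Metric.ball (f p) ε by
    rw [mem_ball_iff_norm, add_sub_cancel_left, norm_smul, Real.norm_eq_abs,
      abs_of_pos (by positivity)]
    have e : ε / (2 * ‖f p - f x0‖) * ‖f p - f x0‖ = ε / 2 := by field_simp
    rw [e]
    linarith)
  have h4 := hmax' x (subset_closure hx)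
  have e2 : f x - f x0 = (1 + ε / (2 * ‖f p - f x0‖)) • (f p - f x0) := by
    rw [hfx, add_smul, one_smul]
    abel
  have hε2 : 0 < ε / (2 * ‖f p - f x0‖) := by positivity
  rw [e2, norm_smul, Real.norm_eq_abs, abs_of_pos (by positivity)] at h4
  nlinarith [mul_pos hε2 hpos]

theorem p_GUC (hCPT : Stmt_CPT) : Stmt_GUC := by
  intro Ω f A x0 r0 ρ0 m S h s hs hsρ
  obtain ⟨_, _, _, h4, _, _, _⟩ := hCPT Ω f A x0 r0 ρ0 m S h
  have hopen : IsOpen {x | x ∈ Metric.ball x0 r0 → s < ‖f x - f x0‖} := by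
    have h5 := (h4 (Metric.closedBall (f x0) s) (isCompact_closedBall _ _)
      (Metric.closedBall_subset_ball hsρ)).isClosed
    rw [← isOpen_compl_iff] at h5
    convert h5 using 1
    ext x
    simp only [mem_setOf_eq, mem_compl_iff, mem_closedBall_iff_norm, not_and, not_le]
  refine ⟨hopen, ?_⟩
  intro u v hu hv huv hne1 hne2
  by_contra hno
  rw [Set.not_nonempty_iff_eq_empty] at hno
  obtain ⟨U, hUdef⟩ : ∃ U, U = {x | x ∈ Metric.ball x0 r0 → s < ‖f x - f x0‖} := ⟨_, rfl⟩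
  rw [← hUdef] at hopen huv hne1 hne2 hno
  have hd : Disjoint (U ∩ u) (U ∩ v) := by
    rw [Set.disjoint_left]
    intro x hx hx'
    have : x ∈ U ∩ (u ∩ v) := ⟨hx.1, hx.2, hx'.2⟩
    rw [hno] at this
    exact this
  have hO : {x : E3 | r0 ≤ ‖x - x0‖} ⊆ U := by
    intro x hx
    rw [hUdef]
    intro hxb
    rw [mem_ball_iff_norm] at hxb
    exact absurd hx (not_le.2 hxb)
  have hcov : U ⊆ (U ∩ u) ∪ (U ∩ v) := by
    intro x hx
    rcases huv hx with h6 | h6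
    · exact Or.inl ⟨hx, h6⟩
    · exact Or.inr ⟨hx, h6⟩
  have hUu := hopen.inter hu
  have hUv := hopen.inter hv
  rcases (GUC_out x0 r0 h.rpos).subset_or_subset hUu hUv hd (hO.trans hcov) with h6 | h6
  · exact GUC_key h s hs (U ∩ u) (U ∩ v) hUu hUv hd (hUdef ▸ hcov)
      (hUdef ▸ inter_subset_left) hne2 h6
  · exact GUC_key h s hs (U ∩ v) (U ∩ u) hUv hUu hd.symm
      (by rw [← hUdef, union_comm]; exact hcov) (by rw [← hUdef]; exact inter_subset_left) hne1 h6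

end Pool.GQ
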