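import Pool.Agent.Work.MP_680515_gq.Interface

set_option autoImplicit false

/-!
# MP_680515_an, THEOREM GQ: block GVI (adapted from the block LVI of THEOREM SQ)
-/

open MeasureTheory Set Filter Topology

namespace Pool.GQ

open Pool.Mart Pool.Flat Pool.SQ

theorem GVI_supp {κ : ℝ → ℝ} {ρ0 : ℝ} (hκ : Kap 0 ρ0 κ) (q0 : E3) {g : E3 → ℝ}
    (hg : ∀ y, κ ‖y - q0‖ = 0 → g y = 0) :
    HasCompactSupport g ∧ tsupport g ⊆ {y | 0 < ‖y - q0‖ ∧ ‖y - q0‖ < ρ0} := by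
  have hcl : IsClosed {y : E3 | ‖y - q0‖ ∈ tsupport κ} :=
    (isClosed_tsupport κ).preimage (continuous_id.sub continuous_const).norm
  have hco : IsCompact {y : E3 | ‖y - q0‖ ∈ tsupport κ} := by
    refine (isCompact_closedBall q0 ρ0).of_isClosed_subset hcl fun y hy => ?_
    rw [mem_closedBall_iff_norm]
    exact (hκ.ts hy).2.le
  have hz : ∀ y, y ∉ {y : E3 | ‖y - q0‖ ∈ tsupport κ} → g y = 0 := fun y hy =>
    hg y (image_eq_zero_of_notMem_tsupport hy)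
  refine ⟨HasCompactSupport.intro' hco hcl hz, fun y hy => ?_⟩
  have h1 : tsupport g ⊆ {y : E3 | ‖y - q0‖ ∈ tsupport κ} := by
    refine closure_minimal (fun y hy => ?_) hcl
    by_contra hc
    exact hy (hz y hc)
  exact hκ.ts (h1 hy)

theorem GVI_cont {κ : ℝ → ℝ} {ρ0 : ℝ} (hκ : Kap 0 ρ0 κ) {G : E3 → ℝ} (hG : ContinuousOn G {0}ᶜ) :
    Continuous (fun y => κ ‖y‖ * G y) := by
  have h0 : (0 : ℝ) ∉ tsupport κ := fun h0 => lt_irrefl _ (hκ.ts h0).1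
  refine continuous_iff_continuousAt.2 fun y => ?_
  by_cases hy : y = 0
  · subst hy
    have h1 : κ =ᶠ[𝓝 0] 0 := notMem_tsupport_iff_eventuallyEq.1 h0
    have h3 : Tendsto (fun y : E3 => ‖y‖) (𝓝 0) (𝓝 0) := continuous_norm.tendsto' 0 0 norm_zero
    have h2 : (fun y : E3 => κ ‖y‖ * G y) =ᶠ[𝓝 0] fun _ => (0 : ℝ) := by
      filter_upwards [h3.eventually h1] with y hy
      rw [hy, Pi.zero_apply, zero_mul]
    exact (continuousAt_const (y := (0 : ℝ))).congr h2.symm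
  · exact (hκ.c1.continuous.comp continuous_norm).continuousAt.mul
      (hG.continuousAt (isOpen_compl_singleton.mem_nhds hy))

theorem GVI_cont1 {κ : ℝ → ℝ} {ρ0 : ℝ} (hκ : Kap 0 ρ0 κ) :
    Continuous (fun r => κ r * (r ^ 3)⁻¹) := by
  have h0 : (0 : ℝ) ∉ tsupport κ := fun h0 => lt_irrefl _ (hκ.ts h0).1
  refine continuous_iff_continuousAt.2 fun y => ?_
  by_cases hy : y = 0
  · subst hy
    have h1 : κ =ᶠ[𝓝 0] 0 := notMem_tsupport_iff_eventuallyEq.1 h0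
    have h2 : (fun r => κ r * (r ^ 3)⁻¹) =ᶠ[𝓝 0] fun _ => (0 : ℝ) := by
      filter_upwards [h1] with y hy
      rw [hy, Pi.zero_apply, zero_mul]
    exact (continuousAt_const (y := (0 : ℝ))).congr h2.symm
  · exact hκ.c1.continuous.continuousAt.mul
      ((continuousAt_id.pow 3).inv₀ (pow_ne_zero 3 hy))

theorem GVI_rad (hRINT : Pool.Mart.Stmt_RINT) {κ : ℝ → ℝ} {ρ0 : ℝ} (hκ : Kap 0 ρ0 κ) :
    ∫ y : E3, κ ‖y‖ * (‖y‖ ^ 3)⁻¹ = 4 * Real.pi * ∫ t, κ t / t := by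
  have h1 := hRINT (fun r => κ r * (r ^ 3)⁻¹) 0 ρ0 le_rfl (GVI_cont1 hκ) hκ.cs.mul_right
    ((tsupport_mul_subset_left).trans hκ.ts)
  rw [h1]
  congr 1
  refine integral_congr_ae (Eventually.of_forall fun r => ?_)
  by_cases hr : r = 0
  · subst hr
    simp
  · simp only
    field_simp

theorem GVI_pow {v : ℝ} (hv : 0 ≤ v) :
    (81 / 400 * v) ^ (3 / 2 : ℝ) = 729 / 8000 * v ^ (3 / 2 : ℝ) := by
  rw [Real.mul_rpow (by norm_num) hv]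
  congr 1
  rw [show (81 / 400 : ℝ) = (9 / 20 : ℝ) ^ (2 : ℝ) by norm_num, ← Real.rpow_mul (by norm_num)]
  norm_num

/-- the constant function -/
noncomputable def GVI_g1 (m : ℕ) (κ : ℝ → ℝ) (y : E3) : ℝ :=
  307 / 1000 / mu2 m ^ 3 * (κ ‖y‖ * (‖y‖ ^ 3)⁻¹)

/-- the second function -/
noncomputable def GVI_g2 (m : ℕ) (a b : E3) (κ χ : ℝ → ℝ) (y : E3) : ℝ :=
  14 / 1000 / mu2 m ^ 3 * (κ ‖y‖ * (‖y‖ ^ 3)⁻¹) +
    (481 / 1000 / mu2 m * (81 / 400)) * (κ ‖y‖ * ((‖y‖ ^ 3)⁻¹ * vs a b χ y)) +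
    (458 / 1000 * (729 / 8000)) * (κ ‖y‖ * ((‖y‖ ^ 3)⁻¹ * vs a b χ y ^ (3 / 2 : ℝ)))

theorem GVI_alg {m : ℕ} {a b : E3} {κ χ : ℝ → ℝ} (J w : ℝ) (y : E3) (hv : 0 ≤ vs a b χ y) :
    κ ‖y‖ * (J * (‖y‖ ^ 3)⁻¹ * ((1 - w) * (307 / 1000 / mu2 m ^ 3) + w * Chm m (81 / 400 * vs a b χ y)))
      = J * (1 * GVI_g1 m κ y) + J * (w * GVI_g2 m a b κ χ y) := by
  unfold Chm GVI_g1 GVI_g2
  rw [GVI_pow hv]
  ring

theorem p_GVI (hGWD : Stmt_GWD) (hGWT : Stmt_GWT) (hFSB : Stmt_FSB) (hVSM : Pool.SQ.Stmt_VSM)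
    (_hGIN : Stmt_GIN) (hRINT : Pool.Mart.Stmt_RINT) (_hGSC : Stmt_GSC) : Stmt_GVI := by
  intro Ω f A x0 r0 ρ0 m S hNP a b F κ χ ha hb hab hF hF0 hχ hκ
  obtain ⟨w1, -, w3, -⟩ := hGWT Ω f A x0 r0 ρ0 m S hNP F hF hF0
  obtain ⟨-, v2, v3, v4, v5, v6⟩ := hVSM a b χ κ ha hb hab hχ hκ.c1.continuous hκ.nn hκ.cs
    fun t ht => (hκ.ts ht).1
  have hmu : 0 < mu2 m := by
    have h2 : (2 : ℝ) ≤ m := by exact_mod_cast hNP.two
    exact Real.sqrt_pos.2 (by linarith)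
  have hinv : ContinuousOn (fun y : E3 => (‖y‖ ^ 3)⁻¹) {0}ᶜ :=
    (continuous_norm.continuousOn.pow 3).inv₀ fun y hy => pow_ne_zero 3 (norm_ne_zero_iff.2 hy)
  have c0 : Continuous (fun y : E3 => κ ‖y‖ * (‖y‖ ^ 3)⁻¹) := GVI_cont hκ hinv
  have hs : ∀ {G : E3 → ℝ}, HasCompactSupport (fun y : E3 => κ ‖y‖ * G y) := by
    intro G
    refine (GVI_supp hκ 0 fun y hy => ?_).1
    rw [sub_zero] at hy
    simp only [hy, zero_mul]
  have i0 : Integrable (fun y : E3 => κ ‖y‖ * (‖y‖ ^ 3)⁻¹) := c0.integrable_of_hasCompactSupport hs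
  have i1 : Integrable (fun y : E3 => κ ‖y‖ * ((‖y‖ ^ 3)⁻¹ * vs a b χ y)) :=
    v3.integrable_of_hasCompactSupport hs
  have i2 : Integrable (fun y : E3 => κ ‖y‖ * ((‖y‖ ^ 3)⁻¹ * vs a b χ y ^ (3 / 2 : ℝ))) :=
    v4.integrable_of_hasCompactSupport hs
  have hg1 : Continuous (GVI_g1 m κ) := continuous_const.mul c0
  have hg2 : Continuous (GVI_g2 m a b κ χ) :=
    ((continuous_const.mul c0).add (continuous_const.mul v3)).add (continuous_const.mul v4)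
  set q0 : E3 := f x0 with hq0
  have hsub : Continuous (fun y : E3 => y - q0) := continuous_id.sub continuous_const
  have s1 := GVI_supp hκ q0 (g := fun y => GVI_g1 m κ (y - q0)) fun y hy => by
    simp only [GVI_g1, hy, zero_mul, mul_zero]
  have s2 := GVI_supp hκ q0 (g := fun y => GVI_g2 m a b κ χ (y - q0)) fun y hy => by
    simp only [GVI_g2, hy, zero_mul, mul_zero, add_zero]
  obtain ⟨d1, -, d3⟩ := hGWD Ω f A x0 r0 ρ0 m S hNP (fun _ => 1) (fun y => GVI_g1 m κ (y - q0))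
    continuousOn_const (hg1.comp hsub) s1.1 s1.2
  obtain ⟨f1, -, f3⟩ := hGWD Ω f A x0 r0 ρ0 m S hNP (wq f x0 r0 m F)
    (fun y => GVI_g2 m a b κ χ (y - q0)) w1 (hg2.comp hsub) s2.1 s2.2
  have halg : ∀ x : E3, κ ‖f x - q0‖ *
      ((A x).det * (‖f x - q0‖ ^ 3)⁻¹ * ((1 - wq f x0 r0 m F x) * (307 / 1000 / mu2 m ^ 3)
        + wq f x0 r0 m F x * Chm m (81 / 400 * vs a b χ (f x - q0))))
      = (A x).det * (1 * GVI_g1 m κ (f x - q0)) +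
        (A x).det * (wq f x0 r0 m F x * GVI_g2 m a b κ χ (f x - q0)) :=
    fun x => GVI_alg _ _ _ (v2 _)
  simp only [halg]
  refine ⟨d1.add f1, ?_⟩
  rw [integral_add d1 f1, d3, f3]
  have hoff : ∀ y : E3, y ∉ VD f x0 ρ0 → κ ‖y - q0‖ = 0 := fun y hy =>
    image_eq_zero_of_notMem_tsupport fun h => hy (hκ.ts h)
  have e1 : ∫ y, FS f x0 r0 m (fun _ => 1) y * GVI_g1 m κ (y - q0) =
      m * (307 / 1000 / mu2 m ^ 3) * (4 * Real.pi * ∫ t, κ t / t) := by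
    have h1 : ∀ y : E3, FS f x0 r0 m (fun _ => 1) y * GVI_g1 m κ (y - q0) =
        m * (307 / 1000 / mu2 m ^ 3) * (κ ‖y - q0‖ * (‖y - q0‖ ^ 3)⁻¹) := by
      intro y
      by_cases hy : y ∈ VD f x0 ρ0
      · have h3 : y ∈ Metric.ball (f x0) ρ0 := mem_ball_iff_norm.2 hy.2
        rw [(hFSB Ω f A x0 r0 ρ0 m S hNP y h3).2.2.2.1]
        simp only [GVI_g1]
        ring
      · simp only [GVI_g1, hoff y hy, zero_mul, mul_zero]
    simp only [h1]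
    rw [integral_const_mul, integral_sub_right_eq_self (fun y : E3 => κ ‖y‖ * (‖y‖ ^ 3)⁻¹) q0,
      GVI_rad hRINT hκ]
  have e2 : ∫ y, FS f x0 r0 m (wq f x0 r0 m F) y * GVI_g2 m a b κ χ (y - q0) =
      14 / 1000 / mu2 m ^ 3 * (4 * Real.pi * ∫ t, κ t / t) +
      ((481 / 1000 / mu2 m * (81 / 400)) * ∫ y, κ ‖y‖ * ((‖y‖ ^ 3)⁻¹ * vs a b χ y)) +
      (458 / 1000 * (729 / 8000)) * ∫ y, κ ‖y‖ * ((‖y‖ ^ 3)⁻¹ * vs a b χ y ^ (3 / 2 : ℝ)) := by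
    have h1 : ∀ y : E3, FS f x0 r0 m (wq f x0 r0 m F) y * GVI_g2 m a b κ χ (y - q0) =
        GVI_g2 m a b κ χ (y - q0) := by
      intro y
      by_cases hy : y ∈ VD f x0 ρ0
      · rw [w3 y hy, one_mul]
      · simp only [GVI_g2, hoff y hy, zero_mul, mul_zero, add_zero]
    simp only [h1]
    rw [integral_sub_right_eq_self (GVI_g2 m a b κ χ) q0]
    have j01 : Integrable (fun y : E3 => 14 / 1000 / mu2 m ^ 3 * (κ ‖y‖ * (‖y‖ ^ 3)⁻¹) +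
        (481 / 1000 / mu2 m * (81 / 400)) * (κ ‖y‖ * ((‖y‖ ^ 3)⁻¹ * vs a b χ y))) :=
      (i0.const_mul _).add (i1.const_mul _)
    have j2 : Integrable (fun y : E3 =>
        (458 / 1000 * (729 / 8000)) * (κ ‖y‖ * ((‖y‖ ^ 3)⁻¹ * vs a b χ y ^ (3 / 2 : ℝ)))) :=
      i2.const_mul _
    have k1 := integral_add j01 j2
    have k2 : ∫ y : E3, (14 / 1000 / mu2 m ^ 3 * (κ ‖y‖ * (‖y‖ ^ 3)⁻¹) +
        (481 / 1000 / mu2 m * (81 / 400)) * (κ ‖y‖ * ((‖y‖ ^ 3)⁻¹ * vs a b χ y))) =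
        (∫ y : E3, 14 / 1000 / mu2 m ^ 3 * (κ ‖y‖ * (‖y‖ ^ 3)⁻¹)) +
        ∫ y : E3, (481 / 1000 / mu2 m * (81 / 400)) * (κ ‖y‖ * ((‖y‖ ^ 3)⁻¹ * vs a b χ y)) :=
      integral_add (i0.const_mul _) (i1.const_mul _)
    rw [k2, integral_const_mul, integral_const_mul, integral_const_mul, GVI_rad hRINT hκ] at k1
    exact k1
  rw [e1, e2]
  have h5 := mul_le_mul_of_nonneg_left v5
    (by positivity : (0 : ℝ) ≤ 481 / 1000 / mu2 m * (81 / 400))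
  have h6 := mul_le_mul_of_nonneg_left v6 (by norm_num : (0 : ℝ) ≤ 458 / 1000 * (729 / 8000))
  set T := ∫ t, κ t / t with hT
  have e3 : (4 * Real.pi * (((m - 1) * (307 / 1000) + 321 / 1000) / mu2 m ^ 3)
        + 2 * Real.pi ^ 2 * (481 / 1000) * (81 / 400) / mu2 m
        + 2 * Real.pi * I0 * (458 / 1000) * (729 / 8000)) * T =
      m * (307 / 1000 / mu2 m ^ 3) * (4 * Real.pi * T) +
        (14 / 1000 / mu2 m ^ 3 * (4 * Real.pi * T) +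
        481 / 1000 / mu2 m * (81 / 400) * (2 * Real.pi ^ 2 * T) +
        458 / 1000 * (729 / 8000) * (2 * Real.pi * I0 * T)) := by
    ring
  rw [e3]
  linarith

end Pool.GQ
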