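import Pool.Agent.Work.MP_680515_gq.Interface

/-!
# MP_680515_an, THEOREM GQ: block GWD, the weighted degree formula
-/

set_option autoImplicit false

open MeasureTheory Set Filter Topology

namespace Pool.GQ

open Pool.Mart Pool.Flat Pool.SQ

/-- The determinant is nonnegative for good matrices. -/
theorem GWD_det {A : M3} (h : Good A) : 0 ≤ A.det := by
  have h1 : 0 ≤ opn A := norm_nonneg _
  have h2 : 0 ≤ opn A ^ 3 := by positivity
  have h3 := h.2
  linarith

/-- Integrability. -/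
theorem GWD_int (hGSC : Stmt_GSC) (hPIOI : Pool.Mart.Stmt_PIOI)
    {Ω : Set E3} {f : E3 → E3} {A : E3 → M3} {x0 : E3} {r0 ρ0 : ℝ} {m : ℕ} {S : Set E3}
    (hN : NP Ω f A x0 r0 ρ0 m S) {h g : E3 → ℝ} (hh : ContinuousOn h (UD f x0 r0 ρ0))
    (hg : Continuous g) (hgc : HasCompactSupport g) (hgs : tsupport g ⊆ VD f x0 ρ0) :
    IntegrableOn (fun x => (A x).det * (h x * g (f x))) (Metric.ball x0 r0) ∧
    Integrable (fun y => FS f x0 r0 m h y * g y) := by
  obtain ⟨hUo, hVo, hfU, hFS⟩ := hGSC Ω f A x0 r0 ρ0 m S hN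
  obtain ⟨K, hK⟩ : ∃ K : Set E3, K = Metric.closedBall x0 r0 ∩ f ⁻¹' tsupport g := ⟨_, rfl⟩
  have hKcl : IsClosed K := by
    rw [hK]
    exact (hN.cont.mono hN.sub).preimage_isClosed_of_isClosed Metric.isClosed_closedBall
      (isClosed_tsupport g)
  have hKb : K ⊆ Metric.closedBall x0 r0 := by
    rw [hK]
    exact Set.inter_subset_left
  have hKc : IsCompact K := (isCompact_closedBall x0 r0).of_isClosed_subset hKcl hKb
  have hKU : K ⊆ UD f x0 r0 ρ0 := by
    intro x hx
    rw [hK] at hx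
    have h1 := hgs hx.2
    refine ⟨?_, h1.1, h1.2⟩
    rcases lt_or_eq_of_le (Metric.mem_closedBall.1 hx.1) with h2 | h2
    · exact Metric.mem_ball.2 h2
    · exfalso
      have h3 := hN.sph x (by rw [← dist_eq_norm]; exact h2)
      have h4 : ‖f x - f x0‖ < ρ0 := h1.2
      linarith
  have hKΩ : K ⊆ Ω := fun x hx => hN.sub (hKb hx)
  have hdetK : IntegrableOn (fun x => (A x).det) K :=
    (hPIOI Ω f A hN.op hN.cont hN.wg K hKc hKΩ).1
  have hFK : IntegrableOn (fun x => (A x).det * (h x * g (f x))) K :=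
    hdetK.mul_continuousOn ((hh.mono hKU).mul (hg.comp_continuousOn (hN.cont.mono hKΩ))) hKc
  have hFz : ∀ x ∈ Metric.closedBall x0 r0, x ∉ K →
      (A x).det * (h x * g (f x)) = 0 := by
    intro x hx hxK
    have h1 : f x ∉ tsupport g := fun h2 => hxK (by rw [hK]; exact ⟨hx, h2⟩)
    rw [image_eq_zero_of_notMem_tsupport h1, mul_zero, mul_zero]
  constructor
  · have h1 : IntegrableOn (fun x => (A x).det * (h x * g (f x)))
        (Metric.ball x0 r0 ∩ K) := hFK.mono_set inter_subset_right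
    have h2 : IntegrableOn (fun x => (A x).det * (h x * g (f x)))
        (Metric.ball x0 r0 \ K) := by
      refine IntegrableOn.congr_fun (integrableOn_zero)
        (fun x hx => (hFz x (Metric.ball_subset_closedBall hx.1) hx.2).symm)
        (measurableSet_ball.diff hKcl.measurableSet)
    refine (h1.union h2).mono_set (fun x hx => ?_)
    by_cases hxK : x ∈ K
    · exact Or.inl ⟨hx, hxK⟩
    · exact Or.inr ⟨hx, hxK⟩
  · have h1 : ContinuousOn (fun y => FS f x0 r0 m h y * g y) (tsupport g) :=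
      ((hFS h hh).mono hgs).mul hg.continuousOn
    have h2 : IntegrableOn (fun y => FS f x0 r0 m h y * g y) (tsupport g) :=
      h1.integrableOn_compact hgc
    refine (integrableOn_iff_integrable_of_support_subset ?_).1 h2
    intro y hy
    apply subset_tsupport
    intro h3
    apply hy
    show FS f x0 r0 m h y * g y = 0
    rw [h3, mul_zero]

/-- The local claim. -/
theorem GWD_loc (hCPT : Stmt_CPT) (hFSB : Stmt_FSB) (hGSC : Stmt_GSC)
    (hPIOI : Pool.Mart.Stmt_PIOI)
    {Ω : Set E3} {f : E3 → E3} {A : E3 → M3} {x0 : E3} {r0 ρ0 : ℝ} {m : ℕ} {S : Set E3}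
    (hN : NP Ω f A x0 r0 ρ0 m S) {h : E3 → ℝ} (hh : ContinuousOn h (UD f x0 r0 ρ0))
    {ε : ℝ} (hε : 0 < ε) {y0 : E3} (hy0 : y0 ∈ VD f x0 ρ0) :
    ∃ δ : ℝ, 0 < δ ∧ Metric.ball y0 δ ⊆ VD f x0 ρ0 ∧ ∀ g : E3 → ℝ, Continuous g →
      HasCompactSupport g → tsupport g ⊆ Metric.ball y0 δ →
      |(∫ x in Metric.ball x0 r0, (A x).det * (h x * g (f x)))
        - ∫ y, FS f x0 r0 m h y * g y| ≤ ε * ∫ y, |g y| := by
  classical
  obtain ⟨hUo, hVo, hfU, hFSc⟩ := hGSC Ω f A x0 r0 ρ0 m S hN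
  obtain ⟨-, -, -, -, hC5, -, -⟩ := hCPT Ω f A x0 r0 ρ0 m S hN
  have hm : (0 : ℝ) < m := by
    have := hN.two
    exact_mod_cast (by omega : 0 < m)
  have hy0b : y0 ∈ Metric.ball (f x0) ρ0 := by
    rw [mem_ball_iff_norm]
    exact hy0.2
  obtain ⟨hfin, hne, -, hFS1, hF⟩ := hFSB Ω f A x0 r0 ρ0 m S hN y0 hy0b
  obtain ⟨idx, hidx⟩ : ∃ idx : E3 → ℕ, idx = fun z => if z ∈ S then m else 1 := ⟨_, rfl⟩
  obtain ⟨s, hs⟩ : ∃ s : Finset E3, s = hfin.toFinset := ⟨_, rfl⟩
  have hsm : ∀ z, z ∈ s ↔ z ∈ fib f x0 r0 y0 := fun z => by rw [hs]; exact hfin.mem_toFinset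
  -- the value of the fibre sum
  have hsum : ∀ h' : E3 → ℝ, FS f x0 r0 m h' y0 = ∑ z ∈ s, (idx z : ℝ) * h' z := by
    intro h'
    rcases hN.fbr y0 hy0b with ⟨z, hzS, hz⟩ | ⟨-, hcard, hnS⟩
    · have hzf : z ∈ fib f x0 r0 y0 := by
        rw [hz]
        exact mem_singleton z
      have hs1 : s = {z} := by
        ext w
        rw [hsm, hz, mem_singleton_iff, Finset.mem_singleton]
      rw [(hF h').1 z hzf hzS, hs1, Finset.sum_singleton, hidx]
      simp only [hzS, if_true]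
    · rw [(hF h').2.1 hcard, finsum_mem_eq_finite_toFinset_sum _ hfin, ← hs]
      refine Finset.sum_congr rfl fun z hz => ?_
      have h1 : z ∉ S := hnS z ((hsm z).1 hz)
      rw [hidx]
      simp only [h1, if_false, Nat.cast_one, one_mul]
  have hidm : ∑ z ∈ s, (idx z : ℝ) = m := by
    rw [← hFS1, hsum]
    simp only [mul_one]
  have hLI : ∀ z ∈ s, LI Ω f A z (idx z) := by
    intro z hz
    have h1 := (hsm z).1 hz
    have h2 : z ∈ UU0 f x0 r0 ρ0 := ⟨h1.1, by rw [h1.2]; exact hy0.2⟩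
    rw [hidx]
    by_cases hzS : z ∈ S
    · simp only [hzS, if_true]
      exact hN.idS z h2 hzS
    · simp only [hzS, if_false]
      exact hN.idN z h2 hzS
  have hfz : ∀ z ∈ s, f z = y0 := fun z hz => ((hsm z).1 hz).2
  have hzUD : ∀ z ∈ s, z ∈ UD f x0 r0 ρ0 := by
    intro z hz
    have h1 := (hsm z).1 hz
    exact ⟨h1.1, by rw [h1.2]; exact hy0.1, by rw [h1.2]; exact hy0.2⟩
  obtain ⟨η, hη⟩ : ∃ η : ℝ, η = ε / (2 * m) := ⟨_, rfl⟩
  have hη0 : 0 < η := by
    rw [hη]
    positivity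
  have hmη : η * m = ε / 2 := by
    rw [hη]
    field_simp
  -- a common radius
  have hd1 : ∀ᶠ d : ℝ in 𝓝[>] 0, ∀ z ∈ s, Metric.ball z d ⊆ UD f x0 r0 ρ0 := by
    refine (Finset.eventually_all s).2 fun z hz => ?_
    obtain ⟨e, he, he2⟩ := Metric.isOpen_iff.1 hUo z (hzUD z hz)
    filter_upwards [Ioo_mem_nhdsGT he] with d hd
    exact (Metric.ball_subset_ball hd.2.le).trans he2
  have hd2 : ∀ᶠ d : ℝ in 𝓝[>] 0, ∀ z ∈ s, ∀ x ∈ Metric.ball z d, |h x - h z| ≤ η := by
    refine (Finset.eventually_all s).2 fun z hz => ?_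
    have h1 : ContinuousAt h z := hh.continuousAt (hUo.mem_nhds (hzUD z hz))
    obtain ⟨e, he, he2⟩ := Metric.continuousAt_iff.1 h1 η hη0
    filter_upwards [Ioo_mem_nhdsGT he] with d hd x hx
    have h2 := he2 (lt_trans (Metric.mem_ball.1 hx) hd.2)
    rw [Real.dist_eq] at h2
    exact h2.le
  have hd3 : ∀ᶠ d : ℝ in 𝓝[>] 0, ∀ z ∈ s, ∀ w ∈ s, z ≠ w → d < dist z w / 2 := by
    refine (Finset.eventually_all s).2 fun z hz => ?_
    refine (Finset.eventually_all s).2 fun w hw => ?_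
    by_cases hzw : z = w
    · exact Eventually.of_forall fun d h => absurd hzw h
    · have h2 : 0 < dist z w / 2 := by
        have := dist_pos.2 hzw
        linarith
      filter_upwards [Ioo_mem_nhdsGT h2] with d hd _
      exact hd.2
  have hd4 : ∀ᶠ d : ℝ in 𝓝[>] 0, 0 < d := eventually_mem_nhdsWithin
  obtain ⟨d, hdU, hdh, hdd, hd0⟩ := (hd1.and (hd2.and (hd3.and hd4))).exists
  have hch : ∀ z : E3, ∃ q : ℝ × ℝ, z ∈ s → q.1 ≤ d ∧ q.2 ≤ d ∧ Lok Ω f A z q.1 q.2 (idx z) := by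
    intro z
    by_cases hz : z ∈ s
    · obtain ⟨r', ρ', h1, h2, h3⟩ := hLI z hz d hd0
      exact ⟨(r', ρ'), fun _ => ⟨h1, h2, h3⟩⟩
    · exact ⟨(0, 0), fun h => absurd h hz⟩
  choose Q hQ using hch
  have hsubU : ∀ z ∈ s, Metric.ball z (Q z).1 ⊆ UD f x0 r0 ρ0 := fun z hz =>
    (Metric.ball_subset_ball (hQ z hz).1).trans (hdU z hz)
  have hsubB : ∀ z ∈ s, Metric.ball z (Q z).1 ⊆ Metric.ball x0 r0 := fun z hz w hw =>
    (hsubU z hz hw).1
  have hdis : Set.Pairwise (↑s) (Function.onFun Disjoint fun z => Metric.ball z (Q z).1) := by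
    intro z hz w hw hzw
    refine Metric.ball_disjoint_ball ?_
    have h1 := hdd z hz w hw hzw
    have h2 := (hQ z hz).1
    have h3 := (hQ w hw).1
    linarith
  -- the neighbourhood of the fibre
  obtain ⟨δ1, hδ1, hδ1'⟩ := hC5 y0 hy0b (⋃ z ∈ s, Metric.ball z (Q z).1)
    (isOpen_biUnion fun z _ => Metric.isOpen_ball) (by
      intro z hz
      have hz' := (hsm z).2 hz
      exact mem_iUnion₂.2 ⟨z, hz', Metric.mem_ball_self (hQ z hz').2.2.rpos⟩)
  have hc1 : ContinuousAt (FS f x0 r0 m h) y0 := (hFSc h hh).continuousAt (hVo.mem_nhds hy0)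
  obtain ⟨δ2, hδ2, hδ2'⟩ := Metric.continuousAt_iff.1 hc1 (ε / 2) (by linarith)
  obtain ⟨δ3, hδ3, hδ3'⟩ := Metric.isOpen_iff.1 hVo y0 hy0
  have hev1 : ∀ᶠ δ : ℝ in 𝓝[>] 0, ∀ z ∈ s, δ < (Q z).2 := by
    refine (Finset.eventually_all s).2 fun z hz => ?_
    filter_upwards [Ioo_mem_nhdsGT (hQ z hz).2.2.ρpos] with δ hδ
    exact hδ.2
  have hev2 : ∀ᶠ δ : ℝ in 𝓝[>] 0, 0 < δ ∧ δ < min δ1 (min δ2 δ3) := by
    filter_upwards [Ioo_mem_nhdsGT (lt_min hδ1 (lt_min hδ2 hδ3))] with δ hδ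
    exact hδ
  obtain ⟨δ, hδa, hδb, hδc⟩ := (hev1.and hev2).exists
  have hδ1l : δ < δ1 := lt_of_lt_of_le hδc (min_le_left _ _)
  have hδ2l : δ < δ2 := lt_of_lt_of_le hδc ((min_le_right _ _).trans (min_le_left _ _))
  have hδ3l : δ < δ3 := lt_of_lt_of_le hδc ((min_le_right _ _).trans (min_le_right _ _))
  have hballV : Metric.ball y0 δ ⊆ VD f x0 ρ0 := (Metric.ball_subset_ball hδ3l.le).trans hδ3'
  refine ⟨δ, hδb, hballV, fun g hg hgc hgs => ?_⟩
  have hg0 : ∀ y, y ∉ Metric.ball y0 δ → g y = 0 := fun y hy =>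
    image_eq_zero_of_notMem_tsupport fun h1 => hy (hgs h1)
  have hgi : Integrable g := hg.integrable_of_hasCompactSupport hgc
  have hgai : Integrable (fun y => |g y|) := hgi.abs
  have hgac : Continuous (fun y => |g y|) := hg.abs
  have hgacs : HasCompactSupport (fun y => |g y|) := hgc.comp_left abs_zero
  have hgats : tsupport (fun y => |g y|) ⊆ tsupport g := by
    refine closure_mono ?_
    intro y hy h1
    apply hy
    show |g y| = 0
    rw [h1, abs_zero]
  obtain ⟨hi1, hi2⟩ := GWD_int hGSC hPIOI hN hh hg hgc (hgs.trans hballV)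
  obtain ⟨hi3, -⟩ := GWD_int hGSC hPIOI hN (h := fun _ => 1) continuousOn_const hg hgc
    (hgs.trans hballV)
  obtain ⟨hi4, -⟩ := GWD_int hGSC hPIOI hN (h := fun _ => 1) continuousOn_const hgac hgacs
    (hgats.trans (hgs.trans hballV))
  simp only [one_mul] at hi3 hi4
  -- the integral over the ball is the sum over the small balls
  have e3 : ∫ w in Metric.ball x0 r0, (A w).det * (h w * g (f w))
      = ∫ w in ⋃ z ∈ s, Metric.ball z (Q z).1, (A w).det * (h w * g (f w)) := by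
    refine setIntegral_eq_of_subset_of_forall_sdiff_eq_zero measurableSet_ball
      (iUnion₂_subset hsubB) ?_
    rintro w ⟨hw1, hw2⟩
    have h2 : f w ∉ Metric.ball y0 δ := by
      intro h3
      apply hw2
      refine hδ1' w hw1 ?_
      rw [← dist_eq_norm]
      exact lt_trans (Metric.mem_ball.1 h3) hδ1l
    rw [hg0 _ h2, mul_zero, mul_zero]
  have e4 : ∫ w in ⋃ z ∈ s, Metric.ball z (Q z).1, (A w).det * (h w * g (f w))
      = ∑ z ∈ s, ∫ w in Metric.ball z (Q z).1, (A w).det * (h w * g (f w)) :=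
    integral_biUnion_finset s (fun z _ => measurableSet_ball) hdis
      (fun z hz => hi1.mono_set (hsubB z hz))
  -- one small ball
  have hone : ∀ z ∈ s, |(∫ w in Metric.ball z (Q z).1, (A w).det * (h w * g (f w)))
      - (idx z : ℝ) * h z * ∫ y, g y| ≤ η * ((idx z : ℝ) * ∫ y, |g y|) := by
    intro z hz
    have hL := (hQ z hz).2.2
    have hsub1 : Metric.ball y0 δ ⊆ Metric.ball (f z) (Q z).2 := by
      rw [hfz z hz]
      exact Metric.ball_subset_ball (hδa z hz).le
    have d1 := hL.deg g hg hgc (hgs.trans hsub1)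
    have d2 := hL.deg (fun y => |g y|) hgac hgacs (hgats.trans (hgs.trans hsub1))
    have hj1 : IntegrableOn (fun w => (A w).det * (h w * g (f w))) (Metric.ball z (Q z).1) :=
      hi1.mono_set (hsubB z hz)
    have hj3 : IntegrableOn (fun w => (A w).det * g (f w)) (Metric.ball z (Q z).1) :=
      hi3.mono_set (hsubB z hz)
    have hj4 : IntegrableOn (fun w => (A w).det * |g (f w)|) (Metric.ball z (Q z).1) :=
      hi4.mono_set (hsubB z hz)
    have k1 : (∫ w in Metric.ball z (Q z).1, (A w).det * (h w * g (f w)))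
        - (idx z : ℝ) * h z * ∫ y, g y
        = ∫ w in Metric.ball z (Q z).1, ((A w).det * (h w * g (f w))
          - h z * ((A w).det * g (f w))) := by
      rw [integral_sub hj1 (hj3.const_mul (h z)), integral_const_mul, d1]
      ring
    have hΩ : ∀ᵐ w ∂(volume.restrict (Metric.ball z (Q z).1)), Good (A w) := by
      refine ae_restrict_of_ae_restrict_of_subset (fun w hw => ?_) hN.good
      exact hL.sub (Metric.ball_subset_closedBall hw)
    have hin : ∀ᵐ w ∂(volume.restrict (Metric.ball z (Q z).1)), w ∈ Metric.ball z (Q z).1 :=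
      ae_restrict_mem measurableSet_ball
    rw [k1]
    calc |∫ w in Metric.ball z (Q z).1, ((A w).det * (h w * g (f w))
          - h z * ((A w).det * g (f w)))|
        ≤ ∫ w in Metric.ball z (Q z).1, |(A w).det * (h w * g (f w))
          - h z * ((A w).det * g (f w))| := abs_integral_le_integral_abs
      _ ≤ ∫ w in Metric.ball z (Q z).1, η * ((A w).det * |g (f w)|) := by
          refine integral_mono_ae (hj1.sub (hj3.const_mul (h z))).abs (hj4.const_mul η) ?_
          filter_upwards [hΩ, hin] with w hw1 hw2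
          have p1 : 0 ≤ (A w).det := GWD_det hw1
          have p2 : |h w - h z| ≤ η :=
            hdh z hz w (Metric.ball_subset_ball (hQ z hz).1 hw2)
          have p3 : (A w).det * (h w * g (f w)) - h z * ((A w).det * g (f w))
              = (h w - h z) * ((A w).det * g (f w)) := by ring
          show |(A w).det * (h w * g (f w)) - h z * ((A w).det * g (f w))|
            ≤ η * ((A w).det * |g (f w)|)
          rw [p3, abs_mul, abs_mul, abs_of_nonneg p1]
          exact mul_le_mul_of_nonneg_right p2 (mul_nonneg p1 (abs_nonneg _))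
      _ = η * ((idx z : ℝ) * ∫ y, |g y|) := by
          rw [integral_const_mul, d2]
  have hA : |(∫ x in Metric.ball x0 r0, (A x).det * (h x * g (f x)))
      - FS f x0 r0 m h y0 * ∫ y, g y| ≤ ε / 2 * ∫ y, |g y| := by
    have q1 : (∫ x in Metric.ball x0 r0, (A x).det * (h x * g (f x)))
        - FS f x0 r0 m h y0 * ∫ y, g y
        = ∑ z ∈ s, ((∫ w in Metric.ball z (Q z).1, (A w).det * (h w * g (f w)))
          - (idx z : ℝ) * h z * ∫ y, g y) := by
      rw [e3, e4, hsum, Finset.sum_sub_distrib, Finset.sum_mul]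
    rw [q1]
    calc |∑ z ∈ s, ((∫ w in Metric.ball z (Q z).1, (A w).det * (h w * g (f w)))
          - (idx z : ℝ) * h z * ∫ y, g y)|
        ≤ ∑ z ∈ s, |(∫ w in Metric.ball z (Q z).1, (A w).det * (h w * g (f w)))
          - (idx z : ℝ) * h z * ∫ y, g y| := Finset.abs_sum_le_sum_abs _ _
      _ ≤ ∑ z ∈ s, η * ((idx z : ℝ) * ∫ y, |g y|) := Finset.sum_le_sum hone
      _ = ε / 2 * ∫ y, |g y| := by
          rw [← Finset.mul_sum, ← Finset.sum_mul, hidm, ← mul_assoc, hmη]
  have hB : |FS f x0 r0 m h y0 * (∫ y, g y) - ∫ y, FS f x0 r0 m h y * g y|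
      ≤ ε / 2 * ∫ y, |g y| := by
    have q1 : FS f x0 r0 m h y0 * (∫ y, g y) - ∫ y, FS f x0 r0 m h y * g y
        = ∫ y, (FS f x0 r0 m h y0 * g y - FS f x0 r0 m h y * g y) := by
      rw [integral_sub (hgi.const_mul _) hi2, integral_const_mul]
    rw [q1]
    calc |∫ y, (FS f x0 r0 m h y0 * g y - FS f x0 r0 m h y * g y)|
        ≤ ∫ y, |FS f x0 r0 m h y0 * g y - FS f x0 r0 m h y * g y| :=
          abs_integral_le_integral_abs
      _ ≤ ∫ y, ε / 2 * |g y| := by
          refine integral_mono ((hgi.const_mul _).sub hi2).abs (hgai.const_mul _) fun y => ?_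
          show |FS f x0 r0 m h y0 * g y - FS f x0 r0 m h y * g y| ≤ ε / 2 * |g y|
          have p3 : FS f x0 r0 m h y0 * g y - FS f x0 r0 m h y * g y
              = -(FS f x0 r0 m h y - FS f x0 r0 m h y0) * g y := by ring
          rw [p3, abs_mul, abs_neg]
          by_cases hy : y ∈ Metric.ball y0 δ
          · have p4 := hδ2' (lt_trans (Metric.mem_ball.1 hy) hδ2l)
            rw [Real.dist_eq] at p4
            exact mul_le_mul_of_nonneg_right p4.le (abs_nonneg _)
          · rw [hg0 y hy, abs_zero, mul_zero, mul_zero]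
      _ = ε / 2 * ∫ y, |g y| := integral_const_mul _ _
  have hC := abs_sub_le (∫ x in Metric.ball x0 r0, (A x).det * (h x * g (f x)))
    (FS f x0 r0 m h y0 * ∫ y, g y) (∫ y, FS f x0 r0 m h y * g y)
  have hD : ε * ∫ y, |g y| = ε / 2 * (∫ y, |g y|) + ε / 2 * ∫ y, |g y| := by ring
  rw [hD]
  exact hC.trans (add_le_add hA hB)

theorem p_GWD (hGSC : Stmt_GSC) (hCPT : Stmt_CPT) (hFSB : Stmt_FSB)
    (hPIOI : Pool.Mart.Stmt_PIOI) : Stmt_GWD := by
  classical
  intro Ω f A x0 r0 ρ0 m S hN h g hh hg hgc hgs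
  obtain ⟨hi1, hi2⟩ := GWD_int hGSC hPIOI hN hh hg hgc hgs
  refine ⟨hi1, hi2, ?_⟩
  have hgi : Integrable g := hg.integrable_of_hasCompactSupport hgc
  -- the bound for every `ε`
  have hmain : ∀ ε : ℝ, 0 < ε →
      |(∫ x in Metric.ball x0 r0, (A x).det * (h x * g (f x)))
        - ∫ y, FS f x0 r0 m h y * g y| ≤ ε * ∫ y, |g y| := by
    intro ε hε
    have hloc : ∀ y : E3, ∃ δ : ℝ, y ∈ VD f x0 ρ0 → (0 < δ ∧ Metric.ball y δ ⊆ VD f x0 ρ0 ∧
        ∀ g : E3 → ℝ, Continuous g → HasCompactSupport g → tsupport g ⊆ Metric.ball y δ →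
        |(∫ x in Metric.ball x0 r0, (A x).det * (h x * g (f x)))
          - ∫ y, FS f x0 r0 m h y * g y| ≤ ε * ∫ y, |g y|) := by
      intro y
      by_cases hy : y ∈ VD f x0 ρ0
      · obtain ⟨δ, hδ⟩ := GWD_loc hCPT hFSB hGSC hPIOI hN hh hε hy
        exact ⟨δ, fun _ => hδ⟩
      · exact ⟨1, fun h => absurd h hy⟩
    choose R hR using hloc
    have hKc : IsCompact (tsupport g) := hgc
    obtain ⟨t, ht1, ht2⟩ := hKc.elim_nhds_subcover (fun y => Metric.ball y (R y))
      (fun y hy => Metric.ball_mem_nhds y (hR y (hgs hy)).1)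
    obtain ⟨P, hP⟩ := PartitionOfUnity.exists_isSubordinate (isClosed_tsupport g)
      (fun i : t => Metric.ball (i : E3) (R i)) (fun i => Metric.isOpen_ball) (by
        intro y hy
        obtain ⟨z, hz, hyz⟩ := mem_iUnion₂.1 (ht2 hy)
        exact mem_iUnion.2 ⟨⟨z, hz⟩, hyz⟩)
    obtain ⟨G, hG⟩ : ∃ G : t → E3 → ℝ, G = fun i y => P i y * g y := ⟨_, rfl⟩
    have hGc : ∀ i, Continuous (G i) := fun i => by
      rw [hG]
      exact (P i).continuous.mul hg
    have hGs : ∀ i, HasCompactSupport (G i) := fun i => by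
      rw [hG]
      exact hgc.mul_left
    have hGt : ∀ i, tsupport (G i) ⊆ Metric.ball (i : E3) (R i) := fun i => by
      refine Subset.trans ?_ (hP i)
      rw [hG]
      exact tsupport_mul_subset_left
    have hsum1 : ∀ y ∈ tsupport g, ∑ i, P i y = 1 := fun y hy => by
      rw [← finsum_eq_sum_of_fintype]
      exact P.sum_eq_one hy
    have hGsum : ∀ y, ∑ i, G i y = g y := by
      intro y
      rw [hG]
      show ∑ i, P i y * g y = g y
      rw [← Finset.sum_mul]
      by_cases hy : y ∈ tsupport g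
      · rw [hsum1 y hy, one_mul]
      · rw [image_eq_zero_of_notMem_tsupport hy, mul_zero]
    have hGabs : ∀ y, ∑ i, |G i y| = |g y| := by
      intro y
      rw [hG]
      show ∑ i, |P i y * g y| = |g y|
      have h1 : ∀ i, |P i y * g y| = P i y * |g y| := fun i => by
        rw [abs_mul, abs_of_nonneg (P.nonneg i y)]
      rw [Finset.sum_congr rfl fun i _ => h1 i, ← Finset.sum_mul]
      by_cases hy : y ∈ tsupport g
      · rw [hsum1 y hy, one_mul]
      · rw [image_eq_zero_of_notMem_tsupport hy, abs_zero, mul_zero]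
    have hRi : ∀ i : t, (i : E3) ∈ VD f x0 ρ0 := fun i => hgs (ht1 i i.2)
    have hGV : ∀ i, tsupport (G i) ⊆ VD f x0 ρ0 := fun i =>
      (hGt i).trans (hR i (hRi i)).2.1
    have hJ : ∀ i, IntegrableOn (fun x => (A x).det * (h x * G i (f x))) (Metric.ball x0 r0) ∧
        Integrable (fun y => FS f x0 r0 m h y * G i y) := fun i =>
      GWD_int hGSC hPIOI hN hh (hGc i) (hGs i) (hGV i)
    have hGi : ∀ i, Integrable (fun y => |G i y|) := fun i =>
      ((hGc i).integrable_of_hasCompactSupport (hGs i)).abs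
    have e1 : ∫ x in Metric.ball x0 r0, (A x).det * (h x * g (f x))
        = ∑ i, ∫ x in Metric.ball x0 r0, (A x).det * (h x * G i (f x)) := by
      rw [← integral_finsetSum _ fun i _ => (hJ i).1]
      refine integral_congr_ae (Eventually.of_forall fun x => ?_)
      show (A x).det * (h x * g (f x)) = ∑ i, (A x).det * (h x * G i (f x))
      rw [← Finset.mul_sum, ← Finset.mul_sum, hGsum]
    have e2 : ∫ y, FS f x0 r0 m h y * g y = ∑ i, ∫ y, FS f x0 r0 m h y * G i y := by
      rw [← integral_finsetSum _ fun i _ => (hJ i).2]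
      refine integral_congr_ae (Eventually.of_forall fun y => ?_)
      show FS f x0 r0 m h y * g y = ∑ i, FS f x0 r0 m h y * G i y
      rw [← Finset.mul_sum, hGsum]
    have e3 : ∫ y, |g y| = ∑ i, ∫ y, |G i y| := by
      rw [← integral_finsetSum _ fun i _ => hGi i]
      refine integral_congr_ae (Eventually.of_forall fun y => ?_)
      exact (hGabs y).symm
    rw [e1, e2, e3, ← Finset.sum_sub_distrib, Finset.mul_sum]
    refine (Finset.abs_sum_le_sum_abs _ _).trans (Finset.sum_le_sum fun i _ => ?_)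
    exact (hR i (hRi i)).2.2 (G i) (hGc i) (hGs i) (hGt i)
  obtain ⟨I, hI⟩ : ∃ I : ℝ, I = ∫ y, |g y| := ⟨_, rfl⟩
  obtain ⟨E, hE⟩ : ∃ E : ℝ, E = (∫ x in Metric.ball x0 r0, (A x).det * (h x * g (f x)))
      - ∫ y, FS f x0 r0 m h y * g y := ⟨_, rfl⟩
  rw [← hI, ← hE] at hmain
  have hI0 : 0 ≤ I := by
    rw [hI]
    exact integral_nonneg fun y => abs_nonneg _
  have hE0 : E = 0 := by
    by_contra hne
    have h1 : 0 < |E| := abs_pos.2 hne
    have h2 := hmain (|E| / (2 * (I + 1))) (by positivity)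
    have h3 : |E| / (2 * (I + 1)) * I ≤ |E| / 2 := by
      rw [div_mul_eq_mul_div, div_le_div_iff₀ (by positivity) (by norm_num)]
      nlinarith
    linarith
  rw [hE] at hE0
  linarith

end Pool.GQ
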