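import Pool.Agent.Work.MP_680515_gq.Interface

/-!
# MP_680515_an, THEOREM GQ, block GWP: the pointwise inequality (helper48)
-/

set_option autoImplicit false

open MeasureTheory Set Filter Topology

namespace Pool.GQ

open Pool.Mart Pool.Flat Pool.SQ

theorem GWP_opn (c : ℝ) (hc : 0 ≤ c) (A : M3) : opn (c • A) = c * opn A := by
  unfold opn
  rw [map_smul, map_smul, norm_smul, Real.norm_eq_abs, abs_of_nonneg hc]

theorem GWP_cofm (c : ℝ) (A : M3) : cofm (c • A) = c ^ 2 • cofm A := by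
  unfold cofm
  rw [Matrix.adjugate_smul, Matrix.transpose_smul]
  rfl

theorem GWP_det (c : ℝ) (A : M3) : (c • A).det = c ^ 3 * A.det := by
  rw [Matrix.det_smul, Fintype.card_fin]

theorem GWP_act (c : ℝ) (A : M3) (v : E3) : act (c • A) v = c • act A v := by
  unfold act
  rw [Matrix.smul_mulVec]
  rfl

theorem GWP_fx (c : ℝ) (A : M3) (X Y : E3) : fx (c • A) X Y = c ^ 2 * fx A X Y := by
  unfold fx cpair
  rw [GWP_cofm, Finset.mul_sum]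
  refine Finset.sum_congr rfl fun i _ => ?_
  rw [Finset.mul_sum]
  refine Finset.sum_congr rfl fun j _ => ?_
  rw [Matrix.smul_apply, smul_eq_mul]
  ring

theorem p_GWP (hPWI : Pool.SQ.Stmt_PWI) (_hBAS : Pool.Mart.Stmt_BAS) : Stmt_GWP := by
  intro A X Y q w m hm hA hdist hX hY hq hw0 hw1
  have hm2 : (2 : ℝ) ≤ m := by exact_mod_cast hm
  set μ := mu2 m with hμd
  have hμ2 : μ ^ 2 = m / 2 := by
    rw [hμd, mu2, Real.sq_sqrt (by positivity)]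
  have hμ : 0 < μ := by
    rw [hμd, mu2]
    exact Real.sqrt_pos.2 (by linarith)
  have hc : 0 ≤ μ⁻¹ := (inv_pos.2 hμ).le
  have hopn : opn (cofm (μ⁻¹ • A)) = (μ⁻¹) ^ 2 * opn (cofm A) := by
    rw [GWP_cofm, GWP_opn _ (sq_nonneg _)]
  have hopn1 : opn (μ⁻¹ • A) = μ⁻¹ * opn A := GWP_opn _ hc _
  have hdet : (μ⁻¹ • A).det = (μ⁻¹) ^ 3 * A.det := GWP_det _ _
  have hgood : Good (μ⁻¹ • A) := by
    constructor
    · rw [hopn, hdet]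
      have h1 := mul_le_mul_of_nonneg_left hA.1 (pow_nonneg hc 6)
      calc ((μ⁻¹) ^ 2 * opn (cofm A)) ^ 3 = (μ⁻¹) ^ 6 * opn (cofm A) ^ 3 := by ring
        _ ≤ (μ⁻¹) ^ 6 * (2 * A.det ^ 2) := h1
        _ = 2 * ((μ⁻¹) ^ 3 * A.det) ^ 2 := by ring
    · rw [hopn1, hdet]
      have h1 := mul_le_mul_of_nonneg_left hA.2 (pow_nonneg hc 3)
      calc (μ⁻¹ * opn A) ^ 3 = (μ⁻¹) ^ 3 * opn A ^ 3 := by ring
        _ ≤ (μ⁻¹) ^ 3 * (4 * A.det) := h1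
        _ = 4 * ((μ⁻¹) ^ 3 * A.det) := by ring
  have hd2 : opn (cofm (μ⁻¹ • A)) ^ 3 ≤ 283 / 200 * (μ⁻¹ • A).det ^ 2 := by
    rw [hopn, hdet]
    have h1 := mul_le_mul_of_nonneg_left hdist (pow_nonneg hc 6)
    calc ((μ⁻¹) ^ 2 * opn (cofm A)) ^ 3 = (μ⁻¹) ^ 6 * opn (cofm A) ^ 3 := by ring
      _ ≤ (μ⁻¹) ^ 6 * (283 / 200 * A.det ^ 2) := h1
      _ = 283 / 200 * ((μ⁻¹) ^ 3 * A.det) ^ 2 := by ring
  have h := hPWI (μ⁻¹ • A) X Y (μ ^ 2 * q) w hgood hd2 hX hY (by positivity) hw0 hw1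
  rw [hopn, hdet, GWP_fx, GWP_act, real_inner_smul_right] at h
  have hpow : (μ ^ 2 * q) ^ (3 / 2 : ℝ) = μ ^ 3 * q ^ (3 / 2 : ℝ) := by
    rw [Real.mul_rpow (sq_nonneg _) hq]
    congr 1
    rw [← Real.rpow_natCast μ 2, ← Real.rpow_mul hμ.le, ← Real.rpow_natCast μ 3]
    norm_num
  refine h.trans (le_of_eq ?_)
  have e1 : (μ⁻¹) ^ 2 = 2 / m := by
    rw [inv_pow, hμ2, inv_div]
  have hm0 : (m : ℝ) ≠ 0 := by positivity
  have e2 : 1 / 2 * ((μ⁻¹) ^ 2 * fx A X Y / ‖X‖) = 1 / m * (fx A X Y / ‖X‖) := by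
    rw [e1]
    field_simp
  have e3 : 574 / 1000 * (μ⁻¹ * inner ℝ Y (act A X) / (‖X‖ ^ 3 * ‖Y‖ ^ 2)) =
      574 / 1000 / μ * (inner ℝ Y (act A X) / (‖X‖ ^ 3 * ‖Y‖ ^ 2)) := by
    field_simp
  have e4 : w * (μ ^ 2 * q) * ((μ⁻¹) ^ 2 * opn (cofm A)) / (‖Y‖ ^ 2 * ‖X‖) =
      w * q * opn (cofm A) / (‖Y‖ ^ 2 * ‖X‖) := by
    have : w * (μ ^ 2 * q) * ((μ⁻¹) ^ 2 * opn (cofm A)) = w * q * opn (cofm A) * (μ * μ⁻¹) ^ 2 := by
      ring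
    rw [this, mul_inv_cancel₀ hμ.ne', one_pow, mul_one]
  have e5 : (μ⁻¹) ^ 3 * A.det * (‖Y‖ ^ 3)⁻¹ * ((1 - w) * (307 / 1000) + w * Ch (μ ^ 2 * q)) =
      A.det * (‖Y‖ ^ 3)⁻¹ * ((1 - w) * (307 / 1000 / μ ^ 3) + w * Chm m q) := by
    unfold Ch Chm
    rw [hpow, ← hμd]
    field_simp
  rw [e2, e3, e4, e5]

end Pool.GQ
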