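import Pool.Agent.Work.MP_680515_gq.Interface

set_option autoImplicit false

open MeasureTheory Set Filter Topology

namespace Pool.GQ

open Pool.Mart Pool.Flat Pool.SQ

theorem p_GWT (hGSC : Stmt_GSC) (hFSB : Stmt_FSB) : Stmt_GWT := by
  intro Ω f A x0 r0 ρ0 m S h F hF hFpos
  obtain ⟨_, _, hfc, hFS⟩ := hGSC Ω f A x0 r0 ρ0 m S h
  have hB := hFSB Ω f A x0 r0 ρ0 m S h
  have hVB : ∀ y ∈ VD f x0 ρ0, y ∈ Metric.ball (f x0) ρ0 := by
    intro y hy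
    rw [mem_ball_iff_norm]
    exact hy.2
  have hUV : ∀ x ∈ UD f x0 r0 ρ0, f x ∈ VD f x0 ρ0 := fun x hx => ⟨hx.2.1, hx.2.2⟩
  have hne : ∀ x ∈ UD f x0 r0 ρ0, x - x0 ∈ ({0} : Set E3)ᶜ := by
    intro x hx h0
    have h1 : x = x0 := sub_eq_zero.1 h0
    have h2 := hx.2.1
    rw [h1, sub_self, norm_zero] at h2
    exact lt_irrefl _ h2
  have hpos : ∀ y ∈ VD f x0 ρ0, 0 < FS f x0 r0 m (fun x => F (x - x0)) y := by
    intro y hy
    obtain ⟨_, _, _, _, h5⟩ := hB y (hVB y hy)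
    obtain ⟨_, _, _, _, _, h6, _, _⟩ := h5 (fun x => F (x - x0))
    exact h6 (fun x _ => hFpos _)
  have hFc : ContinuousOn (fun x => F (x - x0)) (UD f x0 r0 ρ0) :=
    hF.comp (f := fun x : E3 => x - x0) (by fun_prop) hne
  have hFSc := hFS _ hFc
  refine ⟨?_, ?_, ?_, hpos⟩
  · exact hFc.div (hFSc.comp hfc hUV) (fun x hx => (hpos _ (hUV x hx)).ne')
  · intro x hx
    have h1 := hpos _ (hUV x hx)
    refine ⟨div_nonneg (hFpos _).le h1.le, ?_⟩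
    rw [wq, div_le_one h1]
    obtain ⟨_, _, _, _, h5⟩ := hB (f x) (hVB _ (hUV x hx))
    obtain ⟨_, _, h3, _, _, _, _, _⟩ := h5 (fun x => F (x - x0))
    exact h3 (fun x _ => (hFpos _).le) x ⟨hx.1, rfl⟩
  · intro y hy
    obtain ⟨_, _, _, _, h5⟩ := hB y (hVB y hy)
    obtain ⟨_, _, _, _, _, _, h7, _⟩ := h5 (wq f x0 r0 m F)
    obtain ⟨_, _, _, _, _, _, _, h8⟩ := h5 (fun x => F (x - x0))
    have h9 := h7 (fun x => (FS f x0 r0 m (fun x => F (x - x0)) y)⁻¹ * F (x - x0)) (by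
      intro x hx
      show F (x - x0) / FS f x0 r0 m (fun x => F (x - x0)) (f x) = _
      rw [hx.2, div_eq_inv_mul])
    rw [h9, h8]
    exact inv_mul_cancel₀ (hpos y hy).ne'

end Pool.GQ
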