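import Pool.Agent.Work.MP_680515_gq.IfaceR
import Pool.Agent.Work.MP_680515_fl.B_POS

open MeasureTheory Set Filter Topology

namespace Pool.GQ

open Pool.Mart Pool.Flat Pool.SQ

/-- all degrees off `y0` vanish -/
theorem RCS_zero (hINTG : Pool.Flat.Stmt_INTG) {Ω : Set E3} {f : E3 → E3} {A : E3 → M3}
    {x y0 : E3} {r : ℝ} (h : RG Ω f A) (hr : 0 < r) (hsub : Metric.closedBall x r ⊆ Ω)
    (hsp : ∀ z : E3, ‖z - x‖ = r → f z = y0) (q : E3) (hq : q ≠ y0) (g : E3 → ℝ)
    (hg : Continuous g) (hgs : HasCompactSupport g)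
    (hgt : tsupport g ⊆ Metric.ball q (dist q y0)) :
    ∫ z in Metric.ball x r, (A z).det * g (f z) = 0 := by
  have hex : ∀ q : E3, ∃ k : ℤ, q ≠ y0 → ∀ g : E3 → ℝ, Continuous g → HasCompactSupport g →
      tsupport g ⊆ Metric.ball q (dist q y0) →
      ∫ x in Metric.ball x r, (A x).det * g (f x) = k * ∫ y, g y := by
    intro q
    by_cases hq : q = y0
    · exact ⟨0, fun hh => absurd hq hh⟩
    · obtain ⟨k, hk⟩ := hINTG Ω f A x q r (dist q y0) h.op h.cont h.wg hr hsub
        (dist_pos.2 hq) (by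
          intro z hz
          rw [hsp z hz, dist_comm, dist_eq_norm])
      exact ⟨k, fun _ => hk⟩
  choose k hk using hex
  have hcont : ContinuousOn k ({y0}ᶜ : Set E3) := by
    intro q hq
    have hq' : q ≠ y0 := hq
    refine ContinuousAt.continuousWithinAt ?_
    have hev : ∀ᶠ q' in 𝓝 q, k q' = k q := by
      filter_upwards [Metric.ball_mem_nhds q (dist_pos.2 hq')] with q' hq'b
      have hne : q' ≠ y0 := by
        rintro rfl
        rw [Metric.mem_ball, dist_comm] at hq'b
        exact lt_irrefl _ hq'b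
      have hd : 0 < min (dist q' y0) (dist q y0 - dist q' q) := by
        rw [Metric.mem_ball] at hq'b
        exact lt_min (dist_pos.2 hne) (by linarith)
      obtain ⟨g, hgc, hgs, hgt, hg0, hg1, hgi⟩ := POS_bump q' hd
      have e1 := hk q' hne g hgc hgs (hgt.trans (Metric.ball_subset_ball (min_le_left _ _)))
      have e2 := hk q hq' g hgc hgs (hgt.trans ((Metric.ball_subset_ball (min_le_right _ _)).trans
        (Metric.ball_subset_ball' (by linarith))))
      have e3 : ((k q' : ℝ) - k q) * ∫ z, g z = 0 := by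
        rw [sub_mul, ← e1, ← e2, sub_self]
      rcases mul_eq_zero.1 e3 with e4 | e4
      · exact_mod_cast sub_eq_zero.1 e4
      · exact absurd e4 hgi.ne'
    exact (continuousAt_const (y := k q)).congr (hev.mono fun _ hh => hh.symm)
  have hrk : 1 < Module.rank ℝ E3 := by
    rw [← Module.finrank_eq_rank, finrank_euclideanSpace_fin]
    norm_num
  have hconn : IsPreconnected ({y0}ᶜ : Set E3) :=
    (isConnected_compl_singleton_of_one_lt_rank hrk y0).isPreconnected
  -- a far point
  have hcomp : IsCompact (f '' Metric.closedBall x r) :=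
    (isCompact_closedBall x r).image_of_continuousOn (h.cont.mono hsub)
  obtain ⟨M, hM⟩ := hcomp.isBounded.exists_norm_le
  obtain ⟨q1, hq1⟩ := exists_norm_eq E3 (c := |M| + ‖y0‖ + 1) (by positivity)
  have hq1y : q1 ≠ y0 := by
    rintro rfl
    have := abs_nonneg M
    linarith
  have hd1 : 0 < min 1 (dist q1 y0) := lt_min one_pos (dist_pos.2 hq1y)
  obtain ⟨g1, hgc1, hgs1, hgt1, hg01, hg11, hgi1⟩ := POS_bump q1 hd1
  have hk1 : k q1 = 0 := by
    have e1 := hk q1 hq1y g1 hgc1 hgs1 (hgt1.trans (Metric.ball_subset_ball (min_le_right _ _)))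
    have e2 : ∫ z in Metric.ball x r, (A z).det * g1 (f z) = 0 := by
      rw [setIntegral_congr_fun (g := fun _ => (0 : ℝ)) Metric.isOpen_ball.measurableSet,
        integral_zero]
      intro z hz
      have h1 : g1 (f z) = 0 := by
        by_contra hgz
        have h2 := hgt1 (subset_tsupport g1 hgz)
        have h3 := hM (f z) ⟨z, Metric.ball_subset_closedBall hz, rfl⟩
        rw [Metric.mem_ball, dist_eq_norm] at h2
        have h4 : ‖f z - q1‖ < 1 := h2.trans_le (min_le_left _ _)
        have h5 : ‖q1‖ ≤ ‖f z‖ + ‖f z - q1‖ := by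
          have := norm_sub_le (f z) (f z - q1)
          rwa [sub_sub_cancel] at this
        have h6 := le_abs_self M
        have h7 := norm_nonneg y0
        linarith
      show (A z).det * g1 (f z) = 0
      rw [h1, mul_zero]
    rw [e2] at e1
    rcases mul_eq_zero.1 e1.symm with e4 | e4
    · exact_mod_cast e4
    · exact absurd e4 hgi1.ne'
  have hkq : k q = 0 := by
    rw [hconn.constant hcont hq hq1y, hk1]
  rw [hk q hq g hg hgs hgt, hkq]
  simp

/-- the Jacobian vanishes almost everywhere where `f` is not `y0` -/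
theorem RCS_jac (hINTG : Pool.Flat.Stmt_INTG) (hPIOI : Pool.Mart.Stmt_PIOI) {Ω : Set E3}
    {f : E3 → E3} {A : E3 → M3} {x y0 : E3} {r : ℝ} (h : RG Ω f A) (hr : 0 < r)
    (hsub : Metric.closedBall x r ⊆ Ω) (hsp : ∀ z : E3, ‖z - x‖ = r → f z = y0) :
    ∀ᵐ z ∂(volume.restrict (Metric.ball x r ∩ f ⁻¹' {y0}ᶜ)), (A z).det = 0 := by
  have hbΩ : Metric.ball x r ⊆ Ω := Metric.ball_subset_closedBall.trans hsub
  have hW : IsOpen (Metric.ball x r ∩ f ⁻¹' {y0}ᶜ) :=
    (h.cont.mono hbΩ).isOpen_inter_preimage Metric.isOpen_ball isOpen_compl_singleton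
  rw [ae_restrict_iff' hW.measurableSet, ae_iff]
  apply measure_null_of_locally_null
  intro z1 hz1
  have hz1' : z1 ∈ Metric.ball x r ∩ f ⁻¹' {y0}ᶜ ∧ (A z1).det ≠ 0 := by
    exact Classical.not_imp.1 hz1
  have hne : f z1 ≠ y0 := hz1'.1.2
  have hd : 0 < dist (f z1) y0 := dist_pos.2 hne
  obtain ⟨g, hgc, hgs, hgt, hg0, hg1, hgi⟩ := POS_bump (f z1) hd
  have e0 := RCS_zero hINTG h hr hsub hsp (f z1) hne g hgc hgs hgt
  have hint : IntegrableOn (fun z => (A z).det * g (f z)) (Metric.ball x r) :=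
    ((hPIOI Ω f A h.op h.cont h.wg _ (isCompact_closedBall x r) hsub).1.mul_continuousOn
      (hgc.comp_continuousOn (h.cont.mono hsub)) (isCompact_closedBall x r)).mono_set
      Metric.ball_subset_closedBall
  have hgd : ∀ᵐ z ∂(volume.restrict (Metric.ball x r)), Good (A z) :=
    ae_mono (Measure.restrict_mono hbΩ le_rfl) h.good
  have hnn : 0 ≤ᵐ[volume.restrict (Metric.ball x r)] fun z => (A z).det * g (f z) := by
    filter_upwards [hgd] with z hz
    exact mul_nonneg (POS_det hz) (hg0 _)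
  have h2 := (integral_eq_zero_iff_of_nonneg_ae hnn hint).1 e0
  have h3 : ∀ᵐ z, z ∈ Metric.ball x r → (A z).det * g (f z) = 0 :=
    (ae_restrict_iff' Metric.isOpen_ball.measurableSet).1 h2
  have hcz : ContinuousAt f z1 := h.cont.continuousAt (h.op.mem_nhds (hbΩ hz1'.1.1))
  have hnb : f ⁻¹' Metric.closedBall (f z1) (dist (f z1) y0 / 4) ∈ 𝓝 z1 :=
    hcz.preimage_mem_nhds (Metric.closedBall_mem_nhds _ (by positivity))
  refine ⟨f ⁻¹' Metric.closedBall (f z1) (dist (f z1) y0 / 4) ∩
    {z | ¬ (z ∈ Metric.ball x r ∩ f ⁻¹' {y0}ᶜ → (A z).det = 0)}, ?_, ?_⟩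
  · exact inter_mem (mem_nhdsWithin_of_mem_nhds hnb) self_mem_nhdsWithin
  · refine measure_mono_null ?_ (ae_iff.1 h3)
    rintro z ⟨hz1, hz2⟩
    have hz2' : z ∈ Metric.ball x r ∩ f ⁻¹' {y0}ᶜ ∧ (A z).det ≠ 0 := by
      exact Classical.not_imp.1 hz2
    show ¬ (z ∈ Metric.ball x r → (A z).det * g (f z) = 0)
    intro hcon
    have h5 := hcon hz2'.1.1
    rw [hg1 (f z) hz1, mul_one] at h5
    exact hz2'.2 h5

theorem p_RCS (hINTG : Pool.Flat.Stmt_INTG) (hRZC : Stmt_RZC) (hPIOI : Pool.Mart.Stmt_PIOI) :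
    Stmt_RCS := by
  intro Ω f A x y0 r h hr hsub hsp z0 hz0
  by_contra hne
  have hbΩ : Metric.ball x r ⊆ Ω := Metric.ball_subset_closedBall.trans hsub
  have hin : ∀ p ∈ Metric.closedBall x r, f p ≠ y0 → p ∈ Metric.ball x r := by
    intro p hp hpn
    rw [mem_closedBall_iff_norm] at hp
    rcases hp.lt_or_eq with h1 | h1
    · rwa [mem_ball_iff_norm]
    · exact absurd (hsp p h1) hpn
  set W : Set E3 := Metric.ball x r ∩ f ⁻¹' {y0}ᶜ with hWdef
  have hW : IsOpen W :=
    (h.cont.mono hbΩ).isOpen_inter_preimage Metric.isOpen_ball isOpen_compl_singleton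
  have hz0W : z0 ∈ W := ⟨hin z0 hz0 hne, hne⟩
  set V : Set E3 := connectedComponentIn W z0 with hVdef
  have hVo : IsOpen V := hW.connectedComponentIn
  have hVW : V ⊆ W := connectedComponentIn_subset W z0
  have hz0V : z0 ∈ V := mem_connectedComponentIn hz0W
  have hVp : IsPreconnected V := isPreconnected_connectedComponentIn
  have hVB : V ⊆ Metric.ball x r := fun p hp => (hVW hp).1
  have hJ : ∀ᵐ z ∂(volume.restrict V), (A z).det = 0 :=
    ae_mono (Measure.restrict_mono hVW le_rfl) (RCS_jac hINTG hPIOI h hr hsub hsp)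
  have hcst : ∀ w ∈ V, f w = f z0 := fun w hw =>
    hRZC Ω f A V h hVo (hVB.trans hbΩ) hVp hJ z0 hz0V w hw
  have hcl : closure V ⊆ V := by
    intro p hp
    have hpc : p ∈ Metric.closedBall x r :=
      closure_minimal (hVB.trans Metric.ball_subset_closedBall) Metric.isClosed_closedBall hp
    have hfp : f p = f z0 := by
      have h1 : ContinuousWithinAt f V p :=
        (h.cont p (hsub hpc)).mono (hVB.trans hbΩ)
      have h2 : f p ∈ closure (f '' V) := h1.mem_closure_image hp
      have h3 : f '' V ⊆ {f z0} := by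
        rintro _ ⟨w, hw, rfl⟩
        exact hcst w hw
      have h4 := closure_mono h3 h2
      rwa [closure_singleton] at h4
    have hpW : p ∈ W := by
      have h1 : f p ≠ y0 := by rw [hfp]; exact hne
      exact ⟨hin p hpc h1, h1⟩
    have hins : IsPreconnected (insert p V) :=
      hVp.subset_closure (subset_insert p V) (insert_subset hp subset_closure)
    exact hins.subset_connectedComponentIn (mem_insert_of_mem p hz0V)
      (insert_subset hpW hVW) (mem_insert p V)
  have hclo : IsClopen V := ⟨isClosed_of_closure_subset hcl, hVo⟩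
  have huniv : V = univ := hclo.eq_univ ⟨z0, hz0V⟩
  obtain ⟨v, hv⟩ := exists_norm_eq E3 (c := r) hr.le
  have h1 : x + v ∈ V := by rw [huniv]; exact mem_univ _
  have h2 := hVB h1
  rw [mem_ball_iff_norm, add_sub_cancel_left, hv] at h2
  exact lt_irrefl _ h2

end Pool.GQ
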