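import Pool.Agent.Work.MP_680515_gq.IfaceR
import Pool.Agent.Work.MP_680515_fl.B_POS

open MeasureTheory Set Filter Topology

namespace Pool.GQ

open Pool.Mart Pool.Flat Pool.SQ

/-- the set of zero Jacobian contains no ball around `x` -/
theorem RDG_nv (hRZC : Stmt_RZC) (hRIN : Stmt_RIN) {Ω : Set E3} {f : E3 → E3} {A : E3 → M3}
    (h : RG Ω f A) {x : E3} {δ : ℝ} (hδ : 0 < δ) (hsub : Metric.ball x δ ⊆ Ω)
    (h0 : ∀ᵐ z ∂(volume.restrict (Metric.ball x δ)), (A z).det = 0) : False := by
  have hx : x ∈ Metric.ball x δ := Metric.mem_ball_self hδ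
  obtain ⟨z, _, hz, hne⟩ := hRIN Ω f A h (f x) x (hsub hx) δ hδ
  have hzb : z ∈ Metric.ball x δ := by rwa [mem_ball_iff_norm]
  exact hne (hRZC Ω f A (Metric.ball x δ) h Metric.isOpen_ball hsub
    (convex_ball x δ).isPreconnected h0 x hx z hzb)

theorem p_RDG (hINTG : Pool.Flat.Stmt_INTG) (hRZC : Stmt_RZC) (hRIN : Stmt_RIN)
    (hPIOI : Pool.Mart.Stmt_PIOI) : Stmt_RDG := by
  intro Ω f A x r h hr hsub hne
  have hxΩ : x ∈ Ω := hsub (Metric.mem_closedBall_self hr.le)
  have hcomp : IsCompact (Metric.sphere x r) := isCompact_sphere x r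
  have hnem : (Metric.sphere x r).Nonempty := NormedSpace.sphere_nonempty.2 hr.le
  have hsp : Metric.sphere x r ⊆ Ω := Metric.sphere_subset_closedBall.trans hsub
  have hcont : ContinuousOn (fun z => ‖f z - f x‖) (Metric.sphere x r) :=
    ((h.cont.mono hsp).sub continuousOn_const).norm
  obtain ⟨x0, hx0, hmin⟩ := hcomp.exists_isMinOn hnem hcont
  set m := ‖f x0 - f x‖ with hm
  have hx0' : ‖x0 - x‖ = r := by rwa [mem_sphere_iff_norm] at hx0
  have hmpos : 0 < m := by
    rw [hm, norm_pos_iff, sub_ne_zero]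
    exact hne x0 hx0'
  have hmin' : ∀ z, ‖z - x‖ = r → m ≤ ‖f z - f x‖ := by
    intro z hz
    exact hmin (by rwa [mem_sphere_iff_norm])
  obtain ⟨k, hk⟩ := hINTG Ω f A x (f x) r m h.op h.cont h.wg hr hsub hmpos hmin'
  have hk1 : 1 ≤ k := by
    by_contra hcon
    have hk0 : k ≤ 0 := by omega
    obtain ⟨g, hgc, hgs, hgt, hg0, hg1, hgi⟩ := POS_bump (f x) hmpos
    have e0 := hk g hgc hgs hgt
    have hint : IntegrableOn (fun z => (A z).det * g (f z)) (Metric.ball x r) :=
      ((hPIOI Ω f A h.op h.cont h.wg _ (isCompact_closedBall x r) hsub).1.mul_continuousOn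
        (hgc.comp_continuousOn (h.cont.mono hsub)) (isCompact_closedBall x r)).mono_set
        Metric.ball_subset_closedBall
    have hgd : ∀ᵐ z ∂(volume.restrict (Metric.ball x r)), Good (A z) :=
      ae_mono (Measure.restrict_mono (Metric.ball_subset_closedBall.trans hsub) le_rfl) h.good
    have hnn : 0 ≤ᵐ[volume.restrict (Metric.ball x r)] fun z => (A z).det * g (f z) := by
      filter_upwards [hgd] with z hz
      exact mul_nonneg (POS_det hz) (hg0 _)
    have h1 : ∫ z in Metric.ball x r, (A z).det * g (f z) = 0 := by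
      refine le_antisymm ?_ (integral_nonneg_of_ae hnn)
      rw [e0]
      have : (k : ℝ) ≤ 0 := by exact_mod_cast hk0
      exact mul_nonpos_of_nonpos_of_nonneg this hgi.le
    have h2 := (integral_eq_zero_iff_of_nonneg_ae hnn hint).1 h1
    have hcp : ContinuousAt f x := h.cont.continuousAt (h.op.mem_nhds hxΩ)
    obtain ⟨δ', hδ', hδf⟩ := Metric.continuousAt_iff.1 hcp (m / 4) (by positivity)
    set δ := min δ' r with hδ
    have hδpos : 0 < δ := lt_min hδ' hr
    have hδs : δ ≤ r := min_le_right _ _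
    have hbs : Metric.ball x δ ⊆ Metric.ball x r := Metric.ball_subset_ball hδs
    refine RDG_nv hRZC hRIN h hδpos (hbs.trans (Metric.ball_subset_closedBall.trans hsub)) ?_
    have h4 := ae_mono (Measure.restrict_mono hbs le_rfl) h2
    filter_upwards [h4, ae_restrict_mem Metric.isOpen_ball.measurableSet] with z hz hzb
    have h6 : g (f z) = 1 := hg1 _ (by
      rw [Metric.mem_closedBall]
      rw [Metric.mem_ball] at hzb
      exact (hδf (hzb.trans_le (min_le_left _ _))).le)
    rw [h6, mul_one] at hz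
    exact hz
  have hkn : ((k.toNat : ℕ) : ℤ) = k := Int.toNat_of_nonneg (by omega)
  have hkr : ((k.toNat : ℕ) : ℝ) = (k : ℝ) := by exact_mod_cast hkn
  have hkpos : (0 : ℝ) < (k : ℝ) := by
    have : (1 : ℝ) ≤ (k : ℝ) := by exact_mod_cast hk1
    linarith
  have hsm : ∀ z : E3, ‖z - x‖ = r → m / 2 < ‖f z - f x‖ := by
    intro z hz
    have := hmin' z hz
    linarith
  refine ⟨k.toNat, m / 2, by omega, by positivity, hsm, ?_, ?_⟩
  · intro g hg1 hg2 hg3
    rw [hk g hg1 hg2 (hg3.trans (Metric.ball_subset_ball (by linarith))), hkr]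
  · intro y hy
    by_contra hny
    have hyc : y ∉ f '' Metric.closedBall x r := by
      rintro ⟨z, hz, rfl⟩
      rw [mem_closedBall_iff_norm] at hz
      rcases hz.lt_or_eq with h1 | h1
      · exact hny ⟨z, by rwa [mem_ball_iff_norm], rfl⟩
      · have h2 := hsm z h1
        rw [mem_ball_iff_norm] at hy
        linarith
    have hcl : IsClosed (f '' Metric.closedBall x r) :=
      ((isCompact_closedBall x r).image_of_continuousOn (h.cont.mono hsub)).isClosed
    obtain ⟨ε1, hε1, hb1⟩ := Metric.isOpen_iff.1 hcl.isOpen_compl y hyc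
    obtain ⟨ε2, hε2, hb2⟩ := Metric.isOpen_iff.1 (Metric.isOpen_ball (x := f x) (ε := m / 2)) y hy
    have hε : 0 < min ε1 ε2 := lt_min hε1 hε2
    obtain ⟨g, hgc, hgs, hgt, hg0, hg1, hgi⟩ := POS_bump y hε
    have hgt1 : tsupport g ⊆ (f '' Metric.closedBall x r)ᶜ :=
      hgt.trans ((Metric.ball_subset_ball (min_le_left _ _)).trans hb1)
    have hgt2 : tsupport g ⊆ Metric.ball (f x) m :=
      hgt.trans (((Metric.ball_subset_ball (min_le_right _ _)).trans hb2).trans
        (Metric.ball_subset_ball (by linarith)))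
    have e1 := hk g hgc hgs hgt2
    have e2 : ∫ z in Metric.ball x r, (A z).det * g (f z) = 0 := by
      rw [setIntegral_congr_fun (g := fun _ => (0 : ℝ)) Metric.isOpen_ball.measurableSet, integral_zero]
      intro z hz
      have h1 : g (f z) = 0 := by
        by_contra hgz
        exact hgt1 (subset_tsupport g hgz) ⟨z, Metric.ball_subset_closedBall hz, rfl⟩
      show (A z).det * g (f z) = 0
      rw [h1, mul_zero]
    rw [e2] at e1
    have := mul_pos hkpos hgi
    linarith

end Pool.GQ
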