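import Pool.Agent.Work.MP_680515_gq.IfaceR

/-!
# MP_680515_an, THEOREM GQ, part R: block RDS

Nonconstant quasiregular maps are discrete: the fibre in a small ball has at most as many points as
the degree.
-/

set_option autoImplicit false

open MeasureTheory Set Filter Topology

namespace Pool.GQ

open Pool.Mart Pool.Flat Pool.SQ

/-- A common small radius. -/
theorem RDS_small {x : E3} {r : ℝ} (s : Finset E3) (hs : ∀ z ∈ s, z ∈ Metric.ball x r) :
    ∃ d : ℝ, 0 < d ∧ (∀ z ∈ s, dist z x + d < r) ∧ ∀ z ∈ s, ∀ w ∈ s, z ≠ w → 2 * d < dist z w := by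
  have h1 : ∀ᶠ d : ℝ in 𝓝[>] 0, ∀ z ∈ s, d < r - dist z x := by
    refine (Finset.eventually_all s).2 fun z hz => ?_
    have h2 : 0 < r - dist z x := by
      have := Metric.mem_ball.1 (hs z hz)
      linarith
    filter_upwards [Ioo_mem_nhdsGT h2] with d hd
    exact hd.2
  have h3 : ∀ᶠ d : ℝ in 𝓝[>] 0, ∀ z ∈ s, ∀ w ∈ s, z ≠ w → d < dist z w / 2 := by
    refine (Finset.eventually_all s).2 fun z hz => ?_
    refine (Finset.eventually_all s).2 fun w hw => ?_
    by_cases hzw : z = w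
    · exact Eventually.of_forall fun d h => absurd hzw h
    · have h2 : 0 < dist z w / 2 := by
        have := dist_pos.2 hzw
        linarith
      filter_upwards [Ioo_mem_nhdsGT h2] with d hd _
      exact hd.2
  have h4 : ∀ᶠ d : ℝ in 𝓝[>] 0, 0 < d := eventually_mem_nhdsWithin
  obtain ⟨d, hd1, hd2, hd3⟩ := (h1.and (h3.and h4)).exists
  refine ⟨d, hd3, fun z hz => ?_, fun z hz w hw hzw => ?_⟩
  · have := hd1 z hz
    linarith
  · have := hd2 z hz w hw hzw
    linarith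

/-- The fibre in the ball is finite. -/
theorem RDS_finite (hRSS : Stmt_RSS) (hRDG : Stmt_RDG) (hPIOI : Pool.Mart.Stmt_PIOI) {Ω : Set E3}
    {f : E3 → E3} {A : E3 → M3} (hG : RG Ω f A) {x : E3} {r : ℝ} (hr : 0 < r)
    (hsub : Metric.closedBall x r ⊆ Ω) (hsph : ∀ z : E3, ‖z - x‖ = r → f z ≠ f x) :
    {z | z ∈ Metric.ball x r ∧ f z = f x}.Finite := by
  classical
  obtain ⟨k, ρ, -, hρ, -, hdeg, -⟩ := hRDG Ω f A x r hG hr hsub hsph
  by_contra hinf
  have hinf' : {z | z ∈ Metric.ball x r ∧ f z = f x}.Infinite := hinf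
  obtain ⟨s, hs1, hs2⟩ := hinf'.exists_subset_card_eq (k + 1)
  have hsb : ∀ z ∈ s, z ∈ Metric.ball x r := fun z hz => (hs1 hz).1
  have hfz : ∀ z ∈ s, f z = f x := fun z hz => (hs1 hz).2
  obtain ⟨d, hd0, hd1, hd2⟩ := RDS_small s hsb
  have hch : ∀ z : E3, ∃ q : ℝ × (ℝ × ℕ), z ∈ s → 0 < q.1 ∧ q.1 ≤ d ∧ 0 < q.2.1 ∧ 1 ≤ q.2.2 ∧
      ∀ g : E3 → ℝ, Continuous g → HasCompactSupport g → tsupport g ⊆ Metric.ball (f z) q.2.1 →
        ∫ w in Metric.ball z q.1, (A w).det * g (f w) = q.2.2 * ∫ y, g y := by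
    intro z
    by_cases hz : z ∈ s
    · have hzΩ : z ∈ Ω := hsub (Metric.ball_subset_closedBall (hsb z hz))
      obtain ⟨r', h1, h2, h3, h4⟩ := hRSS Ω f A hG z hzΩ d hd0
      obtain ⟨k', ρ', h5, h6, -, h7, -⟩ := hRDG Ω f A z r' hG h1 h3 h4
      exact ⟨(r', (ρ', k')), fun _ => ⟨h1, h2, h6, h5, h7⟩⟩
    · exact ⟨(0, (0, 0)), fun h => absurd h hz⟩
  choose Q hQ using hch
  -- the balls
  have hsubB : ∀ z ∈ s, Metric.ball z (Q z).1 ⊆ Metric.ball x r := by
    intro z hz w hw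
    have h1 := Metric.mem_ball.1 hw
    have h2 := hd1 z hz
    have h3 := (hQ z hz).2.1
    refine Metric.mem_ball.2 ?_
    have h4 := dist_triangle w z x
    linarith
  have hdis : Set.Pairwise (↑s) (Function.onFun Disjoint fun z => Metric.ball z (Q z).1) := by
    intro z hz w hw hzw
    refine Metric.ball_disjoint_ball ?_
    have h1 := hd2 z hz w hw hzw
    have h2 := (hQ z hz).2.1
    have h3 := (hQ w hw).2.1
    linarith
  have hcontB : ContinuousOn f (Metric.closedBall x r) := hG.cont.mono hsub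
  -- the radius of the bump
  have hev1 : ∀ᶠ δ : ℝ in 𝓝[>] 0, ∀ z ∈ s, δ < (Q z).2.1 := by
    refine (Finset.eventually_all s).2 fun z hz => ?_
    filter_upwards [Ioo_mem_nhdsGT (hQ z hz).2.2.1] with δ hδ
    exact hδ.2
  have hev2 : ∀ᶠ δ : ℝ in 𝓝[>] 0, δ < ρ := by
    filter_upwards [Ioo_mem_nhdsGT hρ] with δ hδ
    exact hδ.2
  have hev4 : ∀ᶠ δ : ℝ in 𝓝[>] 0, 0 < δ := eventually_mem_nhdsWithin
  obtain ⟨δ, hδ1, hδ2, hδ4⟩ := (hev1.and (hev2.and hev4)).exists
  obtain ⟨b, hb⟩ : ∃ b : ContDiffBump (f x), b.rOut = δ :=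
    ⟨⟨δ / 2, δ, by linarith, by linarith⟩, rfl⟩
  obtain ⟨g, hg⟩ : ∃ g : E3 → ℝ, g = fun w => b w := ⟨_, rfl⟩
  have hgc : Continuous g := by rw [hg]; exact b.continuous
  have hgs : HasCompactSupport g := by rw [hg]; exact b.hasCompactSupport
  have hgt : tsupport g = Metric.closedBall (f x) δ := by
    rw [hg, ← hb]
    exact b.tsupport_eq
  have hgI : 0 < ∫ w, g w := by
    rw [hg]
    exact b.integral_pos
  have hgn : ∀ w, 0 ≤ g w := by
    intro w
    rw [hg]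
    exact b.nonneg
  have e1 : ∫ w in Metric.ball x r, (A w).det * g (f w) = k * ∫ w, g w := by
    refine hdeg g hgc hgs ?_
    rw [hgt]
    exact Metric.closedBall_subset_ball hδ2
  have e2 : ∀ z ∈ s, ∫ w in Metric.ball z (Q z).1, (A w).det * g (f w)
      = (Q z).2.2 * ∫ w, g w := by
    intro z hz
    refine (hQ z hz).2.2.2.2 g hgc hgs ?_
    rw [hgt, hfz z hz]
    exact Metric.closedBall_subset_ball (hδ1 z hz)
  have hint : IntegrableOn (fun w => (A w).det * g (f w)) (Metric.closedBall x r) := by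
    have h1 := (hPIOI Ω f A hG.op hG.cont hG.wg (Metric.closedBall x r)
      (isCompact_closedBall x r) hsub).1
    exact h1.mul_continuousOn (hgc.comp_continuousOn hcontB) (isCompact_closedBall x r)
  have hnn : 0 ≤ᵐ[volume.restrict (Metric.ball x r)] fun w => (A w).det * g (f w) := by
    have hsub' : Metric.ball x r ⊆ Ω := Metric.ball_subset_closedBall.trans hsub
    filter_upwards [ae_restrict_of_ae_restrict_of_subset hsub' hG.good] with w hw
    have h1 : 0 ≤ opn (A w) := norm_nonneg _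
    have h2 : 0 ≤ opn (A w) ^ 3 := by positivity
    have h3 : 0 ≤ (A w).det := by linarith [hw.2]
    exact mul_nonneg h3 (hgn _)
  have e3 : ∫ w in ⋃ z ∈ s, Metric.ball z (Q z).1, (A w).det * g (f w)
      ≤ ∫ w in Metric.ball x r, (A w).det * g (f w) :=
    setIntegral_mono_set (hint.mono_set Metric.ball_subset_closedBall) hnn
      (LE.le.eventuallyLE (iUnion₂_subset hsubB))
  have e4 : ∫ w in ⋃ z ∈ s, Metric.ball z (Q z).1, (A w).det * g (f w)
      = ∑ z ∈ s, ∫ w in Metric.ball z (Q z).1, (A w).det * g (f w) :=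
    integral_biUnion_finset s (fun z _ => measurableSet_ball) hdis
      (fun z hz => hint.mono_set ((hsubB z hz).trans Metric.ball_subset_closedBall))
  have e5 : (∑ z ∈ s, ((Q z).2.2 : ℝ)) * ∫ w, g w ≤ (k : ℝ) * ∫ w, g w := by
    rw [← e1, Finset.sum_mul, ← Finset.sum_congr rfl e2, ← e4]
    exact e3
  have e6 : (∑ z ∈ s, ((Q z).2.2 : ℝ)) ≤ (k : ℝ) := le_of_mul_le_mul_right e5 hgI
  have e7 : ((k : ℝ) + 1) ≤ ∑ z ∈ s, ((Q z).2.2 : ℝ) := by
    have h1 : ∑ z ∈ s, (1 : ℝ) ≤ ∑ z ∈ s, ((Q z).2.2 : ℝ) := by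
      refine Finset.sum_le_sum fun z hz => ?_
      exact_mod_cast (hQ z hz).2.2.2.1
    have h2 : ∑ z ∈ s, (1 : ℝ) = (k : ℝ) + 1 := by
      rw [Finset.sum_const, hs2, nsmul_eq_mul, mul_one]
      push_cast
      ring
    linarith
  linarith

theorem p_RDS (hRSS : Stmt_RSS) (hRDG : Stmt_RDG) (hPIOI : Pool.Mart.Stmt_PIOI) : Stmt_RDS := by
  classical
  intro Ω f A hG x hx
  obtain ⟨r, hr, -, hsub, hsph⟩ := hRSS Ω f A hG x hx 1 one_pos
  have hfin := RDS_finite hRSS hRDG hPIOI hG hr hsub hsph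
  have hfin2 : ({z | z ∈ Metric.ball x r ∧ f z = f x} \ {x}).Finite := hfin.sdiff
  have hx2 : x ∈ ({z | z ∈ Metric.ball x r ∧ f z = f x} \ {x})ᶜ := by
    rintro ⟨-, h⟩
    exact h rfl
  obtain ⟨c, hc0, hc1⟩ := Metric.isOpen_iff.1 hfin2.isClosed.isOpen_compl x hx2
  refine ⟨min (c / 2) (r / 2), lt_min (by linarith) (by linarith), fun y hy hyr hfy => ?_⟩
  have h1 : dist y x ≤ c / 2 := by
    rw [dist_eq_norm]
    exact hyr.trans (min_le_left _ _)
  have h2 : dist y x ≤ r / 2 := by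
    rw [dist_eq_norm]
    exact hyr.trans (min_le_right _ _)
  by_contra hne
  have h3 : y ∈ Metric.ball x c := Metric.mem_ball.2 (by linarith)
  exact hc1 h3 ⟨⟨Metric.mem_ball.2 (by linarith), hfy⟩, hne⟩

end Pool.GQ
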