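import Pool.Agent.Work.MP_680515_gq.IfaceR

open MeasureTheory Set Filter Topology

namespace Pool.GQ

open Pool.Mart Pool.Flat Pool.SQ

theorem p_RFN (hGQ : Stmt_FinalGQ) (hROP : Stmt_ROP) (hRDS : Stmt_RDS)
    (hLIN4 : Pool.Mart.Stmt_LIN4) : Stmt_RFN := by
  intro Ω f A K hΩ hconn hq hK hK1 hne x hx
  obtain ⟨K', hK'1, hK'⟩ := hq.qr
  have hG : RG Ω f A := by
    refine ⟨hΩ, hconn, hq.cont, hq.wg, ?_, hne⟩
    filter_upwards [hK', hK] with x h1 h2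
    exact hLIN4 (A x) K' hK'1 h1
      (h2.trans (mul_le_mul_of_nonneg_right (by linarith) (sq_nonneg _)))
  by_contra hcon
  push Not at hcon
  have h := hGQ Ω f A K hΩ hq (hROP Ω f A hG) (hRDS Ω f A hG)
    ⟨x, hx, fun r hr => hcon r hr⟩ hK
  linarith

end Pool.GQ
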