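import Pool.Agent.Work.MP_680515_gq.IfaceR

/-!
# MP_680515_an, THEOREM GQ, block RIN: fibres have no interior
-/

open MeasureTheory Set Filter Topology

namespace Pool.GQ

open Pool.Mart Pool.Flat Pool.SQ

theorem p_RIN (hRSP : Stmt_RSP) (hRCS : Stmt_RCS) : Stmt_RIN := by
  intro Ω f A hRG y0 x hx r hr
  by_contra hcon
  push Not at hcon
  set G : Set E3 := {p | p ∈ Ω ∧ ∃ δ : ℝ, 0 < δ ∧ ∀ z ∈ Ω, ‖z - p‖ < δ → f z = y0} with hG
  have hxG : x ∈ G := ⟨hx, r, hr, hcon⟩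
  have hGo : IsOpen G := by
    rw [Metric.isOpen_iff]
    rintro p ⟨hp, δ, hδ, h⟩
    obtain ⟨ε, hε, hb⟩ := Metric.isOpen_iff.1 hRG.op p hp
    refine ⟨min ε (δ / 2), by positivity, fun q hq => ?_⟩
    rw [Metric.mem_ball, dist_eq_norm] at hq
    have h1 : ‖q - p‖ < ε := lt_of_lt_of_le hq (min_le_left _ _)
    have h2 : ‖q - p‖ < δ / 2 := lt_of_lt_of_le hq (min_le_right _ _)
    refine ⟨hb (by rw [Metric.mem_ball, dist_eq_norm]; exact h1), δ / 2, by positivity,
      fun z hz hzq => h z hz ?_⟩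
    calc ‖z - p‖ = ‖(z - q) + (q - p)‖ := by congr 1; abel
      _ ≤ ‖z - q‖ + ‖q - p‖ := norm_add_le _ _
      _ < δ := by linarith
  have hGf : ∀ p ∈ G, f p = y0 := by
    rintro p ⟨hp, δ, hδ, h⟩
    exact h p hp (by rw [sub_self, norm_zero]; exact hδ)
  -- a boundary point
  have hx2 : ∃ x2 ∈ Ω, x2 ∈ closure G ∧ x2 ∉ G := by
    by_contra hno
    push Not at hno
    obtain ⟨a, ha, b, hb, hab⟩ := hRG.ncst
    have hq : ∃ q ∈ Ω, f q ≠ y0 := by
      by_contra hq
      push Not at hq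
      exact hab ((hq a ha).trans (hq b hb).symm)
    obtain ⟨q, hq, hfq⟩ := hq
    have hqG : q ∉ closure G := fun h => hfq (hGf q (hno q hq h))
    have hcover : Ω ⊆ G ∪ (closure G)ᶜ := by
      intro z hz
      by_cases h : z ∈ closure G
      · exact Or.inl (hno z hz h)
      · exact Or.inr h
    obtain ⟨z, -, hz1, hz2⟩ := hRG.conn G (closure G)ᶜ hGo isClosed_closure.isOpen_compl hcover
      ⟨x, hx, hxG⟩ ⟨q, hq, hqG⟩
    exact hz2 (subset_closure hz1)
  obtain ⟨x2, hx2Ω, hx2c, hx2G⟩ := hx2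
  have hcont : ContinuousAt f x2 := hRG.cont.continuousAt (hRG.op.mem_nhds hx2Ω)
  have hfx2 : f x2 = y0 := by
    by_contra hne
    have h1 : ∀ᶠ z in 𝓝 x2, f z ≠ y0 := hcont.eventually_ne hne
    obtain ⟨z, hz1, hz2⟩ := (mem_closure_iff_frequently.1 hx2c |>.and_eventually h1).exists
    exact hz2 (hGf z hz1)
  obtain ⟨R0, hR0, hR0b⟩ := Metric.isOpen_iff.1 hRG.op x2 hx2Ω
  obtain ⟨R1, hR1, hR1b⟩ := Metric.continuousAt_iff.1 hcont (1 / 20) (by norm_num)
  set R : ℝ := min R0 R1 / 2 with hRdef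
  have hmin : 0 < min R0 R1 := lt_min hR0 hR1
  have hR : 0 < R := by positivity
  have hRR0 : R < R0 := by
    have := min_le_left R0 R1
    linarith
  have hRR1 : R < R1 := by
    have := min_le_right R0 R1
    linarith
  have hsub : Metric.closedBall x2 R ⊆ Ω := fun z hz => hR0b (by
    rw [Metric.mem_closedBall] at hz
    rw [Metric.mem_ball]
    exact lt_of_le_of_lt hz hRR0)
  have hclose : ∀ z ∈ Metric.closedBall x2 R, ‖f z - y0‖ ≤ 1 / 20 := by
    intro z hz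
    rw [Metric.mem_closedBall] at hz
    have h1 := hR1b (lt_of_le_of_lt hz hRR1)
    rw [dist_eq_norm, hfx2] at h1
    exact h1.le
  obtain ⟨c2, hc2, hdist⟩ := Metric.mem_closure_iff.1 hx2c (R / 4) (by positivity)
  obtain ⟨-, δ, hδ, hc2f⟩ := id hc2
  have hne : c2 ≠ x2 := fun h => hx2G (h ▸ hc2)
  set l : ℝ := ‖c2 - x2‖ with hl
  have hl0 : 0 < l := norm_pos_iff.2 (sub_ne_zero.2 hne)
  have hlR : l < R / 4 := by
    rw [hl, ← dist_eq_norm, dist_comm]
    exact hdist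
  set d : ℝ := min δ l with hd
  have hd0 : 0 < d := lt_min hδ hl0
  have hdδ : d ≤ δ := min_le_left _ _
  have hdl : d ≤ l := min_le_right _ _
  refine hRSP Ω f A x2 y0 R (l - d / 2) (l + d / 2) hRG hR hsub hclose (by linarith) (by linarith)
    (by linarith) ?_
  intro ρ hρ
  obtain ⟨hρ1, hρ2⟩ := hρ
  have hρ0 : 0 < ρ := by linarith
  have hρR : ρ ≤ R := by linarith
  constructor
  · have hn1 : ‖(x2 + (ρ / l) • (c2 - x2)) - x2‖ = ρ := by
      rw [add_sub_cancel_left, norm_smul, Real.norm_of_nonneg (by positivity), ← hl]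
      field_simp
    refine ⟨x2 + (ρ / l) • (c2 - x2), hn1, ?_⟩
    refine hc2f _ (hsub ?_) ?_
    · rw [Metric.mem_closedBall, dist_eq_norm, hn1]
      exact hρR
    · have e : (x2 + (ρ / l) • (c2 - x2)) - c2 = ((ρ - l) / l) • (c2 - x2) := by
        have h1 : (ρ - l) / l = ρ / l - 1 := by field_simp
        rw [h1, sub_smul, one_smul]
        abel
      rw [e, norm_smul, Real.norm_eq_abs, abs_div, abs_of_pos hl0, ← hl,
        div_mul_cancel₀ _ hl0.ne']
      rw [abs_lt]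
      constructor <;> linarith
  · by_contra hno
    push Not at hno
    have h1 := hRCS Ω f A x2 y0 ρ hRG hρ0
      ((Metric.closedBall_subset_closedBall hρR).trans hsub) hno
    refine hx2G ⟨hx2Ω, ρ, hρ0, fun z _ hz => h1 z ?_⟩
    rw [Metric.mem_closedBall, dist_eq_norm]
    exact hz.le

end Pool.GQ
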