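import Pool.Agent.Work.MP_680515_gq.IfaceR

/-!
# MP_680515_an, THEOREM GQ, block RLL (the double logarithm)
-/

set_option autoImplicit false

open MeasureTheory Set Filter Topology

namespace Pool.GQ

open Pool.Mart Pool.Flat Pool.SQ

/-- The squared regularised distance. -/
noncomputable def RLL_u (y0 : E3) (a : ℝ) (y : E3) : ℝ := ‖y - y0‖ ^ 2 + a

/-- The logarithm. -/
noncomputable def RLL_L (u : ℝ) : ℝ := (Real.log (1 + u) - Real.log u) / 2

/-- The coefficient of the field. -/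
noncomputable def RLL_q (u : ℝ) : ℝ := (2 * (u * Real.sqrt u) * RLL_L u ^ 2)⁻¹

theorem RLL_u_pos (y0 : E3) {a : ℝ} (ha : 0 < a) (y : E3) : 0 < RLL_u y0 a y := by
  unfold RLL_u; positivity

theorem RLL_L_pos {u : ℝ} (hu : 0 < u) : 0 < RLL_L u := by
  unfold RLL_L
  have : Real.log u < Real.log (1 + u) := Real.log_lt_log hu (by linarith)
  linarith

theorem RLL_L_anti {u v : ℝ} (hu : 0 < u) (huv : u ≤ v) : RLL_L v ≤ RLL_L u := by
  unfold RLL_L
  have hv : 0 < v := lt_of_lt_of_le hu huv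
  have h1 : Real.log (1 + v) + Real.log u ≤ Real.log (1 + u) + Real.log v := by
    rw [← Real.log_mul (by positivity) (by positivity), ← Real.log_mul (by positivity) (by positivity)]
    apply Real.log_le_log (by positivity)
    nlinarith
  linarith

theorem RLL_L_deriv {u : ℝ} (hu : 0 < u) : HasDerivAt RLL_L (-(2 * (u * (1 + u)))⁻¹) u := by
  have h1 : HasDerivAt (fun v : ℝ => Real.log (1 + v)) ((1 : ℝ) / (1 + u)) u := by
    have h := ((hasDerivAt_id u).const_add (1 : ℝ)).log (by simp only [id]; positivity)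
    simpa using h
  have h2 : HasDerivAt (fun v : ℝ => Real.log v) u⁻¹ u := Real.hasDerivAt_log hu.ne'
  have h3 := (h1.sub h2).div_const 2
  have h4 : ((1 : ℝ) / (1 + u) - u⁻¹) / 2 = -(2 * (u * (1 + u)))⁻¹ := by
    have : (1 + u) ≠ 0 := by positivity
    field_simp
    ring
  rw [h4] at h3
  exact h3

theorem RLL_logL_deriv {u : ℝ} (hu : 0 < u) :
    HasDerivAt (fun v => Real.log (RLL_L v)) (-(2 * (u * (1 + u)) * RLL_L u)⁻¹) u := by
  have hL := RLL_L_pos hu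
  have h := (RLL_L_deriv hu).log hL.ne'
  have h4 : -(2 * (u * (1 + u)))⁻¹ / RLL_L u = -(2 * (u * (1 + u)) * RLL_L u)⁻¹ := by
    rw [mul_inv (2 * (u * (1 + u))) (RLL_L u), div_eq_mul_inv, neg_mul]
  rw [h4] at h
  exact h

theorem RLL_q_deriv {u : ℝ} (hu : 0 < u) :
    HasDerivAt RLL_q (-(3 / 4) * (u ^ 2 * Real.sqrt u * RLL_L u ^ 2)⁻¹
      + (2 * (u ^ 2 * (1 + u) * Real.sqrt u) * RLL_L u ^ 3)⁻¹) u := by
  have hL := RLL_L_pos hu
  have hs : 0 < Real.sqrt u := Real.sqrt_pos.mpr hu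
  have hss : Real.sqrt u * Real.sqrt u = u := Real.mul_self_sqrt hu.le
  have h1 : HasDerivAt (fun v : ℝ => 2 * (v * Real.sqrt v))
      (2 * (1 * Real.sqrt u + u * (1 / (2 * Real.sqrt u)))) u :=
    ((hasDerivAt_id u).mul (Real.hasDerivAt_sqrt hu.ne')).const_mul 2
  have h1' : HasDerivAt (fun v : ℝ => RLL_L v ^ 2)
      (2 * RLL_L u * (-(2 * (u * (1 + u)))⁻¹)) u := by
    have h : HasDerivAt (fun v : ℝ => RLL_L v ^ 2) _ u := (RLL_L_deriv hu).pow 2
    refine h.congr_deriv ?_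
    norm_num
  have h2 : HasDerivAt (fun v : ℝ => 2 * (v * Real.sqrt v) * RLL_L v ^ 2)
      (2 * (1 * Real.sqrt u + u * (1 / (2 * Real.sqrt u))) * RLL_L u ^ 2
        + 2 * (u * Real.sqrt u) * (2 * RLL_L u * (-(2 * (u * (1 + u)))⁻¹))) u := h1.mul h1'
  have h0 : 2 * (u * Real.sqrt u) * RLL_L u ^ 2 ≠ 0 := by
    have : 0 < 2 * (u * Real.sqrt u) * RLL_L u ^ 2 := by positivity
    exact this.ne'
  have h3 : HasDerivAt RLL_q (-(2 * (1 * Real.sqrt u + u * (1 / (2 * Real.sqrt u))) * RLL_L u ^ 2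
        + 2 * (u * Real.sqrt u) * (2 * RLL_L u * (-(2 * (u * (1 + u)))⁻¹)))
        / (2 * (u * Real.sqrt u) * RLL_L u ^ 2) ^ 2) u := h2.inv h0
  refine h3.congr_deriv ?_
  have h1u : (1 + u) ≠ 0 := by positivity
  generalize Real.sqrt u = s at *
  generalize RLL_L u = l at *
  have hu2 : u = s * s := hss.symm
  subst hu2
  have hs0 : s ≠ 0 := hs.ne'
  have hl0 : l ≠ 0 := hL.ne'
  field_simp
  ring

theorem RLL_u_fderiv (y0 : E3) (a : ℝ) (y : E3) :
    HasFDerivAt (RLL_u y0 a) ((2 : ℝ) • (innerSL ℝ (y - y0))) y := by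
  have h1 : HasFDerivAt (fun z : E3 => z - y0) (ContinuousLinearMap.id ℝ E3) y :=
    (hasFDerivAt_id y).sub_const y0
  have h2 := (hasStrictFDerivAt_norm_sq (y - y0)).hasFDerivAt.comp y h1
  have h3 := h2.add_const a
  refine h3.congr_fderiv ?_
  ext v
  simp [two_smul]

theorem RLL_gradv (y0 : E3) {a : ℝ} {y : E3} {g : ℝ → ℝ} {g' : ℝ}
    (hg : HasDerivAt g g' (RLL_u y0 a y)) :
    gradv (fun z => g (RLL_u y0 a z)) y = (2 * g') • (y - y0) := by
  have h : HasFDerivAt (fun z => g (RLL_u y0 a z)) (g' • ((2 : ℝ) • (innerSL ℝ (y - y0)))) y :=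
    hg.comp_hasFDerivAt y (RLL_u_fderiv y0 a y)
  unfold gradv
  rw [h.fderiv]
  ext j
  simp [EuclideanSpace.inner_single_right]
  ring

theorem RLL_divv (y0 : E3) {a : ℝ} {y : E3} {g : ℝ → ℝ} {g' : ℝ}
    (hg : HasDerivAt g g' (RLL_u y0 a y)) :
    divv (fun z => g (RLL_u y0 a z) • (z - y0)) y
      = 3 * g (RLL_u y0 a y) + 2 * g' * ‖y - y0‖ ^ 2 := by
  have h : HasFDerivAt (fun z => g (RLL_u y0 a z)) (g' • ((2 : ℝ) • (innerSL ℝ (y - y0)))) y :=
    hg.comp_hasFDerivAt y (RLL_u_fderiv y0 a y)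
  have h1 : HasFDerivAt (fun z : E3 => z - y0) (ContinuousLinearMap.id ℝ E3) y :=
    (hasFDerivAt_id y).sub_const y0
  have h2 := h.smul h1
  have h3 : HasFDerivAt (fun z => g (RLL_u y0 a z) • (z - y0)) _ y := h2
  unfold divv
  rw [h3.fderiv]
  rw [EuclideanSpace.norm_sq_eq]
  simp only [Fin.sum_univ_three]
  simp [EuclideanSpace.inner_single_right]
  ring

theorem RLL_u_small {y0 y : E3} {a : ℝ} (ha : a ≤ 1 / 400) (hy : ‖y - y0‖ ≤ 1 / 20) :
    RLL_u y0 a y ≤ 1 / 200 := by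
  unfold RLL_u
  have h0 := norm_nonneg (y - y0)
  nlinarith

theorem RLL_L_large {u : ℝ} (hu : 0 < u) (hu1 : u ≤ 1 / 200) : 1 ≤ RLL_L u := by
  have h1 : RLL_L (1 / 200) ≤ RLL_L u := RLL_L_anti hu hu1
  have h2 : 1 ≤ RLL_L (1 / 200) := by
    unfold RLL_L
    rw [← Real.log_div (by norm_num) (by norm_num)]
    have h3 : (2 : ℝ) ≤ Real.log ((1 + 1 / 200) / (1 / 200)) := by
      rw [Real.le_log_iff_exp_le (by norm_num)]
      have h4 : Real.exp 2 = Real.exp 1 * Real.exp 1 := by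
        rw [← Real.exp_add]; norm_num
      have h5 := Real.exp_one_lt_d9
      have h6 := Real.exp_pos 1
      rw [h4]
      nlinarith
    linarith
  linarith

/-- The common lower bound of the divergence. -/
theorem RLL_div_lower {y0 y : E3} {a : ℝ} (ha : 0 < a) (hu1 : 1 ≤ RLL_L (RLL_u y0 a y)) :
    (RLL_u y0 a y * Real.sqrt (RLL_u y0 a y) * RLL_L (RLL_u y0 a y) ^ 3 * (1 + RLL_u y0 a y))⁻¹
      ≤ divv (fun z => RLL_q (RLL_u y0 a z) • (z - y0)) y := by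
  have hu := RLL_u_pos y0 ha y
  rw [RLL_divv y0 (RLL_q_deriv hu)]
  have hr : ‖y - y0‖ ^ 2 = RLL_u y0 a y - a := by unfold RLL_u; ring
  rw [hr]
  unfold RLL_q
  have hs : 0 < Real.sqrt (RLL_u y0 a y) := Real.sqrt_pos.mpr hu
  have hss : Real.sqrt (RLL_u y0 a y) * Real.sqrt (RLL_u y0 a y) = RLL_u y0 a y :=
    Real.mul_self_sqrt hu.le
  clear hr
  generalize RLL_L (RLL_u y0 a y) = l at *
  generalize Real.sqrt (RLL_u y0 a y) = s at *
  generalize RLL_u y0 a y = u at *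
  have hl : 0 < l := by linarith
  have key : 3 * (2 * (u * s) * l ^ 2)⁻¹ + 2 * (-(3 / 4) * (u ^ 2 * s * l ^ 2)⁻¹
      + (2 * (u ^ 2 * (1 + u) * s) * l ^ 3)⁻¹) * (u - a)
      = (u * s * l ^ 3 * (1 + u))⁻¹ + (3 / 2 * a * l * (1 + u) - a) * (u ^ 2 * s * l ^ 3 * (1 + u))⁻¹ := by
    have h1u : (1 + u) ≠ 0 := by positivity
    have hs0 : s ≠ 0 := hs.ne'
    have hl0 : l ≠ 0 := hl.ne'
    have hu0 : u ≠ 0 := hu.ne'
    field_simp
    ring
  rw [key]
  have h1 : 0 ≤ 3 / 2 * a * l * (1 + u) - a := by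
    have : a * 1 ≤ a * (3 / 2 * l * (1 + u)) := by
      apply mul_le_mul_of_nonneg_left _ ha.le
      nlinarith
    nlinarith
  have h2 : 0 ≤ (u ^ 2 * s * l ^ 3 * (1 + u))⁻¹ := by positivity
  have h3 := mul_nonneg h1 h2
  linarith

theorem RLL_en {y0 y : E3} {a : ℝ} (ha : 0 < a) (ha1 : a ≤ 1 / 400) (hy : ‖y - y0‖ ≤ 1 / 20) :
    ‖gradv (fun z => Real.log (RLL_L (RLL_u y0 a z))) y‖ ^ 3
      ≤ divv (fun z => RLL_q (RLL_u y0 a z) • (z - y0)) y := by
  have hu := RLL_u_pos y0 ha y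
  have hL1 := RLL_L_large hu (RLL_u_small ha1 hy)
  refine le_trans ?_ (RLL_div_lower ha hL1)
  rw [RLL_gradv y0 (g := fun v => Real.log (RLL_L v)) (RLL_logL_deriv hu), norm_smul]
  have hr0 : 0 ≤ ‖y - y0‖ := norm_nonneg _
  have hs : 0 < Real.sqrt (RLL_u y0 a y) := Real.sqrt_pos.mpr hu
  have hss : Real.sqrt (RLL_u y0 a y) * Real.sqrt (RLL_u y0 a y) = RLL_u y0 a y :=
    Real.mul_self_sqrt hu.le
  have hrs : ‖y - y0‖ ≤ Real.sqrt (RLL_u y0 a y) := by
    apply Real.le_sqrt_of_sq_le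
    unfold RLL_u; linarith
  generalize RLL_L (RLL_u y0 a y) = l at *
  generalize Real.sqrt (RLL_u y0 a y) = s at *
  generalize RLL_u y0 a y = u at *
  generalize ‖y - y0‖ = r at *
  have hl : 0 < l := by linarith
  have h1 : ‖2 * (-(2 * (u * (1 + u)) * l)⁻¹)‖ = (u * (1 + u) * l)⁻¹ := by
    have h2 : 2 * (-(2 * (u * (1 + u)) * l)⁻¹) = -(u * (1 + u) * l)⁻¹ := by
      have h1u : (1 + u) ≠ 0 := by positivity
      have hl0 : l ≠ 0 := hl.ne'
      have hu0 : u ≠ 0 := hu.ne'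
      field_simp
    rw [h2, norm_neg, Real.norm_eq_abs, abs_of_pos (by positivity)]
  rw [h1]
  have h3 : ((u * (1 + u) * l)⁻¹ * r) ^ 3 ≤ ((u * (1 + u) * l)⁻¹ * s) ^ 3 := by
    apply pow_le_pow_left₀ (by positivity)
    exact mul_le_mul_of_nonneg_left hrs (by positivity)
  refine h3.trans ?_
  have h4 : ((u * (1 + u) * l)⁻¹ * s) ^ 3 = (u * s * l ^ 3 * (1 + u) ^ 3)⁻¹ := by
    have h1u : (1 + u) ≠ 0 := by positivity
    have hs0 : s ≠ 0 := hs.ne'
    have hl0 : l ≠ 0 := hl.ne'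
    rw [← hss]
    have h1u' : (1 + s * s) ≠ 0 := by rw [hss]; exact h1u
    field_simp
  rw [h4]
  apply inv_anti₀ (by positivity)
  apply mul_le_mul_of_nonneg_left _ (by positivity)
  nlinarith [mul_pos hu hu, mul_pos (mul_pos hu hu) hu]

theorem RLL_fl {y0 y : E3} {a : ℝ} (ha : 0 < a) (ha1 : a ≤ 1 / 400) (hy : ‖y - y0‖ ≤ 1 / 20) :
    ‖RLL_q (RLL_u y0 a y) • (y - y0)‖ ^ (3 / 2 : ℝ)
      ≤ divv (fun z => RLL_q (RLL_u y0 a z) • (z - y0)) y := by
  have hu := RLL_u_pos y0 ha y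
  have husm := RLL_u_small ha1 hy
  have hL1 := RLL_L_large hu husm
  refine le_trans ?_ (RLL_div_lower ha hL1)
  rw [norm_smul]
  have hr0 : 0 ≤ ‖y - y0‖ := norm_nonneg _
  have hs : 0 < Real.sqrt (RLL_u y0 a y) := Real.sqrt_pos.mpr hu
  have hss : Real.sqrt (RLL_u y0 a y) * Real.sqrt (RLL_u y0 a y) = RLL_u y0 a y :=
    Real.mul_self_sqrt hu.le
  have hrs : ‖y - y0‖ ≤ Real.sqrt (RLL_u y0 a y) := by
    apply Real.le_sqrt_of_sq_le
    unfold RLL_u; linarith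
  have hq : ‖RLL_q (RLL_u y0 a y)‖
      = (2 * (RLL_u y0 a y * Real.sqrt (RLL_u y0 a y)) * RLL_L (RLL_u y0 a y) ^ 2)⁻¹ := by
    have hLp := RLL_L_pos hu
    unfold RLL_q
    rw [Real.norm_eq_abs, abs_of_pos (by positivity)]
  rw [hq]
  clear hq
  generalize RLL_L (RLL_u y0 a y) = l at *
  generalize Real.sqrt (RLL_u y0 a y) = s at *
  generalize RLL_u y0 a y = u at *
  generalize ‖y - y0‖ = r at *
  have hl : 0 < l := by linarith
  have hX : 0 ≤ (2 * (u * s) * l ^ 2)⁻¹ * r := by positivity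
  have h1 : ((2 * (u * s) * l ^ 2)⁻¹ * r) ^ (3 / 2 : ℝ)
      = Real.sqrt (((2 * (u * s) * l ^ 2)⁻¹ * r) ^ 3) := by
    generalize (2 * (u * s) * l ^ 2)⁻¹ * r = X at *
    rw [Real.sqrt_eq_rpow, ← Real.rpow_natCast X 3, ← Real.rpow_mul hX]
    norm_num
  rw [h1]
  apply Real.sqrt_le_iff.mpr
  refine ⟨by positivity, ?_⟩
  have h3 : ((2 * (u * s) * l ^ 2)⁻¹ * r) ^ 3 ≤ ((2 * (u * s) * l ^ 2)⁻¹ * s) ^ 3 := by
    apply pow_le_pow_left₀ hX
    exact mul_le_mul_of_nonneg_left hrs (by positivity)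
  refine h3.trans ?_
  have h4 : ((2 * (u * s) * l ^ 2)⁻¹ * s) ^ 3 = (8 * (u ^ 3 * l ^ 6))⁻¹ := by
    have hs0 : s ≠ 0 := hs.ne'
    have hl0 : l ≠ 0 := hl.ne'
    have hu0 : u ≠ 0 := hu.ne'
    field_simp
    norm_num
  have h5 : (u * s * l ^ 3 * (1 + u))⁻¹ ^ 2 = ((1 + u) ^ 2 * (u ^ 3 * l ^ 6))⁻¹ := by
    have hs0 : s ≠ 0 := hs.ne'
    have hl0 : l ≠ 0 := hl.ne'
    have hu0 : u ≠ 0 := hu.ne'
    rw [inv_pow]
    congr 1
    calc (u * s * l ^ 3 * (1 + u)) ^ 2 = (s * s) * u ^ 2 * l ^ 6 * (1 + u) ^ 2 := by ring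
      _ = (1 + u) ^ 2 * (u ^ 3 * l ^ 6) := by rw [hss]; ring
  rw [h4, h5]
  apply inv_anti₀ (by positivity)
  apply mul_le_mul_of_nonneg_right _ (by positivity)
  nlinarith

theorem RLL_contDiff_u (y0 : E3) (a : ℝ) : ContDiff ℝ 1 (RLL_u y0 a) := by
  unfold RLL_u
  exact ((contDiff_id.sub contDiff_const).norm_sq ℝ).add contDiff_const

theorem RLL_contDiff_L (y0 : E3) {a : ℝ} (ha : 0 < a) :
    ContDiff ℝ 1 (fun y => RLL_L (RLL_u y0 a y)) := by
  unfold RLL_L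
  have hu := RLL_contDiff_u y0 a
  have h1 : ∀ y, (1 : ℝ) + RLL_u y0 a y ≠ 0 := fun y => by
    have := RLL_u_pos y0 ha y
    positivity
  have h2 : ∀ y, RLL_u y0 a y ≠ 0 := fun y => (RLL_u_pos y0 ha y).ne'
  exact (((contDiff_const.add hu).log h1).sub (hu.log h2)).div_const 2

theorem p_RLL : Stmt_RLL := by
  intro y0 c M hc
  set N : ℝ := Real.exp M * Real.log ((1 + c ^ 2) / c ^ 2) + 10 with hN
  have hcl : 0 < Real.log ((1 + c ^ 2) / c ^ 2) := by
    apply Real.log_pos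
    rw [lt_div_iff₀ (by positivity)]
    linarith
  have hN10 : 10 ≤ N := by
    have : 0 ≤ Real.exp M * Real.log ((1 + c ^ 2) / c ^ 2) := by positivity
    linarith
  set a : ℝ := Real.exp (-N) with ha_def
  have ha : 0 < a := Real.exp_pos _
  have ha1 : a ≤ 1 / 400 := by
    have h1 : a ≤ Real.exp (-10) := Real.exp_le_exp.mpr (by linarith)
    have h2 : Real.exp (-10) = (Real.exp 10)⁻¹ := Real.exp_neg 10
    have h3 : (400 : ℝ) ≤ Real.exp 10 := by
      have h4 : Real.exp 10 = Real.exp 1 ^ 10 := by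
        rw [← Real.exp_nat_mul]; norm_num
      rw [h4]
      have h5 : (2 : ℝ) ≤ Real.exp 1 := by
        have := Real.add_one_le_exp (1 : ℝ)
        linarith
      calc (400 : ℝ) ≤ 2 ^ 10 := by norm_num
        _ ≤ Real.exp 1 ^ 10 := pow_le_pow_left₀ (by norm_num) h5 10
    rw [h2] at h1
    refine h1.trans ?_
    rw [one_div]
    exact inv_anti₀ (by norm_num) h3
  refine ⟨fun z => Real.log (RLL_L (RLL_u y0 a z)), fun z => RLL_q (RLL_u y0 a z) • (z - y0),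
    ⟨?_, ?_, fun y hy => RLL_en ha ha1 hy, fun y hy => RLL_fl ha ha1 hy⟩, ?_⟩
  · exact (RLL_contDiff_L y0 ha).log fun y => (RLL_L_pos (RLL_u_pos y0 ha y)).ne'
  · have hu := RLL_contDiff_u y0 a
    have hs : ContDiff ℝ 1 (fun y => Real.sqrt (RLL_u y0 a y)) :=
      hu.sqrt fun y => (RLL_u_pos y0 ha y).ne'
    have hq : ContDiff ℝ 1 (fun y => RLL_q (RLL_u y0 a y)) := by
      unfold RLL_q
      refine ((contDiff_const.mul (hu.mul hs)).mul ((RLL_contDiff_L y0 ha).pow 2)).inv fun y => ?_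
      have h1 := RLL_u_pos y0 ha y
      have h2 := RLL_L_pos h1
      have h3 := Real.sqrt_pos.mpr h1
      positivity
    exact hq.smul (contDiff_id.sub contDiff_const)
  · intro y hcy _
    have hc2 : c ^ 2 ≤ RLL_u y0 a y := by
      unfold RLL_u
      have : c ^ 2 ≤ ‖y - y0‖ ^ 2 := pow_le_pow_left₀ hc.le hcy 2
      linarith
    have hLy : RLL_L (RLL_u y0 a y) ≤ RLL_L (c ^ 2) := RLL_L_anti (by positivity) hc2
    have hLyp := RLL_L_pos (RLL_u_pos y0 ha y)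
    have hLc : RLL_L (c ^ 2) = Real.log ((1 + c ^ 2) / c ^ 2) / 2 := by
      unfold RLL_L
      rw [Real.log_div (by positivity) (by positivity)]
    have hu0 : RLL_u y0 a y0 = a := by unfold RLL_u; simp
    have hLa : N / 2 ≤ RLL_L a := by
      unfold RLL_L
      have h1 : Real.log a = -N := by rw [ha_def, Real.log_exp]
      have h2 : 0 ≤ Real.log (1 + a) := Real.log_nonneg (by linarith)
      rw [h1]
      linarith
    have h6 : Real.exp M * RLL_L (RLL_u y0 a y) ≤ RLL_L a := by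
      calc Real.exp M * RLL_L (RLL_u y0 a y) ≤ Real.exp M * RLL_L (c ^ 2) :=
            mul_le_mul_of_nonneg_left hLy (Real.exp_pos M).le
        _ = (Real.exp M * Real.log ((1 + c ^ 2) / c ^ 2)) / 2 := by rw [hLc]; ring
        _ ≤ N / 2 := by linarith
        _ ≤ RLL_L a := hLa
    have h7 : M + Real.log (RLL_L (RLL_u y0 a y)) ≤ Real.log (RLL_L a) := by
      have h8 := Real.log_le_log (by positivity) h6
      rw [Real.log_mul (Real.exp_pos M).ne' hLyp.ne', Real.log_exp] at h8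
      exact h8
    show M ≤ Real.log (RLL_L (RLL_u y0 a y0)) - Real.log (RLL_L (RLL_u y0 a y))
    rw [hu0]
    linarith

end Pool.GQ
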