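import Pool.Agent.Work.MP_680515_gq.IfaceR

open MeasureTheory Set Filter Topology

namespace Pool.GQ

open Pool.Mart Pool.Flat Pool.SQ

theorem p_ROP (hRSS : Stmt_RSS) (hRDG : Stmt_RDG) : Stmt_ROP := by
  intro Ω f A hG U hU hUs
  rw [Metric.isOpen_iff]
  rintro _ ⟨x, hx, rfl⟩
  obtain ⟨ε, hε, hε'⟩ := Metric.isOpen_iff.1 hU x hx
  obtain ⟨r, hr, hrε, hrs, hsph⟩ := hRSS Ω f A hG x (hUs hx) (ε / 2) (by linarith)
  obtain ⟨k, ρ, -, hρ, -, -, him⟩ := hRDG Ω f A x r hG hr hrs hsph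
  refine ⟨ρ, hρ, him.trans (image_mono ?_)⟩
  exact (Metric.ball_subset_ball (by linarith)).trans hε'

end Pool.GQ
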