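import Pool.Agent.Work.MP_680515_gq.IfaceR

set_option autoImplicit false

open MeasureTheory Set Filter Topology

namespace Pool.GQ

open Pool.Mart Pool.Flat Pool.SQ

lemma RSP_low {Ω : Set E3} {f : E3 → E3} (hΩ : IsOpen Ω) (hf : ContinuousOn f Ω) (x y0 : E3)
    (ρ1 ρ2 : ℝ) (h1 : 0 < ρ1) (hsub : ∀ z : E3, ‖z - x‖ ≤ ρ2 → z ∈ Ω)
    (h : ∀ ρ ∈ Icc ρ1 ρ2, ∃ z : E3, ‖z - x‖ = ρ ∧ f z ≠ y0) :
    ∃ c : ℝ, 0 < c ∧ ∀ ρ ∈ Icc ρ1 ρ2, ∃ z : E3, ‖z - x‖ = ρ ∧ c ≤ ‖f z - y0‖ := by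
  have hK : IsCompact (Icc ρ1 ρ2) := isCompact_Icc
  refine hK.induction_on (p := fun S => ∃ c : ℝ, 0 < c ∧ ∀ ρ ∈ S, ∃ z : E3, ‖z - x‖ = ρ ∧
    c ≤ ‖f z - y0‖) ?_ ?_ ?_ ?_
  · exact ⟨1, one_pos, fun ρ hρ => absurd hρ (notMem_empty ρ)⟩
  · rintro S T hST ⟨c, hc, hT⟩
    exact ⟨c, hc, fun ρ hρ => hT ρ (hST hρ)⟩
  · rintro S T ⟨c, hc, hS⟩ ⟨d, hd, hT⟩
    refine ⟨min c d, lt_min hc hd, ?_⟩
    rintro ρ (hρ | hρ)
    · obtain ⟨z, hz, hz2⟩ := hS ρ hρ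
      exact ⟨z, hz, (min_le_left c d).trans hz2⟩
    · obtain ⟨z, hz, hz2⟩ := hT ρ hρ
      exact ⟨z, hz, (min_le_right c d).trans hz2⟩
  · intro ρ hρ
    obtain ⟨z, hz, hz2⟩ := h ρ hρ
    have hρ0 : 0 < ρ := lt_of_lt_of_le h1 hρ.1
    have hpos : 0 < ‖f z - y0‖ := norm_pos_iff.mpr (sub_ne_zero.mpr hz2)
    have hzΩ : z ∈ Ω := hsub z (hz ▸ hρ.2)
    have hcz : ContinuousAt f z := hf.continuousAt (hΩ.mem_nhds hzΩ)
    set q : ℝ → E3 := fun s => x + (s / ρ) • (z - x) with hq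
    have hqc : Continuous q := by
      rw [hq]; fun_prop
    have hqρ : q ρ = z := by
      simp only [hq, div_self hρ0.ne', one_smul]
      abel
    have hct : ContinuousAt (fun s => ‖f (q s) - y0‖) ρ := by
      have h2 : ContinuousAt f (q ρ) := by rw [hqρ]; exact hcz
      have h3 : ContinuousAt (fun s => f (q s)) ρ :=
        ContinuousAt.comp (g := f) (f := q) h2 hqc.continuousAt
      exact (h3.sub continuousAt_const).norm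
    have hev : ∀ᶠ s in 𝓝 ρ, ‖f z - y0‖ / 2 < ‖f (q s) - y0‖ := by
      have : ‖f z - y0‖ / 2 < ‖f (q ρ) - y0‖ := by
        rw [hqρ]; linarith
      exact hct.eventually (lt_mem_nhds this)
    have hev2 : ∀ᶠ s in 𝓝 ρ, 0 < s := lt_mem_nhds hρ0
    refine ⟨{s | ‖f z - y0‖ / 2 < ‖f (q s) - y0‖ ∧ 0 < s},
      mem_nhdsWithin_of_mem_nhds (hev.and hev2), ‖f z - y0‖ / 2, by positivity, ?_⟩
    rintro s ⟨hs, hs0⟩
    refine ⟨q s, ?_, hs.le⟩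
    have : q s - x = (s / ρ) • (z - x) := by
      simp only [hq]; abel
    rw [this, norm_smul, hz, Real.norm_eq_abs, abs_of_pos (by positivity)]
    field_simp

/-- RSP. -/
theorem p_RSP (hRLL : Stmt_RLL) (hREN : Stmt_REN) (hOSL : Pool.Flat.Stmt_OSL) : Stmt_RSP := by
  intro Ω f A x y0 R ρ1 ρ2 hG hR hball hsmall h1 h12 h2 hsph
  have hin : ∀ z : E3, ‖z - x‖ ≤ ρ2 → z ∈ Metric.closedBall x R := by
    intro z hz
    rw [Metric.mem_closedBall, dist_eq_norm]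
    linarith
  have hsub : ∀ z : E3, ‖z - x‖ ≤ ρ2 → z ∈ Ω := fun z hz => hball (hin z hz)
  obtain ⟨c, hc, hcz⟩ := RSP_low hG.op hG.cont x y0 ρ1 ρ2 h1 hsub (fun ρ hρ => (hsph ρ hρ).2)
  obtain ⟨E, hE⟩ := hREN Ω f A x y0 R hG hR hball hsmall
  obtain ⟨C, hC, hO⟩ := hOSL
  set L : ℝ := Real.log (ρ2 / ρ1) with hL
  have hLpos : 0 < L := Real.log_pos (by rw [lt_div_iff₀ h1]; linarith)
  set M : ℝ := 1 + |C * E / L| with hM
  have hM1 : 1 ≤ M := by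
    have := abs_nonneg (C * E / L)
    rw [hM]; linarith
  obtain ⟨Φ, H, hLL, hΦ⟩ := hRLL y0 c M hc
  obtain ⟨hint, hle⟩ := hE Φ H hLL
  obtain ⟨-, hbd⟩ := hO Ω f A Φ x ρ1 ρ2 M hG.op hG.cont hG.wg hLL.c1 h1 h12
    (fun z hz => hsub z hz.2) (by linarith) (by
      intro ρ hρ
      obtain ⟨⟨z, hz, hz2⟩, -⟩ := hsph ρ ⟨hρ.1.le, hρ.2.le⟩
      obtain ⟨w, hw, hw2⟩ := hcz ρ ⟨hρ.1.le, hρ.2.le⟩
      refine ⟨z, w, hz, hw, ?_⟩
      rw [hz2]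
      refine (hΦ (f w) hw2 (hsmall w (hin w (by rw [hw]; exact hρ.2.le)))).trans (le_abs_self _))
  have hrg : rg x ρ1 ρ2 ⊆ Metric.closedBall x (R / 2) := by
    intro z hz
    rw [Metric.mem_closedBall, dist_eq_norm]
    exact (hz.2.le).trans h2
  have hmono : ∫ z in rg x ρ1 ρ2, (opn (A z) * ‖gradv Φ (f z)‖) ^ 3 ≤
      ∫ z in Metric.closedBall x (R / 2), (opn (A z) * ‖gradv Φ (f z)‖) ^ 3 := by
    refine setIntegral_mono_set hint ?_ (HasSubset.Subset.eventuallyLE hrg)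
    refine Eventually.of_forall fun z => ?_
    have : 0 ≤ opn (A z) := norm_nonneg _
    simp only [Pi.zero_apply]
    positivity
  have h3 : M ^ 3 * L ≤ C * E := hbd.trans (mul_le_mul_of_nonneg_left (hmono.trans hle) hC.le)
  have h4 : C * E / L < M := by
    have := le_abs_self (C * E / L)
    rw [hM]; linarith
  have h5 : C * E < M * L := by
    rwa [div_lt_iff₀ hLpos] at h4
  have h6 : M * L ≤ M ^ 3 * L := by
    refine mul_le_mul_of_nonneg_right ?_ hLpos.le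
    nlinarith [sq_nonneg (M - 1), sq_nonneg M]
  linarith

end Pool.GQ
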