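import Pool.Agent.Work.MP_680515_gq.IfaceR

set_option autoImplicit false

/-! # Block RSS: small spheres which do not meet the fibre -/

open MeasureTheory Set Filter Topology

namespace Pool.GQ

open Pool.Mart Pool.Flat Pool.SQ

/-- Block RSS. -/
theorem p_RSS (hRSP : Stmt_RSP) (hRCS : Stmt_RCS) (hRIN : Stmt_RIN) : Stmt_RSS := by
  intro Ω f A hRG x hx ε hε
  obtain ⟨R0, hR0, hR0s⟩ := Metric.nhds_basis_closedBall.mem_iff.1 (hRG.op.mem_nhds hx)
  have hcont : ContinuousAt f x := hRG.cont.continuousAt (hRG.op.mem_nhds hx)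
  obtain ⟨δ, hδ, hδs⟩ := Metric.continuousAt_iff.1 hcont (1 / 20) (by norm_num)
  set R : ℝ := min ε (min R0 (δ / 2)) with hR
  have hRpos : 0 < R := lt_min hε (lt_min hR0 (by linarith))
  have hRε : R ≤ ε := min_le_left _ _
  have hRR0 : R ≤ R0 := (min_le_right _ _).trans (min_le_left _ _)
  have hRδ : R ≤ δ / 2 := (min_le_right _ _).trans (min_le_right _ _)
  have hsub : Metric.closedBall x R ⊆ Ω := (Metric.closedBall_subset_closedBall hRR0).trans hR0s
  have hclose : ∀ z ∈ Metric.closedBall x R, ‖f z - f x‖ ≤ 1 / 20 := by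
    intro z hz
    have h1 : dist z x < δ := (Metric.mem_closedBall.1 hz).trans_lt (by linarith)
    have h2 := hδs h1
    rw [dist_eq_norm] at h2
    exact h2.le
  by_contra hcon
  push Not at hcon
  refine hRSP Ω f A x (f x) R (R / 4) (R / 2) hRG hRpos hsub hclose (by linarith) (by linarith) le_rfl ?_
  intro ρ hρ
  have hρ0 : 0 < ρ := lt_of_lt_of_le (by linarith) hρ.1
  have hρR : ρ ≤ R := hρ.2.trans (by linarith)
  have hρs : Metric.closedBall x ρ ⊆ Ω := (Metric.closedBall_subset_closedBall hρR).trans hsub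
  refine ⟨hcon ρ hρ0 (hρR.trans hRε) hρs, ?_⟩
  by_contra h
  push Not at h
  obtain ⟨z, hz, hzx, hzf⟩ := hRIN Ω f A hRG (f x) x hx ρ hρ0
  exact hzf (hRCS Ω f A x (f x) ρ hRG hρ0 hρs h z (mem_closedBall_iff_norm.2 hzx.le))

end Pool.GQ
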