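import Pool.Agent.Work.MP_680515_gq.IfaceR
import Pool.Agent.Work.MP_680515_fl.B_POS

/-!
# MP_680515_an, THEOREM GQ, block RZC
-/

open MeasureTheory Set Filter Topology

namespace Pool.GQ

open Pool.Mart Pool.Flat Pool.SQ

theorem RZC_loc (hOSC : Pool.Flat.Stmt_OSC) {Ω : Set E3} {f : E3 → E3} {A : E3 → M3} {U : Set E3}
    (hR : RG Ω f A) (hU : IsOpen U) (hUΩ : U ⊆ Ω)
    (h0 : ∀ᵐ x ∂(volume.restrict U), (A x).det = 0) {x1 : E3} (hx1 : x1 ∈ U) :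
    ∃ δ : ℝ, 0 < δ ∧ Metric.ball x1 δ ⊆ U ∧ ∀ y ∈ Metric.ball x1 δ, f y = f x1 := by
  obtain ⟨δ, hδ, hsub⟩ := Metric.isOpen_iff.1 hU x1 hx1
  have h1 : ∀ᵐ x ∂(volume.restrict (Metric.ball x1 δ)), A x = 0 := by
    have h2 := ae_mono (Measure.restrict_mono hsub le_rfl) h0
    have h3 := ae_mono (Measure.restrict_mono (hsub.trans hUΩ) le_rfl) hR.good
    filter_upwards [h2, h3] with x hx hx'
    exact POS_zero hx' hx
  refine ⟨δ / 2, half_pos hδ, (Metric.ball_subset_ball (half_le_self hδ.le)).trans hsub, ?_⟩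
  intro y hy
  exact (POS_const hOSC hR.cont hR.wg (hsub.trans hUΩ) h1 (Metric.mem_ball.1 hy)).symm

theorem p_RZC (hOSC : Pool.Flat.Stmt_OSC) : Stmt_RZC := by
  intro Ω f A U hR hU hUΩ hconn h0 z hz w hw
  have hloc := fun x (hx : x ∈ U) => RZC_loc hOSC hR hU hUΩ h0 hx
  have ho1 : IsOpen {y | y ∈ U ∧ f y = f z} := by
    rw [Metric.isOpen_iff]
    rintro y ⟨hy, hyz⟩
    obtain ⟨δ, hδ, h1, h2⟩ := hloc y hy
    exact ⟨δ, hδ, fun x hx => ⟨h1 hx, (h2 x hx).trans hyz⟩⟩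
  have ho2 : IsOpen {y | y ∈ U ∧ f y ≠ f z} := by
    rw [Metric.isOpen_iff]
    rintro y ⟨hy, hyz⟩
    obtain ⟨δ, hδ, h1, h2⟩ := hloc y hy
    refine ⟨δ, hδ, fun x hx => ⟨h1 hx, ?_⟩⟩
    rw [h2 x hx]
    exact hyz
  have hcov : U ⊆ {y | y ∈ U ∧ f y = f z} ∪ {y | y ∈ U ∧ f y ≠ f z} := by
    intro y hy
    by_cases h : f y = f z
    · exact Or.inl ⟨hy, h⟩
    · exact Or.inr ⟨hy, h⟩
  have hdis : U ∩ ({y | y ∈ U ∧ f y = f z} ∩ {y | y ∈ U ∧ f y ≠ f z}) = ∅ := by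
    rw [Set.eq_empty_iff_forall_notMem]
    rintro y ⟨-, h1, h2⟩
    exact h2.2 h1.2
  rcases isPreconnected_iff_subset_of_disjoint.1 hconn _ _ ho1 ho2 hcov hdis with h | h
  · exact (h hw).2
  · exact absurd rfl (h hz).2

end Pool.GQ
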