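import Pool.Agent.Work.MP_680515_gq.Interface

/-!
# Block UNI of THEOREM GQ (MP_680515_an): three-dimensional space is unicoherent
-/

open MeasureTheory Set Filter Topology

namespace Pool.GQ

open Pool.Mart Pool.Flat Pool.SQ

lemma UNI_ca {X : Type*} [TopologicalSpace X] {C : Set X} (hC : IsOpen C) (μ : X → ℝ)
    (hμ : Continuous μ) (x : X) (hx : x ∈ closure C → x ∉ C → μ x = 0) :
    ContinuousAt (C.indicator μ) x := by
  classical
  by_cases h1 : x ∈ C
  · have : C.indicator μ =ᶠ[𝓝 x] μ := by
      filter_upwards [hC.mem_nhds h1] with y hy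
      exact Set.indicator_of_mem hy μ
    exact (hμ.continuousAt).congr this.symm
  · by_cases h2 : x ∈ closure C
    · have h0 := hx h2 h1
      have hv : C.indicator μ x = 0 := Set.indicator_of_notMem h1 μ
      unfold ContinuousAt
      rw [hv]
      have ht : Tendsto (fun y => ‖μ y‖) (𝓝 x) (𝓝 0) := by
        have := (hμ.norm.tendsto x)
        simpa [h0] using this
      refine squeeze_zero_norm (fun y => ?_) ht
      by_cases hy : y ∈ C
      · rw [Set.indicator_of_mem hy]
      · rw [Set.indicator_of_notMem hy]; simp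
    · have : C.indicator μ =ᶠ[𝓝 x] fun _ => (0 : ℝ) := by
        filter_upwards [isClosed_closure.isOpen_compl.mem_nhds h2] with y hy
        exact Set.indicator_of_notMem (fun hyC => hy (subset_closure hyC)) μ
      exact continuousAt_const.congr this.symm

/-- A function on a preconnected set whose integer lift is continuous is constant. -/
lemma UNI_const {X : Type*} [TopologicalSpace X] {A : Set X} (hA : IsPreconnected A)
    (n : X → ℤ) (hn : ContinuousOn (fun x => ((n x : ℤ) : ℝ)) A) {x y : X} (hx : x ∈ A)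
    (hy : y ∈ A) : n x = n y := by
  have hi : ContinuousOn n A := by
    rw [Int.isClosedEmbedding_coe_real.isInducing.continuousOn_iff]
    exact hn
  exact hA.constant hi hx hy

lemma UNI_gen {X : Type*} [TopologicalSpace X] [NormalSpace X] [SimplyConnectedSpace X]
    [LocallyPathConnectedSpace X] (A B : Set X) (hA : IsOpen A) (hB : IsOpen B)
    (hAc : IsPreconnected A) (hBc : IsPreconnected B) (hU : A ∪ B = univ) :
    IsPreconnected (A ∩ B) := by
  classical
  intro u v hu hv hsub hnu hnv
  by_contra hempty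
  rw [Set.not_nonempty_iff_eq_empty] at hempty
  set C : Set X := (A ∩ B) ∩ u with hCdef
  have hC : IsOpen C := (hA.inter hB).inter hu
  obtain ⟨c, hc⟩ := hnu
  obtain ⟨d, hd⟩ := hnv
  have hdC : d ∉ C := by
    intro h
    have : d ∈ (A ∩ B) ∩ (u ∩ v) := ⟨hd.1, h.2, hd.2⟩
    rw [hempty] at this
    exact this
  -- boundary points of `C` are outside `A ∩ B`
  have hbd : ∀ x, x ∈ closure C → x ∉ C → x ∉ A ∩ B := by
    intro x hx hxC hxAB
    rcases hsub hxAB with h | h
    · exact hxC ⟨hxAB, h⟩
    · rw [mem_closure_iff] at hx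
      obtain ⟨y, hy1, hy2⟩ := hx v hv h
      have : y ∈ (A ∩ B) ∩ (u ∩ v) := ⟨hy2.1, hy2.2, hy1⟩
      rw [hempty] at this
      exact this
  have hdisj : Disjoint Bᶜ Aᶜ := by
    rw [Set.disjoint_left]
    intro x hxB hxA
    have : x ∈ A ∪ B := by rw [hU]; trivial
    rcases this with h | h
    · exact hxA h
    · exact hxB h
  obtain ⟨l, hl0, hl1, _⟩ := exists_continuous_zero_one_of_isClosed hB.isClosed_compl
    hA.isClosed_compl hdisj
  set HA : X → ℝ := C.indicator (fun x => l x) with hHA
  set HB : X → ℝ := C.indicator (fun x => l x - 1) with hHB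
  have cA : ∀ x ∈ A, ContinuousAt HA x := by
    intro x hx
    refine UNI_ca hC _ l.continuous x (fun h1 h2 => ?_)
    have h3 := hbd x h1 h2
    exact hl0 (fun hB' => h3 ⟨hx, hB'⟩)
  have cB : ∀ x ∈ B, ContinuousAt HB x := by
    intro x hx
    refine UNI_ca hC _ (l.continuous.sub continuous_const) x (fun h1 h2 => ?_)
    have h3 := hbd x h1 h2
    have h4 : l x = 1 := hl1 (fun hA' => h3 ⟨hA', hx⟩)
    show l x - 1 = 0
    rw [h4]; ring
  -- the circle valued function
  have hAB : ∀ x, Circle.exp (2 * Real.pi * HA x) = Circle.exp (2 * Real.pi * HB x) := by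
    intro x
    by_cases h : x ∈ C
    · rw [hHA, hHB, Set.indicator_of_mem h, Set.indicator_of_mem h, Circle.exp_eq_exp]
      refine ⟨1, ?_⟩
      push_cast
      ring
    · rw [hHA, hHB, Set.indicator_of_notMem h, Set.indicator_of_notMem h]
  have hcont : Continuous (fun x => Circle.exp (2 * Real.pi * HA x)) := by
    rw [continuous_iff_continuousAt]
    intro x
    have hx : x ∈ A ∪ B := by rw [hU]; trivial
    rcases hx with h | h
    · exact Circle.exp.continuous.continuousAt.comp (continuousAt_const.mul (cA x h))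
    · have : (fun x => Circle.exp (2 * Real.pi * HA x)) =
          fun x => Circle.exp (2 * Real.pi * HB x) := funext hAB
      rw [this]
      exact Circle.exp.continuous.continuousAt.comp (continuousAt_const.mul (cB x h))
  let θ : C(X, Circle) := ⟨_, hcont⟩
  obtain ⟨g, ⟨_, hg⟩, _⟩ := Circle.isCoveringMap_exp.existsUnique_continuousMap_lifts θ c
    (2 * Real.pi * HA c) rfl
  have hgx : ∀ x, Circle.exp (g x) = Circle.exp (2 * Real.pi * HA x) := fun x => congrFun hg x
  have hgA : ∀ x, ∃ m : ℤ, g x = 2 * Real.pi * HA x + m * (2 * Real.pi) := fun x =>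
    Circle.exp_eq_exp.1 (hgx x)
  have hgB : ∀ x, ∃ m : ℤ, g x = 2 * Real.pi * HB x + m * (2 * Real.pi) := fun x =>
    Circle.exp_eq_exp.1 ((hgx x).trans (hAB x))
  choose nA hnA using hgA
  choose nB hnB using hgB
  have hpi : (2 * Real.pi) ≠ 0 := by positivity
  have kA : nA c = nA d := by
    refine UNI_const hAc nA ?_ hc.1.1 hd.1.1
    have : (fun x => ((nA x : ℤ) : ℝ)) = fun x => (g x - 2 * Real.pi * HA x) / (2 * Real.pi) := by
      funext x
      rw [hnA x]; field_simp; ring
    rw [this]
    intro x hx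
    exact ((g.continuous.continuousAt.sub (continuousAt_const.mul (cA x hx))).div_const
      _).continuousWithinAt
  have kB : nB c = nB d := by
    refine UNI_const hBc nB ?_ hc.1.2 hd.1.2
    have : (fun x => ((nB x : ℤ) : ℝ)) = fun x => (g x - 2 * Real.pi * HB x) / (2 * Real.pi) := by
      funext x
      rw [hnB x]; field_simp; ring
    rw [this]
    intro x hx
    exact ((g.continuous.continuousAt.sub (continuousAt_const.mul (cB x hx))).div_const
      _).continuousWithinAt
  have e1 := (hnA c).symm.trans (hnB c)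
  have e2 := (hnA d).symm.trans (hnB d)
  have hcC : c ∈ C := hc
  rw [hHA, hHB, Set.indicator_of_mem hcC, Set.indicator_of_mem hcC] at e1
  rw [hHA, hHB, Set.indicator_of_notMem hdC, Set.indicator_of_notMem hdC] at e2
  have f1 : ((nA c : ℤ) : ℝ) = (nB c : ℤ) - 1 := by
    have : (2 * Real.pi) * ((nA c : ℝ) - ((nB c : ℝ) - 1)) = 0 := by linarith
    rcases mul_eq_zero.1 this with h | h
    · exact absurd h hpi
    · linarith
  have f2 : ((nA d : ℤ) : ℝ) = (nB d : ℤ) := by
    have : (2 * Real.pi) * ((nA d : ℝ) - ((nB d : ℝ))) = 0 := by linarith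
    rcases mul_eq_zero.1 this with h | h
    · exact absurd h hpi
    · linarith
  rw [kA, kB] at f1
  rw [f2] at f1
  linarith

theorem p_UNI : Stmt_UNI := by
  intro A B hA hB hAc hBc hU
  exact UNI_gen A B hA hB hAc hBc hU

end Pool.GQ
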