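import Pool.Agent.Work.MP_680515_gq.Defs

/-!
# MP_680515_an, THEOREM GQ: open, continuous, locally injective maps are local homeomorphisms
-/

open MeasureTheory Set Filter Topology

namespace Pool.GQ

open Pool.Mart Pool.Flat Pool.SQ

theorem locHom {Ω : Set E3} {f : E3 → E3} (hΩ : IsOpen Ω) (hc : ContinuousOn f Ω)
    (ho : ∀ U : Set E3, IsOpen U → U ⊆ Ω → IsOpen (f '' U))
    (hi : ∀ x ∈ Ω, ∃ r : ℝ, 0 < r ∧ InjOn f (Ω ∩ Metric.ball x r)) : IsLocalHomeomorphOn f Ω := by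
  intro x hx
  obtain ⟨r, hr, hinj⟩ := hi x hx
  have hsub : Ω ∩ Metric.ball x r ⊆ Ω := inter_subset_left
  have hop : IsOpen (Ω ∩ Metric.ball x r) := hΩ.inter Metric.isOpen_ball
  let e : PartialEquiv E3 E3 := (hinj.bijOn_image).toPartialEquiv
  have he : ∀ z, e z = f z := fun z => rfl
  have hes : e.source = Ω ∩ Metric.ball x r := rfl
  refine ⟨OpenPartialHomeomorph.ofContinuousOpenRestrict e (hc.mono hsub) ?_ hop,
    ⟨hx, Metric.mem_ball_self hr⟩, rfl⟩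
  intro V hV
  obtain ⟨V', hV', rfl⟩ := isOpen_induced_iff.1 hV
  have h1 : (e.source.domRestrict e) '' (Subtype.val ⁻¹' V') = f '' ((Ω ∩ Metric.ball x r) ∩ V') := by
    ext y
    constructor
    · rintro ⟨⟨z, hz⟩, hzV, rfl⟩
      exact ⟨z, ⟨hz, hzV⟩, rfl⟩
    · rintro ⟨z, ⟨hz, hzV⟩, rfl⟩
      exact ⟨⟨z, hz⟩, hzV, rfl⟩
  rw [h1]
  exact ho _ (hop.inter hV') (inter_subset_left.trans hsub)

end Pool.GQ
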