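import Pool.Agent.Work.MP_680515_sq.Interface

/-!
# MP_680515_an, THEOREM GQ: definitions

Every open, discrete, quasiregular map `f` of a domain of `ℝ³` which is not a local homeomorphism
has inner distortion larger than `283/200 > √2`.  (By Reshetnyak's theorem every nonconstant
quasiregular map of a domain is open and discrete.)
-/

open MeasureTheory Set Filter Topology

namespace Pool.GQ

open Pool.Mart Pool.Flat Pool.SQ

/-- THE FINAL THEOREM. -/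
def Stmt_FinalGQ : Prop :=
  ∀ (Ω : Set E3) (f : E3 → E3) (A : E3 → M3) (K : ℝ), IsOpen Ω → QReg Ω f A →
    (∀ U : Set E3, IsOpen U → U ⊆ Ω → IsOpen (f '' U)) →
    (∀ x ∈ Ω, ∃ r : ℝ, 0 < r ∧ ∀ y ∈ Ω, ‖y - x‖ ≤ r → f y = f x → y = x) →
    (∃ x ∈ Ω, ∀ r : ℝ, 0 < r → ¬ InjOn f (Ω ∩ Metric.ball x r)) →
    InnerDist Ω A K → 283 / 200 < K

/-- Open discrete Sobolev maps of inner distortion at most `283/200`. -/
structure OD (Ω : Set E3) (f : E3 → E3) (A : E3 → M3) : Prop where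
  op : IsOpen Ω
  cont : ContinuousOn f Ω
  wg : WeakGrad Ω f A
  good : ∀ᵐ x ∂(volume.restrict Ω), Good (A x)
  dist : InnerDist Ω A (283 / 200)
  opm : ∀ U : Set E3, IsOpen U → U ⊆ Ω → IsOpen (f '' U)
  dsc : ∀ x ∈ Ω, ∃ r : ℝ, 0 < r ∧ ∀ y ∈ Ω, ‖y - x‖ ≤ r → f y = f x → y = x

/-- Local degree data: `x` is the only preimage of `f x` in the closed ball `B(x, r)`, the sphere is
mapped outside `B(f x, ρ)`, the degree is `k`. -/
structure Lok (Ω : Set E3) (f : E3 → E3) (A : E3 → M3) (x : E3) (r ρ : ℝ) (k : ℕ) : Prop where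
  rpos : 0 < r
  ρpos : 0 < ρ
  sub : Metric.closedBall x r ⊆ Ω
  unq : ∀ y ∈ Metric.closedBall x r, f y = f x → y = x
  sph : ∀ y : E3, ‖y - x‖ = r → ρ < ‖f y - f x‖
  deg : ∀ g : E3 → ℝ, Continuous g → HasCompactSupport g → tsupport g ⊆ Metric.ball (f x) ρ →
    ∫ y in Metric.ball x r, (A y).det * g (f y) = k * ∫ y, g y

/-- The local index of `f` at `x` is `k`. -/
def LI (Ω : Set E3) (f : E3 → E3) (A : E3 → M3) (x : E3) (k : ℕ) : Prop :=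
  ∀ ε : ℝ, 0 < ε → ∃ r ρ : ℝ, r ≤ ε ∧ ρ ≤ ε ∧ Lok Ω f A x r ρ k

/-- The preimages of `y` in the ball `B(x0, r0)`. -/
def fib (f : E3 → E3) (x0 : E3) (r0 : ℝ) (y : E3) : Set E3 :=
  {x | x ∈ Metric.ball x0 r0 ∧ f x = y}

/-- The neighbourhood of `x0`: preimage of the ball `B(f x0, ρ0)` in the ball `B(x0, r0)`. -/
def UU0 (f : E3 → E3) (x0 : E3) (r0 ρ0 : ℝ) : Set E3 :=
  {x | x ∈ Metric.ball x0 r0 ∧ ‖f x - f x0‖ < ρ0}

/-- The punctured neighbourhood. -/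
def UD (f : E3 → E3) (x0 : E3) (r0 ρ0 : ℝ) : Set E3 :=
  {x | x ∈ Metric.ball x0 r0 ∧ 0 < ‖f x - f x0‖ ∧ ‖f x - f x0‖ < ρ0}

/-- The punctured ball in the target. -/
def VD (f : E3 → E3) (x0 : E3) (ρ0 : ℝ) : Set E3 :=
  {y | 0 < ‖y - f x0‖ ∧ ‖y - f x0‖ < ρ0}

/-- Local data at a branch point `x0` of minimal index `m`, `S` = the points of index `m` (the branch
set near `x0`): every fibre in the neighbourhood is either a single point of `S` or it consists of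
exactly `m` points where `f` is locally injective. -/
structure NP (Ω : Set E3) (f : E3 → E3) (A : E3 → M3) (x0 : E3) (r0 ρ0 : ℝ) (m : ℕ)
    (S : Set E3) : Prop where
  op : IsOpen Ω
  cont : ContinuousOn f Ω
  wg : WeakGrad Ω f A
  good : ∀ᵐ x ∂(volume.restrict Ω), Good (A x)
  dist : InnerDist Ω A (283 / 200)
  opm : ∀ U : Set E3, IsOpen U → U ⊆ Ω → IsOpen (f '' U)
  two : 2 ≤ m
  rpos : 0 < r0
  ρpos : 0 < ρ0
  sub : Metric.closedBall x0 r0 ⊆ Ω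
  unq : ∀ y ∈ Metric.closedBall x0 r0, f y = f x0 → y = x0
  sph : ∀ y : E3, ‖y - x0‖ = r0 → ρ0 < ‖f y - f x0‖
  deg : ∀ g : E3 → ℝ, Continuous g → HasCompactSupport g → tsupport g ⊆ Metric.ball (f x0) ρ0 →
    ∫ x in Metric.ball x0 r0, (A x).det * g (f x) = m * ∫ y, g y
  xS : x0 ∈ S
  opS : IsOpen (UU0 f x0 r0 ρ0 \ S)
  fbr : ∀ y ∈ Metric.ball (f x0) ρ0, (∃ z ∈ S, fib f x0 r0 y = {z}) ∨
    ((fib f x0 r0 y).Finite ∧ (fib f x0 r0 y).ncard = m ∧ ∀ x ∈ fib f x0 r0 y, x ∉ S)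
  idS : ∀ x ∈ UU0 f x0 r0 ρ0, x ∈ S → LI Ω f A x m
  idN : ∀ x ∈ UU0 f x0 r0 ρ0, x ∉ S → LI Ω f A x 1
  inj : ∀ x ∈ UU0 f x0 r0 ρ0, x ∉ S → ∃ ε : ℝ, 0 < ε ∧ InjOn f (Metric.ball x ε)

/-- Sum of `h` over the preimages of `y` with multiplicities (total multiplicity `m`). -/
noncomputable def FS (f : E3 → E3) (x0 : E3) (r0 : ℝ) (m : ℕ) (h : E3 → ℝ) (y : E3) : ℝ :=
  (m / (fib f x0 r0 y).ncard) * ∑ᶠ x ∈ fib f x0 r0 y, h x

/-- The weight of a sheet. -/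
noncomputable def wq (f : E3 → E3) (x0 : E3) (r0 : ℝ) (m : ℕ) (F : E3 → ℝ) (x : E3) : ℝ :=
  F (x - x0) / FS f x0 r0 m (fun x => F (x - x0)) (f x)

/-- `√(m/2)`. -/
noncomputable def mu2 (m : ℕ) : ℝ := Real.sqrt (m / 2)

/-- The majorant of the cost. -/
noncomputable def Chm (m : ℕ) (q : ℝ) : ℝ :=
  321 / 1000 / mu2 m ^ 3 + 481 / 1000 / mu2 m * q + 458 / 1000 * q ^ (3 / 2 : ℝ)

end Pool.GQ
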