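import Pool.Agent.Work.MP_680515_sq.Lib
import Pool.Agent.Work.MP_680515_gq.Defs

/-!
# MP_680515_an, THEOREM GQ: the maps `φ ∘ w ∘ ψ` are open, discrete and not locally injective
-/

open MeasureTheory Set Filter Topology

namespace Pool.GQ

open Pool.Mart Pool.Flat Pool.SQ

theorem wind_fib (φ ψ : OpenPartialHomeomorph E3 E3) (h1 : ∀ x ∈ ψ.source, wind (ψ x) ∈ φ.source)
    (x y : E3) (hx : x ∈ ψ.source) (hy : y ∈ ψ.source)
    (h : φ (wind (ψ y)) = φ (wind (ψ x))) : y = x ∨ y = ψ.symm (sg (ψ x)) := by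
  obtain ⟨-, -, -, -, w5, -, -, -, -⟩ := l_WOP
  have h2 : wind (ψ y) = wind (ψ x) := φ.injOn (h1 y hy) (h1 x hx) h
  rcases w5 (ψ x) (ψ y) h2.symm with h3 | h3
  · exact Or.inl (ψ.injOn hy hx h3)
  · right
    rw [← h3, ψ.left_inv hy]

theorem wind_disc (φ ψ : OpenPartialHomeomorph E3 E3)
    (h1 : ∀ x ∈ ψ.source, wind (ψ x) ∈ φ.source) (x : E3) (hx : x ∈ ψ.source) :
    ∃ r : ℝ, 0 < r ∧ ∀ y ∈ ψ.source, ‖y - x‖ ≤ r → φ (wind (ψ y)) = φ (wind (ψ x)) → y = x := by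
  by_cases hz : ψ.symm (sg (ψ x)) = x
  · refine ⟨1, one_pos, fun y hy _ h => ?_⟩
    rcases wind_fib φ ψ h1 x y hx hy h with h | h
    · exact h
    · rw [h, hz]
  · have hd : 0 < ‖ψ.symm (sg (ψ x)) - x‖ := norm_pos_iff.2 (sub_ne_zero.2 hz)
    refine ⟨‖ψ.symm (sg (ψ x)) - x‖ / 2, by positivity, fun y hy hyx h => ?_⟩
    rcases wind_fib φ ψ h1 x y hx hy h with h | h
    · exact h
    · rw [h] at hyx
      linarith

theorem wind_branch (φ ψ : OpenPartialHomeomorph E3 E3) (x : E3)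
    (hx : x ∈ bset ψ.source ψ) (r : ℝ) (hr : 0 < r) :
    ¬ InjOn (fun x => φ (wind (ψ x))) (ψ.source ∩ Metric.ball x r) := by
  obtain ⟨-, -, -, w4, -, -, -, w8, -⟩ := l_WOP
  intro hinj
  have hxs : x ∈ ψ.source := hx.1
  have hop : IsOpen (ψ.source ∩ Metric.ball x r) := ψ.open_source.inter Metric.isOpen_ball
  have hop2 : IsOpen (ψ '' (ψ.source ∩ Metric.ball x r)) :=
    ψ.isOpen_image_of_subset_source hop inter_subset_left
  have hmem : ψ x ∈ ψ '' (ψ.source ∩ Metric.ball x r) := ⟨x, ⟨hxs, Metric.mem_ball_self hr⟩, rfl⟩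
  obtain ⟨δ, hδ, hδ'⟩ := Metric.isOpen_iff.1 hop2 _ hmem
  have hrad : rad (ψ x) = 0 := hx.2
  have h0 : ψ x 0 = 0 ∧ ψ x 1 = 0 := by
    have h := hrad
    unfold rad at h
    rw [Real.sqrt_eq_zero (by positivity)] at h
    constructor
    · nlinarith [sq_nonneg (ψ x 0), sq_nonneg (ψ x 1)]
    · nlinarith [sq_nonneg (ψ x 0), sq_nonneg (ψ x 1)]
  set y1 : E3 := ψ x + (δ / 2) • EuclideanSpace.single 0 (1 : ℝ) with hy1
  have hy1n : ‖y1 - ψ x‖ = δ / 2 := by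
    rw [hy1, add_sub_cancel_left, norm_smul, EuclideanSpace.norm_single]
    simp [abs_of_pos hδ]
  have hsg : ‖sg y1 - ψ x‖ = ‖y1 - ψ x‖ := by
    rw [EuclideanSpace.norm_eq, EuclideanSpace.norm_eq, Fin.sum_univ_three, Fin.sum_univ_three]
    congr 1
    simp only [sg, PiLp.sub_apply, Real.norm_eq_abs, sq_abs]
    simp [h0.1, h0.2]
  have hm1 : y1 ∈ Metric.ball (ψ x) δ := by
    rw [Metric.mem_ball, dist_eq_norm, hy1n]
    linarith
  have hm2 : sg y1 ∈ Metric.ball (ψ x) δ := by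
    rw [Metric.mem_ball, dist_eq_norm, hsg, hy1n]
    linarith
  obtain ⟨p1, hp1, hp1e⟩ := hδ' hm1
  obtain ⟨p2, hp2, hp2e⟩ := hδ' hm2
  have he : p1 = p2 := by
    apply hinj hp1 hp2
    simp only [hp1e, hp2e, w4]
  have hee : sg y1 = y1 := hp2e.symm.trans ((congrArg ψ he.symm).trans hp1e)
  have hr1 := (w8 y1).1 hee
  unfold rad at hr1
  rw [Real.sqrt_eq_zero (by positivity)] at hr1
  have hy10 : y1 0 = δ / 2 := by
    rw [hy1]
    simp [h0.1]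
  nlinarith [sq_nonneg (y1 0), sq_nonneg (y1 1)]

end Pool.GQ
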