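import Pool.Agent.Work.MP_680515_sq.All
import Pool.Agent.Work.MP_680515_fl.B_CPG
import Pool.Agent.Work.MP_680515_fl.B_RGG
import Pool.Agent.Work.MP_680515_fl.B_LOH
import Pool.Agent.Work.MP_680515_gq.Wind
import Pool.Agent.Work.MP_680515_gq.B_GU1
import Pool.Agent.Work.MP_680515_gq.B_GDA
import Pool.Agent.Work.MP_680515_gq.B_GDF
import Pool.Agent.Work.MP_680515_gq.B_GDI
import Pool.Agent.Work.MP_680515_gq.B_GNP
import Pool.Agent.Work.MP_680515_gq.B_CPT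
import Pool.Agent.Work.MP_680515_gq.B_FSB
import Pool.Agent.Work.MP_680515_gq.B_GSC
import Pool.Agent.Work.MP_680515_gq.B_GWT
import Pool.Agent.Work.MP_680515_gq.B_GWD
import Pool.Agent.Work.MP_680515_gq.B_GIN
import Pool.Agent.Work.MP_680515_gq.B_GLI
import Pool.Agent.Work.MP_680515_gq.B_GLC
import Pool.Agent.Work.MP_680515_gq.B_GUC
import Pool.Agent.Work.MP_680515_gq.B_UNI
import Pool.Agent.Work.MP_680515_gq.B_GCV
import Pool.Agent.Work.MP_680515_gq.B_SCS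
import Pool.Agent.Work.MP_680515_gq.B_GNS
import Pool.Agent.Work.MP_680515_gq.B_GSL
import Pool.Agent.Work.MP_680515_gq.B_GGE
import Pool.Agent.Work.MP_680515_gq.B_GEU
import Pool.Agent.Work.MP_680515_gq.B_GEL
import Pool.Agent.Work.MP_680515_gq.B_GEV
import Pool.Agent.Work.MP_680515_gq.B_GME
import Pool.Agent.Work.MP_680515_gq.B_GHH
import Pool.Agent.Work.MP_680515_gq.B_GGR
import Pool.Agent.Work.MP_680515_gq.B_GT3
import Pool.Agent.Work.MP_680515_gq.B_GT2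
import Pool.Agent.Work.MP_680515_gq.B_G1B
import Pool.Agent.Work.MP_680515_gq.B_G2B
import Pool.Agent.Work.MP_680515_gq.B_GBD
import Pool.Agent.Work.MP_680515_gq.B_GWP
import Pool.Agent.Work.MP_680515_gq.B_GVI
import Pool.Agent.Work.MP_680515_gq.B_GL2
import Pool.Agent.Work.MP_680515_gq.B_GKY
import Pool.Agent.Work.MP_680515_gq.B_GFN
import Pool.Agent.Work.MP_680515_gq.LocHom
import Pool.Agent.Work.MP_680515_gq.B_RLL
import Pool.Agent.Work.MP_680515_gq.B_REN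
import Pool.Agent.Work.MP_680515_gq.B_RSP
import Pool.Agent.Work.MP_680515_gq.B_RZC
import Pool.Agent.Work.MP_680515_gq.B_RCS
import Pool.Agent.Work.MP_680515_gq.B_RIN
import Pool.Agent.Work.MP_680515_gq.B_RSS
import Pool.Agent.Work.MP_680515_gq.B_RDG
import Pool.Agent.Work.MP_680515_gq.B_ROP
import Pool.Agent.Work.MP_680515_gq.B_RDS
import Pool.Agent.Work.MP_680515_gq.B_RFN

/-!
# MP_680515_an, THEOREM GQ: assembly
-/

namespace Pool.GQ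

open Pool.Mart Pool.Flat Pool.SQ

theorem g_GNP : Stmt_GNP :=
  p_GNP p_GU1 (p_GDA l_INTG l_OSC m_PIOI) (p_GDF m_PIOI)
    (p_GDI (p_GDA l_INTG l_OSC m_PIOI) (p_GDF m_PIOI))

theorem g_CPT : Stmt_CPT := p_CPT

theorem g_FSB : Stmt_FSB := p_FSB

theorem g_GSC : Stmt_GSC := p_GSC g_CPT g_FSB

theorem g_GWT : Stmt_GWT := p_GWT g_GSC g_FSB

theorem g_GWD : Stmt_GWD := p_GWD g_GSC g_CPT g_FSB m_PIOI

theorem g_GIN : Stmt_GIN := p_GIN g_CPT m_PIOI m_BAS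

theorem g_GLI : Stmt_GLI := p_GLI p_LG1 g_GWD g_GSC g_GWT g_CPT l_LPI m_PIOI m_BAS

theorem g_GLC : Stmt_GLC := p_GLC g_CPT

theorem g_GUC : Stmt_GUC := p_GUC g_CPT

theorem g_GSL : Stmt_GSL := p_GSL (p_GNS p_SCS (p_GCV g_GLC g_GUC p_UNI)) g_CPT

theorem g_GEV : Stmt_GEV :=
  p_GEV (p_GGE g_GSL g_CPT l_GL3) p_CTN
    (p_GEU g_GLI p_DEL g_GWT g_VSM g_GIN l_FLD m_BAS g_GSC g_CPT)
    (p_GEL g_FSB g_GSC g_GWT g_CPT l_CV1 l_FLD l_GL3) p_DEL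

theorem l_CPG : Pool.Flat.Stmt_CPG := Pool.Flat.p_CPG l_OSL

theorem l_LOH : Pool.Flat.Stmt_LOH := Pool.Flat.p_LOH (Pool.Flat.p_RGG l_CPG m_RINT)

theorem g_GME : Stmt_GME := p_GME g_CPT l_DAE

theorem g_GGR : Stmt_GGR := p_GGR (p_GHH g_GME g_GLC g_GUC g_CPT l_LOH) g_GME g_CPT l_CPG

theorem g_GBD : Stmt_GBD :=
  p_GBD g_GGR (p_G1B g_GIN m_RINT g_CPT)
    (p_G2B (p_GT2 g_CPT l_LPI m_RADF) g_GWD g_FSB g_GIN m_RINT g_CPT) p_TRZ g_CPT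

theorem g_GL2 : Stmt_GL2 :=
  p_GL2 (p_GWP (p_PWI (p_PWR p_CUB) (p_MAT (p_CON m_BAS) m_BAS) m_BAS) m_BAS)
    (p_GT3 g_CPT l_CHR m_RINT m_RADF) g_GIN g_GEV
    (p_GVI g_GWD g_GWT g_FSB g_VSM g_GIN m_RINT g_GSC) (p_NUM l_I0X) g_GWT g_VSM g_GSC g_CPT

theorem g_GKY : Stmt_GKY := p_GKY g_GL2 g_GIN g_GSC g_CPT

theorem final : Stmt_FinalGQ := p_GFN g_GNP g_GKY g_GBD m_LIN4

/-- The maps of the question. -/
theorem final_wind (φ ψ : OpenPartialHomeomorph E3 E3) (A : E3 → M3) (K : ℝ)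
    (h1 : ∀ x ∈ ψ.source, wind (ψ x) ∈ φ.source) (h2 : (bset ψ.source ψ).Nonempty)
    (h3 : QReg ψ.source (fun x => φ (wind (ψ x))) A) (h4 : InnerDist ψ.source A K) :
    283 / 200 < K := by
  obtain ⟨x, hx⟩ := h2
  exact final ψ.source (fun x => φ (wind (ψ x))) A K ψ.open_source h3
    (fun U hU hUs => (l_FOP φ ψ h1).2.1 U hU hUs) (fun y hy => wind_disc φ ψ h1 y hy)
    ⟨x, hx.1, fun r hr => wind_branch φ ψ x hx r hr⟩ h4

theorem g_RSP : Stmt_RSP := p_RSP p_RLL (p_REN m_PIOW m_PIOI m_BAS) l_OSL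

theorem g_RZC : Stmt_RZC := p_RZC l_OSC

theorem g_RCS : Stmt_RCS := p_RCS l_INTG g_RZC m_PIOI

theorem g_RIN : Stmt_RIN := p_RIN g_RSP g_RCS

theorem g_RSS : Stmt_RSS := p_RSS g_RSP g_RCS g_RIN

theorem g_RDG : Stmt_RDG := p_RDG l_INTG g_RZC g_RIN m_PIOI

theorem g_ROP : Stmt_ROP := p_ROP g_RSS g_RDG

theorem final_loc : Stmt_FinalRQ := p_RFN final g_ROP (p_RDS g_RSS g_RDG m_PIOI) m_LIN4

/-- Nonconstant quasiregular maps of a domain with inner distortion at most `283/200` are local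
homeomorphisms. -/
theorem final_hom (Ω : Set E3) (f : E3 → E3) (A : E3 → M3) (K : ℝ) (hΩ : IsOpen Ω)
    (hconn : IsPreconnected Ω) (hne : ∃ x ∈ Ω, ∃ y ∈ Ω, f x ≠ f y) (hq : QReg Ω f A)
    (hK : InnerDist Ω A K) (hK1 : K ≤ 283 / 200) : IsLocalHomeomorphOn f Ω := by
  obtain ⟨K', hK'1, hK'⟩ := hq.qr
  have hG : RG Ω f A := by
    refine ⟨hΩ, hconn, hq.cont, hq.wg, ?_, hne⟩
    filter_upwards [hK', hK] with x h1 h2
    exact m_LIN4 (A x) K' hK'1 h1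
      (h2.trans (mul_le_mul_of_nonneg_right (by linarith) (sq_nonneg _)))
  exact locHom hΩ hq.cont (g_ROP Ω f A hG) (final_loc Ω f A K hΩ hconn hq hK hK1 hne)

end Pool.GQ
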