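import Pool.Agent.Work.MP_680515_gq.Interface

/-!
# MP_680515_an, THEOREM GQ, block CPT: compactness
-/

open MeasureTheory Set Filter Topology

namespace Pool.GQ

open Pool.Mart Pool.Flat Pool.SQ

theorem p_CPT : Stmt_CPT := by
  intro Ω f A x0 r0 ρ0 m S hN
  have hcl : Metric.closedBall x0 r0 ⊆ Ω := hN.sub
  have hbΩ : Metric.ball x0 r0 ⊆ Ω := Metric.ball_subset_closedBall.trans hcl
  have hcb : ContinuousOn f (Metric.ball x0 r0) := hN.cont.mono hbΩ
  have hcc : ContinuousOn f (Metric.closedBall x0 r0) := hN.cont.mono hcl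
  have hsphere : ∀ z ∈ Metric.closedBall x0 r0, z ∉ Metric.ball x0 r0 → ρ0 < ‖f z - f x0‖ := by
    intro z hz hz'
    apply hN.sph
    rw [Metric.mem_closedBall, dist_eq_norm] at hz
    rw [Metric.mem_ball, dist_eq_norm, not_lt] at hz'
    exact le_antisymm hz hz'
  have hUU : IsOpen (UU0 f x0 r0 ρ0) := by
    have h := hcb.isOpen_inter_preimage Metric.isOpen_ball
      (Metric.isOpen_ball (x := f x0) (ε := ρ0))
    convert h using 1
    ext x
    simp [UU0, Metric.mem_ball, dist_eq_norm]
  have hVD : IsOpen (VD f x0 ρ0) := by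
    have h1 : IsOpen {y : E3 | 0 < ‖y - f x0‖} :=
      isOpen_lt continuous_const (continuous_id.sub continuous_const).norm
    have h2 : IsOpen {y : E3 | ‖y - f x0‖ < ρ0} :=
      isOpen_lt (continuous_id.sub continuous_const).norm continuous_const
    exact h1.inter h2
  have hUD : IsOpen (UD f x0 r0 ρ0) := by
    exact hcb.isOpen_inter_preimage Metric.isOpen_ball hVD
  have hcomp : ∀ C : Set E3, IsCompact C → C ⊆ Metric.ball (f x0) ρ0 →
      IsCompact {x | x ∈ Metric.ball x0 r0 ∧ f x ∈ C} := by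
    intro C hC hCs
    have h1 : IsClosed (Metric.closedBall x0 r0 ∩ f ⁻¹' C) :=
      hcc.preimage_isClosed_of_isClosed Metric.isClosed_closedBall hC.isClosed
    have h2 : IsCompact (Metric.closedBall x0 r0 ∩ f ⁻¹' C) :=
      (isCompact_closedBall x0 r0).of_isClosed_subset h1 inter_subset_left
    convert h2 using 1
    ext x
    constructor
    · rintro ⟨ha, hb⟩
      exact ⟨Metric.ball_subset_closedBall ha, hb⟩
    · rintro ⟨ha, hb⟩
      refine ⟨?_, hb⟩
      by_contra hcon
      have h3 := hsphere x ha hcon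
      have h4 := hCs hb
      rw [Metric.mem_ball, dist_eq_norm] at h4
      linarith
  have hloc : ∀ y ∈ Metric.ball (f x0) ρ0, ∀ W : Set E3, IsOpen W → fib f x0 r0 y ⊆ W →
      ∃ δ : ℝ, 0 < δ ∧ ∀ x ∈ Metric.ball x0 r0, ‖f x - y‖ < δ → x ∈ W := by
    intro y hy W hW hfW
    have hK : IsCompact (Metric.closedBall x0 r0 \ W) := (isCompact_closedBall x0 r0).diff hW
    rcases (Metric.closedBall x0 r0 \ W).eq_empty_or_nonempty with he | hne
    · refine ⟨1, one_pos, fun x hx _ => ?_⟩
      by_contra hcon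
      have : x ∈ Metric.closedBall x0 r0 \ W := ⟨Metric.ball_subset_closedBall hx, hcon⟩
      rw [he] at this
      exact this
    · obtain ⟨p, hp, hpm⟩ := hK.exists_isMinOn hne
        (f := fun x => ‖f x - y‖) ((hcc.mono diff_subset).sub continuousOn_const).norm
      have hpos : 0 < ‖f p - y‖ := by
        rw [norm_pos_iff, sub_ne_zero]
        intro hfp
        by_cases hpb : p ∈ Metric.ball x0 r0
        · exact hp.2 (hfW ⟨hpb, hfp⟩)
        · have h3 := hsphere p hp.1 hpb
          rw [hfp] at h3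
          rw [Metric.mem_ball, dist_eq_norm] at hy
          linarith
      refine ⟨‖f p - y‖, hpos, fun x hx hxy => ?_⟩
      by_contra hcon
      have h4 := hpm (show x ∈ Metric.closedBall x0 r0 \ W from
        ⟨Metric.ball_subset_closedBall hx, hcon⟩)
      have h5 : ‖f p - y‖ ≤ ‖f x - y‖ := h4
      linarith
  refine ⟨hUU, hUD, hVD, hcomp, hloc, ?_, ?_⟩
  · intro y hy
    rcases hN.fbr y hy with ⟨z, -, hz⟩ | ⟨hfin, hcard, -⟩
    · have : z ∈ fib f x0 r0 y := by rw [hz]; exact mem_singleton z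
      exact ⟨z, this.1, this.2⟩
    · have h2 : 0 < (fib f x0 r0 y).ncard := by
        rw [hcard]
        exact lt_of_lt_of_le two_pos hN.two
      obtain ⟨z, hz⟩ := (Set.ncard_pos hfin).1 h2
      exact ⟨z, hz.1, hz.2⟩
  · intro R hR
    have hx0 : f x0 ∈ Metric.ball (f x0) ρ0 := Metric.mem_ball_self hN.ρpos
    obtain ⟨δ, hδ, hδ'⟩ := hloc (f x0) hx0 (Metric.ball x0 R) Metric.isOpen_ball (by
      rintro z ⟨hz1, hz2⟩
      rw [hN.unq z (Metric.ball_subset_closedBall hz1) hz2]
      exact Metric.mem_ball_self hR)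
    refine ⟨δ / 2, by positivity, fun x hx hxs => ?_⟩
    have h := hδ' x hx (by linarith)
    rwa [Metric.mem_ball, dist_eq_norm] at h

end Pool.GQ
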