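import Pool.Agent.Work.MP_680515_gq.Interface
import Pool.Agent.Work.MP_680515_sq.B_T2I

/-!
# MP_680515_an, THEOREM GQ, block GT2: the flux identity (helper48)
-/

set_option autoImplicit false

open MeasureTheory Set Filter Topology

namespace Pool.GQ

open Pool.Mart Pool.Flat Pool.SQ

theorem p_GT2 (_hCPT : Stmt_CPT) (hLPI : Pool.Flat.Stmt_LPI) (hRAD : Pool.Mart.Stmt_RADF) :
    Stmt_GT2 := by
  intro Ω f A x0 r0 ρ0 m S hNP κ hκ
  obtain ⟨-, hmain⟩ := hLPI Ω f A x0 r0 (T2I_X κ) (fun X : E3 => Real.log ‖X‖)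
    (tsupport κ) hNP.op hNP.cont hNP.wg hNP.rpos hNP.sub (T2I_smooth hRAD hκ) (T2I_cs hκ)
    hκ.cs (fun s hs => (hκ.ts hs).1) (T2I_tsup hκ)
    (fun x hx s hs => (hκ.ts hs).2.trans (hNP.sph x hx)) T2I_logC
  have e1 : ∀ x : E3, cpair (A x) (T2I_X κ (f x - f x0))
      (gradv (fun X : E3 => Real.log ‖X‖) (x - x0)) = κ ‖f x - f x0‖ *
      (fx (A x) (x - x0) (f x - f x0) / ‖x - x0‖) := by
    intro x
    by_cases hx : x = x0
    · rw [hx, sub_self, sub_self, norm_zero, T2I_k0 hκ]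
      unfold T2I_X
      rw [norm_zero, T2I_k0 hκ, zero_smul, T2I_cpair0, zero_mul]
    · have hx' : x - x0 ≠ 0 := sub_ne_zero.2 hx
      have hn : ‖x - x0‖ ≠ 0 := norm_ne_zero_iff.2 hx'
      rw [T2I_log _ hx']
      unfold T2I_X fx
      rw [show (‖x - x0‖ ^ 2)⁻¹ • (x - x0) = ‖x - x0‖⁻¹ • (‖x - x0‖⁻¹ • (x - x0)) from by
        rw [smul_smul]; congr 1; rw [sq, mul_inv], T2I_cpair]
      ring
  have e2 : ∀ x : E3, Real.log ‖x - x0‖ * ((A x).det * divv (T2I_X κ) (f x - f x0))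
      = Real.log ‖x - x0‖ *
        ((A x).det * (deriv κ ‖f x - f x0‖ / ‖f x - f x0‖ ^ 2)) := by
    intro x
    rw [T2I_div hRAD hκ]
  simp only [e1, e2] at hmain
  exact hmain

end Pool.GQ
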