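import Pool.Agent.Work.MP_680515_gq.IfaceR

/-! # Block REN (helper58): energy bound -/

open MeasureTheory Set Filter Topology

namespace Pool.GQ

open Pool.Mart Pool.Flat Pool.SQ

theorem REN_cont_gradv {φ : E3 → ℝ} (hφ : ContDiff ℝ 1 φ) : Continuous (gradv φ) := by
  have h1 : Continuous (fderiv ℝ φ) := hφ.continuous_fderiv (by norm_num)
  unfold gradv
  refine (PiLp.continuous_toLp 2 _).comp (continuous_pi fun j => ?_)
  exact h1.clm_apply continuous_const

theorem REN_cont_divv {X : E3 → E3} (hX : ContDiff ℝ 1 X) : Continuous (divv X) := by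
  have h1 : Continuous (fderiv ℝ X) := hX.continuous_fderiv (by norm_num)
  unfold divv
  refine continuous_finsetSum _ fun i _ => ?_
  have h2 : Continuous fun y => fderiv ℝ X y (EuclideanSpace.single i 1) :=
    h1.clm_apply continuous_const
  exact (PiLp.continuous_apply 2 _ i).comp h2

theorem REN_gradv_zero {u : E3 → ℝ} {x : E3} (h : x ∉ tsupport u) : gradv u x = 0 := by
  have h1 : fderiv ℝ u x = 0 := by
    by_contra hne
    exact h (support_fderiv_subset ℝ (Function.mem_support.2 hne))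
  ext j
  simp [gradv, h1]

theorem REN_gradv_cube {u : E3 → ℝ} (hu : ContDiff ℝ 1 u) (x : E3) :
    gradv (fun z => u z ^ 3) x = (3 * u x ^ 2) • gradv u x := by
  have h1 : HasFDerivAt u (fderiv ℝ u x) x := (hu.differentiable one_ne_zero x).hasFDerivAt
  have h2 := h1.pow 3
  ext j
  have h3 : fderiv ℝ (fun z => u z ^ 3) x = _ := h2.fderiv
  simp [gradv, h3]

theorem REN_cpair_zero (A : M3) (b : E3) : cpair A b 0 = 0 := by
  simp [cpair]

/-- the inequality of Young -/
theorem REN_young (s t : ℝ) (hs : 0 ≤ s) (ht : 0 ≤ t) : 3 * s ^ 2 * t ≤ s ^ 3 / 8 + 256 * t ^ 3 := by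
  have h : 0 ≤ (s - 16 * t) ^ 2 * (s + 8 * t) := by positivity
  have h2 : (s - 16 * t) ^ 2 * (s + 8 * t) = s ^ 3 - 24 * (s ^ 2 * t) + 2048 * t ^ 3 := by ring
  rw [h2] at h
  linarith

theorem REN_point (hBAS : Pool.Mart.Stmt_BAS) (M : M3) (h g : E3) (b D : ℝ) (hM : Good M) (hb : 0 ≤ b)
    (hD : ‖h‖ ^ (3 / 2 : ℝ) ≤ D) :
    |cpair M h ((3 * b ^ 2) • g)| ≤ 1 / 2 * (b ^ 3 * (M.det * D)) + 256 * ‖g‖ ^ 3 := by
  obtain ⟨B1, -, B3, -, -, B6, -⟩ := hBAS
  have hon : 0 ≤ opn M := norm_nonneg _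
  obtain ⟨r, hr⟩ : ∃ r, r = Real.sqrt ‖h‖ := ⟨_, rfl⟩
  have hr0 : 0 ≤ r := by rw [hr]; exact Real.sqrt_nonneg _
  have hr2 : r ^ 2 = ‖h‖ := by rw [hr]; exact Real.sq_sqrt (norm_nonneg _)
  have hr3 : r ^ 3 = ‖h‖ ^ (3 / 2 : ℝ) := by
    rw [hr, Real.sqrt_eq_rpow, ← Real.rpow_natCast, ← Real.rpow_mul (norm_nonneg _)]
    norm_num
  have hdet : 0 ≤ M.det := by
    have h1 := hM.2
    have h2 : 0 ≤ opn M ^ 3 := pow_nonneg hon 3
    linarith
  have h1 : |cpair M h ((3 * b ^ 2) • g)| ≤ ‖h‖ * (opn M ^ 2 * (3 * b ^ 2 * ‖g‖)) := by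
    rw [B3]
    refine (abs_real_inner_le_norm _ _).trans ?_
    refine mul_le_mul_of_nonneg_left ?_ (norm_nonneg _)
    refine (B1 _ _).trans ?_
    rw [norm_smul, Real.norm_of_nonneg (by positivity : (0 : ℝ) ≤ 3 * b ^ 2)]
    exact mul_le_mul_of_nonneg_right (B6 M) (by positivity)
  refine h1.trans ?_
  have h2 := REN_young (b * opn M * r) ‖g‖ (by positivity) (norm_nonneg _)
  have h3 : ‖h‖ * (opn M ^ 2 * (3 * b ^ 2 * ‖g‖)) = 3 * (b * opn M * r) ^ 2 * ‖g‖ := by
    rw [← hr2]; ring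
  rw [h3]
  refine h2.trans ?_
  have h4 : (b * opn M * r) ^ 3 ≤ 4 * (b ^ 3 * (M.det * D)) := by
    calc (b * opn M * r) ^ 3 = b ^ 3 * (opn M ^ 3 * r ^ 3) := by ring
      _ ≤ b ^ 3 * (4 * M.det * D) := by
          refine mul_le_mul_of_nonneg_left ?_ (by positivity)
          refine mul_le_mul hM.2 (hr3.trans_le hD) (by positivity) (by positivity)
      _ = 4 * (b ^ 3 * (M.det * D)) := by ring
  linarith

theorem p_REN (hPIOW : Pool.Mart.Stmt_PIOW) (hPIOI : Pool.Mart.Stmt_PIOI) (hBAS : Pool.Mart.Stmt_BAS) :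
    Stmt_REN := by
  intro Ω f A x y0 R hRG hR hsub hnear
  let b : ContDiffBump x := ⟨R / 2, 3 * R / 4, by positivity, by linarith⟩
  have hKc : IsCompact (Metric.closedBall x R) := isCompact_closedBall _ _
  obtain ⟨hI1, hI3, -, hIc⟩ := hPIOI Ω f A hRG.op hRG.cont hRG.wg _ hKc hsub
  have hfK : ContinuousOn f (Metric.closedBall x R) := hRG.cont.mono hsub
  have hbt : tsupport (b : E3 → ℝ) ⊆ Metric.closedBall x R := by
    rw [b.tsupport_eq]
    exact Metric.closedBall_subset_closedBall (show 3 * R / 4 ≤ R by linarith)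
  have hbC : ContDiff ℝ 1 (b : E3 → ℝ) := b.contDiff
  have hgb : Continuous (gradv (b : E3 → ℝ)) := REN_cont_gradv hbC
  have hBK : Metric.closedBall x (R / 2) ⊆ Metric.closedBall x R :=
    Metric.closedBall_subset_closedBall (by linarith)
  have hgoodK : ∀ᵐ z ∂(volume.restrict (Metric.closedBall x R)), Good (A z) :=
    ae_restrict_of_ae_restrict_of_subset hsub hRG.good
  have hgoodB : ∀ᵐ z ∂(volume.restrict (Metric.closedBall x (R / 2))), Good (A z) :=
    ae_restrict_of_ae_restrict_of_subset (hBK.trans hsub) hRG.good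
  have hdet : ∀ M : M3, Good M → 0 ≤ M.det := by
    intro M hM
    have h1 := hM.2
    have h2 : 0 ≤ opn M ^ 3 := pow_nonneg (norm_nonneg _) 3
    linarith
  refine ⟨2048 * ∫ z in Metric.closedBall x R, ‖gradv (b : E3 → ℝ) z‖ ^ 3, ?_⟩
  intro Φ H hL
  have hgΦ : Continuous (gradv Φ) := REN_cont_gradv hL.c1
  have hdH : Continuous (divv H) := REN_cont_divv hL.c1H
  have hd0 : ∀ z ∈ Metric.closedBall x R, 0 ≤ divv H (f z) := fun z hz =>
    le_trans (by positivity) (hL.en (f z) (hnear z hz))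
  -- integrability
  have hgf : ContinuousOn (fun z => ‖gradv Φ (f z)‖ ^ 3) (Metric.closedBall x R) :=
    (hgΦ.comp_continuousOn hfK).norm.pow 3
  have hdf : ContinuousOn (fun z => divv H (f z)) (Metric.closedBall x R) :=
    hdH.comp_continuousOn hfK
  have iL : IntegrableOn (fun z => (opn (A z) * ‖gradv Φ (f z)‖) ^ 3) (Metric.closedBall x R) := by
    have h := hI3.mul_continuousOn hgf hKc
    refine h.congr (Eventually.of_forall fun z => ?_)
    show opn (A z) ^ 3 * ‖gradv Φ (f z)‖ ^ 3 = (opn (A z) * ‖gradv Φ (f z)‖) ^ 3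
    ring
  have iJ : IntegrableOn (fun z => (A z).det * divv H (f z)) (Metric.closedBall x R) :=
    hI1.mul_continuousOn hdf hKc
  have iP : IntegrableOn (fun z => b z ^ 3 * ((A z).det * divv H (f z))) (Metric.closedBall x R) := by
    have h := iJ.mul_continuousOn ((b.continuous.pow 3).continuousOn) hKc
    refine h.congr (Eventually.of_forall fun z => ?_)
    show (A z).det * divv H (f z) * b z ^ 3 = b z ^ 3 * ((A z).det * divv H (f z))
    ring
  have iG : IntegrableOn (fun z => ‖gradv (b : E3 → ℝ) z‖ ^ 3) (Metric.closedBall x R) :=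
    ((hgb.norm.pow 3).continuousOn).integrableOn_compact hKc
  refine ⟨iL.mono_set hBK, ?_⟩
  -- the test function
  obtain ⟨φ, hφ⟩ : ∃ φ : E3 → ℝ, φ = fun z => b z ^ 3 := ⟨_, rfl⟩
  have hφC : ContDiff ℝ 1 φ := by rw [hφ]; exact hbC.pow 3
  have hφs : Function.support φ ⊆ tsupport (b : E3 → ℝ) := by
    intro z hz
    by_contra hcon
    apply hz
    have h1 : b z = 0 := by
      by_contra hne
      exact hcon (subset_tsupport _ hne)
    rw [hφ]
    show b z ^ 3 = 0
    rw [h1]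
    norm_num
  have hφt : tsupport φ ⊆ tsupport (b : E3 → ℝ) := closure_minimal hφs (isClosed_tsupport _)
  have hφc : HasCompactSupport φ :=
    HasCompactSupport.of_support_subset_isCompact b.hasCompactSupport.isCompact hφs
  have hgφ : ∀ z, gradv φ z = (3 * b z ^ 2) • gradv (b : E3 → ℝ) z := by
    intro z
    rw [hφ]
    exact REN_gradv_cube hbC z
  have hW := hPIOW Ω f A hRG.op hRG.cont hRG.wg H φ univ isOpen_univ hL.c1H.contDiffOn hφC hφc
    (hφt.trans (hbt.trans hsub)) (fun z _ => mem_univ _)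
  have w1 : ∫ z in Metric.closedBall x R, cpair (A z) (H (f z)) (gradv φ z) =
      ∫ z, cpair (A z) (H (f z)) (gradv φ z) := by
    refine setIntegral_eq_integral_of_forall_compl_eq_zero fun z hz => ?_
    rw [REN_gradv_zero fun h => hz (hbt (hφt h))]
    exact REN_cpair_zero _ _
  have w2 : ∫ z in Metric.closedBall x R, φ z * ((A z).det * divv H (f z)) =
      ∫ z, φ z * ((A z).det * divv H (f z)) := by
    refine setIntegral_eq_integral_of_forall_compl_eq_zero fun z hz => ?_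
    have h1 : φ z = 0 := by
      by_contra hne
      exact hz (hbt (hφs hne))
    rw [h1, zero_mul]
  obtain ⟨P, hP⟩ : ∃ P : ℝ, P = ∫ z in Metric.closedBall x R, b z ^ 3 * ((A z).det * divv H (f z)) :=
    ⟨_, rfl⟩
  have w3 : ∫ z in Metric.closedBall x R, φ z * ((A z).det * divv H (f z)) = P := by
    rw [hP, hφ]
  have w4 : P = - ∫ z in Metric.closedBall x R, cpair (A z) (H (f z)) (gradv φ z) := by
    rw [w1, hW, ← w2, w3, neg_neg]
  have iC : IntegrableOn (fun z => cpair (A z) (H (f z)) (gradv φ z)) (Metric.closedBall x R) :=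
    hIc (fun z => H (f z)) (gradv φ) (hL.c1H.continuous.comp_continuousOn hfK)
      (REN_cont_gradv hφC).continuousOn
  -- the estimate
  have e1 : P ≤ ∫ z in Metric.closedBall x R,
      (1 / 2 * (b z ^ 3 * ((A z).det * divv H (f z))) + 256 * ‖gradv (b : E3 → ℝ) z‖ ^ 3) := by
    rw [w4, ← integral_neg]
    refine integral_mono_ae iC.neg ((iP.const_mul _).add (iG.const_mul _)) ?_
    filter_upwards [hgoodK, ae_restrict_mem Metric.isClosed_closedBall.measurableSet] with z hz hzK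
    have h1 := REN_point hBAS (A z) (H (f z)) (gradv (b : E3 → ℝ) z) (b z) (divv H (f z)) hz b.nonneg
      (hL.fl (f z) (hnear z hzK))
    rw [← hgφ z] at h1
    exact (neg_le_abs _).trans h1
  have e2 : ∫ z in Metric.closedBall x R,
      (1 / 2 * (b z ^ 3 * ((A z).det * divv H (f z))) + 256 * ‖gradv (b : E3 → ℝ) z‖ ^ 3) =
      1 / 2 * P + 256 * ∫ z in Metric.closedBall x R, ‖gradv (b : E3 → ℝ) z‖ ^ 3 := by
    rw [integral_add (iP.const_mul _) (iG.const_mul _), integral_const_mul, integral_const_mul, hP]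
  rw [e2] at e1
  have e3 : ∫ z in Metric.closedBall x (R / 2), (opn (A z) * ‖gradv Φ (f z)‖) ^ 3 ≤
      ∫ z in Metric.closedBall x (R / 2), 4 * (b z ^ 3 * ((A z).det * divv H (f z))) := by
    refine integral_mono_ae (iL.mono_set hBK) ((iP.mono_set hBK).const_mul 4) ?_
    filter_upwards [hgoodB, ae_restrict_mem Metric.isClosed_closedBall.measurableSet] with z hz hzB
    have h1 : b z = 1 := b.one_of_mem_closedBall hzB
    have h2 := hL.en (f z) (hnear z (hBK hzB))
    show (opn (A z) * ‖gradv Φ (f z)‖) ^ 3 ≤ 4 * (b z ^ 3 * ((A z).det * divv H (f z)))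
    rw [h1, mul_pow, one_pow, one_mul, ← mul_assoc]
    exact mul_le_mul hz.2 h2 (by positivity) (by linarith [hdet _ hz])
  have e4 : ∫ z in Metric.closedBall x (R / 2), b z ^ 3 * ((A z).det * divv H (f z)) ≤ P := by
    rw [hP]
    refine setIntegral_mono_set iP ?_ (LE.le.eventuallyLE hBK)
    filter_upwards [hgoodK, ae_restrict_mem Metric.isClosed_closedBall.measurableSet] with z hz hzK
    have h3 : 0 ≤ b z := b.nonneg
    exact mul_nonneg (pow_nonneg h3 3) (mul_nonneg (hdet _ hz) (hd0 z hzK))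
  rw [integral_const_mul] at e3
  linarith

end Pool.GQ
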