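import Pool.Agent.Work.MP_680515_gq.Interface

/-!
# Block SCS: sections of a covering over a spherical shell

The shell without a closed ray is homeomorphic to a convex set by the stereographic projection, so the
covering has a section over it; two such sections agree on the intersection, which is connected.
-/

open MeasureTheory Set Filter Topology

namespace Pool.GQ

open Pool.Mart Pool.Flat Pool.SQ

/-- The shell without the ray in the direction `v`. -/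
def SCS_U (q0 : E3) (s1 s2 : ℝ) (v : E3) : Set E3 :=
  {y | s1 < ‖y - q0‖ ∧ ‖y - q0‖ < s2 ∧ y - q0 ≠ ‖y - q0‖ • v}

theorem SCS_open (q0 : E3) (s1 s2 : ℝ) (v : E3) : IsOpen (SCS_U q0 s1 s2 v) := by
  have h1 : Continuous fun y : E3 => ‖y - q0‖ := by fun_prop
  have h2 : Continuous fun y : E3 => y - q0 := by fun_prop
  have h3 : Continuous fun y : E3 => ‖y - q0‖ • v := h1.smul continuous_const
  exact (isOpen_lt continuous_const h1).inter ((isOpen_lt h1 continuous_const).inter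
    (isOpen_ne_fun h2 h3))

theorem SCS_chart {E : Type} [TopologicalSpace E] (p : E → E3) (q0 : E3) (s1 s2 : ℝ) (e0 : E)
    (v : E3) (hv : ‖v‖ = 1) (h0 : 0 ≤ s1) (h12 : s1 < s2)
    (hc : IsCoveringMapOn p {y | s1 < ‖y - q0‖ ∧ ‖y - q0‖ < s2})
    (he : p e0 ∈ SCS_U q0 s1 s2 v) :
    ∃ σ : E3 → E, ContinuousOn σ (SCS_U q0 s1 s2 v) ∧ σ (p e0) = e0 ∧
      ∀ y ∈ SCS_U q0 s1 s2 v, p (σ y) = y := by
  classical
  have hpos : ∀ y : SCS_U q0 s1 s2 v, 0 < ‖(y : E3) - q0‖ := fun y => lt_of_le_of_lt h0 y.2.1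
  -- the convex parameter space
  have hC : Convex ℝ {x : (ℝ ∙ v)ᗮ × ℝ | s1 < x.2 ∧ x.2 < s2} :=
    (convex_Ioo s1 s2).linear_preimage (LinearMap.snd ℝ (ℝ ∙ v)ᗮ ℝ)
  have hCn : {x : (ℝ ∙ v)ᗮ × ℝ | s1 < x.2 ∧ x.2 < s2}.Nonempty := by
    refine ⟨(0, (s1 + s2) / 2), ?_, ?_⟩
    · change s1 < (s1 + s2) / 2
      linarith
    · change (s1 + s2) / 2 < s2
      linarith
  have i1 : ContractibleSpace {x : (ℝ ∙ v)ᗮ × ℝ | s1 < x.2 ∧ x.2 < s2} :=
    hC.contractibleSpace hCn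
  have i2 : LocallyPathConnectedSpace {x : (ℝ ∙ v)ᗮ × ℝ | s1 < x.2 ∧ x.2 < s2} :=
    hC.locallyPathConnectedSpace
  -- the parametrisation
  have hsymm : Continuous fun w : (ℝ ∙ v)ᗮ => (stereographic hv).symm w := by
    have h := (stereographic hv).continuousOn_symm
    rw [stereographic_target] at h
    exact continuousOn_univ.1 h
  obtain ⟨f, hf⟩ : ∃ f : C({x : (ℝ ∙ v)ᗮ × ℝ | s1 < x.2 ∧ x.2 < s2}, E3), ∀ x,
      f x = q0 + x.1.2 • (((stereographic hv).symm x.1.1 : Metric.sphere (0 : E3) 1) : E3) := by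
    refine ⟨⟨fun x => q0 + x.1.2 •
      (((stereographic hv).symm x.1.1 : Metric.sphere (0 : E3) 1) : E3), ?_⟩, fun x => rfl⟩
    have k1 : Continuous fun x : {x : (ℝ ∙ v)ᗮ × ℝ | s1 < x.2 ∧ x.2 < s2} => x.1.2 :=
      continuous_snd.comp continuous_subtype_val
    have k2 : Continuous fun x : {x : (ℝ ∙ v)ᗮ × ℝ | s1 < x.2 ∧ x.2 < s2} =>
        (((stereographic hv).symm x.1.1 : Metric.sphere (0 : E3) 1) : E3) :=
      continuous_subtype_val.comp (hsymm.comp (continuous_fst.comp continuous_subtype_val))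
    exact continuous_const.add (k1.smul k2)
  have hfs : ∀ x, f x ∈ {y : E3 | s1 < ‖y - q0‖ ∧ ‖y - q0‖ < s2} := by
    intro x
    have h1 : ‖f x - q0‖ = x.1.2 := by
      rw [hf, add_sub_cancel_left, norm_smul, Real.norm_eq_abs,
        abs_of_pos (lt_of_le_of_lt h0 x.2.1)]
      have h2 : ‖(((stereographic hv).symm x.1.1 : Metric.sphere (0 : E3) 1) : E3)‖ = 1 :=
        norm_eq_of_mem_sphere _
      rw [h2, mul_one]
    change s1 < ‖f x - q0‖ ∧ ‖f x - q0‖ < s2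
    rw [h1]
    exact x.2
  -- the inverse
  have hnorm : ∀ y : SCS_U q0 s1 s2 v,
      ‖(y : E3) - q0‖⁻¹ • ((y : E3) - q0) ∈ Metric.sphere (0 : E3) 1 := by
    intro y
    rw [mem_sphere_zero_iff_norm, norm_smul, norm_inv, norm_norm,
      inv_mul_cancel₀ (hpos y).ne']
  obtain ⟨n, hn⟩ : ∃ n : SCS_U q0 s1 s2 v → Metric.sphere (0 : E3) 1, ∀ y,
      n y = ⟨‖(y : E3) - q0‖⁻¹ • ((y : E3) - q0), hnorm y⟩ := ⟨_, fun y => rfl⟩
  have hcy : Continuous fun y : SCS_U q0 s1 s2 v => (y : E3) - q0 :=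
    continuous_subtype_val.sub continuous_const
  have hnc : Continuous n := by
    have h1 : n = fun y => ⟨‖(y : E3) - q0‖⁻¹ • ((y : E3) - q0), hnorm y⟩ := funext hn
    rw [h1]
    exact Continuous.subtype_mk ((hcy.norm.inv₀ fun y => (hpos y).ne').smul hcy) _
  have hns : ∀ y, n y ∈ (stereographic hv).source := by
    intro y hy
    have h1 : (n y : E3) = v := by
      have h2 : n y = ⟨v, by simp [hv]⟩ := hy
      rw [h2]
    rw [hn] at h1
    have h3 : ‖(y : E3) - q0‖⁻¹ • ((y : E3) - q0) = v := h1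
    refine y.2.2.2 ?_
    have h4 : ‖(y : E3) - q0‖ • (‖(y : E3) - q0‖⁻¹ • ((y : E3) - q0)) = (y : E3) - q0 := by
      rw [smul_smul, mul_inv_cancel₀ (hpos y).ne', one_smul]
    rw [h3] at h4
    exact h4.symm
  obtain ⟨a, ha⟩ : ∃ a : SCS_U q0 s1 s2 v → {x : (ℝ ∙ v)ᗮ × ℝ | s1 < x.2 ∧ x.2 < s2}, ∀ y,
      a y = ⟨(stereographic hv (n y), ‖(y : E3) - q0‖), ⟨y.2.1, y.2.2.1⟩⟩ :=
    ⟨_, fun y => rfl⟩
  have hac : Continuous a := by
    have h1 : a = fun y => ⟨(stereographic hv (n y), ‖(y : E3) - q0‖), ⟨y.2.1, y.2.2.1⟩⟩ :=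
      funext ha
    rw [h1]
    exact Continuous.subtype_mk
      (((stereographic hv).continuousOn.comp_continuous hnc hns).prodMk hcy.norm) _
  have hfa : ∀ y, f (a y) = y := by
    intro y
    rw [hf, ha]
    change q0 + ‖(y : E3) - q0‖ •
      (((stereographic hv).symm (stereographic hv (n y)) : Metric.sphere (0 : E3) 1) : E3) = y
    rw [(stereographic hv).left_inv (hns y), hn]
    change q0 + ‖(y : E3) - q0‖ • (‖(y : E3) - q0‖⁻¹ • ((y : E3) - q0)) = y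
    rw [smul_smul, mul_inv_cancel₀ (hpos y).ne', one_smul, add_sub_cancel]
  obtain ⟨F, ⟨hF0, hFp⟩, -⟩ := hc.existsUnique_continuousMap_lifts f (a₀ := a ⟨p e0, he⟩)
    (e₀ := e0) (hfa ⟨p e0, he⟩).symm hfs
  refine ⟨fun y => if h : y ∈ SCS_U q0 s1 s2 v then F (a ⟨y, h⟩) else e0, ?_, ?_, ?_⟩
  · rw [continuousOn_iff_continuous_domRestrict]
    have h1 : (SCS_U q0 s1 s2 v).domRestrict
        (fun y => if h : y ∈ SCS_U q0 s1 s2 v then F (a ⟨y, h⟩) else e0) = fun y => F (a y) := by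
      funext y
      exact dif_pos y.2
    rw [h1]
    exact F.continuous.comp hac
  · change (if h : p e0 ∈ SCS_U q0 s1 s2 v then F (a ⟨p e0, h⟩) else e0) = e0
    rw [dif_pos he]
    exact hF0
  · intro y hy
    change p (if h : y ∈ SCS_U q0 s1 s2 v then F (a ⟨y, h⟩) else e0) = y
    rw [dif_pos hy]
    have h1 : p (F (a ⟨y, hy⟩)) = f (a ⟨y, hy⟩) := congrFun hFp _
    rw [h1, hfa]

/-- A unit vector which is not parallel to `d`. -/
theorem SCS_dir (d : E3) (hd : d ≠ 0) : ∃ v : E3, ‖v‖ = 1 ∧ ∀ c : ℝ, d ≠ c • v := by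
  by_cases h : ∃ c : ℝ, d = c • EuclideanSpace.single (0 : Fin 3) (1 : ℝ)
  · obtain ⟨c, hc⟩ := h
    refine ⟨EuclideanSpace.single (1 : Fin 3) (1 : ℝ), by simp, fun c' hc' => ?_⟩
    have h1 : c = 0 := by
      have h2 := congrArg (fun x : E3 => x 0) (hc.symm.trans hc')
      simpa using h2
    rw [h1, zero_smul] at hc
    exact hd hc
  · refine ⟨EuclideanSpace.single (0 : Fin 3) (1 : ℝ), by simp, fun c hc => h ⟨c, hc⟩⟩

theorem SCS_neg (x : E3) (h : x = -x) : x = 0 := by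
  have h1 : x + x = x + -x := by rw [← h]
  rw [add_neg_cancel, ← two_smul ℝ x] at h1
  rcases smul_eq_zero.1 h1 with h2 | h2
  · exact absurd h2 two_ne_zero
  · exact h2

/-- The shell without two opposite rays is connected. -/
theorem SCS_conn (q0 : E3) (s1 s2 : ℝ) (v : E3) (hv : ‖v‖ = 1) (h0 : 0 ≤ s1) :
    IsPreconnected (SCS_U q0 s1 s2 v ∩ SCS_U q0 s1 s2 (-v)) := by
  have hcod : 1 < Module.rank ℝ (E3 ⧸ (ℝ ∙ v)) := by
    have h1 : Module.finrank ℝ (ℝ ∙ v) = 1 := finrank_span_singleton (by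
      intro h
      rw [h, norm_zero] at hv
      exact zero_ne_one hv)
    have h2 := Submodule.finrank_quotient_add_finrank (ℝ ∙ v)
    rw [h1, finrank_euclideanSpace_fin] at h2
    rw [← Module.finrank_eq_rank]
    have h3 : Module.finrank ℝ (E3 ⧸ (ℝ ∙ v)) = 2 := by omega
    rw [h3]
    exact_mod_cast one_lt_two
  have h1 : IsPreconnected ((((ℝ ∙ v : Submodule ℝ E3) : Set E3)ᶜ) ×ˢ Ioo s1 s2) :=
    (isConnected_compl_of_one_lt_codim hcod).isPreconnected.prod isPreconnected_Ioo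
  have h2 : ContinuousOn (fun x : E3 × ℝ => q0 + (x.2 * ‖x.1‖⁻¹) • x.1)
      ((((ℝ ∙ v : Submodule ℝ E3) : Set E3)ᶜ) ×ˢ Ioo s1 s2) := by
    have k1 : ContinuousOn (fun x : E3 × ℝ => x.2 * ‖x.1‖⁻¹)
        ((((ℝ ∙ v : Submodule ℝ E3) : Set E3)ᶜ) ×ˢ Ioo s1 s2) := ?_
    · exact continuousOn_const.add (k1.smul continuousOn_fst)
    refine continuousOn_snd.mul (ContinuousOn.inv₀ continuousOn_fst.norm ?_)
    rintro ⟨w, r⟩ ⟨hw, -⟩ hw0
    refine hw ?_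
    have h3 : w = 0 := norm_eq_zero.1 hw0
    rw [h3]
    exact Submodule.zero_mem _
  have h3 := h1.image _ h2
  have h4 : (fun x : E3 × ℝ => q0 + (x.2 * ‖x.1‖⁻¹) • x.1) ''
      ((((ℝ ∙ v : Submodule ℝ E3) : Set E3)ᶜ) ×ˢ Ioo s1 s2) =
      SCS_U q0 s1 s2 v ∩ SCS_U q0 s1 s2 (-v) := by
    ext y
    constructor
    · rintro ⟨⟨w, r⟩, ⟨hw, hr⟩, rfl⟩
      have hw' : w ∉ (ℝ ∙ v : Submodule ℝ E3) := hw
      have hw0 : w ≠ 0 := fun h => hw' (h ▸ Submodule.zero_mem _)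
      have hr0 : 0 < r := lt_of_le_of_lt h0 hr.1
      have hwn : 0 < ‖w‖ := norm_pos_iff.2 hw0
      have e1 : q0 + (r * ‖w‖⁻¹) • w - q0 = (r * ‖w‖⁻¹) • w := add_sub_cancel_left _ _
      have e2 : ‖(r * ‖w‖⁻¹) • w‖ = r := by
        rw [norm_smul, Real.norm_eq_abs, abs_of_pos (mul_pos hr0 (inv_pos.2 hwn)), mul_assoc,
          inv_mul_cancel₀ hwn.ne', mul_one]
      have e3 : ∀ c : ℝ, (r * ‖w‖⁻¹) • w ≠ c • v := by
        intro c hc
        refine hw' ?_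
        have h5 : (r * ‖w‖⁻¹) ≠ 0 := (mul_pos hr0 (inv_pos.2 hwn)).ne'
        have h6 : w = ((r * ‖w‖⁻¹)⁻¹ * c) • v := by
          rw [mul_smul, ← hc, smul_smul, inv_mul_cancel₀ h5, one_smul]
        rw [h6]
        exact Submodule.smul_mem _ _ (Submodule.mem_span_singleton_self v)
      refine ⟨⟨?_, ?_, ?_⟩, ⟨?_, ?_, ?_⟩⟩
      · change s1 < ‖q0 + (r * ‖w‖⁻¹) • w - q0‖
        rw [e1, e2]
        exact hr.1
      · change ‖q0 + (r * ‖w‖⁻¹) • w - q0‖ < s2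
        rw [e1, e2]
        exact hr.2
      · change q0 + (r * ‖w‖⁻¹) • w - q0 ≠ ‖q0 + (r * ‖w‖⁻¹) • w - q0‖ • v
        rw [e1, e2]
        exact e3 r
      · change s1 < ‖q0 + (r * ‖w‖⁻¹) • w - q0‖
        rw [e1, e2]
        exact hr.1
      · change ‖q0 + (r * ‖w‖⁻¹) • w - q0‖ < s2
        rw [e1, e2]
        exact hr.2
      · change q0 + (r * ‖w‖⁻¹) • w - q0 ≠ ‖q0 + (r * ‖w‖⁻¹) • w - q0‖ • (-v)
        rw [e1, e2, smul_neg, ← neg_smul]
        exact e3 (-r)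
    · rintro ⟨⟨hy1, hy2, hy3⟩, -, -, hy4⟩
      have hyp : 0 < ‖y - q0‖ := lt_of_le_of_lt h0 hy1
      refine ⟨(y - q0, ‖y - q0‖), ⟨?_, hy1, hy2⟩, ?_⟩
      · change y - q0 ∉ (ℝ ∙ v : Submodule ℝ E3)
        intro h
        obtain ⟨c, hc⟩ := Submodule.mem_span_singleton.1 h
        have h5 : ‖y - q0‖ = |c| := by
          rw [← hc, norm_smul, hv, mul_one, Real.norm_eq_abs]
        rcases le_or_gt 0 c with h6 | h6
        · refine hy3 ?_
          rw [h5, abs_of_nonneg h6]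
          exact hc.symm
        · refine hy4 ?_
          rw [h5, abs_of_neg h6, smul_neg, neg_smul, neg_neg]
          exact hc.symm
      · change q0 + (‖y - q0‖ * ‖y - q0‖⁻¹) • (y - q0) = y
        rw [mul_inv_cancel₀ hyp.ne', one_smul, add_sub_cancel]
  rw [← h4]
  exact h3

theorem p_SCS : Stmt_SCS := by
  classical
  intro E _ _ p q0 s1 s2 e0 _hp h0 h12 hc he1 he2
  have hd : p e0 - q0 ≠ 0 := by
    intro h
    rw [h, norm_zero] at he1
    linarith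
  obtain ⟨v, hv, hvd⟩ := SCS_dir _ hd
  have hm1 : p e0 ∈ SCS_U q0 s1 s2 v := ⟨he1, he2, hvd _⟩
  have hm2 : p e0 ∈ SCS_U q0 s1 s2 (-v) := by
    refine ⟨he1, he2, ?_⟩
    rw [smul_neg, ← neg_smul]
    exact hvd _
  obtain ⟨σ₁, c1, z1, g1⟩ := SCS_chart p q0 s1 s2 e0 v hv h0 h12 hc hm1
  obtain ⟨σ₂, c2, z2, g2⟩ := SCS_chart p q0 s1 s2 e0 (-v) (by rw [norm_neg, hv]) h0 h12 hc hm2
  -- the two sections agree
  have hag : ∀ y ∈ SCS_U q0 s1 s2 v ∩ SCS_U q0 s1 s2 (-v), σ₁ y = σ₂ y := by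
    have hcov := hc.isCoveringMap_restrictPreimage
    have hpc : PreconnectedSpace (SCS_U q0 s1 s2 v ∩ SCS_U q0 s1 s2 (-v) : Set E3) :=
      Subtype.preconnectedSpace (SCS_conn q0 s1 s2 v hv h0)
    have k1 : ∀ y : (SCS_U q0 s1 s2 v ∩ SCS_U q0 s1 s2 (-v) : Set E3),
        σ₁ y ∈ p ⁻¹' {y | s1 < ‖y - q0‖ ∧ ‖y - q0‖ < s2} := by
      intro y
      change s1 < ‖p (σ₁ y) - q0‖ ∧ ‖p (σ₁ y) - q0‖ < s2
      rw [g1 _ y.2.1]
      exact ⟨y.2.1.1, y.2.1.2.1⟩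
    have k2 : ∀ y : (SCS_U q0 s1 s2 v ∩ SCS_U q0 s1 s2 (-v) : Set E3),
        σ₂ y ∈ p ⁻¹' {y | s1 < ‖y - q0‖ ∧ ‖y - q0‖ < s2} := by
      intro y
      change s1 < ‖p (σ₂ y) - q0‖ ∧ ‖p (σ₂ y) - q0‖ < s2
      rw [g2 _ y.2.2]
      exact ⟨y.2.1.1, y.2.1.2.1⟩
    have l1 : Continuous fun y : (SCS_U q0 s1 s2 v ∩ SCS_U q0 s1 s2 (-v) : Set E3) =>
        (⟨σ₁ y, k1 y⟩ : p ⁻¹' {y | s1 < ‖y - q0‖ ∧ ‖y - q0‖ < s2}) :=
      Continuous.subtype_mk (continuousOn_iff_continuous_domRestrict.1 (c1.mono inter_subset_left)) _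
    have l2 : Continuous fun y : (SCS_U q0 s1 s2 v ∩ SCS_U q0 s1 s2 (-v) : Set E3) =>
        (⟨σ₂ y, k2 y⟩ : p ⁻¹' {y | s1 < ‖y - q0‖ ∧ ‖y - q0‖ < s2}) :=
      Continuous.subtype_mk (continuousOn_iff_continuous_domRestrict.1 (c2.mono inter_subset_right)) _
    have heq := hcov.eq_of_comp_eq l1 l2 (by
      funext y
      refine Subtype.ext ?_
      change p (σ₁ y) = p (σ₂ y)
      rw [g1 _ y.2.1, g2 _ y.2.2]) ⟨p e0, hm1, hm2⟩ (by
      refine Subtype.ext ?_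
      change σ₁ (p e0) = σ₂ (p e0)
      rw [z1, z2])
    intro y hy
    exact congrArg Subtype.val (congrFun heq ⟨y, hy⟩)
  refine ⟨fun y => if y ∈ SCS_U q0 s1 s2 v then σ₁ y else σ₂ y, ?_, ?_, ?_⟩
  · rintro y ⟨hy1, hy2⟩
    refine ContinuousAt.continuousWithinAt ?_
    by_cases hy : y ∈ SCS_U q0 s1 s2 v
    · have hU := (SCS_open q0 s1 s2 v).mem_nhds hy
      refine (c1.continuousAt hU).congr ?_
      filter_upwards [hU] with z hz
      exact (if_pos hz).symm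
    · have hyp : 0 < ‖y - q0‖ := lt_of_le_of_lt h0 hy1
      have h5 : y - q0 = ‖y - q0‖ • v := by
        by_contra h6
        exact hy ⟨hy1, hy2, h6⟩
      have hy' : y ∈ SCS_U q0 s1 s2 (-v) := by
        refine ⟨hy1, hy2, fun h6 => ?_⟩
        rw [smul_neg, ← h5] at h6
        have h7 : y - q0 = 0 := SCS_neg _ h6
        rw [h7, norm_zero] at hyp
        exact lt_irrefl _ hyp
      have hU := (SCS_open q0 s1 s2 (-v)).mem_nhds hy'
      refine (c2.continuousAt hU).congr ?_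
      filter_upwards [hU] with z hz
      by_cases hz1 : z ∈ SCS_U q0 s1 s2 v
      · rw [if_pos hz1]
        exact (hag z ⟨hz1, hz⟩).symm
      · exact (if_neg hz1).symm
  · change (if p e0 ∈ SCS_U q0 s1 s2 v then σ₁ (p e0) else σ₂ (p e0)) = e0
    rw [if_pos hm1, z1]
  · intro y hy1 hy2
    change p (if y ∈ SCS_U q0 s1 s2 v then σ₁ y else σ₂ y) = y
    by_cases hy : y ∈ SCS_U q0 s1 s2 v
    · rw [if_pos hy, g1 _ hy]
    · rw [if_neg hy]
      have hyp : 0 < ‖y - q0‖ := lt_of_le_of_lt h0 hy1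
      have h5 : y - q0 = ‖y - q0‖ • v := by
        by_contra h6
        exact hy ⟨hy1, hy2, h6⟩
      refine g2 _ ⟨hy1, hy2, fun h6 => ?_⟩
      rw [smul_neg, ← h5] at h6
      have h7 : y - q0 = 0 := SCS_neg _ h6
      rw [h7, norm_zero] at hyp
      exact lt_irrefl _ hyp

end Pool.GQ
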