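import Pool.Agent.Work.MP_680515_gq.Defs
import Pool.Agent.Work.MP_680515_fl.Iface4

/-!
# MP_680515_an, THEOREM GQ, part R: Reshetnyak's theorem (quasiregular maps are open and discrete)

With it the hypotheses `open` and `discrete` of `Stmt_FinalGQ` are not needed.  `F.ABC`, `M.ABC` in the
column `uses` mean `Pool.Flat.Stmt_ABC`, `Pool.Mart.Stmt_ABC`.
-/

open MeasureTheory Set Filter Topology

namespace Pool.GQ

open Pool.Mart Pool.Flat Pool.SQ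

/-- THE FINAL THEOREM without topological hypotheses: nonconstant quasiregular maps of domains. -/
def Stmt_FinalRQ : Prop :=
  ∀ (Ω : Set E3) (f : E3 → E3) (A : E3 → M3) (K : ℝ), IsOpen Ω → IsPreconnected Ω → QReg Ω f A →
    InnerDist Ω A K → K ≤ 283 / 200 → (∃ x ∈ Ω, ∃ y ∈ Ω, f x ≠ f y) →
    ∀ x ∈ Ω, ∃ r : ℝ, 0 < r ∧ InjOn f (Ω ∩ Metric.ball x r)

/-- A nonconstant quasiregular map of a domain (distortion bounds as in `Good`). -/
structure RG (Ω : Set E3) (f : E3 → E3) (A : E3 → M3) : Prop where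
  op : IsOpen Ω
  conn : IsPreconnected Ω
  cont : ContinuousOn f Ω
  wg : WeakGrad Ω f A
  good : ∀ᵐ x ∂(volume.restrict Ω), Good (A x)
  ncst : ∃ x ∈ Ω, ∃ y ∈ Ω, f x ≠ f y

/-- A function with a large value at `y0` and a field controlling its energy on `B(y0, 1/20)`. -/
structure LL (y0 : E3) (Φ : E3 → ℝ) (H : E3 → E3) : Prop where
  c1 : ContDiff ℝ 1 Φ
  c1H : ContDiff ℝ 1 H
  en : ∀ y : E3, ‖y - y0‖ ≤ 1 / 20 → ‖gradv Φ y‖ ^ 3 ≤ divv H y
  fl : ∀ y : E3, ‖y - y0‖ ≤ 1 / 20 → ‖H y‖ ^ (3 / 2 : ℝ) ≤ divv H y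

/-- RLL.  The double logarithm.  Proof: `0 < τ ≤ 1/20`, `u(y) = |y - y0|² + τ²`, `s = √u`, `L = log (1/s)`;
`u ≤ 1/50` where `|y - y0| ≤ 1/20` (so `L ≥ log 7 > 1`).  `Φ y = p (u y)`, `H y = q (u y) • (y - y0)` with
`p u = log ((1/2) log (1/u))` (`= log L`), `q u = 2 u^{-3/2}/(log u)²` (`= (1/(2 L²)) s⁻³`) for `0 < u ≤ 1/50`, and
`p`, `q` multiplied by a smooth cut-off (`1` for `u ≤ 1/50`, `0` for `u ≥ 1/10`), so that they are `C^1` on
`(0, ∞)`; `u ≥ τ² > 0` is smooth in `y`.  With `r = |y - y0| ≤ s`: `|∇Φ| = r/(s² L)`,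
`divv H = s⁻³ (3 τ²/(2 L² s²) + (r²/s²)/L³)` (`∇s = (y - y0)/s`; `G = 1/(2L²)`, `G' = 1/(s L³)`), which is
`≥ s⁻³ L⁻³` because `(3/2) L ≥ 1` and `τ² + r² = s²`.  `|∇Φ|³ = (r/s)³ s⁻³ L⁻³ ≤ divv H`.
`|H|^{3/2} = (r/s)^{3/2} 2^{-3/2} s⁻³ L⁻³ ≤ divv H`.  `Φ y0 = log (log (1/τ))`; `Φ y ≤ log (log (1/c))` if
`c ≤ |y - y0| ≤ 1/20` (`s ≥ c`), and `log (log (1/τ)) → ∞` as `τ → 0`: given `M` and `c` choose `τ`. -/
def Stmt_RLL : Prop :=
  ∀ (y0 : E3) (c M : ℝ), 0 < c → ∃ (Φ : E3 → ℝ) (H : E3 → E3), LL y0 Φ H ∧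
    ∀ y : E3, c ≤ ‖y - y0‖ → ‖y - y0‖ ≤ 1 / 20 → M ≤ Φ y0 - Φ y

/-- REN.  Energy bound.  Proof: `φ` smooth, `0 ≤ φ ≤ 1`, `φ = 1` on `closedBall x (R/2)`, compact support in
`ball x R` (`ContDiffBump`); `E = 2048 ∫ |∇φ|³`.  `PIOW` with `H` (`U = univ`) and the test function `φ³`:
`P := ∫ φ³ J divv H (f) = - ∫ cpair (A, H (f), 3 φ² ∇φ) ≤ ∫ 3 φ² |∇φ| |A|² |H (f)|` (`BAS`).
Young: `3 a b ≤ a^{3/2}/8 + 256 b³` for `a = φ² |A|² |H|`, `b = |∇φ|`; `a^{3/2} = φ³ |A|³ |H|^{3/2}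
≤ 4 φ³ J divv H (f)` (`Good`, `fl`; `J ≥ 0`; on the support of `φ` `|f - y0| ≤ 1/20`).  So
`P ≤ P/2 + 256 ∫ |∇φ|³`, and `∫_{closedBall x (R/2)} (|A| |∇Φ (f)|)³ ≤ 4 ∫ φ³ J divv H (f) = 4 P ≤ E`.
Integrability: continuous functions of `x` on the compact ball times `det A`, `opn A ^ 3`, `opn A ^ 2` (`PIOI`). -/
def Stmt_REN : Prop :=
  ∀ (Ω : Set E3) (f : E3 → E3) (A : E3 → M3) (x y0 : E3) (R : ℝ), RG Ω f A → 0 < R →
    Metric.closedBall x R ⊆ Ω → (∀ z ∈ Metric.closedBall x R, ‖f z - y0‖ ≤ 1 / 20) →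
    ∃ E : ℝ, ∀ (Φ : E3 → ℝ) (H : E3 → E3), LL y0 Φ H →
      IntegrableOn (fun z => (opn (A z) * ‖gradv Φ (f z)‖) ^ 3) (Metric.closedBall x (R / 2)) ∧
      ∫ z in Metric.closedBall x (R / 2), (opn (A z) * ‖gradv Φ (f z)‖) ^ 3 ≤ E

/-- RSP.  Spheres which meet the fibre of `y0` and its complement.  Proof: (i) there is `c > 0` such
that for every `ρ ∈ [ρ1, ρ2]` the sphere contains a point with `|f - y0| ≥ c`: otherwise there are
`ρ_n ∈ [ρ1, ρ2]` with `|f - y0| < 1/n` on the sphere of radius `ρ_n`; a subsequence converges to `ρ*`, and for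
`|z - x| = ρ*` the points `x + (ρ_n/ρ*) (z - x)` converge to `z`, so `f z = y0` on the sphere of radius `ρ*`:
contradiction.  (ii) `E` from `REN`, `C` from `OSL`; given `M > 0` let `Φ, H` be as in `RLL` (for `c`, `M`): `OSL` with
this `Φ` and `δ = M`: `M³ log (ρ2/ρ1) ≤ C ∫_{rg x ρ1 ρ2} .. ≤ C E` (monotonicity, the integrand is `≥ 0`).
False for large `M`. -/
def Stmt_RSP : Prop :=
  ∀ (Ω : Set E3) (f : E3 → E3) (A : E3 → M3) (x y0 : E3) (R ρ1 ρ2 : ℝ), RG Ω f A → 0 < R →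
    Metric.closedBall x R ⊆ Ω → (∀ z ∈ Metric.closedBall x R, ‖f z - y0‖ ≤ 1 / 20) →
    0 < ρ1 → ρ1 < ρ2 → ρ2 ≤ R / 2 →
    (∀ ρ ∈ Icc ρ1 ρ2, (∃ z : E3, ‖z - x‖ = ρ ∧ f z = y0) ∧ (∃ z : E3, ‖z - x‖ = ρ ∧ f z ≠ y0)) →
    False

/-- RZC.  Where the Jacobian vanishes the map is constant.  Proof: `Good` and `det = 0` give `A = 0` a.e. on the
ball (`POS_zero` in `fl/B_POS.lean`); `POS_const` there (with the given ball; connect a general point
`w` with `z` by the segment in steps, or use that `f` is locally constant on a connected open set: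
`IsPreconnected.constant_of_mapsTo`, or `OSC` directly). -/
def Stmt_RZC : Prop :=
  ∀ (Ω : Set E3) (f : E3 → E3) (A : E3 → M3) (U : Set E3), RG Ω f A → IsOpen U → U ⊆ Ω →
    IsPreconnected U → (∀ᵐ x ∂(volume.restrict U), (A x).det = 0) →
    ∀ z ∈ U, ∀ w ∈ U, f w = f z

/-- RCS.  A map which is constant on a sphere is constant in the ball.  Proof: `B = ball x r`.  For every
`q ≠ y0` and `0 < ρ < |q - y0|`: `INTG` (with `R = r`; on the sphere `|f - q| = |y0 - q| ≥ ρ`) gives `k(q) ∈ ℤ` with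
`∫_B J g(f) = k(q) ∫ g` for `g` supported in `ball q ρ`; two overlapping balls have the same constant
(a bump in the intersection), so `k` is locally constant on `{q ≠ y0}`, which is connected
(`isConnected_compl_singleton_of_one_lt_rank`), and `k(q) = 0` if `q` is far away (`f '' closedBall` is bounded).
So `∫_B J g(f) = 0` for every continuous `g` with compact support in a small ball off `y0`; with `J ≥ 0`: `J = 0` a.e. on
`W = {z ∈ B : f z ≠ y0}` (cover `W` by countably many sets `{z ∈ B : |f z - q| < ρ/2}`).  Suppose `z0 ∈ W`; let `V` be the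
connected component of `z0` in the open set `W` (open), so `f` is constant `= f z0` on `V` (`RZC`).  `V` is
bounded, not empty and open, so it has a boundary point `p` (`E3` is connected), `p ∈ closedBall x r`, and
`f p = f z0 ≠ y0` by continuity; so `p` is not on the sphere, `p ∈ W`, and a small ball at `p` in `W`
meets `V`, so it is contained in the component `V`, contradiction. -/
def Stmt_RCS : Prop :=
  ∀ (Ω : Set E3) (f : E3 → E3) (A : E3 → M3) (x y0 : E3) (r : ℝ), RG Ω f A → 0 < r →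
    Metric.closedBall x r ⊆ Ω → (∀ z : E3, ‖z - x‖ = r → f z = y0) →
    ∀ z ∈ Metric.closedBall x r, f z = y0

/-- RIN.  Fibres have no interior.  Proof: let `G` be the set of the points of `Ω` which have a
neighbourhood in `Ω` where `f = y0`; suppose it is not empty.  `G` is open, `G ≠ Ω` (`ncst`), `Ω` is
connected, so there is `x2 ∈ Ω`, `x2 ∈ closure G`, `x2 ∉ G`; `f x2 = y0`.  `R > 0` with `closedBall x2 R ⊆ Ω` and
`|f - y0| ≤ 1/20` there; `c2 ∈ G`, `|c2 - x2| < R/4`, `c2 ≠ x2`, `f = y0` on `ball c2 d`, `0 < d < |c2 - x2|`,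
`ρ1 = |c2 - x2| - d/2`, `ρ2 = |c2 - x2| + d/2` (`d` small: `ρ2 ≤ R/2`).  Every sphere of radius
`ρ ∈ [ρ1, ρ2]` about `x2` contains the point `x2 + ρ un (c2 - x2) ∈ ball c2 d`, where `f = y0`, and a point where
`f ≠ y0` (otherwise `RCS`: `f = y0` on `closedBall x2 ρ`, so `x2 ∈ G`).  `RSP`: contradiction. -/
def Stmt_RIN : Prop :=
  ∀ (Ω : Set E3) (f : E3 → E3) (A : E3 → M3), RG Ω f A → ∀ (y0 : E3), ∀ x ∈ Ω, ∀ r : ℝ, 0 < r →
    ∃ z ∈ Ω, ‖z - x‖ < r ∧ f z ≠ y0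

/-- RSS.  Small spheres which do not meet the fibre.  Proof: `y0 = f x`; `R ≤ ε` with `closedBall x R ⊆ Ω` and
`|f - y0| ≤ 1/20` there.  Otherwise every sphere of radius `ρ ∈ [R/4, R/2]` about `x` contains a point with
`f = y0`, and a point with `f ≠ y0` (otherwise `RCS` and `RIN`).  `RSP`. -/
def Stmt_RSS : Prop :=
  ∀ (Ω : Set E3) (f : E3 → E3) (A : E3 → M3), RG Ω f A → ∀ x ∈ Ω, ∀ ε : ℝ, 0 < ε →
    ∃ r : ℝ, 0 < r ∧ r ≤ ε ∧ Metric.closedBall x r ⊆ Ω ∧ ∀ z : E3, ‖z - x‖ = r → f z ≠ f x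

/-- RDG.  Positive degree.  Proof: `2 ρ = min |f - f x|` on the sphere; `INTG` (`R = r`, `q = f x`, `2 ρ`) gives `k ∈ ℤ`,
`k ≥ 0` (`J ≥ 0` a.e., a bump).  If `k = 0`: `J = 0` a.e. on the open set `{z ∈ ball x r : |f z - f x| < ρ/4}` (bump
`g = 1` on `closedBall (f x) (ρ/4)`, `POS_bump` in `fl/B_POS.lean`), so `f = f x` on a small ball at `x` (`RZC`),
a contradiction to `RIN`.  Last part: if `y ∈ ball (f x) ρ` is not in `f '' ball x r`, it has a positive distance to the compact set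
`f '' closedBall x r` (on the sphere `|f - f x| > ρ`); a bump `g` at `y` with small support: `0 = k ∫ g > 0`. -/
def Stmt_RDG : Prop :=
  ∀ (Ω : Set E3) (f : E3 → E3) (A : E3 → M3) (x : E3) (r : ℝ), RG Ω f A → 0 < r →
    Metric.closedBall x r ⊆ Ω → (∀ z : E3, ‖z - x‖ = r → f z ≠ f x) →
    ∃ (k : ℕ) (ρ : ℝ), 1 ≤ k ∧ 0 < ρ ∧ (∀ z : E3, ‖z - x‖ = r → ρ < ‖f z - f x‖) ∧
      (∀ g : E3 → ℝ, Continuous g → HasCompactSupport g → tsupport g ⊆ Metric.ball (f x) ρ →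
        ∫ z in Metric.ball x r, (A z).det * g (f z) = k * ∫ y, g y) ∧
      Metric.ball (f x) ρ ⊆ f '' Metric.ball x r

/-- ROP.  `f` is open.  Proof: `U ⊆ Ω` open, `x ∈ U`; `RSS` with `ε` such that `closedBall x ε ⊆ U`; `RDG` (last
part): `ball (f x) ρ ⊆ f '' ball x r ⊆ f '' U`. -/
def Stmt_ROP : Prop :=
  ∀ (Ω : Set E3) (f : E3 → E3) (A : E3 → M3), RG Ω f A →
    ∀ U : Set E3, IsOpen U → U ⊆ Ω → IsOpen (f '' U)

/-- RDS.  `f` is discrete.  Proof: `r` from `RSS` (`ε = 1`), `k, ρ` from `RDG`, `y0 = f x`.  The set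
`F = {z ∈ ball x r : f z = y0}` has at most `k` points: otherwise let `z_0, .., z_k` be distinct points of it;
radii `r_i` (`RSS` at `z_i`) so small that the closed balls are disjoint and in `ball x r`; `k_i ≥ 1`, `ρ_i` from `RDG`;
a bump `g ≥ 0` at `y0` supported in `ball y0 (min ρ ρ_i)`, `∫ g > 0`:
`k ∫ g = ∫_{ball x r} J g(f) ≥ Σ_i ∫_{ball z_i r_i} J g(f) = Σ_i k_i ∫ g ≥ (k + 1) ∫ g` (`J ≥ 0` a.e., `PIOI`).  So `F` is
finite (`Set.finite_of_forall..` or `Set.Infinite.exists_subset_card_eq`), and a smaller ball at `x`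
contains no other point of `F`. -/
def Stmt_RDS : Prop :=
  ∀ (Ω : Set E3) (f : E3 → E3) (A : E3 → M3), RG Ω f A →
    ∀ x ∈ Ω, ∃ r : ℝ, 0 < r ∧ ∀ y ∈ Ω, ‖y - x‖ ≤ r → f y = f x → y = x

/-- RFN.  Proof: `Good` a.e. by `LIN4` (as in `B_GFN.lean`), so `RG`; `ROP`, `RDS` and `Stmt_FinalGQ`
(contradiction if some `x ∈ Ω` has no such `r`). -/
def Stmt_RFN : Prop := Stmt_FinalRQ

end Pool.GQ
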