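import Pool.Agent.Work.MP_680515_gq.Defs
import Pool.Agent.Work.MP_680515_fl.Iface5

/-!
# MP_680515_an, THEOREM GQ: interface

Notation in the docstrings: `q0 = f x0`, `X = x - x0`, `Y = f x - q0`, `J = det (A x)`,
`N = opn (cofm (A x))`, `T = ∫ κ(s)/s ds`, ball = `Metric.ball x0 r0`; `UU0`, `UD`, `VD`, `fib`, `FS`, `wq` as in
`Defs.lean`.  `F.ABC`, `M.ABC`, `Q.ABC` in the column `uses` mean `Pool.Flat.Stmt_ABC`, `Pool.Mart.Stmt_ABC`,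
`Pool.SQ.Stmt_ABC` (take them as hypotheses, all are proved).  The blocks which are called COPY have
the same proof as the block of the folder `Work/MP_680515_sq` named in the docstring (copy that file
and adapt it).
-/

open MeasureTheory Set Filter Topology

namespace Pool.GQ

open Pool.Mart Pool.Flat Pool.SQ

/-! ## Part 1. Local degree -/

/-- GU1.  The local index is unique.  Proof: `Lok x r ρ k` from the first (with `ε = 1`), `Lok x r' ρ' k'` from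
the second with `ε = r`, so `r' ≤ r`.  On the compact set `closedBall x r \ ball x r'` the continuous
function `|f y - f x|` is positive (`unq`), so `≥ c > 0` (if the set is empty take `c = 1`).  A
nonnegative continuous bump `g` (`ContDiffBump`) supported in the ball of radius `< min c ρ ρ'` around
`f x` with `∫ g > 0`: the integrand vanishes on `ball x r \ ball x r'`, so
`k ∫ g = ∫_{ball x r} = ∫_{ball x r'} = k' ∫ g` (`setIntegral_eq_of_subset_of_forall_diff_eq_zero`). -/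
def Stmt_GU1 : Prop :=
  ∀ (Ω : Set E3) (f : E3 → E3) (A : E3 → M3) (x : E3) (k k' : ℕ), ContinuousOn f Ω →
    LI Ω f A x k → LI Ω f A x k' → k = k'

/-- GDA.  Every point has a local index `≥ 1`.  Proof: `R1 > 0` with `closedBall x R1 ⊆ Ω` and `f y ≠ f x`
for `0 < |y - x| ≤ R1` (`dsc`).  For `0 < r ≤ R1` let `2 ρ_r = min |f y - f x|` on the sphere of radius `r`
(`> 0`, compactness; the sphere is not empty).  `INTG` (`R = r`, `q = f x`, `ρ = 2 ρ_r`) gives `k_r ∈ ℤ`.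
`k_r = k_{R1}`: as in `GU1` (a bump with small support).  `k_r ≥ 0` because `J ≥ 0` a.e. (`Good`:
`0 ≤ opn ^ 3 ≤ 4 det`; a nonnegative bump).  `k_r = 0` is impossible: as in `fl/B_POS.lean` (then `J = 0`
a.e. near `x`, so `opn A = 0`, `A = 0` a.e. near `x`, `f` is constant near `x` by `OSC` with `I = 0`,
a contradiction to `dsc`).  Given `ε`: `r = min R1 ε`, `ρ = min ρ_r ε`
(`deg` for the smaller ball is a special case). -/
def Stmt_GDA : Prop :=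
  ∀ (Ω : Set E3) (f : E3 → E3) (A : E3 → M3), OD Ω f A → ∀ x ∈ Ω, ∃ k : ℕ, 1 ≤ k ∧ LI Ω f A x k

/-- GDF.  The sum of the local indices over a fibre is the degree.  Proof: `F = fib f x r y` is also
`{z ∈ closedBall x r : f z = y}` (on the sphere `|f z - f x| > ρ > |y - f x|`), so compact, and its points are
isolated (`dsc`), so it is finite (`IsCompact.finite`).  For `z ∈ F` choose (`LI`) `Lok z (r_z) (ρ_z) (idx z)` with
`r_z` so small that the closed balls are disjoint and contained in `ball x r`.  On the compact set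
`closedBall x r \ ⋃ ball z r_z` the function `|f - y|` is `≥ c > 0`.  `g ≥ 0` a bump at `y` with support in
`ball y δ`, `δ < c`, `δ ≤ ρ_z`, `δ ≤ ρ - |y - f x|`, `∫ g > 0`:
`k ∫ g = ∫_{ball x r} J g(f) = Σ_z ∫_{ball z r_z} J g(f) = Σ_z idx z ∫ g`.  (`J g(f)` is integrable on
`closedBall x r`: `PIOI`; it vanishes off the union of the balls.) -/
def Stmt_GDF : Prop :=
  ∀ (Ω : Set E3) (f : E3 → E3) (A : E3 → M3), OD Ω f A → ∀ (x : E3) (r ρ : ℝ) (k : ℕ),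
    Lok Ω f A x r ρ k → ∀ y ∈ Metric.ball (f x) ρ, (fib f x r y).Finite ∧
    ∀ idx : E3 → ℕ, (∀ z ∈ fib f x r y, LI Ω f A z (idx z)) → ∑ᶠ z ∈ fib f x r y, idx z = k

/-- GDI.  Index one.  Proof: `Lok x r ρ 1`; `ε ≤ r` with `f (ball x ε) ⊆ ball (f x) ρ` (`cont`).  For
`z ∈ ball x ε` every point of the fibre of `f z` has an index `≥ 1` (`GDA`; choose `idx`), the sum is `1`
(`GDF`), so the fibre is `{z}` and `LI z 1`; so `f` is injective on `ball x ε`. -/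
def Stmt_GDI : Prop :=
  ∀ (Ω : Set E3) (f : E3 → E3) (A : E3 → M3), OD Ω f A → ∀ x : E3, LI Ω f A x 1 →
    ∃ ε : ℝ, 0 < ε ∧ Metric.ball x ε ⊆ Ω ∧ InjOn f (Metric.ball x ε) ∧
      ∀ z ∈ Metric.ball x ε, LI Ω f A z 1

/-- GNP.  The local structure at a branch point of minimal index.  Proof: choose `idx x ≥ 1` with
`LI x (idx x)` for `x ∈ Ω` (`GDA`), unique by `GU1`.  At the point `x` of the hypothesis `idx x ≠ 1` (`GDI`), so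
`idx x ≥ 2`.  Let `m ≥ 2` be the least value `≥ 2` of `idx` on `Ω` (`Nat.find`), `idx x0 = m`, `Lok x0 r0 ρ0 m` from
`LI x0 m` (with `ε = 1`), `S = {x ∈ UU0 | LI x m}`.  `opS`: `x ∈ UU0 \ S`: its index occurs in the sum `m` of `GDF`
for `y = f x`, so it is `≤ m`, not `m`, so it is `1` (minimality); `GDI` gives a ball of points of index
`1 ≠ m`; `UU0` is open (`cont`).  `fbr`: `GDF`: all indices of the fibre are `1` or `≥ m` and their sum is `m`: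
either all are `1` and there are `m` points, none in `S` (`GU1`), or one is `m` and there is no other
point (all indices are `≥ 1`).  `inj`, `idN`: the index is `1`, `GDI`. -/
def Stmt_GNP : Prop :=
  ∀ (Ω : Set E3) (f : E3 → E3) (A : E3 → M3), OD Ω f A →
    (∃ x ∈ Ω, ∀ r : ℝ, 0 < r → ¬ InjOn f (Ω ∩ Metric.ball x r)) →
    ∃ (x0 : E3) (r0 ρ0 : ℝ) (m : ℕ) (S : Set E3), NP Ω f A x0 r0 ρ0 m S

/-! ## Part 2. The map near the point -/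

/-- CPT.  Compactness.  Proof: `{x ∈ closedBall x0 r0 : f x ∈ C}` is closed in a compact set, and it has no
point on the sphere (`sph`), so it is the set of (4).  (5): otherwise points `x_n ∈ ball`,
`f x_n → y`, `x_n ∉ W`, a limit point `x ∈ closedBall`, `f x = y`, `x ∉ W`, not on the sphere: `x ∈ fib y`; or:
`|f x - y|` is `≥ δ > 0` on the compact set `closedBall x0 r0 \ W`.  (6): `fbr` (`m ≥ 2` points or one point).
(7): (5) with `y = f x0`, `W = ball x0 R` (`unq`). -/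
def Stmt_CPT : Prop :=
  ∀ (Ω : Set E3) (f : E3 → E3) (A : E3 → M3) (x0 : E3) (r0 ρ0 : ℝ) (m : ℕ) (S : Set E3),
    NP Ω f A x0 r0 ρ0 m S →
    IsOpen (UU0 f x0 r0 ρ0) ∧ IsOpen (UD f x0 r0 ρ0) ∧ IsOpen (VD f x0 ρ0) ∧
    (∀ C : Set E3, IsCompact C → C ⊆ Metric.ball (f x0) ρ0 →
      IsCompact {x | x ∈ Metric.ball x0 r0 ∧ f x ∈ C}) ∧
    (∀ y ∈ Metric.ball (f x0) ρ0, ∀ W : Set E3, IsOpen W → fib f x0 r0 y ⊆ W →
      ∃ δ : ℝ, 0 < δ ∧ ∀ x ∈ Metric.ball x0 r0, ‖f x - y‖ < δ → x ∈ W) ∧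
    (∀ y ∈ Metric.ball (f x0) ρ0, ∃ x ∈ Metric.ball x0 r0, f x = y) ∧
    (∀ R : ℝ, 0 < R → ∃ s : ℝ, 0 < s ∧ ∀ x ∈ Metric.ball x0 r0, ‖f x - f x0‖ ≤ s → ‖x - x0‖ < R)

/-- FSB.  Elementary properties of the fibre sum.  Proof: `fbr`: the fibre is `{z}`, `z ∈ S`, and
`FS h y = m h z` (`ncard = 1`, `finsum_mem_singleton`), or it has `m` elements and `FS h y = Σ h`
(`m/ncard = 1`; `finsum_mem` over a finite set as a `Finset` sum). -/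
def Stmt_FSB : Prop :=
  ∀ (Ω : Set E3) (f : E3 → E3) (A : E3 → M3) (x0 : E3) (r0 ρ0 : ℝ) (m : ℕ) (S : Set E3),
    NP Ω f A x0 r0 ρ0 m S →
    ∀ y ∈ Metric.ball (f x0) ρ0, (fib f x0 r0 y).Finite ∧ (fib f x0 r0 y).Nonempty ∧
    (∀ z ∈ fib f x0 r0 y, z ∈ S → fib f x0 r0 y = {z}) ∧ FS f x0 r0 m (fun _ => 1) y = m ∧
    ∀ h : E3 → ℝ,
      (∀ z ∈ fib f x0 r0 y, z ∈ S → FS f x0 r0 m h y = m * h z) ∧
      ((fib f x0 r0 y).ncard = m → FS f x0 r0 m h y = ∑ᶠ x ∈ fib f x0 r0 y, h x) ∧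
      ((∀ x ∈ fib f x0 r0 y, 0 ≤ h x) → ∀ x ∈ fib f x0 r0 y, h x ≤ FS f x0 r0 m h y) ∧
      (∀ c : ℝ, (∀ x ∈ fib f x0 r0 y, h x ≤ c) → FS f x0 r0 m h y ≤ m * c) ∧
      (∀ c : ℝ, (∀ x ∈ fib f x0 r0 y, c ≤ h x) → m * c ≤ FS f x0 r0 m h y) ∧
      ((∀ x ∈ fib f x0 r0 y, 0 < h x) → 0 < FS f x0 r0 m h y) ∧
      (∀ h' : E3 → ℝ, (∀ x ∈ fib f x0 r0 y, h x = h' x) →
        FS f x0 r0 m h y = FS f x0 r0 m h' y) ∧
      (∀ c : ℝ, FS f x0 r0 m (fun x => c * h x) y = c * FS f x0 r0 m h y)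

/-- GSC.  The fibre sum is continuous.  Proof: `y0 ∈ VD`, `ε > 0`.  If the fibre of `y0` is `{z}`, `z ∈ S`: a
neighbourhood `W ⊆ UD` of `z` where `|h - h z| < ε/m`; `CPT` (5): for `y` close to `y0` the fibre of `y` is in
`W`; `FSB` (bounds with `c = h z ± ε/m`).  Otherwise the fibre is `{x_1, .., x_m}`, `x_i ∉ S`: disjoint balls `B_i`
at `x_i` in `UD`, `f` injective on `B_i` (`inj`), `|h - h x_i| < ε/m` on `B_i`; `f '' B_i` is open (`opm`) and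
contains `y0`.  For `y` close to `y0` the fibre of `y` is in the union of the `B_i` (`CPT`) and has exactly
one point in each, so it has `m` points and `|FS h y - FS h y0| < ε`. -/
def Stmt_GSC : Prop :=
  ∀ (Ω : Set E3) (f : E3 → E3) (A : E3 → M3) (x0 : E3) (r0 ρ0 : ℝ) (m : ℕ) (S : Set E3),
    NP Ω f A x0 r0 ρ0 m S →
    IsOpen (UD f x0 r0 ρ0) ∧ IsOpen (VD f x0 ρ0) ∧ ContinuousOn f (UD f x0 r0 ρ0) ∧
    ∀ h : E3 → ℝ, ContinuousOn h (UD f x0 r0 ρ0) → ContinuousOn (FS f x0 r0 m h) (VD f x0 ρ0)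

/-- GWT.  The weights.  Proof: `F' x = F (x - x0)` is continuous on `UD` (`x ≠ x0` there) and positive;
`FS F' > 0` on the ball and `F' x ≤ FS F' (f x)` (`FSB`); continuity: `GSC` composed with `f`.
`FS wq y`: on the fibre of `y` `wq x = (FS F' y)⁻¹ F' x`; `FSB` (last two parts). -/
def Stmt_GWT : Prop :=
  ∀ (Ω : Set E3) (f : E3 → E3) (A : E3 → M3) (x0 : E3) (r0 ρ0 : ℝ) (m : ℕ) (S : Set E3),
    NP Ω f A x0 r0 ρ0 m S →
    ∀ F : E3 → ℝ, ContinuousOn F {0}ᶜ → (∀ X, 0 < F X) →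
    ContinuousOn (wq f x0 r0 m F) (UD f x0 r0 ρ0) ∧
    (∀ x ∈ UD f x0 r0 ρ0, 0 ≤ wq f x0 r0 m F x ∧ wq f x0 r0 m F x ≤ 1) ∧
    (∀ y ∈ VD f x0 ρ0, FS f x0 r0 m (wq f x0 r0 m F) y = 1) ∧
    (∀ y ∈ VD f x0 ρ0, 0 < FS f x0 r0 m (fun x => F (x - x0)) y)

/-- GWD.  Weighted degree formula.  Proof.  Integrability: `h` is bounded on the compact set
`{x ∈ ball : f x ∈ tsupport g} ⊆ UD` (`CPT`), `det A` is integrable there (`PIOI`), the integrand vanishes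
elsewhere in the ball; `FS h · g` is continuous with compact support (`GSC`).  Let
`D g = ∫_ball J h g(f) - ∫ FS h g`, linear in `g`.  Claim: for `ε > 0` every `y0 ∈ VD` has a `δ > 0` with
`|D g| ≤ ε ∫ |g|` for all continuous `g` supported in `ball y0 δ`.  Proof of the claim: fibre
`{x_1..x_n}` of `y0`, `k_i` = local index (`idS`, `idN`: `n = 1`, `k_1 = m`, or `n = m`, `k_i = 1`), so
`FS h y0 = Σ k_i h(x_i)` (`FSB`).  `Lok x_i r_i ρ_i k_i` with disjoint closed balls in `UD` where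
`|h - h x_i| ≤ ε/(2m)`; `δ` small: `CPT` (5) with `W = ⋃ ball x_i r_i`, `δ ≤ ρ_i`, and
`|FS h - FS h y0| ≤ ε/2` on `ball y0 δ` (`GSC`).  Then `∫_ball J h g(f) = Σ_i ∫_{ball x_i r_i} J h g(f)` and
`|∫_{ball x_i r_i} J (h - h x_i) g(f)| ≤ ε/(2m) ∫_{ball x_i r_i} J |g|(f) = ε/(2m) k_i ∫ |g|` (`J ≥ 0` a.e.).  For
general `g`: a finite cover of `tsupport g` by such balls and a partition of unity
(`PartitionOfUnity.exists_isSubordinate` or `exists_continuous..`): `g = Σ g_j`, `Σ |g_j| = |g|`, so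
`|D g| ≤ ε ∫ |g|`; `ε → 0`. -/
def Stmt_GWD : Prop :=
  ∀ (Ω : Set E3) (f : E3 → E3) (A : E3 → M3) (x0 : E3) (r0 ρ0 : ℝ) (m : ℕ) (S : Set E3),
    NP Ω f A x0 r0 ρ0 m S →
    ∀ h g : E3 → ℝ, ContinuousOn h (UD f x0 r0 ρ0) → Continuous g →
    HasCompactSupport g → tsupport g ⊆ VD f x0 ρ0 →
    IntegrableOn (fun x => (A x).det * (h x * g (f x))) (Metric.ball x0 r0) ∧
    Integrable (fun y => FS f x0 r0 m h y * g y) ∧
    ∫ x in Metric.ball x0 r0, (A x).det * (h x * g (f x)) = ∫ y, FS f x0 r0 m h y * g y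

/-- GIN.  COPY of `B_INT` (`C = {x ∈ ball : |Y| ∈ tsupport κ}` is compact by `CPT` and contained in `UD`). -/
def Stmt_GIN : Prop :=
  ∀ (Ω : Set E3) (f : E3 → E3) (A : E3 → M3) (x0 : E3) (r0 ρ0 : ℝ) (m : ℕ) (S : Set E3),
    NP Ω f A x0 r0 ρ0 m S →
    ∀ κ : ℝ → ℝ, Continuous κ → HasCompactSupport κ → tsupport κ ⊆ Ioo 0 ρ0 →
    (∀ g : E3 → ℝ, ContinuousOn g (UD f x0 r0 ρ0) →
      IntegrableOn (fun x => κ ‖f x - f x0‖ * g x) (Metric.ball x0 r0) ∧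
      IntegrableOn (fun x => κ ‖f x - f x0‖ * (g x * (A x).det)) (Metric.ball x0 r0) ∧
      IntegrableOn (fun x => κ ‖f x - f x0‖ * (g x * opn (cofm (A x)))) (Metric.ball x0 r0)) ∧
    (∀ H b : E3 → E3, ContinuousOn H (UD f x0 r0 ρ0) → ContinuousOn b (UD f x0 r0 ρ0) →
      IntegrableOn (fun x => κ ‖f x - f x0‖ * cpair (A x) (H x) (b x)) (Metric.ball x0 r0) ∧
      IntegrableOn (fun x => κ ‖f x - f x0‖ * inner ℝ (H x) (act (A x) (b x)))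
        (Metric.ball x0 r0))

/-- GLI.  COPY of `B_LGI` (the logarithmic identity).  `Q y = FS F' (y + q0)`, continuous and positive on
`V = {y | 0 < |y| < ρ0}` by `GSC`, `GWT`; `LG1`, `LPI` with `X_n`, `h = F`, `GWD` with `h = F'`,
`g y = divv X_n (y - q0)`. -/
def Stmt_GLI : Prop :=
  ∀ (Ω : Set E3) (f : E3 → E3) (A : E3 → M3) (x0 : E3) (r0 ρ0 : ℝ) (m : ℕ) (S : Set E3),
    NP Ω f A x0 r0 ρ0 m S →
    ∀ (F : E3 → ℝ) (Z : E3 → E3), ContDiffOn ℝ 1 F {0}ᶜ → (∀ X, 0 < F X) →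
    ContDiff ℝ 1 Z → HasCompactSupport Z → tsupport Z ⊆ {y | 0 < ‖y‖ ∧ ‖y‖ < ρ0} →
    IntegrableOn (fun x => cpair (A x) ((FS f x0 r0 m (fun x => F (x - x0)) (f x))⁻¹ •
      Z (f x - f x0)) (gradv F (x - x0))) (Metric.ball x0 r0) ∧
    ∫ x in Metric.ball x0 r0, cpair (A x) ((FS f x0 r0 m (fun x => F (x - x0)) (f x))⁻¹ •
      Z (f x - f x0)) (gradv F (x - x0))
      = - ∫ y, Real.log (FS f x0 r0 m (fun x => F (x - x0)) (y + f x0)) * divv Z y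

/-! ## Part 3. Topology: the points of `S` at all levels -/

/-- GLC.  The lower sets are connected.  `L = {x ∈ ball : |Y| < s}`.  Open: `cont`.  Preconnected: if
`L = V1 ∪ V2` with disjoint nonempty open sets `V1, V2`, then `f '' V_i` is open (`opm`) and closed in
`ball q0 s`: let `y ∈ ball q0 s` be a limit of points `f z_n`, `z_n ∈ V_1`; a limit point `z ∈ closedBall x0 r0` of
`z_n` has `f z = y`, `|f z - q0| < s ≤ ρ0`, so `z ∈ L` (`sph`), and `z ∉ V2` (`V2` is open and contains no `z_n`), so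
`z ∈ V1`.  The ball is connected, so `f '' V_i = ball q0 s ∋ q0`, i.e. `x0 ∈ V_i` (`unq`) for both `i`. -/
def Stmt_GLC : Prop :=
  ∀ (Ω : Set E3) (f : E3 → E3) (A : E3 → M3) (x0 : E3) (r0 ρ0 : ℝ) (m : ℕ) (S : Set E3),
    NP Ω f A x0 r0 ρ0 m S →
    ∀ s : ℝ, 0 < s → s ≤ ρ0 → IsOpen {x | x ∈ Metric.ball x0 r0 ∧ ‖f x - f x0‖ < s} ∧
      IsPreconnected {x | x ∈ Metric.ball x0 r0 ∧ ‖f x - f x0‖ < s}

/-- GUC.  The upper sets are connected.  `U = {x | x ∈ ball → s < |Y|}`.  Open: the complement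
`{x ∈ ball : |Y| ≤ s}` is compact (`CPT`).  Preconnected: suppose `U = V1 ∪ V2`, disjoint nonempty open.
`O = {x : r0 ≤ |x - x0|}` is connected (image of sphere × `[1, ∞)`; `isPreconnected_sphere`) and contained
in `U`, so in one of the sets, say `V1`.  Then `V2 ⊆ ball`.  The continuous function `|Y|` has a maximum on
the compact set `closure V2 ⊆ closedBall` at a point `p`.  A point of `closure V2 \ V2` is not in `V1` (open,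
disjoint from `V2`), so not in `U`: there `|Y| ≤ s`; on `V2` `|Y| > s`.  So `p ∈ V2`, and `f '' V2` is open,
so it contains points farther from `q0` than `f p`: contradiction. -/
def Stmt_GUC : Prop :=
  ∀ (Ω : Set E3) (f : E3 → E3) (A : E3 → M3) (x0 : E3) (r0 ρ0 : ℝ) (m : ℕ) (S : Set E3),
    NP Ω f A x0 r0 ρ0 m S →
    ∀ s : ℝ, 0 < s → s < ρ0 → IsOpen {x | x ∈ Metric.ball x0 r0 → s < ‖f x - f x0‖} ∧
      IsPreconnected {x | x ∈ Metric.ball x0 r0 → s < ‖f x - f x0‖}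

/-- UNI.  `ℝ³` is unicoherent (open form).  Proof: suppose `A ∩ B = C ∪ D`, `C`, `D` disjoint, nonempty,
open.  `λ : E3 → [0, 1]` continuous, `λ = 0` on the closed set `Bᶜ ⊆ A`, `λ = 1` on the closed set `Aᶜ ⊆ B`
(they are disjoint; Urysohn `exists_continuous_zero_one_of_isClosed`).  `θ : E3 → Circle`,
`θ = exp(2πiλ)` on `C`, `θ = 1` elsewhere, is continuous: a point of `closure C \ C` is not in `D` (open), so not
in `A ∩ B`, and there `λ ∈ {0, 1}`.  `E3` is simply connected (contractible) and locally path connected, and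
`Circle.exp` is a covering map: `θ = Circle.exp (2π g)` with `g` continuous
(`Circle.isCoveringMap_exp`, `IsCoveringMap.existsUnique_continuousMap_lifts`).  On `A` the
function `λ 1_C` is continuous (on `A` at points of `closure C \ C` `λ = 0`), `g - λ 1_C` has integer values on `A`
and is continuous, so it is a constant `n_A` (`A` is connected).  On `B` `(λ - 1) 1_C` is continuous and
`g - (λ - 1) 1_C` is a constant integer `n_B`.  At a point of `C`: `n_A + λ = n_B + λ - 1`; at a point of `D`: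
`n_A = g = n_B`: contradiction. -/
def Stmt_UNI : Prop :=
  ∀ A B : Set E3, IsOpen A → IsOpen B → IsPreconnected A → IsPreconnected B → A ∪ B = univ →
    IsPreconnected (A ∩ B)

/-- GCV.  The shells are connected.  Proof: `UNI` for `A = {x | x ∈ ball → s1 < |Y|}` (`GUC`) and
`B = {x ∈ ball : |Y| < s2}` (`GLC`). -/
def Stmt_GCV : Prop :=
  ∀ (Ω : Set E3) (f : E3 → E3) (A : E3 → M3) (x0 : E3) (r0 ρ0 : ℝ) (m : ℕ) (S : Set E3),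
    NP Ω f A x0 r0 ρ0 m S →
    ∀ s1 s2 : ℝ, 0 < s1 → s1 < s2 → s2 ≤ ρ0 →
      IsPreconnected {x | x ∈ Metric.ball x0 r0 ∧ s1 < ‖f x - f x0‖ ∧ ‖f x - f x0‖ < s2}

/-- SCS.  Sections over a spherical shell.  Proof: `Sh` = the shell.  Choose a unit vector `e` such that
`p e0 - q0` is not a multiple of `e`.  `U₁ = {y ∈ Sh : un (y - q0) ≠ -e}`, `U₂ = {y ∈ Sh : un (y - q0) ≠ e}` are open
and contractible: the homotopy `(τ, y) ↦ q0 + r' un ((1 - τ) un (y - q0) ± τ e)`, with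
`r' = (1 - τ) |y - q0| + τ (s1 + s2)/2` (`contractibleSpace` from a null homotopy of the identity), so
simply connected, and locally path connected (open subsets).  The inclusion of `U_i` lifts
(`IsCoveringMapOn.existsUnique_continuousMap_lifts`) to `σ_i : U_i → E` with `p (σ_i y) = y` and
`σ_i (p e0) = e0`.  `U₁ ∩ U₂` is connected: it is the image of `(span e)ᶜ × (s1, s2)` under
`(v, r) ↦ q0 + r un v`, and the complement of a line is connected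
(`isConnected_compl_of_one_lt_codim` or `isPathConnected_compl_of_one_lt_codim`).  So `σ₁ = σ₂` on
`U₁ ∩ U₂` (uniqueness of lifts on a preconnected set: `IsCoveringMap.eq_of_comp_eq` or
`IsCoveringMap.eqOn_of_comp_eqOn` for the restriction of `p` to `p ⁻¹' Sh`), and they define `σ`. -/
def Stmt_SCS : Prop :=
  ∀ (E : Type) [TopologicalSpace E] [T2Space E] (p : E → E3) (q0 : E3) (s1 s2 : ℝ) (e0 : E),
    Continuous p → 0 ≤ s1 → s1 < s2 →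
    IsCoveringMapOn p {y | s1 < ‖y - q0‖ ∧ ‖y - q0‖ < s2} →
    s1 < ‖p e0 - q0‖ → ‖p e0 - q0‖ < s2 →
    ∃ σ : E3 → E, ContinuousOn σ {y | s1 < ‖y - q0‖ ∧ ‖y - q0‖ < s2} ∧ σ (p e0) = e0 ∧
      ∀ y : E3, s1 < ‖y - q0‖ → ‖y - q0‖ < s2 → p (σ y) = y

/-- GNS.  `S` meets every shell.  Proof: suppose not.  `E` = the subtype of `closedBall x0 r0` (compact),
`p x = f x`, `Sh = {s1 < |y - q0| < s2}`.  `p ⁻¹' Sh = W = {x ∈ ball : s1 < |Y| < s2}` (`sph`), and no point of `W` is in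
`S`, so every `x ∈ W` has a ball in `W` where `f` is injective (`inj`), continuous and open (`opm`):
`IsLocalHomeomorphOn p W`, and `IsCoveringMapOn.of_isLocalHomeomorphOn` applies.  Let `y0 ∈ Sh`; its fibre
has `m ≥ 2` points (`fbr`), let `x1 ≠ x2` be two of them.  `SCS` with `e0 = x1` gives `σ`.
`T = {x ∈ W : σ (f x) = x}` is closed in `W` (continuity) and open: if `x ∈ T`, `f` is injective on a
neighbourhood `B` of `x`, and `σ (f x') ∈ B` for `x'` near `x`, `f (σ (f x')) = f x'`, so `σ (f x') = x'`.  `W` is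
connected (`GCV`), `x1 ∈ T`, so `x2 ∈ T`: `x2 = σ (f x2) = σ (f x1) = x1`, a contradiction. -/
def Stmt_GNS : Prop :=
  ∀ (Ω : Set E3) (f : E3 → E3) (A : E3 → M3) (x0 : E3) (r0 ρ0 : ℝ) (m : ℕ) (S : Set E3),
    NP Ω f A x0 r0 ρ0 m S →
    ∀ s1 s2 : ℝ, 0 < s1 → s1 < s2 → s2 ≤ ρ0 → ∃ z ∈ S, z ∈ Metric.ball x0 r0 ∧
      s1 < ‖f z - f x0‖ ∧ ‖f z - f x0‖ < s2

/-- GSL.  `S` meets every level.  Proof: for `n` large `z_n ∈ S ∩ ball`, `| |f z_n - q0| - s | < 1/n` (`GNS`); the set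
`{x ∈ ball : |Y| ∈ [s/2, (s + ρ0)/2]}` is compact (`CPT`), so a subsequence converges to `z ∈ ball`,
`|f z - q0| = s`; `z ∈ S` because `UU0 \ S` is open (`opS`).  The fibre of `f z` is `{z}` by `fbr`. -/
def Stmt_GSL : Prop :=
  ∀ (Ω : Set E3) (f : E3 → E3) (A : E3 → M3) (x0 : E3) (r0 ρ0 : ℝ) (m : ℕ) (S : Set E3),
    NP Ω f A x0 r0 ρ0 m S →
    ∀ s ∈ Ioo 0 ρ0, ∃ z ∈ S, z ∈ Metric.ball x0 r0 ∧ ‖f z - f x0‖ = s ∧
      fib f x0 r0 (f z) = {z}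

/-! ## Part 4. One level -/

/-- GGE.  Compare `B_GEO`.  Proof: `z` from `GSL`, `z ≠ x0`, `e = un (z - x0)`.  Ray `x0 - t e`, `t ∈ [0, r0]`:
`|Y|` goes from `0` to more than `ρ0` (`sph`), so there is `ξ = x0 - t e`, `0 < t < r0`, with `|f ξ - q0| = s`
(intermediate value theorem).  `a = un (f z - q0)`, `b = un (f ξ - q0)`; `a ≠ b`: otherwise `f ξ = f z`,
`ξ ∈ fib (f z) = {z}`, but `un (ξ - x0) = -e`.  Given `ε`: `W1 = {x | (1 - ε) |x - x0| < ⟨x - x0, e⟩}` is an open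
neighbourhood of `z` (`(1 - ε) |z - x0| < |z - x0|`), `CPT` (5): `s2 > 0` with `x ∈ W1` whenever `x ∈ ball`,
`|f x - f z| < s2`.  `W2 = {x ∈ ball : x ≠ x0, ⟨x - x0, e⟩ < - (1 - ε) |x - x0|}` is an open neighbourhood of `ξ`, its
image is open: it contains `ball (f ξ) s3`.  `GL3` with `c' = min s2 s3/(2 s)`, `T = s` (`f z = q0 + s a`,
`f ξ = q0 + s b`); make `β` smaller if necessary (`s e^β < ρ0`). -/
def Stmt_GGE : Prop :=
  ∀ (Ω : Set E3) (f : E3 → E3) (A : E3 → M3) (x0 : E3) (r0 ρ0 : ℝ) (m : ℕ) (S : Set E3),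
    NP Ω f A x0 r0 ρ0 m S →
    ∀ s ∈ Ioo 0 ρ0, ∃ e a b : E3, ‖e‖ = 1 ∧ ‖a‖ = 1 ∧ ‖b‖ = 1 ∧ a ≠ b ∧
      ∀ ε : ℝ, 0 < ε → ∃ β η : ℝ, 0 < β ∧ s * Real.exp β < ρ0 ∧ 0 < η ∧ η ≤ 1 / 2 ∧
        (∀ x ∈ Metric.ball x0 r0, ‖f x - f x0‖ ∈ Icc (s * Real.exp (-β)) (s * Real.exp β) →
          UU a b (f x - f x0) ≤ -1 + η → (1 - ε) * ‖x - x0‖ ≤ inner ℝ (x - x0) e) ∧
        (∀ y : E3, ‖y‖ ∈ Icc (s * Real.exp (-β)) (s * Real.exp β) → 1 - η ≤ UU a b y →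
          ∃ x ∈ Metric.ball x0 r0, x ≠ x0 ∧ f x = f x0 + y ∧
            inner ℝ (x - x0) e ≤ -((1 - ε) * ‖x - x0‖))

/-- GEU.  COPY of `B_LEU` (`GLI`, `DEL`, `GWT`, `VSM`, `GIN`, `FLD`). -/
def Stmt_GEU : Prop :=
  ∀ (Ω : Set E3) (f : E3 → E3) (A : E3 → M3) (x0 : E3) (r0 ρ0 : ℝ) (m : ℕ) (S : Set E3),
    NP Ω f A x0 r0 ρ0 m S →
    ∀ (e a b : E3) (c k : ℝ) (κ χ : ℝ → ℝ), ‖e‖ = 1 → ‖a‖ = 1 → ‖b‖ = 1 →
    a ≠ b → 0 < c → c < 1 → 0 < k → Kap 0 ρ0 κ → Cut χ →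
    IntegrableOn (fun x => κ ‖f x - f x0‖ *
      (wq f x0 r0 m (fun X => Real.exp (k * dlt c e X)) x * vs a b χ (f x - f x0)
        * opn (cofm (A x)) / (‖f x - f x0‖ ^ 2 * ‖x - x0‖))) (Metric.ball x0 r0) ∧
    - ∫ y, Real.log (FS f x0 r0 m (fun x => Real.exp (k * dlt c e (x - x0))) (y + f x0))
        * divv (fld a b κ χ) y
      ≤ k / (2 * Real.pi) * ∫ x in Metric.ball x0 r0, κ ‖f x - f x0‖ *
        (wq f x0 r0 m (fun X => Real.exp (k * dlt c e X)) x * vs a b χ (f x - f x0)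
          * opn (cofm (A x)) / (‖f x - f x0‖ ^ 2 * ‖x - x0‖))

/-- GEL.  COPY of `B_LEL` with `Real.log m` instead of `Real.log 2`.  Where `g₊(y) ≠ 0` some point `x` of the
fibre of `y + q0` has `dlt c e X ≥ π - ε1`, so `Q ≥ F' x ≥ exp (k (π - ε1))` (`FSB` (3)); where `g₋(y) ≠ 0` all
points of the fibre have `dlt ≤ ε1`, so `Q ≤ m exp (k ε1)` (`FSB` (4)) and `log Q ≤ log m + k ε1`. -/
def Stmt_GEL : Prop :=
  ∀ (Ω : Set E3) (f : E3 → E3) (A : E3 → M3) (x0 : E3) (r0 ρ0 : ℝ) (m : ℕ) (S : Set E3),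
    NP Ω f A x0 r0 ρ0 m S →
    ∀ (e a b : E3) (c k ε ε1 s β η : ℝ) (κ χ : ℝ → ℝ), ‖e‖ = 1 → ‖a‖ = 1 →
    ‖b‖ = 1 → a ≠ b → 0 < c → c < 1 → 0 < k → 0 < ε → ε < 1 → Real.arccos (c * (1 - ε)) ≤ ε1 →
    0 < s → 0 < β → s * Real.exp β ≤ ρ0 → 0 < η → η ≤ 1 / 2 →
    (∀ x ∈ Metric.ball x0 r0, ‖f x - f x0‖ ∈ Icc (s * Real.exp (-β)) (s * Real.exp β) →
      UU a b (f x - f x0) ≤ -1 + η → (1 - ε) * ‖x - x0‖ ≤ inner ℝ (x - x0) e) →
    (∀ y : E3, ‖y‖ ∈ Icc (s * Real.exp (-β)) (s * Real.exp β) → 1 - η ≤ UU a b y →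
      ∃ x ∈ Metric.ball x0 r0, x ≠ x0 ∧ f x = f x0 + y ∧
        inner ℝ (x - x0) e ≤ -((1 - ε) * ‖x - x0‖)) →
    Cut χ → (∀ u, |u| < 1 - η → deriv χ u = 0) → (∀ u, u ≤ 0 → 0 ≤ deriv χ u) →
    (∀ u, 0 ≤ u → deriv χ u ≤ 0) → ∫ u in (0 : ℝ)..1, deriv χ u = -1 →
    ∫ u in (-1 : ℝ)..0, deriv χ u = 1 → Kap (s * Real.exp (-β)) (s * Real.exp β) κ →
    (k * (Real.pi - 2 * ε1) - Real.log m) * ∫ t, κ t / t
      ≤ - ∫ y, Real.log (FS f x0 r0 m (fun x => Real.exp (k * dlt c e (x - x0))) (y + f x0))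
        * divv (fld a b κ χ) y

/-- GEV.  COPY of `B_LEV` (`GGE`, `CTN`, `GEU`, `GEL`, `DEL`): `k` with `log m/k ≤ ε/4`. -/
def Stmt_GEV : Prop :=
  ∀ (Ω : Set E3) (f : E3 → E3) (A : E3 → M3) (x0 : E3) (r0 ρ0 : ℝ) (m : ℕ) (S : Set E3),
    NP Ω f A x0 r0 ρ0 m S →
    ∀ ε : ℝ, 0 < ε → ∀ s ∈ Ioo 0 ρ0,
    ∃ (a b : E3) (F : E3 → ℝ) (χ : ℝ → ℝ) (β : ℝ), ‖a‖ = 1 ∧ ‖b‖ = 1 ∧ a ≠ b ∧
      ContinuousOn F {0}ᶜ ∧ (∀ X, 0 < F X) ∧ Cut χ ∧ 0 < β ∧ s * Real.exp β < ρ0 ∧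
      ∀ κ : ℝ → ℝ, Kap (s * Real.exp (-β)) (s * Real.exp β) κ →
      IntegrableOn (fun x => κ ‖f x - f x0‖ *
        (wq f x0 r0 m F x * vs a b χ (f x - f x0) * opn (cofm (A x))
          / (‖f x - f x0‖ ^ 2 * ‖x - x0‖))) (Metric.ball x0 r0) ∧
      2 * Real.pi * (Real.pi - ε) * ∫ t, κ t / t
        ≤ ∫ x in Metric.ball x0 r0, κ ‖f x - f x0‖ *
          (wq f x0 r0 m F x * vs a b χ (f x - f x0) * opn (cofm (A x))
            / (‖f x - f x0‖ ^ 2 * ‖x - x0‖))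

/-! ## Part 5. Growth -/

/-- GME.  `f` is an energy map on `UU0`.  Proof: `opn ^ 3 ≤ 4 det` a.e. (`Good`), so it is enough:
`∫⁻_{UU0} ofReal (det A) h(f) ≤ m ∫⁻ h`.  `μ1` = image under `f` of the measure `ofReal (det A) dx` on `UU0`,
`μ2` = `m` times the volume on the ball `B = ball q0 ρ0`.  Both are finite on compact subsets of `B` (`PIOI`, `CPT`),
vanish off `B`, and have the same integrals of continuous `g ≥ 0` with compact support in `B` (`deg`;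
`det A ≥ 0` a.e.; `g (f x) = 0` for `x ∈ ball`, `x ∉ UU0`).  For an open `V` with compact closure in
`B` take `g_n ↑ 1_V` continuous with compact support in `V` (`min 1 (n dist(y, Vᶜ) - 1)^+`): `μ1 V = μ2 V` by
monotone convergence; so `μ1 = μ2` (`Measure.ext_of_generateFrom_of_iUnion` or
`MeasureTheory.ext_of_..` for the π-system of these open sets).  Measurability of `f` on `UU0`: `cont`.  (Another way:
`DAE`, countably many pieces where `f` is injective (`inj`; on `S` `f` is injective by `fbr`) and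
`lintegral_image_eq_lintegral_abs_det_fderiv_mul`; every point has at most `m` preimages.) -/
def Stmt_GME : Prop :=
  ∀ (Ω : Set E3) (f : E3 → E3) (A : E3 → M3) (x0 : E3) (r0 ρ0 : ℝ) (m : ℕ) (S : Set E3),
    NP Ω f A x0 r0 ρ0 m S →
    EM (4 * m) (UU0 f x0 r0 ρ0) f A

/-- GHH.  Weak quasisymmetry at `x0`.  Proof: `C` from `LOH` with `M = 1`, `C0 = 4 m` (`GME`); `R > 0` with
`closedBall x0 R ⊆ UU0`, `R < r0` and `|Y| ≤ ρ0/4` on `closedBall x0 R` (`cont`); `R1 = R/100`, `H = 4 e^C`.  Let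
`x, y ∈ ball x0 R1`, `|x - x0| ≤ |y - x0|`, `l = |f y - q0|`, `L = |f x - q0|`; assume `L > 4 l` (else clear); `y ≠ x0`, so
`l > 0` (`unq`).  `E = {z ∈ ball : |f z - q0| < 2 l}` (preconnected, `GLC`) contains `x0` and `y`.
`U = {z | z ∈ ball → L/2 < |f z - q0|}` is open and preconnected (`GUC`), so path connected
(`IsOpen.isConnected_iff_isPathConnected`); it contains `x` and a point `w` with `|w - x0| = 2 r0`.  A path `γ` in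
`U` from `x` to `w`; let `τ` be the first time with `|γ τ - x0| = R` (`|γ t - x0| < R` for `t < τ`); `F = γ '' [0, τ]`,
`F ⊆ closedBall x0 R ⊆ ball x0 r0`, so `|f - q0| > L/2` on `F`; `q1 = x`, `q2 = γ τ`, `|q2 - q1| ≥ R - R1 ≥ 20 |y - x0|`,
`closedBall x (8 |y - x0|) ⊆ ball x0 R ⊆ UU0`.  `LOH` with `e1 = x0`, `e2 = y`, levels `2 l < L/2`:
`log (L/(4 l)) ≤ C`. -/
def Stmt_GHH : Prop :=
  ∀ (Ω : Set E3) (f : E3 → E3) (A : E3 → M3) (x0 : E3) (r0 ρ0 : ℝ) (m : ℕ) (S : Set E3),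
    NP Ω f A x0 r0 ρ0 m S →
    ∃ H R1 : ℝ, 1 ≤ H ∧ 0 < R1 ∧ Metric.closedBall x0 R1 ⊆ UU0 f x0 r0 ρ0 ∧
    ∀ x ∈ Metric.ball x0 R1, ∀ y ∈ Metric.ball x0 R1, ‖x - x0‖ ≤ ‖y - x0‖ →
      ‖f x - f x0‖ ≤ H * ‖f y - f x0‖

/-- GGR.  Growth.  Proof: `H, R1` from `GHH`; `Φ1 : E3 → ℝ` `C^1` with compact support and `Φ1 w = w 0` for
`|w| ≤ 1`, `I = ∫ |∇Φ1|^3`; `C` from `CPG`; `Λ = exp (4 C m I (H² e² /2)^3)` (or `max 1` of it); `t0 < ρ0` with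
`|x - x0| < R1` whenever `x ∈ ball`, `|Y| ≤ t0` (`CPT` (7)).  Suppose `|x - x0| > Λ |y - x0|`; `y ≠ x0` (otherwise
`f y = q0`, so `f x = q0`, `x = x0`), `d = |f y - q0| > 0`.  `ρ1 = |y - x0| < ρ2 = |x - x0| < R1`.  Let
`ρ ∈ (ρ1, ρ2)`.  On the sphere `|w - x0| = ρ`: `d/H ≤ |f w - q0|` (`GHH` for `y, w`) and
`|f w - q0| ≤ H |f x - q0| ≤ H e² d =: M` (`GHH` for `w, x`).  `V = f '' ball x0 ρ` is open, bounded, contains `q0`;
let `e = single 0 1`; the ray `q0 + t e`, `t ≥ 0`, meets the frontier of `V` (at `t* = sup` of the `t` with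
`[0, t] ⊆` the set of times in `V`), `closure V ⊆ f '' closedBall x0 ρ`, so `q0 + t* e = f w` with
`|w - x0| = ρ`, `t* = |f w - q0| ≥ d/H`; in the same way `q0 - t' e = f w'`, `t' ≥ d/H`.  `Φ z = M Φ1 ((z - q0)/M)`:
`Φ (f w) - Φ (f w') = t* + t' ≥ 2 d/H =: δ`, `∫ |∇Φ|^3 = M^3 I`.  `CPG` on `UU0` (`GME`):
`δ^3 log (ρ2/ρ1) ≤ 4 C m M^3 I`, so `ρ2/ρ1 ≤ Λ`. -/
def Stmt_GGR : Prop :=
  ∀ (Ω : Set E3) (f : E3 → E3) (A : E3 → M3) (x0 : E3) (r0 ρ0 : ℝ) (m : ℕ) (S : Set E3),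
    NP Ω f A x0 r0 ρ0 m S →
    ∃ Λ t0 : ℝ, 1 ≤ Λ ∧ 0 < t0 ∧ t0 < ρ0 ∧
    ∀ x ∈ Metric.ball x0 r0, ∀ y ∈ Metric.ball x0 r0, ‖f x - f x0‖ ≤ t0 →
      ‖f y - f x0‖ ≤ t0 → Real.exp (-2) * ‖f x - f x0‖ ≤ ‖f y - f x0‖ →
      ‖x - x0‖ ≤ Λ * ‖y - x0‖

/-! ## Part 6. Integral identities and bounds -/

/-- GT3.  COPY of `B_T3`. -/
def Stmt_GT3 : Prop :=
  ∀ (Ω : Set E3) (f : E3 → E3) (A : E3 → M3) (x0 : E3) (r0 ρ0 : ℝ) (m : ℕ) (S : Set E3),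
    NP Ω f A x0 r0 ρ0 m S →
    ∀ κ : ℝ → ℝ, Kap 0 ρ0 κ →
    ∫ x in Metric.ball x0 r0, κ ‖f x - f x0‖ *
      (inner ℝ (f x - f x0) (act (A x) (x - x0))
        / (‖x - x0‖ ^ 3 * ‖f x - f x0‖ ^ 2)) = 4 * Real.pi * ∫ t, κ t / t

/-- GT2.  COPY of `B_T2I`. -/
def Stmt_GT2 : Prop :=
  ∀ (Ω : Set E3) (f : E3 → E3) (A : E3 → M3) (x0 : E3) (r0 ρ0 : ℝ) (m : ℕ) (S : Set E3),
    NP Ω f A x0 r0 ρ0 m S →
    ∀ κ : ℝ → ℝ, Kap 0 ρ0 κ →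
    ∫ x in Metric.ball x0 r0, κ ‖f x - f x0‖ *
      (fx (A x) (x - x0) (f x - f x0) / ‖x - x0‖)
      = - ∫ x in Metric.ball x0 r0, Real.log ‖x - x0‖ *
        ((A x).det * (deriv κ ‖f x - f x0‖ / ‖f x - f x0‖ ^ 2))

/-- G1B.  COPY of `B_T1B`. -/
def Stmt_G1B : Prop :=
  ∀ (Ω : Set E3) (f : E3 → E3) (A : E3 → M3) (x0 : E3) (r0 ρ0 : ℝ) (m : ℕ) (S : Set E3),
    NP Ω f A x0 r0 ρ0 m S →
    ∀ (κ : ℝ → ℝ) (t1 t2 Λ : ℝ) (p1 p2 : E3), Continuous κ →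
    (∀ s, 0 ≤ κ s ∧ κ s ≤ 1) → 0 < t1 → t1 < t2 → t2 < ρ0 → tsupport κ ⊆ Icc t1 t2 → 1 ≤ Λ →
    p1 ≠ x0 → p2 ≠ x0 → (∀ x ∈ Metric.ball x0 r0, t1 ≤ ‖f x - f x0‖ →
      ‖f x - f x0‖ ≤ t2 → ‖p1 - x0‖ ≤ Λ * ‖x - x0‖ ∧ ‖x - x0‖ ≤ Λ * ‖p2 - x0‖) →
    ∫ x in Metric.ball x0 r0, κ ‖f x - f x0‖ * (‖x - x0‖ ^ 3)⁻¹
      ≤ 4 * Real.pi * (Real.log (‖p2 - x0‖ / ‖p1 - x0‖) + 2 * Real.log Λ)

/-- G2B.  COPY of `B_T2B`: `GWD` with `h = 1` (`FS 1 = m`, `FSB`; `FS` outside the ball is irrelevant, `g = 0`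
there) gives `4 π m` instead of `8 π`. -/
def Stmt_G2B : Prop :=
  ∀ (Ω : Set E3) (f : E3 → E3) (A : E3 → M3) (x0 : E3) (r0 ρ0 : ℝ) (m : ℕ) (S : Set E3),
    NP Ω f A x0 r0 ρ0 m S →
    ∀ (κ : ℝ → ℝ) (s1 Λ : ℝ) (p1 p2 : E3), Kap 0 ρ0 κ → κ s1 = 1 →
    0 < s1 → s1 < ρ0 → (∀ s, s ≤ s1 → 0 ≤ deriv κ s) → (∀ s, s1 ≤ s → deriv κ s ≤ 0) → 1 ≤ Λ →
    p1 ≠ x0 → p2 ≠ x0 →
    (∀ x ∈ Metric.ball x0 r0, ‖f x - f x0‖ ≤ s1 → deriv κ ‖f x - f x0‖ ≠ 0 →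
      ‖x - x0‖ ≤ Λ * ‖p1 - x0‖) →
    (∀ x ∈ Metric.ball x0 r0, s1 ≤ ‖f x - f x0‖ → deriv κ ‖f x - f x0‖ ≠ 0 →
      ‖p2 - x0‖ ≤ Λ * ‖x - x0‖) →
    4 * Real.pi * m * (Real.log (‖p2 - x0‖ / ‖p1 - x0‖) - 2 * Real.log Λ)
      ≤ ∫ x in Metric.ball x0 r0, κ ‖f x - f x0‖ *
        (fx (A x) (x - x0) (f x - f x0) / ‖x - x0‖)

/-- GBD.  COPY of `B_BND`: `4π (L + 2 log Λ) - (1/m) 4π m (L - 2 log Λ) = 16 π log Λ`. -/
def Stmt_GBD : Prop :=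
  ∀ (Ω : Set E3) (f : E3 → E3) (A : E3 → M3) (x0 : E3) (r0 ρ0 : ℝ) (m : ℕ) (S : Set E3),
    NP Ω f A x0 r0 ρ0 m S →
    ∃ C t0 : ℝ, 0 < t0 ∧ t0 < ρ0 ∧ ∀ t1 t2 : ℝ, 0 < t1 →
    Real.exp 2 * t1 < t2 → t2 ≤ t0 → ∃ κ : ℝ → ℝ, ContDiff ℝ 1 κ ∧ (∀ s, 0 ≤ κ s) ∧
      HasCompactSupport κ ∧ tsupport κ ⊆ Icc t1 t2 ∧ Real.log (t2 / t1) - 2 ≤ ∫ s, κ s / s ∧
      (∫ x in Metric.ball x0 r0, κ ‖f x - f x0‖ * (‖x - x0‖ ^ 3)⁻¹)
        - 1 / m * ∫ x in Metric.ball x0 r0, κ ‖f x - f x0‖ *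
          (fx (A x) (x - x0) (f x - f x0) / ‖x - x0‖) ≤ C

/-- GWP.  The pointwise inequality.  Proof: `μ = mu2 m ≥ 1`, `μ² = m/2`; `Q.PWI` for the matrix `μ⁻¹ • A` and
`μ² q`.  `det (μ⁻¹ A) = μ⁻³ det A`, `cofm (μ⁻¹ A) = μ⁻² cofm A`, `opn (μ⁻¹ A) = μ⁻¹ opn A`, so `Good` and
the distortion inequality are preserved; `fx (μ⁻¹ A) X Y = μ⁻² fx A X Y`, `1/(2μ²) = 1/m`,
`act (μ⁻¹ A) X = μ⁻¹ act A X`; `(μ² q)^(3/2) = μ³ q^(3/2)`. -/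
def Stmt_GWP : Prop :=
  ∀ (A : M3) (X Y : E3) (q w : ℝ) (m : ℕ), 2 ≤ m → Good A →
    opn (cofm A) ^ 3 ≤ 283 / 200 * A.det ^ 2 → X ≠ 0 → Y ≠ 0 → 0 ≤ q → 0 ≤ w → w ≤ 1 →
    0 ≤ (‖X‖ ^ 3)⁻¹ - 1 / m * (fx A X Y / ‖X‖)
      - 574 / 1000 / mu2 m * (inner ℝ Y (act A X) / (‖X‖ ^ 3 * ‖Y‖ ^ 2))
      - w * q * opn (cofm A) / (‖Y‖ ^ 2 * ‖X‖)
      + A.det * (‖Y‖ ^ 3)⁻¹ * ((1 - w) * (307 / 1000 / mu2 m ^ 3) + w * Chm m q)

/-- GVI.  COPY of `B_LVI` with the new constants: `FS 1 = m`, `FS wq = 1`; `(1 - w) C0 + w Chm (λ v)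
= C0 + w (c0 - C0 + c1 λ v + c2 (λ v)^{3/2})`, `C0 = 307/1000/μ³`, `c0 = 321/1000/μ³`, `c1 = 481/1000/μ`,
`c2 = 458/1000`, `λ = 81/400`: the integral is
`((m - 1) C0 + c0) ∫ κ |y|⁻³ + c1 λ ∫ κ |y|⁻³ v + c2 λ^{3/2} ∫ κ |y|⁻³ v^{3/2}`. -/
def Stmt_GVI : Prop :=
  ∀ (Ω : Set E3) (f : E3 → E3) (A : E3 → M3) (x0 : E3) (r0 ρ0 : ℝ) (m : ℕ) (S : Set E3),
    NP Ω f A x0 r0 ρ0 m S →
    ∀ (a b : E3) (F : E3 → ℝ) (κ χ : ℝ → ℝ), ‖a‖ = 1 → ‖b‖ = 1 → a ≠ b →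
    ContinuousOn F {0}ᶜ → (∀ X, 0 < F X) → Cut χ → Kap 0 ρ0 κ →
    IntegrableOn (fun x => κ ‖f x - f x0‖ *
      ((A x).det * (‖f x - f x0‖ ^ 3)⁻¹ * ((1 - wq f x0 r0 m F x) * (307 / 1000 / mu2 m ^ 3)
        + wq f x0 r0 m F x * Chm m (81 / 400 * vs a b χ (f x - f x0)))))
      (Metric.ball x0 r0) ∧
    ∫ x in Metric.ball x0 r0, κ ‖f x - f x0‖ *
      ((A x).det * (‖f x - f x0‖ ^ 3)⁻¹ * ((1 - wq f x0 r0 m F x) * (307 / 1000 / mu2 m ^ 3)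
        + wq f x0 r0 m F x * Chm m (81 / 400 * vs a b χ (f x - f x0))))
      ≤ (4 * Real.pi * (((m - 1) * (307 / 1000) + 321 / 1000) / mu2 m ^ 3)
        + 2 * Real.pi ^ 2 * (481 / 1000) * (81 / 400) / mu2 m
        + 2 * Real.pi * I0 * (458 / 1000) * (729 / 8000)) * ∫ t, κ t / t

/-- GL2.  COPY of `B_LV2`: integrate `κ(|Y|)` times `GWP` (`q = 81/400 vs(Y)`, `w = wq x`), `GEV` with
`ε = 1/1000`: `I1 - I2/m ≥ 2π T G`,
`G = 1.148/μ + 0.2025 (π - ε) - 2 ((m - 1) 0.307 + 0.321)/μ³ - 0.481 · 0.2025 π/μ - 0.458 · 0.091125 I0`.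
`m = 2 μ²`: `G = - (0.08 + 0.0974025 π)/μ - 0.028/μ³ + 0.2025 (π - ε) - 0.041735 I0`, which is at least
its value for `μ = 1` (`μ ≥ 1`), `≥ 0.0015`; `2π · 0.0015 ≥ 1/200`. -/
def Stmt_GL2 : Prop :=
  ∀ (Ω : Set E3) (f : E3 → E3) (A : E3 → M3) (x0 : E3) (r0 ρ0 : ℝ) (m : ℕ) (S : Set E3),
    NP Ω f A x0 r0 ρ0 m S →
    ∀ s ∈ Ioo 0 ρ0, ∃ β : ℝ, 0 < β ∧
      s * Real.exp β < ρ0 ∧ ∀ κ : ℝ → ℝ, Kap (s * Real.exp (-β)) (s * Real.exp β) κ →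
      1 / 200 * ∫ t, κ t / t
        ≤ (∫ x in Metric.ball x0 r0, κ ‖f x - f x0‖ * (‖x - x0‖ ^ 3)⁻¹)
          - 1 / m * ∫ x in Metric.ball x0 r0, κ ‖f x - f x0‖ *
            (fx (A x) (x - x0) (f x - f x0) / ‖x - x0‖)

/-- GKY.  COPY of `B_KEY`. -/
def Stmt_GKY : Prop :=
  ∀ (Ω : Set E3) (f : E3 → E3) (A : E3 → M3) (x0 : E3) (r0 ρ0 : ℝ) (m : ℕ) (S : Set E3),
    NP Ω f A x0 r0 ρ0 m S →
    ∀ κ : ℝ → ℝ, Kap 0 ρ0 κ →
      1 / 200 * ∫ t, κ t / t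
        ≤ (∫ x in Metric.ball x0 r0, κ ‖f x - f x0‖ * (‖x - x0‖ ^ 3)⁻¹)
          - 1 / m * ∫ x in Metric.ball x0 r0, κ ‖f x - f x0‖ *
            (fx (A x) (x - x0) (f x - f x0) / ‖x - x0‖)

/-- GFN.  The end (compare `B_FNL`).  Proof: suppose `K ≤ 283/200`; then `InnerDist (283/200)` and
`InnerDist 2`, `LIN4` gives `Good` a.e., so `OD`; `GNP`; `GKY` and `GBD` (`C`, `t0`) with `t2 = t0` and
`t1 = e^{-n} t0`, `n ≥ 3`: `(n - 2)/200 ≤ C` for all `n`, impossible. -/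
def Stmt_GFN : Prop := Stmt_FinalGQ

end Pool.GQ
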